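import Mathlib

/-!
# LD-04: consequences of the maximum principle on the closed unit disc

`norm_le`: `Complex.norm_le_of_forall_mem_frontier_norm_le` (frontier of `ball 0 1` is the sphere).
`re_le`: apply `norm_le` to `exp (f z)`. `schwarz`: apply `norm_le` to `h`.
`mean_re`: the mean value property of the real part (`circleAverage_of_differentiable_on` or
`AnalyticOnNhd` / harmonic mean value, then the real part), for a circle of radius `0 ≤ r ≤ 1`.
-/

set_option autoImplicit false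

open Filter Topology Metric Complex

namespace Pool.Agent.Helper58.LD

theorem norm_le_of_circle {f : ℂ → ℂ} (hf : AnalyticOnNhd ℂ f (closedBall 0 1)) {M : ℝ}
    (hM : ∀ z : ℂ, ‖z‖ = 1 → ‖f z‖ ≤ M) {z : ℂ} (hz : ‖z‖ ≤ 1) : ‖f z‖ ≤ M := by
  have hcl : closure (ball (0 : ℂ) 1) = closedBall 0 1 := closure_ball 0 one_ne_zero
  have hd : DiffContOnCl ℂ f (ball 0 1) := by
    refine ⟨fun z hz => (hf z (ball_subset_closedBall hz)).differentiableAt.differentiableWithinAt,
      ?_⟩
    rw [hcl]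
    exact hf.continuousOn
  refine norm_le_of_forall_mem_frontier_norm_le isBounded_ball hd (fun w hw => hM w ?_) ?_
  · rw [frontier_ball 0 one_ne_zero] at hw
    exact mem_sphere_zero_iff_norm.1 hw
  · rw [hcl]
    simpa using hz

theorem re_le_of_circle {f : ℂ → ℂ} (hf : AnalyticOnNhd ℂ f (closedBall 0 1)) {M : ℝ}
    (hM : ∀ z : ℂ, ‖z‖ = 1 → (f z).re ≤ M) {z : ℂ} (hz : ‖z‖ ≤ 1) : (f z).re ≤ M := by
  have h1 := norm_le_of_circle (f := fun z => cexp (f z)) hf.cexp (M := Real.exp M)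
    (fun w hw => by
      rw [Complex.norm_exp]
      exact Real.exp_le_exp.2 (hM w hw)) hz
  rw [Complex.norm_exp] at h1
  exact Real.exp_le_exp.1 h1

/-- a weighted Schwarz lemma: the weight is `|F| = exp (Re φ)` -/
theorem schwarz_weighted {h φ : ℂ → ℂ} (hh : AnalyticOnNhd ℂ h (closedBall 0 1))
    (hφ : AnalyticOnNhd ℂ φ (closedBall 0 1)) {M : ℝ} {m : ℕ}
    (hM : ∀ z : ℂ, ‖z‖ = 1 → ‖z ^ m * h z‖ ≤ M * Real.exp (φ z).re) {z : ℂ} (hz : ‖z‖ ≤ 1) :
    ‖z ^ m * h z‖ ≤ M * Real.exp (φ z).re * ‖z‖ ^ m := by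
  have h1 : ∀ z : ℂ, ‖h z * cexp (-(φ z))‖ = ‖h z‖ * Real.exp (-(φ z).re) := by
    intro z
    rw [norm_mul, Complex.norm_exp, Complex.neg_re]
  have h2 := norm_le_of_circle (f := fun z => h z * cexp (-(φ z))) (hh.mul hφ.neg.cexp) (M := M)
    (fun w hw => by
      have h3 := hM w hw
      rw [norm_mul, norm_pow, hw, one_pow, one_mul] at h3
      rw [h1, Real.exp_neg, ← div_eq_mul_inv, div_le_iff₀ (Real.exp_pos _)]
      exact h3) hz
  rw [h1, Real.exp_neg, ← div_eq_mul_inv, div_le_iff₀ (Real.exp_pos _)] at h2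
  rw [norm_mul, norm_pow, mul_comm]
  exact mul_le_mul_of_nonneg_right h2 (by positivity)

theorem mean_re {f : ℂ → ℂ} (hf : AnalyticOnNhd ℂ f (closedBall 0 1)) {r : ℝ} (hr0 : 0 ≤ r)
    (hr1 : r ≤ 1) : Real.circleAverage (fun z => (f z).re) 0 r = (f 0).re := by
  have hsub : closedBall (0 : ℂ) |r| ⊆ closedBall 0 1 := by
    rw [abs_of_nonneg hr0]
    exact closedBall_subset_closedBall hr1
  have h1 : InnerProductSpace.HarmonicOnNhd (fun z => (f z).re) (closedBall (0 : ℂ) |r|) := by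
    intro z hz
    exact (hf z (hsub hz)).harmonicAt_re
  exact h1.circleAverage_eq

/-- `mean (Re f)⁺ = Re f(0) + mean (Re f)⁻` -/
theorem mean_pos_part {f : ℂ → ℂ} (hf : AnalyticOnNhd ℂ f (closedBall 0 1)) {r : ℝ} (hr0 : 0 ≤ r)
    (hr1 : r ≤ 1) : Real.circleAverage (fun z => max (f z).re 0) 0 r =
      (f 0).re + Real.circleAverage (fun z => max (-(f z).re) 0) 0 r := by
  have hc : ContinuousOn (fun z => (f z).re) (sphere (0 : ℂ) r) :=
    Complex.continuous_re.comp_continuousOn (hf.continuousOn.mono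
      (sphere_subset_closedBall.trans (closedBall_subset_closedBall hr1)))
  have hi : CircleIntegrable (fun z => (f z).re) 0 r := hc.circleIntegrable hr0
  have hi2 : CircleIntegrable (fun z => max (-(f z).re) 0) 0 r :=
    (hc.neg.sup continuousOn_const).circleIntegrable hr0
  rw [← mean_re hf hr0 hr1, ← Real.circleAverage_fun_add hi hi2]
  congr 1
  funext z
  rcases le_total 0 (f z).re with h | h
  · rw [max_eq_left h, max_eq_right (by linarith)]
    ring
  · rw [max_eq_right h, max_eq_left (by linarith)]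
    ring

end Pool.Agent.Helper58.LD
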