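import Pool.Agent.Helper58.LD.Growth
import Pool.Agent.Helper61.Lac.LC11a

/-!
# LD-32: `α(f) = α₀`

`charT f r = circleAverage (log⁺ ‖f‖) = circleAverage (max (Re φ) 0)` for `f = exp φ` (`LC11a: charT_eq`;
`Real.posLog_def`, `Real.log_exp`).
`muf a l T / T → a` (`0 ≤ a ≤ l`). `T m ^ 5 ≤ T (m+1) ^ (1/2)` (`T_lo`).
Upper bound (`LC11a: alpha_le`): given `ε`; for `m ≥ m₀` one has `T m ^ 5 + muf (T (m+1)) + 2 ≤ (a + ε) (T (m+1) - log T (m+1))`, and every
`r < 1` lies either in `[0, 1 - T (m₀+1)/N (m₀+1)]` (bounded by `mean_le` with `m₀`) or in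
`[1 - T (m+1)/N (m+1), 1 - T (m+2)/N (m+2)]` for some `m ≥ m₀`, where `-log (1 - r) ≥ T (m+1) - log T (m+1)`.
Lower bound (`LC11a: le_alpha`): `R = 1 - (l+1)/(N T ^ 10)`, `-log (1 - R) ≤ T (m+1) + 10 log T (m+1)`.
-/

set_option autoImplicit false

open Filter Topology Metric Complex

namespace Pool.Agent.Helper58.LD

open Pool.Agent.Helper61.Nev

variable {l : ℕ} {a : ℝ} {N : ℕ → ℕ} {T : ℕ → ℝ} {φn ψn Pn : ℕ → ℂ → ℂ} {φ ψ P : ℂ → ℂ}

theorem charT_exp {φ : ℂ → ℂ} (hφ : AnalyticOnNhd ℂ φ (ball 0 1)) {r : ℝ} (hr : r < 1) :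
    charT (fun z => cexp (φ z)) r = Real.circleAverage (fun z => max (φ z).re 0) 0 r := by
  have h1 : AnalyticOnNhd ℂ (fun z => cexp (φ z)) (ball 0 1) := hφ.cexp
  rw [Pool.Agent.Helper61.Lac.charT_eq hr h1]
  congr 1
  funext z
  rw [Complex.norm_exp, Real.posLog_def]
  show max 0 (Real.log (Real.exp (φ z).re)) = max (φ z).re 0
  rw [Real.log_exp, max_comm]

private theorem muf_le {a : ℝ} {l : ℕ} {T : ℝ} (ha : 0 ≤ a) (hT : 0 ≤ T) :
    muf a l T ≤ a * T + √T := by
  unfold muf
  have h1 : 0 ≤ a * T := mul_nonneg ha hT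
  have h2 : 0 ≤ √T := Real.sqrt_nonneg T
  refine max_le (by linarith) ?_
  exact (min_le_left _ _).trans (by linarith)

private theorem le_muf {a : ℝ} {l : ℕ} {T : ℝ} (hal : a ≤ l) (hT : 0 ≤ T) :
    a * T - √T ≤ muf a l T := by
  unfold muf
  have h2 : 0 ≤ √T := Real.sqrt_nonneg T
  have h3 : a * T ≤ l * T := mul_le_mul_of_nonneg_right hal hT
  refine le_trans (le_min ?_ ?_) (le_max_right _ _)
  · linarith
  · linarith

private theorem log_le_sqrt {T : ℝ} (hT : 0 < T) : Real.log T ≤ 2 * √T := by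
  have h1 : Real.log √T = Real.log T / 2 := Real.log_sqrt hT.le
  have h2 := Real.log_le_sub_one_of_pos (Real.sqrt_pos.2 hT)
  linarith

private theorem quad {c ε s : ℝ} (hε : 0 < ε) : c * s ≤ ε * s ^ 2 + c ^ 2 / (4 * ε) := by
  have h1 : 0 ≤ (2 * ε * s - c) ^ 2 / (4 * ε) := div_nonneg (sq_nonneg _) (by linarith)
  have h2 : (2 * ε * s - c) ^ 2 / (4 * ε) = ε * s ^ 2 - c * s + c ^ 2 / (4 * ε) := by
    field_simp
    ring
  linarith

theorem alpha_eq (hl : 1 ≤ l) (ha0 : 0 ≤ a) (hal : a ≤ l) (t : Tower l a N T φn ψn Pn)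
    (L : Limit l N T φn Pn φ ψ P) : alpha (fun z => cexp (φ z)) = (a : EReal) := by
  have hT1 : ∀ n, 1 ≤ T n := fun n => le_trans (by norm_num) (t.T_ge n)
  have hTpos : ∀ n, 0 < T n := fun n => lt_of_lt_of_le one_pos (hT1 n)
  have hNpos : ∀ n, (0 : ℝ) < N n := fun n => by
    rw [t.NT]
    exact Real.exp_pos _
  have hsq : ∀ m, T m ^ 5 ≤ √(T (m + 1)) := by
    intro m
    refine Real.le_sqrt_of_sq_le ?_
    have h1 : (T m ^ 5) ^ 2 = T m ^ 10 := by ring
    rw [h1]
    exact (pow_le_pow_right₀ (hT1 m) (by omega)).trans (t.T_lo m)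
  have hs2 : ∀ n, √(T n) ^ 2 = T n := fun n => Real.sq_sqrt (hTpos n).le
  have hs0 : ∀ n, 0 ≤ √(T n) := fun n => Real.sqrt_nonneg _
  obtain ⟨hrad, hradlim⟩ := t.radii
  have hnn : ∀ r : ℝ, 0 < r → r < 1 → 0 ≤ -Real.log (1 - r) := by
    intro r h1 h2
    have := Real.log_nonpos (x := 1 - r) (by linarith) (by linarith)
    linarith
  have hexpan : AnalyticOnNhd ℂ (fun z => cexp (φ z)) (ball 0 1) := L.anφ.cexp
  refine le_antisymm ?_ ?_
  · refine Pool.Agent.Helper61.Lac.alpha_le fun ε hε => ?_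
    set c : ℝ := 2 + 2 * (a + ε) with hc
    set C₀ : ℝ := T 0 ^ 5 + muf a l (T 1) + 2 with hC₀
    have hmu0 : 0 ≤ muf a l (T 1) := le_trans (hs0 1) (le_max_left _ _)
    have hC₀nn : 0 ≤ C₀ := by
      have : 0 ≤ T 0 ^ 5 := pow_nonneg (hTpos 0).le 5
      linarith
    refine ⟨C₀ + (2 + c ^ 2 / (4 * ε)), fun r hr0 hr1 => ?_⟩
    rw [charT_exp L.anφ hr1]
    have hlogr := hnn r hr0 hr1
    have hq0 : 0 ≤ c ^ 2 / (4 * ε) := div_nonneg (sq_nonneg _) (by linarith)
    have hae : 0 ≤ (a + ε) * -Real.log (1 - r) := mul_nonneg (by linarith) hlogr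
    have hex : ∃ n, r ≤ 1 - T (n + 2) / N (n + 2) := by
      have h1 : ∀ᶠ n in atTop, r < 1 - T n / N n := hradlim.eventually_const_lt hr1
      have h2 : ∀ᶠ n in atTop, r < 1 - T (n + 2) / N (n + 2) :=
        (tendsto_add_atTop_nat 2).eventually h1
      obtain ⟨n, hn⟩ := h2.exists
      exact ⟨n, hn.le⟩
    classical
    obtain ⟨n, hn, hmin⟩ : ∃ n, r ≤ 1 - T (n + 2) / N (n + 2) ∧
        ∀ m < n, ¬ r ≤ 1 - T (m + 2) / N (m + 2) :=
      ⟨Nat.find hex, Nat.find_spec hex, fun m hm => Nat.find_min hex hm⟩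
    have hmean := mean_le t L n hr0.le hn
    rcases Nat.eq_zero_or_pos n with h0 | h0
    · subst h0
      have h3 : Real.circleAverage (fun z => max (φ z).re 0) 0 r ≤ C₀ := hmean
      linarith
    · obtain ⟨m, rfl⟩ : ∃ m, n = m + 1 := ⟨n - 1, by omega⟩
      have hlow := hmin m (by omega)
      rw [not_le] at hlow
      have h4 := hsq (m + 1)
      have h5 := muf_le (a := a) (l := l) ha0 (hTpos (m + 2)).le
      have h6 := log_le_sqrt (hTpos (m + 2))
      have h7 : T (m + 2) - Real.log (T (m + 2)) ≤ -Real.log (1 - r) := by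
        have h8 : Real.log (1 - r) ≤ Real.log (T (m + 2) / N (m + 2)) :=
          Real.log_le_log (by linarith) (by linarith)
        rw [Real.log_div (hTpos _).ne' (hNpos _).ne', t.NT, Real.log_exp] at h8
        linarith
      have h9 : (a + ε) * (T (m + 2) - Real.log (T (m + 2))) ≤ (a + ε) * -Real.log (1 - r) :=
        mul_le_mul_of_nonneg_left h7 (by linarith)
      have h10 := quad (c := c) (s := √(T (m + 2))) hε
      rw [hs2] at h10
      have h11 : (a + ε) * Real.log (T (m + 2)) ≤ (a + ε) * (2 * √(T (m + 2))) :=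
        mul_le_mul_of_nonneg_left h6 (by linarith)
      have h12 : Real.circleAverage (fun z => max (φ z).re 0) 0 r ≤
          T (m + 1) ^ 5 + muf a l (T (m + 2)) + 2 := hmean
      have h13 : T (m + 1) ^ 5 ≤ √(T (m + 2)) := h4
      have h14 : c * √(T (m + 2)) = 2 * √(T (m + 2)) + (a + ε) * (2 * √(T (m + 2))) := by
        rw [hc]
        ring
      nlinarith
  · refine Pool.Agent.Helper61.Lac.le_alpha fun ε hε => ?_
    set c : ℝ := 2 + 20 * a with hc
    refine ⟨2 + c ^ 2 / (4 * (ε / 2)), fun ρ hρ => ?_⟩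
    have hq0 : 0 ≤ c ^ 2 / (4 * (ε / 2)) := div_nonneg (sq_nonneg _) (by linarith)
    have hTlog : Tendsto (fun n => Real.log (T n)) atTop atTop := by
      have h1 : Tendsto (fun n : ℕ => ((n + 10 : ℕ) : ℝ) * Real.log 2) atTop atTop := by
        refine Tendsto.atTop_mul_const (Real.log_pos (by norm_num)) ?_
        exact tendsto_natCast_atTop_atTop.comp (tendsto_add_atTop_nat 10)
      refine tendsto_atTop_mono (fun n => ?_) h1
      rw [← Real.log_pow]
      exact Real.log_le_log (by positivity) (t.T_pow n)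
    have hev : ∀ᶠ n in atTop, ρ < 1 - T n / N n ∧ 24 * (a + 1) / ε ≤ Real.log (T n) :=
      (hradlim.eventually_const_lt hρ).and (hTlog.eventually_ge_atTop _)
    obtain ⟨m, hm1, hm2⟩ := ((tendsto_add_atTop_nat 1).eventually hev).exists
    obtain ⟨r1, r2, -, -, r3⟩ := hrad (m + 1)
    set R : ℝ := 1 - (l + 1) / (N (m + 1) * T (m + 1) ^ 10) with hR
    have hR0 : 0 < R := by linarith
    refine ⟨R, by linarith, hR0, r3, ?_⟩
    have hchar0 := Pool.Agent.Helper61.Lac.charT_nonneg hexpan r3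
    have hlogR := hnn R hR0 r3
    rcases le_or_gt (a - ε) 0 with hae | hae
    · have h1 : (a - ε) * -Real.log (1 - R) ≤ 0 := mul_nonpos_of_nonpos_of_nonneg hae hlogR
      linarith
    · rw [charT_exp L.anφ r3]
      have hmean := mean_ge t L m
      rw [← hR] at hmean
      have hTp := hTpos (m + 1)
      have hlogpos : 0 < Real.log (T (m + 1)) := by
        refine lt_of_lt_of_le ?_ hm2
        have : 0 < a + 1 := by linarith
        positivity
      have h1 := hsq m
      have h2 := muf_le (a := a) (l := l) ha0 hTp.le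
      have h3 := le_muf hal hTp.le
      have h4 := log_le_sqrt hTp
      have h5 : √(T (m + 1)) ≤ T (m + 1) := by
        have h6 := hs2 (m + 1)
        have h7 : 1 ≤ √(T (m + 1)) := Real.one_le_sqrt.2 (hT1 (m + 1))
        nlinarith
      have h6 : 12 / Real.log (T (m + 1)) * muf a l (T (m + 1)) ≤ ε / 2 * T (m + 1) := by
        have h7 : muf a l (T (m + 1)) ≤ (a + 1) * T (m + 1) := by linarith
        have h8 : 12 / Real.log (T (m + 1)) * muf a l (T (m + 1)) ≤
            12 / Real.log (T (m + 1)) * ((a + 1) * T (m + 1)) :=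
          mul_le_mul_of_nonneg_left h7 (by positivity)
        have h9 : 12 / Real.log (T (m + 1)) * (a + 1) ≤ ε / 2 := by
          rw [div_mul_eq_mul_div, div_le_iff₀ hlogpos]
          rw [div_le_iff₀ hε] at hm2
          linarith
        calc 12 / Real.log (T (m + 1)) * muf a l (T (m + 1))
            ≤ 12 / Real.log (T (m + 1)) * ((a + 1) * T (m + 1)) := h8
          _ = (12 / Real.log (T (m + 1)) * (a + 1)) * T (m + 1) := by ring
          _ ≤ ε / 2 * T (m + 1) := mul_le_mul_of_nonneg_right h9 hTp.le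
      have h7 : -Real.log (1 - R) ≤ T (m + 1) + 10 * Real.log (T (m + 1)) := by
        have h8 : 1 - R = (l + 1) / (N (m + 1) * T (m + 1) ^ 10) := by
          rw [hR]
          ring
        have hl1 : (0 : ℝ) < l + 1 := by positivity
        have hNp := hNpos (m + 1)
        rw [h8, Real.log_div hl1.ne' (by positivity), Real.log_mul hNp.ne' (by positivity),
          Real.log_pow, t.NT, Real.log_exp]
        have h9 : 0 ≤ Real.log (l + 1 : ℝ) := Real.log_nonneg (by
          have : (0 : ℝ) ≤ l := Nat.cast_nonneg l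
          linarith)
        push_cast
        linarith
      have h8 : (a - ε) * -Real.log (1 - R) ≤
          (a - ε) * (T (m + 1) + 10 * Real.log (T (m + 1))) :=
        mul_le_mul_of_nonneg_left h7 hae.le
      have h9 : (a - ε) * (10 * Real.log (T (m + 1))) ≤ 20 * a * √(T (m + 1)) := by
        have h10 : (a - ε) * (10 * Real.log (T (m + 1))) ≤ (a - ε) * (20 * √(T (m + 1))) :=
          mul_le_mul_of_nonneg_left (by linarith) hae.le
        have h11 : (a - ε) * (20 * √(T (m + 1))) ≤ a * (20 * √(T (m + 1))) :=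
          mul_le_mul_of_nonneg_right (by linarith) (mul_nonneg (by norm_num) (hs0 _))
        linarith
      have h10 := quad (c := c) (s := √(T (m + 1))) (half_pos hε)
      rw [hs2] at h10
      have h11 : c * √(T (m + 1)) = 2 * √(T (m + 1)) + 20 * a * √(T (m + 1)) := by
        rw [hc]
        ring
      have h12 : (1 - 12 / Real.log (T (m + 1))) * muf a l (T (m + 1)) =
          muf a l (T (m + 1)) - 12 / Real.log (T (m + 1)) * muf a l (T (m + 1)) := by ring
      rw [h12] at hmean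
      nlinarith

end Pool.Agent.Helper58.LD
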