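import Mathlib

/-!
# LD-07: weighted Cauchy estimates

`Slow s E w`: the weight `w` changes at most by the factor `E` on discs of radius `s` in the closed unit disc.
`wcauchy`: `Complex.norm_deriv_le_of_forall_mem_sphere_norm_le` on the circle of radius `s` around `z`,
`|z| ≤ r - s`; on it `|ζ| ≤ r` and `w ζ ≤ E w z`.
`wcauchy_iter`: induction on `n` (`iteratedDeriv_succ`, `AnalyticOnNhd.iterated_deriv` or
`AnalyticOnNhd.deriv`).
-/

set_option autoImplicit false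

open Filter Topology Metric Complex

namespace Pool.Agent.Helper58.LD

/-- the weight `w` is slowly varying at scale `s` -/
def Slow (s E : ℝ) (w : ℂ → ℝ) : Prop :=
  ∀ z ζ : ℂ, ‖z‖ ≤ 1 → ‖ζ‖ ≤ 1 → ‖ζ - z‖ ≤ s → w ζ ≤ E * w z

theorem wcauchy {f : ℂ → ℂ} {w : ℂ → ℝ} {s r M E : ℝ} (hs : 0 < s) (hr : r ≤ 1)
    (hf : AnalyticOnNhd ℂ f (closedBall 0 1)) (hw : Slow s E w) (hM : 0 ≤ M)
    (hb : ∀ z : ℂ, ‖z‖ ≤ r → ‖f z‖ ≤ M * w z) {z : ℂ} (hz : ‖z‖ ≤ r - s) :
    ‖deriv f z‖ ≤ M * E / s * w z := by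
  have hn : ∀ ζ : ℂ, ‖ζ - z‖ ≤ s → ‖ζ‖ ≤ r := by
    intro ζ hζ
    calc ‖ζ‖ = ‖z + (ζ - z)‖ := by ring_nf
      _ ≤ ‖z‖ + ‖ζ - z‖ := norm_add_le _ _
      _ ≤ r := by linarith
  have hd : DiffContOnCl ℂ f (ball z s) := by
    apply DifferentiableOn.diffContOnCl
    rw [closure_ball _ hs.ne']
    intro ζ hζ
    rw [mem_closedBall, dist_eq_norm] at hζ
    exact (hf ζ (by
      rw [mem_closedBall, dist_zero_right]
      exact (hn ζ hζ).trans hr)).differentiableAt.differentiableWithinAt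
  have h := Complex.norm_deriv_le_of_forall_mem_sphere_norm_le (f := f) (c := z) (R := s)
    (C := M * (E * w z)) hs hd (by
      intro ζ hζ
      rw [mem_sphere, dist_eq_norm] at hζ
      have h1 := hn ζ hζ.le
      refine (hb ζ h1).trans (mul_le_mul_of_nonneg_left ?_ hM)
      exact hw z ζ (by linarith) (h1.trans hr) hζ.le)
  refine h.trans (le_of_eq ?_)
  ring

theorem wcauchy_iter {f : ℂ → ℂ} {w : ℂ → ℝ} {s M E : ℝ} (hs : 0 < s) (hE : 0 ≤ E)
    (hf : AnalyticOnNhd ℂ f (closedBall 0 1)) (hw : Slow s E w) (hM : 0 ≤ M)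
    (hb : ∀ z : ℂ, ‖z‖ ≤ 1 → ‖f z‖ ≤ M * w z) (n : ℕ) {z : ℂ} (hz : ‖z‖ ≤ 1 - n * s) :
    ‖iteratedDeriv n f z‖ ≤ M * E ^ n / s ^ n * w z := by
  induction n generalizing z with
  | zero =>
    rw [iteratedDeriv_zero, pow_zero, pow_zero, mul_one, div_one]
    exact hb z (by simpa using hz)
  | succ n ih =>
    have ha : AnalyticOnNhd ℂ (iteratedDeriv n f) (closedBall 0 1) := by
      rw [iteratedDeriv_eq_iterate]
      exact hf.iterated_deriv n
    have hns : 0 ≤ (n : ℝ) * s := by positivity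
    have h := wcauchy (f := iteratedDeriv n f) (w := w) (s := s) (r := 1 - n * s)
      (M := M * E ^ n / s ^ n) (E := E) hs (by linarith) ha hw (by positivity)
      (fun z hz => ih hz) (z := z) (by push_cast at hz; linarith)
    rw [iteratedDeriv_succ]
    refine h.trans (le_of_eq ?_)
    rw [pow_succ, pow_succ]
    field_simp

end Pool.Agent.Helper58.LD
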