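import Pool.Agent.Helper58.LD.Defs
import Pool.Agent.Helper58.LD.WCauchy

/-!
# LD-08: bound for `bseq`

`|Y| ≤ W`, `|g| ≤ K W / V ^ (l + 2)`, `W ≤ 2 V`, `K ≥ 1`, all weights slowly varying at scale `s` (factor `3` up and
down). Claim: `|bseq i z| ≤ C (K / s) ^ (i + 1) W ^ (i + 2) / V ^ (l + 2)` for `|z| ≤ 1 - (i + 1) s`, with `C`
depending on `l` only, for all `i ≤ l`. Proof by induction on `i` (constants `C_i`; take the maximum, or take
`C_i` increasing): the weight `W ^ (i + 2) / V ^ (l + 2)` changes at most by the factor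
`E = 3 ^ (i + 2) 3 ^ (l + 2) ≤ 3 ^ (2 l + 4)`.
* `i = 0`: `|Y'| ≤ 3 W / s` and `|g'| ≤ E K / s W / V ^ (l + 2)` on `|z| ≤ 1 - s` (`wcauchy`), so
  `|bseq 0| ≤ ((l + 1) 3 + E) (K / s) W ^ 2 / V ^ (l + 2)`.
* step: `|(l - i) Y' bseq i| ≤ l (3 W / s) C_i ..` (`|l - i| ≤ l`), `|Y (bseq i)'| ≤ W (C_i E / s) ..` on
  `|z| ≤ 1 - (i + 2) s`, and for the last term
  `|Y| ^ (l + 1) |bseq 0| ≤ C_0 (K / s) W ^ (l + 3) / V ^ (l + 2) ≤ C_0 (K / s) 2 ^ (l + 2) W`. As `K ≥ 1`,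
  `1 / s ≤ K / s`.
`bseq l Y g i` is analytic near the closed disc by induction (`AnalyticOnNhd.deriv`), prove this first
(`bseq_an`, used again in LD-09, LD-10).
-/

set_option autoImplicit false

open Filter Topology Metric Complex

namespace Pool.Agent.Helper58.LD

theorem bseq_an (l : ℕ) {U : Set ℂ} {Y g : ℂ → ℂ} (hY : AnalyticOnNhd ℂ Y U)
    (hg : AnalyticOnNhd ℂ g U) (i : ℕ) : AnalyticOnNhd ℂ (bseq l Y g i) U := by
  have h0 : AnalyticOnNhd ℂ (fun z => (l + 1 : ℂ) * deriv Y z * g z + Y z * deriv g z) U :=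
    ((analyticOnNhd_const.mul hY.deriv).mul hg).add (hY.mul hg.deriv)
  induction i with
  | zero => exact h0
  | succ i ih =>
    exact (((analyticOnNhd_const.mul hY.deriv).mul ih).add (hY.mul ih.deriv)).add
      (((hY.pow (l + 1)).mul h0).mul ih)

/-- hypotheses on the weights and functions, shared by LD-08 and LD-09 -/
structure Wts (l : ℕ) (s K : ℝ) (W V : ℂ → ℝ) (Y g : ℂ → ℂ) : Prop where
  hs : 0 < s
  hK : 1 ≤ K
  Wpos : ∀ z : ℂ, 0 < W z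
  Vpos : ∀ z : ℂ, 0 < V z
  hWV : ∀ z : ℂ, ‖z‖ ≤ 1 → W z ≤ 2 * V z
  slowW : Slow s 3 W
  slowV : Slow s 3 V
  slowV' : Slow s 3 (fun z => (V z)⁻¹)
  Yan : AnalyticOnNhd ℂ Y (closedBall 0 1)
  gan : AnalyticOnNhd ℂ g (closedBall 0 1)
  hY : ∀ z : ℂ, ‖z‖ ≤ 1 → ‖Y z‖ ≤ W z
  hg : ∀ z : ℂ, ‖z‖ ≤ 1 → ‖g z‖ ≤ K * W z / V z ^ (l + 2)

private theorem slow_wt {l : ℕ} {s K : ℝ} {W V : ℂ → ℝ} {Y g : ℂ → ℂ} (h : Wts l s K W V Y g)
    (j : ℕ) : Slow s (3 ^ j * 3 ^ (l + 2)) (fun z => W z ^ j / V z ^ (l + 2)) := by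
  intro z ζ hz hζ hd
  have h1 := h.slowW z ζ hz hζ hd
  have h2 := h.slowV' z ζ hz hζ hd
  have w1 := h.Wpos ζ
  have w2 := h.Wpos z
  have v1 := h.Vpos ζ
  have v2 := h.Vpos z
  show W ζ ^ j / V ζ ^ (l + 2) ≤ 3 ^ j * 3 ^ (l + 2) * (W z ^ j / V z ^ (l + 2))
  rw [div_eq_mul_inv, div_eq_mul_inv, ← inv_pow, ← inv_pow]
  have h3 : W ζ ^ j ≤ (3 * W z) ^ j := pow_le_pow_left₀ w1.le h1 j
  have h4 : ((V ζ)⁻¹) ^ (l + 2) ≤ (3 * (V z)⁻¹) ^ (l + 2) :=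
    pow_le_pow_left₀ (inv_nonneg.2 v1.le) h2 _
  calc W ζ ^ j * ((V ζ)⁻¹) ^ (l + 2) ≤ (3 * W z) ^ j * (3 * (V z)⁻¹) ^ (l + 2) :=
        mul_le_mul h3 h4 (by positivity) (by positivity)
    _ = 3 ^ j * 3 ^ (l + 2) * (W z ^ j * ((V z)⁻¹) ^ (l + 2)) := by
        rw [mul_pow, mul_pow]
        ring

private theorem base_bound {l : ℕ} {s K : ℝ} {W V : ℂ → ℝ} {Y g : ℂ → ℂ}
    (h : Wts l s K W V Y g) {z : ℂ} (hz : ‖z‖ ≤ 1 - s) :
    ‖deriv Y z‖ ≤ 3 / s * W z ∧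
    ‖(l + 1 : ℂ) * deriv Y z * g z + Y z * deriv g z‖ ≤
      (3 * (l + 1) + 3 ^ (l + 3)) * (K / s) * (W z ^ 2 / V z ^ (l + 2)) := by
  have hs := h.hs
  have hK := h.hK
  have w := h.Wpos z
  have v := h.Vpos z
  have hz1 : ‖z‖ ≤ 1 := by linarith
  have h1 : ‖deriv Y z‖ ≤ 1 * 3 / s * W z :=
    wcauchy hs le_rfl h.Yan h.slowW zero_le_one (fun z hz => by
      rw [one_mul]
      exact h.hY z hz) hz
  rw [one_mul] at h1
  have h2 : ‖deriv g z‖ ≤ K * (3 ^ 1 * 3 ^ (l + 2)) / s * (W z ^ 1 / V z ^ (l + 2)) :=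
    wcauchy hs le_rfl h.gan (slow_wt h 1) (by linarith) (fun z hz => by
      refine (h.hg z hz).trans (le_of_eq ?_)
      show K * W z / V z ^ (l + 2) = K * (W z ^ 1 / V z ^ (l + 2))
      rw [pow_one]
      ring) hz
  refine ⟨h1, ?_⟩
  have hl : ‖(l + 1 : ℂ)‖ = l + 1 := by
    have : ((l + 1 : ℕ) : ℂ) = (l + 1 : ℂ) := by push_cast; ring
    rw [← this, Complex.norm_natCast]
    push_cast
    ring
  calc ‖(l + 1 : ℂ) * deriv Y z * g z + Y z * deriv g z‖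
      ≤ (l + 1) * ‖deriv Y z‖ * ‖g z‖ + ‖Y z‖ * ‖deriv g z‖ := by
        refine (norm_add_le _ _).trans (le_of_eq ?_)
        rw [norm_mul, norm_mul, norm_mul, hl]
    _ ≤ (l + 1) * (3 / s * W z) * (K * W z / V z ^ (l + 2)) +
        W z * (K * (3 ^ 1 * 3 ^ (l + 2)) / s * (W z ^ 1 / V z ^ (l + 2))) := by
        refine add_le_add ?_ ?_
        · refine mul_le_mul (mul_le_mul_of_nonneg_left h1 (by positivity)) (h.hg z hz1)
            (norm_nonneg _) (by positivity)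
        · exact mul_le_mul (h.hY z hz1) h2 (norm_nonneg _) w.le
    _ = (3 * (l + 1) + 3 ^ (l + 3)) * (K / s) * (W z ^ 2 / V z ^ (l + 2)) := by
        rw [pow_succ (3 : ℝ) (l + 2)]
        ring

private theorem bseq_bound_aux (l : ℕ) {s K : ℝ} {W V : ℂ → ℝ} {Y g : ℂ → ℂ}
    (h : Wts l s K W V Y g) (i : ℕ) (hi : i ≤ l) (z : ℂ) (hz : ‖z‖ ≤ 1 - (i + 1) * s) :
    ‖bseq l Y g i z‖ ≤ ((3 * (l + 1) + 3 ^ (l + 3)) *
      (3 * l + 3 ^ (2 * l + 4) + (3 * (l + 1) + 3 ^ (l + 3)) * 2 ^ (l + 2)) ^ i) *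
        (K / s) ^ (i + 1) * (W z ^ (i + 2) / V z ^ (l + 2)) := by
  have hs := h.hs
  have hK := h.hK
  set C : ℝ := 3 * (l + 1) + 3 ^ (l + 3) with hC
  set D : ℝ := 3 * l + 3 ^ (2 * l + 4) + C * 2 ^ (l + 2) with hD
  have hC0 : 0 < C := by positivity
  have hD0 : 0 < D := by positivity
  induction i generalizing z with
  | zero =>
    have hz' : ‖z‖ ≤ 1 - s := by simpa using hz
    have h1 := (base_bound h hz').2
    rw [pow_zero, mul_one, zero_add, pow_one]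
    exact h1
  | succ i ih =>
    have hil : i ≤ l := by omega
    have w := h.Wpos z
    have v := h.Vpos z
    have hi0 : (0 : ℝ) ≤ i := Nat.cast_nonneg i
    push_cast at hz
    have hzs : ‖z‖ ≤ 1 - s := by nlinarith
    have hz1 : ‖z‖ ≤ 1 := by linarith
    have hzi : ‖z‖ ≤ 1 - (i + 1) * s := by nlinarith
    obtain ⟨h1, h2⟩ := base_bound h hzs
    have h3 := ih hil z hzi
    have h4 : ‖deriv (bseq l Y g i) z‖ ≤
        (C * D ^ i * (K / s) ^ (i + 1)) * (3 ^ (i + 2) * 3 ^ (l + 2)) / s *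
          (W z ^ (i + 2) / V z ^ (l + 2)) := by
      refine wcauchy hs (r := 1 - (i + 1) * s) (by nlinarith) (bseq_an l h.Yan h.gan i)
        (slow_wt h (i + 2)) (by positivity) (fun z hz => ih hil z hz) (by linarith)
    have hli : ‖((l : ℂ) - i)‖ ≤ l := by
      have : ((l - i : ℕ) : ℂ) = (l : ℂ) - i := by push_cast [Nat.cast_sub hil]; ring
      rw [← this, Complex.norm_natCast]
      exact_mod_cast Nat.sub_le l i
    have hKs : 1 / s ≤ K / s := by gcongr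
    have hE : (3 : ℝ) ^ (i + 2) * 3 ^ (l + 2) ≤ 3 ^ (2 * l + 4) := by
      rw [← pow_add]
      exact pow_le_pow_right₀ (by norm_num) (by omega)
    have hWV : W z ^ (l + 2) / V z ^ (l + 2) ≤ 2 ^ (l + 2) := by
      rw [← div_pow]
      refine pow_le_pow_left₀ (by positivity) ?_ _
      rw [div_le_iff₀ v]
      exact h.hWV z hz1
    have hYl : ‖Y z‖ ^ (l + 1) ≤ W z ^ (l + 1) := pow_le_pow_left₀ (norm_nonneg _) (h.hY z hz1) _
    set B : ℝ := C * D ^ i * (K / s) ^ (i + 1) * (W z ^ (i + 2) / V z ^ (l + 2)) with hB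
    have hB0 : 0 ≤ B := by positivity
    have e1 : ‖((l : ℂ) - i) * deriv Y z * bseq l Y g i z‖ ≤ 3 * l * (K / s * W z * B) := by
      rw [norm_mul, norm_mul]
      calc ‖(l : ℂ) - i‖ * ‖deriv Y z‖ * ‖bseq l Y g i z‖ ≤ l * (3 / s * W z) * B := by
            refine mul_le_mul (mul_le_mul hli h1 (norm_nonneg _) (by positivity)) h3
              (norm_nonneg _) (by positivity)
        _ = 3 * l * (1 / s * W z * B) := by ring
        _ ≤ 3 * l * (K / s * W z * B) := by gcongr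
    have e2 : ‖Y z * deriv (bseq l Y g i) z‖ ≤ 3 ^ (2 * l + 4) * (K / s * W z * B) := by
      rw [norm_mul]
      calc ‖Y z‖ * ‖deriv (bseq l Y g i) z‖ ≤ W z * ((C * D ^ i * (K / s) ^ (i + 1)) *
            (3 ^ (i + 2) * 3 ^ (l + 2)) / s * (W z ^ (i + 2) / V z ^ (l + 2))) :=
            mul_le_mul (h.hY z hz1) h4 (norm_nonneg _) w.le
        _ = (3 ^ (i + 2) * 3 ^ (l + 2)) * (1 / s * W z * B) := by
            rw [hB]
            ring
        _ ≤ 3 ^ (2 * l + 4) * (K / s * W z * B) := by gcongr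
    have e3 : ‖Y z ^ (l + 1) * ((l + 1 : ℂ) * deriv Y z * g z + Y z * deriv g z) *
        bseq l Y g i z‖ ≤ C * 2 ^ (l + 2) * (K / s * W z * B) := by
      rw [norm_mul, norm_mul, norm_pow]
      calc ‖Y z‖ ^ (l + 1) * ‖(l + 1 : ℂ) * deriv Y z * g z + Y z * deriv g z‖ *
            ‖bseq l Y g i z‖
          ≤ W z ^ (l + 1) * (C * (K / s) * (W z ^ 2 / V z ^ (l + 2))) * B := by
            refine mul_le_mul (mul_le_mul hYl h2 (norm_nonneg _) (by positivity)) h3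
              (norm_nonneg _) (by positivity)
        _ = C * (W z ^ (l + 2) / V z ^ (l + 2)) * (K / s * W z * B) := by
            rw [pow_succ (W z) (l + 1), sq]
            ring
        _ ≤ C * 2 ^ (l + 2) * (K / s * W z * B) := by gcongr
    calc ‖bseq l Y g (i + 1) z‖
        = ‖((l : ℂ) - i) * deriv Y z * bseq l Y g i z + Y z * deriv (bseq l Y g i) z
          + Y z ^ (l + 1) * ((l + 1 : ℂ) * deriv Y z * g z + Y z * deriv g z) *
            bseq l Y g i z‖ := rfl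
      _ ≤ 3 * l * (K / s * W z * B) + 3 ^ (2 * l + 4) * (K / s * W z * B) +
          C * 2 ^ (l + 2) * (K / s * W z * B) :=
          (norm_add_le _ _).trans (add_le_add ((norm_add_le _ _).trans (add_le_add e1 e2)) e3)
      _ = D * (K / s * W z * B) := by
          rw [hD]
          ring
      _ = C * D ^ (i + 1) * (K / s) ^ (i + 1 + 1) * (W z ^ (i + 1 + 2) / V z ^ (l + 2)) := by
          rw [hB, pow_succ D i, pow_succ (K / s) (i + 1), pow_succ (W z) (i + 2)]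
          ring

theorem bseq_bound (l : ℕ) : ∃ C : ℝ, 1 ≤ C ∧ ∀ (s K : ℝ) (W V : ℂ → ℝ) (Y g : ℂ → ℂ),
    Wts l s K W V Y g → ∀ i ≤ l, ∀ z : ℂ, ‖z‖ ≤ 1 - (i + 1) * s →
      ‖bseq l Y g i z‖ ≤ C * (K / s) ^ (i + 1) * W z ^ (i + 2) / V z ^ (l + 2) := by
  have hl0 : (0 : ℝ) ≤ l := Nat.cast_nonneg l
  have hC1 : (1 : ℝ) ≤ 3 * (l + 1) + 3 ^ (l + 3) := by
    have : (0 : ℝ) < 3 ^ (l + 3) := by positivity
    linarith
  have hD1 : (1 : ℝ) ≤ 3 * l + 3 ^ (2 * l + 4) + (3 * (l + 1) + 3 ^ (l + 3)) * 2 ^ (l + 2) := by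
    have h1 : (1 : ℝ) ≤ 3 ^ (2 * l + 4) := one_le_pow₀ (by norm_num)
    have h2 : (0 : ℝ) < (3 * (l + 1) + 3 ^ (l + 3)) * 2 ^ (l + 2) := by positivity
    linarith
  refine ⟨(3 * (l + 1) + 3 ^ (l + 3)) *
      (3 * l + 3 ^ (2 * l + 4) + (3 * (l + 1) + 3 ^ (l + 3)) * 2 ^ (l + 2)) ^ l,
    one_le_mul_of_one_le_of_one_le hC1 (one_le_pow₀ hD1), ?_⟩
  intro s K W V Y g h i hi z hz
  have hs := h.hs
  have hK := h.hK
  have w := h.Wpos z
  have v := h.Vpos z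
  refine (bseq_bound_aux l h i hi z hz).trans ?_
  rw [mul_div_assoc]
  have := pow_le_pow_right₀ hD1 hi
  gcongr

end Pool.Agent.Helper58.LD
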