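import Pool.Agent.Helper58.LD.Defs

/-!
# LD-12: facts about a state

`closedBall 0 1 ⊆ ball 0 (1 + e^(-A))`; `DifferentiableOn.analyticOnNhd`; derivative bounds by Cauchy on circles of radius
`e^(-A) / 2` around points of the closed unit disc: `e^A / (e^(-A) / 2) = 2 e^(2A)`.
`slow`: mean value inequality on the (convex) closed unit disc.
-/

set_option autoImplicit false

open Filter Topology Metric Complex

namespace Pool.Agent.Helper58.LD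

variable {l : ℕ} {A Q : ℝ} {φ ψ P : ℂ → ℂ}

lemma an_of_big {f : ℂ → ℂ} (hf : DifferentiableOn ℂ f (ball 0 (1 + Real.exp (-A)))) :
    AnalyticOnNhd ℂ f (closedBall 0 1) :=
  (hf.analyticOnNhd isOpen_ball).mono (closedBall_subset_ball (by
    have := Real.exp_pos (-A)
    linarith))

lemma deriv_of_big {f : ℂ → ℂ} {M : ℝ} (hf : DifferentiableOn ℂ f (ball 0 (1 + Real.exp (-A))))
    (hM : ∀ z : ℂ, ‖z‖ < 1 + Real.exp (-A) → ‖f z‖ ≤ M) {z : ℂ} (hz : ‖z‖ ≤ 1) :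
    ‖deriv f z‖ ≤ 2 * M * Real.exp A := by
  have hp := Real.exp_pos (-A)
  have hsub : closedBall z (Real.exp (-A) / 2) ⊆ ball 0 (1 + Real.exp (-A)) := by
    intro w hw
    rw [mem_closedBall, dist_eq_norm] at hw
    rw [mem_ball_zero_iff]
    have := norm_add_le z (w - z)
    rw [add_sub_cancel] at this
    linarith
  have h1 := norm_deriv_le_of_forall_mem_sphere_norm_le (c := z) (R := Real.exp (-A) / 2) (C := M)
    (by positivity) (hf.mono (fun w hw => hsub (closure_ball_subset_closedBall hw))).diffContOnCl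
    (fun w hw => hM w (by
      have := hsub (sphere_subset_closedBall hw)
      rwa [mem_ball_zero_iff] at this))
  refine h1.trans (le_of_eq ?_)
  rw [Real.exp_neg]
  field_simp

lemma lip_of_deriv {f : ℂ → ℂ} {M : ℝ} (hf : AnalyticOnNhd ℂ f (closedBall 0 1))
    (hM : ∀ z : ℂ, ‖z‖ ≤ 1 → ‖deriv f z‖ ≤ M) {z ζ : ℂ} (hz : ‖z‖ ≤ 1) (hζ : ‖ζ‖ ≤ 1) :
    ‖f ζ - f z‖ ≤ M * ‖ζ - z‖ :=
  (convex_closedBall (0 : ℂ) 1).norm_image_sub_le_of_norm_deriv_le (𝕜 := ℂ)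
    (fun x hx => (hf x hx).differentiableAt) (fun x hx => hM x (by simpa using hx))
    (by simpa using hz) (by simpa using hζ)

theorem State.anφ (h : State l A Q φ ψ P) : AnalyticOnNhd ℂ φ (closedBall 0 1) :=
  an_of_big h.dφ

theorem State.anψ (h : State l A Q φ ψ P) : AnalyticOnNhd ℂ ψ (closedBall 0 1) :=
  an_of_big h.dψ

theorem State.anP (h : State l A Q φ ψ P) : AnalyticOnNhd ℂ P (closedBall 0 1) :=
  an_of_big h.dP

theorem State.derivφ (h : State l A Q φ ψ P) {z : ℂ} (hz : ‖z‖ ≤ 1) :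
    ‖deriv φ z‖ ≤ 2 * Real.exp (2 * A) := by
  refine (deriv_of_big h.dφ h.nφ hz).trans (le_of_eq ?_)
  rw [two_mul A, Real.exp_add]
  ring

theorem State.derivψ (h : State l A Q φ ψ P) {z : ℂ} (hz : ‖z‖ ≤ 1) :
    ‖deriv ψ z‖ ≤ 2 * Real.exp (2 * A) := by
  refine (deriv_of_big h.dψ h.nψ hz).trans (le_of_eq ?_)
  rw [two_mul A, Real.exp_add]
  ring

theorem State.derivP (h : State l A Q φ ψ P) {z : ℂ} (hz : ‖z‖ ≤ 1) :
    ‖deriv P z‖ ≤ 2 * Q * Real.exp A :=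
  deriv_of_big h.dP h.nP hz

theorem State.lipφ (h : State l A Q φ ψ P) {z ζ : ℂ} (hz : ‖z‖ ≤ 1) (hζ : ‖ζ‖ ≤ 1) :
    ‖φ ζ - φ z‖ ≤ 2 * Real.exp (2 * A) * ‖ζ - z‖ :=
  lip_of_deriv h.anφ (fun _ hz => h.derivφ hz) hz hζ

theorem State.lipψ (h : State l A Q φ ψ P) {z ζ : ℂ} (hz : ‖z‖ ≤ 1) (hζ : ‖ζ‖ ≤ 1) :
    ‖ψ ζ - ψ z‖ ≤ 2 * Real.exp (2 * A) * ‖ζ - z‖ :=
  lip_of_deriv h.anψ (fun _ hz => h.derivψ hz) hz hζ

theorem State.lipP (h : State l A Q φ ψ P) {z ζ : ℂ} (hz : ‖z‖ ≤ 1) (hζ : ‖ζ‖ ≤ 1) :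
    ‖P ζ - P z‖ ≤ 2 * Q * Real.exp A * ‖ζ - z‖ :=
  lip_of_deriv h.anP (fun _ hz => h.derivP hz) hz hζ

end Pool.Agent.Helper58.LD
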