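import Pool.Agent.Helper58.LD.Num
import Pool.Agent.Helper58.LD.MaxP
import Pool.Agent.Helper58.LD.StFacts
import Pool.Agent.Helper61.Lac.LC8

/-!
# LD-14: `ψ₁ - φ` on the unit circle and in the disc

`D.Lam = lam D.l D.Q D.T` (`rfl`), `D.U = Hf D.k D.Lam D.N`. On `|z| = 1` (`LC4: exponent_circle`, needs `2 ≤ Λ`,
`natDegree k ≤ N`): `Re (k + U) = Λ - (Λ - Re k) Xf` and `|J| = |Λ - Re k|`, `0 ≤ Λ - Re k ≤ 2 l T` because
`|Re k| ≤ 2 A + 1 ≤ Λ` (`Par.misc`; `|Re (ψ - φ)| ≤ 2A`), `Xf ≥ 0` (`LC6.Xf_nonneg`, `LC8a.rho_pos`).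
`ψ₁ - φ = (ψ - φ - k) + (k + U)`. In the disc: `re_le_of_circle`. `U` is analytic near the closed disc
(`analytic_Hf`, in `LC8a`).
-/

set_option autoImplicit false

open Filter Topology Metric Complex Polynomial

namespace Pool.Agent.Helper58.LD

open Pool.Agent.Helper61.Lac

namespace Setup

variable {D : Setup}

lemma Ok.lam_ge (h : D.Ok) : 10 ≤ D.Lam := by
  obtain ⟨-, -, -, -, -, -, -, h1⟩ := h.par.misc
  exact h1

theorem Ok.anU (h : D.Ok) : AnalyticOnNhd ℂ D.U (closedBall 0 1) := by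
  intro z hz
  exact Core.analytic_Hf D.k (by have := h.lam_ge; linarith) D.N (by simpa using hz)

theorem Ok.anψ₁ (h : D.Ok) : AnalyticOnNhd ℂ D.ψ₁ (closedBall 0 1) :=
  h.st.anψ.add h.anU

theorem Ok.anY (h : D.Ok) : AnalyticOnNhd ℂ D.Y (closedBall 0 1) :=
  analyticOnNhd_const.add h.anψ₁.cexp

lemma Ok.inv_T (h : D.Ok) : 0 < 1 / D.T ∧ 1 / D.T ≤ 1 / 10 ^ 6 := by
  have h1 := h.par.Tpos
  exact ⟨by positivity, one_div_le_one_div_of_le (by norm_num) h.par.hT⟩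

lemma lt_big {A : ℝ} {z : ℂ} (hz : ‖z‖ ≤ 1) : ‖z‖ < 1 + Real.exp (-A) := by
  have := Real.exp_pos (-A)
  linarith

/-- `|Re k| ≤ 2 A + 1` -/
lemma Ok.re_k (h : D.Ok) {z : ℂ} (hz : ‖z‖ ≤ 1) : |(D.k.eval z).re| ≤ 2 * D.A + 1 := by
  have h1 := h.hk z hz
  have h2 := (Complex.abs_re_le_norm _).trans h1
  have h3 := h.st.rφ z (lt_big hz)
  have h4 := h.st.rψ z (lt_big hz)
  have h5 := h.inv_T.2
  rw [Complex.sub_re, Complex.sub_re] at h2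
  rw [abs_le] at *
  constructor <;> linarith [h2.1, h2.2, h3.1, h3.2, h4.1, h4.2]

lemma Ok.lt_bounds (h : D.Ok) {z : ℂ} (hz : ‖z‖ ≤ 1) :
    0 ≤ D.Lam - (D.k.eval z).re ∧ D.Lam - (D.k.eval z).re ≤ 2 * (D.l * D.T) := by
  have h1 := abs_le.1 (h.re_k hz)
  obtain ⟨h2, -, -, -, -, -, h3, -⟩ := h.par.misc
  have h4 : D.Lam ≤ D.l * D.T := h.par.lam_le
  have h5 := h.par.lT
  have h6 := h.par.hT
  have h7 : 2 * D.A + 1 ≤ D.Lam := h3
  constructor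
  · linarith [h1.1, h1.2]
  · linarith [h1.1, h1.2]

lemma Ok.deg_le (h : D.Ok) : D.k.natDegree ≤ D.N := by
  have := h.hd
  omega

theorem Ok.norm_J_circle (h : D.Ok) {z : ℂ} (hz : ‖z‖ = 1) : ‖Jf D.k D.Lam D.N z‖ ≤ 2 * (D.l * D.T) := by
  have h1 := (exponent_circle D.k (Λ := D.Lam) (by have := h.lam_ge; linarith) h.deg_le hz).2
  obtain ⟨h2, h3⟩ := h.lt_bounds hz.le
  rw [h1, abs_of_nonneg h2]
  exact h3

/-- the exponent on the circle -/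
lemma Ok.re_circle (h : D.Ok) {z : ℂ} (hz : ‖z‖ = 1) :
    |(D.ψ₁ z - D.φ z).re - (D.Lam - (D.Lam - (D.k.eval z).re) * Xf D.Lam D.N z)| ≤ 1 / D.T := by
  have h1 := (exponent_circle D.k (Λ := D.Lam) (by have := h.lam_ge; linarith) h.deg_le hz).1
  have h2 := (Complex.abs_re_le_norm _).trans (h.hk z hz.le)
  rw [← h1]
  have h3 : (D.ψ₁ z - D.φ z).re - (D.k.eval z + Hf D.k D.Lam D.N z).re =
      -((D.k.eval z - (D.ψ z - D.φ z)).re) := by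
    simp only [Setup.ψ₁, Setup.U, Complex.sub_re, Complex.add_re]
    ring
  rw [h3, abs_neg]
  exact h2

lemma Ok.Xf_nonneg (h : D.Ok) (z : ℂ) : 0 ≤ Xf D.Lam D.N z := by
  obtain ⟨h1, h2⟩ := Core.rho_pos (Λ := D.Lam) (by have := h.lam_ge; linarith)
  exact LC6.Xf_nonneg h1.le h2 D.N z

theorem Ok.re_le (h : D.Ok) {z : ℂ} (hz : ‖z‖ ≤ 1) : (D.ψ₁ z - D.φ z).re ≤ D.Lam + 1 / D.T := by
  refine re_le_of_circle (f := fun z => D.ψ₁ z - D.φ z) (h.anψ₁.sub h.st.anφ) (fun w hw => ?_) hz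
  have h1 := abs_le.1 (h.re_circle hw)
  have h2 : 0 ≤ (D.Lam - (D.k.eval w).re) * Xf D.Lam D.N w :=
    mul_nonneg (h.lt_bounds hw.le).1 (h.Xf_nonneg w)
  linarith [h1.2]

theorem Ok.re_ge_circle (h : D.Ok) {z : ℂ} (hz : ‖z‖ = 1) :
    D.Lam - 1 / D.T - 2 * (D.l * D.T) * Xf D.Lam D.N z ≤ (D.ψ₁ z - D.φ z).re := by
  have h1 := abs_le.1 (h.re_circle hz)
  have h2 : (D.Lam - (D.k.eval z).re) * Xf D.Lam D.N z ≤ 2 * (D.l * D.T) * Xf D.Lam D.N z :=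
    mul_le_mul_of_nonneg_right (h.lt_bounds hz.le).2 (h.Xf_nonneg z)
  linarith [h1.1]

/-- `W ≤ 2 V` -/
theorem Ok.W_le (h : D.Ok) {z : ℂ} (hz : ‖z‖ ≤ 1) : D.W z ≤ 2 * D.V z := by
  have h1 := h.re_le hz
  have h2 := h.inv_T.2
  obtain ⟨h3, -, h4, -, -, -, h5, -⟩ := h.par.misc
  have h6 := abs_le.1 (h.st.rφ z (lt_big hz))
  have hV : 0 < D.V z := Real.exp_pos _
  have h7 : Real.exp (D.ψ₁ z).re ≤ Real.exp (1 / 10) * D.V z := by
    rw [Setup.V, ← Real.exp_add]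
    refine Real.exp_le_exp.2 ?_
    rw [Complex.sub_re] at h1
    have h11 : (1 : ℝ) / 10 ^ 6 ≤ 1 / 10 := by norm_num
    linarith
  have h8 : Real.exp (1 / 10) ≤ 3 / 2 := by
    have h9 := Real.exp_bound_div_one_sub_of_interval (x := 1 / 10) (by norm_num) (by norm_num)
    norm_num at h9 ⊢
    linarith
  have h9 : 1 ≤ 1 / 2 * D.V z := by
    have h10 : Real.exp 1 ≤ D.V z := by
      rw [Setup.V]
      refine Real.exp_le_exp.2 ?_
      have h11 : 2 * D.A + 1 ≤ D.Lam := h5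
      have h12 := h.par.hA
      linarith [h6.1]
    have h13 := Real.exp_one_gt_d9
    linarith
  rw [Setup.W]
  have h10 : Real.exp (1 / 10) * D.V z ≤ 3 / 2 * D.V z := mul_le_mul_of_nonneg_right h8 hV.le
  linarith

end Setup

end Pool.Agent.Helper58.LD
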