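import Mathlib
import Pool.Agent.Helper61.Lac.Base

/-!
# LD: common definitions (MP_78803a_an, property (V) fails on `[0, l]`)

State of the construction: `F = exp φ`, `X = exp ψ`, `F^(l) = P (1 + X)`, on the disc
`|z| < 1 + e^(-A)`. One step replaces `(φ, ψ, P)` by a new state, see `Par`, `Next`.
Memo: /team-store/memo_MP_78803a_an_LD_helper58.md.
-/

set_option autoImplicit false

open Filter Topology Metric Complex Polynomial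

namespace Pool.Agent.Helper58.LD

open Pool.Agent.Helper61.Lac

/-- the state of the construction -/
structure State (l : ℕ) (A Q : ℝ) (φ ψ P : ℂ → ℂ) : Prop where
  dφ : DifferentiableOn ℂ φ (ball 0 (1 + Real.exp (-A)))
  dψ : DifferentiableOn ℂ ψ (ball 0 (1 + Real.exp (-A)))
  dP : DifferentiableOn ℂ P (ball 0 (1 + Real.exp (-A)))
  φ0 : φ 0 = 0
  ψ0 : ψ 0 = 0
  nφ : ∀ z : ℂ, ‖z‖ < 1 + Real.exp (-A) → ‖φ z‖ ≤ Real.exp A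
  nψ : ∀ z : ℂ, ‖z‖ < 1 + Real.exp (-A) → ‖ψ z‖ ≤ Real.exp A
  rφ : ∀ z : ℂ, ‖z‖ < 1 + Real.exp (-A) → |(φ z).re| ≤ A
  rψ : ∀ z : ℂ, ‖z‖ < 1 + Real.exp (-A) → |(ψ z).re| ≤ A
  nP : ∀ z : ℂ, ‖z‖ < 1 + Real.exp (-A) → ‖P z‖ ≤ Q
  eq : ∀ z : ℂ, ‖z‖ < 1 + Real.exp (-A) →
    iteratedDeriv l (fun z => cexp (φ z)) z = P z * (1 + cexp (ψ z))

/-- the numerical hypotheses of a step -/
structure Par (l : ℕ) (A Q T μ : ℝ) (N : ℕ) : Prop where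
  hl : 1 ≤ l
  hA : 1 ≤ A
  hA4 : A ^ 4 ≤ T
  hQ : 1 ≤ Q
  hQT : Q ≤ T
  hN : (N : ℝ) = Real.exp T
  hμ1 : √T ≤ μ
  hμ2 : μ ≤ l * T - √T
  hT : 10 ^ 6 ≤ T
  hlT : (100 * (l + 1 : ℝ)) ^ 10 ≤ T
  big : (4 * T) ^ (20 * (l + 1)) * Real.exp (20 * (l + 1) * A) ≤ Real.exp (√T / 2)

/-- the relation between a state `(φ, ψ, P)` and the next state `(φ', ψ', P')` -/
structure Next (l : ℕ) (A T μ : ℝ) (N : ℕ) (φ ψ P φ' ψ' P' : ℂ → ℂ) : Prop where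
  cφ : ∀ z : ℂ, ‖z‖ ≤ 1 - T / N → ‖φ' z - φ z‖ ≤ 1 / T
  cψ : ∀ z : ℂ, ‖z‖ ≤ 1 - T / N → ‖ψ' z - ψ z‖ ≤ 1 / T
  cP : ∀ z : ℂ, ‖z‖ ≤ 1 - T / N → ‖P' z - P z‖ ≤ 1 / T
  upper : ∀ r : ℝ, 0 ≤ r → r ≤ 1 →
    Real.circleAverage (fun z => max (φ' z).re 0) 0 r ≤ A + μ + 1
  lower : (1 - 12 / Real.log T) * μ - A - 1 ≤
    Real.circleAverage (fun z => max (-(φ' z).re) 0) 0 (1 - (l + 1) / (N * T ^ 10))

/-- the step theorem -/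
def StepStatement (l : ℕ) : Prop :=
  ∃ T₀ : ℝ, ∀ (A Q T μ : ℝ) (N : ℕ) (φ ψ P : ℂ → ℂ), T₀ ≤ T → 1 ≤ A → A ^ 4 ≤ T → 1 ≤ Q →
    Q ≤ T → (N : ℝ) = Real.exp T → √T ≤ μ → μ ≤ l * T - √T → State l A Q φ ψ P →
    ∃ φ' ψ' P' : ℂ → ℂ, State l (T ^ 5) (T ^ (12 * l + 3)) φ' ψ' P' ∧
      Next l A T μ N φ ψ P φ' ψ' P'

/-! ### The data of one step -/

/-- all data of a step -/
structure Setup where
  l : ℕ
  A : ℝ
  Q : ℝ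
  T : ℝ
  μ : ℝ
  N : ℕ
  φ : ℂ → ℂ
  ψ : ℂ → ℂ
  P : ℂ → ℂ
  k : ℂ[X]

/-- `b_(i+1) = bseq l Y g i`: `(exp (Y ^ (l + 1) * g))^(i+1) = exp (..) * Y ^ (l - i) * bseq l Y g i` -/
noncomputable def bseq (l : ℕ) (Y g : ℂ → ℂ) : ℕ → ℂ → ℂ
  | 0 => fun z => (l + 1 : ℂ) * deriv Y z * g z + Y z * deriv g z
  | i + 1 => fun z => ((l : ℂ) - i) * deriv Y z * bseq l Y g i z + Y z * deriv (bseq l Y g i) z
      + Y z ^ (l + 1) * ((l + 1 : ℂ) * deriv Y z * g z + Y z * deriv g z) * bseq l Y g i z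

/-- the error term of the coefficient -/
noncomputable def rhoF (l : ℕ) (Y g F : ℂ → ℂ) : ℂ → ℂ := fun z =>
  ∑ i ∈ Finset.range l, (l.choose (i + 1) : ℂ) * Y z ^ (l - 1 - i) * bseq l Y g i z *
    iteratedDeriv (l - 1 - i) F z

namespace Setup

variable (D : Setup)

/-- the hypotheses on the data -/
structure Ok (D : Setup) : Prop where
  par : Par D.l D.A D.Q D.T D.μ D.N
  st : State D.l D.A D.Q D.φ D.ψ D.P
  hd : 4 * D.k.natDegree ≤ D.N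
  hk : ∀ z : ℂ, ‖z‖ ≤ 1 → ‖D.k.eval z - (D.ψ z - D.φ z)‖ ≤ 1 / D.T

/-- `Λ = log S`, `S = N ^ l / (2 ^ (l + 5) Q T)` -/
noncomputable def Lam : ℝ := D.l * D.T - Real.log (2 ^ (D.l + 5) * D.Q * D.T)

/-- `U = -2 ϱ J / (1 - ϱ z ^ N)` -/
noncomputable def U : ℂ → ℂ := Hf D.k D.Lam D.N

/-- `ψ₁ = ψ + U`, `X₁ = exp ψ₁` -/
noncomputable def ψ₁ : ℂ → ℂ := fun z => D.ψ z + D.U z

/-- `Y = 1 + X₁` -/
noncomputable def Y : ℂ → ℂ := fun z => 1 + cexp (D.ψ₁ z)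

/-- the normalising constant -/
noncomputable def c : ℝ := Real.exp (-((D.l + 2 : ℝ) * (D.Lam + 2 / D.T)))

/-- `p = z c X₁ Y ^ (l + 1) / F ^ (l + 2)` -/
noncomputable def p : ℂ → ℂ := fun z =>
  z * (D.c : ℂ) * cexp (D.ψ₁ z) * D.Y z ^ (D.l + 1) * cexp (-((D.l + 2 : ℂ) * D.φ z))

/-- the second damping parameter -/
noncomputable def r₀ : ℝ := 1 - 1 / D.T

/-- `G = 2 μ r₀ p / (1 - r₀ p)` -/
noncomputable def G : ℂ → ℂ := fun z =>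
  2 * (D.μ : ℂ) * (D.r₀ : ℂ) * D.p z / (1 - (D.r₀ : ℂ) * D.p z)

/-- `g = G / Y ^ (l + 1)` -/
noncomputable def g : ℂ → ℂ := fun z =>
  2 * (D.μ : ℂ) * (D.r₀ : ℂ) * (z * (D.c : ℂ) * cexp (D.ψ₁ z) * cexp (-((D.l + 2 : ℂ) * D.φ z))) /
    (1 - (D.r₀ : ℂ) * D.p z)

/-- `v = (1 - 1 / H) / X₁`, `H = exp G` -/
noncomputable def v : ℂ → ℂ := fun z => (1 - cexp (-(D.G z))) * cexp (-(D.ψ₁ z))

/-- the weight `W = 1 + |X₁|` -/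
noncomputable def W : ℂ → ℝ := fun z => 1 + Real.exp (D.ψ₁ z).re

/-- the weight `V = S |F|` -/
noncomputable def V : ℂ → ℝ := fun z => Real.exp (D.Lam + (D.φ z).re)

/-- `δ` is an `l`-fold primitive of `P X (exp U - 1)`, small relative to `F` -/
structure IsDelta (D : Setup) (δ : ℂ → ℂ) : Prop where
  an : AnalyticOnNhd ℂ δ (closedBall 0 1)
  eq : ∀ z ∈ ball (0 : ℂ) 1,
    iteratedDeriv D.l δ z = D.P z * cexp (D.ψ z) * (cexp (D.U z) - 1)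
  bd : ∀ z : ℂ, ‖z‖ ≤ 1 →
    ‖δ z‖ ≤ Real.exp (D.φ z).re * ‖z‖ ^ (D.N - D.k.natDegree) / (4 * D.T)

/-- `F₁ = F + δ` -/
noncomputable def F₁ (δ : ℂ → ℂ) : ℂ → ℂ := fun z => cexp (D.φ z) + δ z

/-- the new exponent of `F` (before the dilation) -/
noncomputable def φ₂ (δ : ℂ → ℂ) : ℂ → ℂ := fun z =>
  D.φ z + Complex.log (1 + δ z * cexp (-(D.φ z))) + D.G z

/-- the new exponent of `X` (before the dilation) -/
noncomputable def ψ₂ : ℂ → ℂ := fun z => D.ψ₁ z + D.G z + Complex.log (1 + D.v z)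

/-- the error term of the coefficient -/
noncomputable def ρ (δ : ℂ → ℂ) : ℂ → ℂ := rhoF D.l D.Y D.g (D.F₁ δ)

/-- the unit of length near the circle -/
noncomputable def s₁ : ℝ := 1 / (D.N * D.T ^ 10)

/-- the dilation parameter -/
noncomputable def s : ℝ := (D.l + 1) * D.s₁

end Setup

end Pool.Agent.Helper58.LD
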