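import Pool.Agent.Helper58.LD.WPrim

/-!
# LD-06: iterated weighted primitive

Induction on `l` with `wprim` (the exponent grows, `n + 1 - b ≥ x` stays true, drop the additional powers of
`|z| ≤ 1`). For the derivative identity on the open ball use `iteratedDeriv_succ'` (the `l+1`-st iterated
derivative of `G` is the `l`-th one of `deriv G`, and `deriv G` agrees with the `l`-fold primitive on the open
unit ball: `Filter.EventuallyEq.iteratedDeriv_eq` or similar). It is easiest to first take the `l`-fold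
primitive `δ₀` of `g` and then the primitive `δ` of `δ₀`.
-/

set_option autoImplicit false

open Filter Topology Metric Complex

namespace Pool.Agent.Helper58.LD

theorem wprim_iter (l : ℕ) {φ g : ℂ → ℂ} {b C x : ℝ} {n : ℕ} (hφ : AnalyticOnNhd ℂ φ (closedBall 0 1))
    (hb0 : 0 ≤ b) (hφ' : ∀ z : ℂ, ‖z‖ ≤ 1 → ‖deriv φ z‖ ≤ b) (hx : 0 < x) (hb : x ≤ n + 1 - b)
    (hC : 0 ≤ C) (hg : AnalyticOnNhd ℂ g (closedBall 0 1))
    (hgb : ∀ z : ℂ, ‖z‖ ≤ 1 → ‖g z‖ ≤ C * Real.exp (φ z).re * ‖z‖ ^ n) :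
    ∃ δ : ℂ → ℂ, AnalyticOnNhd ℂ δ (closedBall 0 1) ∧
      (∀ z ∈ ball (0 : ℂ) 1, iteratedDeriv l δ z = g z) ∧
      ∀ z : ℂ, ‖z‖ ≤ 1 → ‖δ z‖ ≤ C / x ^ l * Real.exp (φ z).re * ‖z‖ ^ n := by
  induction l with
  | zero =>
    refine ⟨g, hg, fun z _ => by rw [iteratedDeriv_zero], fun z hz => ?_⟩
    rw [pow_zero, div_one]
    exact hgb z hz
  | succ l ih =>
    obtain ⟨δ₀, h1, h2, h3⟩ := ih
    obtain ⟨δ, h4, h5, h6⟩ := wprim (C := C / x ^ l) (n := n) hφ hb0 hφ' (by linarith)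
      (by positivity) h1 h3
    refine ⟨δ, h4, fun z hz => ?_, fun z hz => ?_⟩
    · rw [iteratedDeriv_succ', ← h2 z hz]
      refine Filter.EventuallyEq.iteratedDeriv_eq l ?_
      filter_upwards [isOpen_ball.mem_nhds hz] with w hw
      exact (h5 w (ball_subset_closedBall hw)).deriv
    · refine (h6 z hz).trans ?_
      have h7 : C / x ^ l / (n + 1 - b) ≤ C / x ^ (l + 1) := by
        rw [pow_succ, ← div_div]
        exact div_le_div_of_nonneg_left (by positivity) hx hb
      have h8 : ‖z‖ ^ (n + 1) ≤ ‖z‖ ^ n := pow_le_pow_of_le_one (norm_nonneg _) hz (by omega)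
      refine mul_le_mul ?_ h8 (by positivity) (by positivity)
      exact mul_le_mul_of_nonneg_right h7 (Real.exp_pos _).le

end Pool.Agent.Helper58.LD
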