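import Pool.Agent.Helper58.LD.UB
import Pool.Agent.Helper58.LD.WPrimIter

/-!
# LD-16: the function `δ`

Let `m = N - natDegree k`, `g₀ = P e^ψ (e^U - 1)`. `U = z ^ m u` (`U_factor`) and `e^U - 1 = U E(U)` with the entire function
`E = dslope exp 0` (or `E` analytic with `exp w - 1 = w E w`), so `e^ψ (e^U - 1) = z ^ m h`, `h = e^ψ u E(U)` analytic near the
closed disc. On `|z| = 1`: `|e^ψ (e^U - 1)| ≤ e^(Re ψ₁) + e^(Re ψ) ≤ (e^(Λ + 1/T) + e^(2A)) |F| ≤ 3 e^Λ |F|` (`re_le`, `Par.misc`). So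
(`schwarz_weighted`) `|g₀| ≤ 3 Q e^Λ |F| |z| ^ m` on the closed disc. Apply `wprim_iter` with `n = m`, `b = 2 e^(2A)`, `x = N / 2`
(`m ≥ 3N/4`, `b ≤ N / 4`), `C = 3 Q e^Λ` and `Par.delta_err`.
`F₁_deriv`: `(F + δ)^(l) = P (1 + e^ψ) + P e^ψ (e^U - 1) = P (1 + e^(ψ + U))` (`iteratedDeriv_add`/`iteratedDeriv_fun_add`,
`State.eq`). `small`: `|δ / F| ≤ 1 / (4 T)`.
-/

set_option autoImplicit false

open Filter Topology Metric Complex Polynomial

namespace Pool.Agent.Helper58.LD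

namespace Setup

variable {D : Setup} {δ : ℂ → ℂ}

private lemma exists_E : ∃ E : ℂ → ℂ, Differentiable ℂ E ∧ ∀ w : ℂ, cexp w - 1 = w * E w := by
  refine ⟨dslope cexp 0, ?_, ?_⟩
  · have h1 : DifferentiableOn ℂ (dslope cexp 0) Set.univ :=
      (Complex.differentiableOn_dslope Filter.univ_mem).2
        Complex.differentiable_exp.differentiableOn
    exact differentiableOn_univ.1 h1
  · intro w
    have h1 := sub_smul_dslope cexp 0 w
    rw [sub_zero, Complex.exp_zero, smul_eq_mul] at h1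
    exact h1.symm

private lemma Ok.exists_h (h : D.Ok) : ∃ hf : ℂ → ℂ, AnalyticOnNhd ℂ hf (closedBall 0 1) ∧
    ∀ z : ℂ, cexp (D.ψ z) * (cexp (D.U z) - 1) = z ^ (D.N - D.k.natDegree) * hf z := by
  obtain ⟨u, hu, huz⟩ := h.U_factor
  obtain ⟨E, hE, hEw⟩ := exists_E
  refine ⟨fun z => cexp (D.ψ z) * u z * E (D.U z), ?_, ?_⟩
  · have h1 : AnalyticOnNhd ℂ (fun z => cexp (D.ψ z)) (closedBall 0 1) :=
      fun z hz => (h.st.anψ z hz).cexp
    have h2 : AnalyticOnNhd ℂ (fun z => E (D.U z)) (closedBall 0 1) := by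
      intro z hz
      have h3 : AnalyticAt ℂ E (D.U z) :=
        hE.differentiableOn.analyticAt (s := Set.univ) Filter.univ_mem
      exact h3.comp (h.anU z hz)
    exact fun z hz => ((h1 z hz).mul (hu z hz)).mul (h2 z hz)
  · intro z
    rw [hEw (D.U z)]
    calc cexp (D.ψ z) * (D.U z * E (D.U z))
        = D.U z * (cexp (D.ψ z) * E (D.U z)) := by ring
      _ = z ^ (D.N - D.k.natDegree) * u z * (cexp (D.ψ z) * E (D.U z)) := by
          rw [show D.U z * (cexp (D.ψ z) * E (D.U z)) =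
            z ^ (D.N - D.k.natDegree) * u z * (cexp (D.ψ z) * E (D.U z)) from
            congrArg (· * (cexp (D.ψ z) * E (D.U z))) (huz z)]
      _ = _ := by ring

private lemma Ok.prod_bd (h : D.Ok) {z : ℂ} (hz : ‖z‖ ≤ 1) :
    ‖cexp (D.ψ z) * (cexp (D.U z) - 1)‖ ≤
      3 * Real.exp D.Lam * Real.exp (D.φ z).re * ‖z‖ ^ (D.N - D.k.natDegree) := by
  obtain ⟨hf, hfa, hfz⟩ := h.exists_h
  rw [hfz z]
  refine schwarz_weighted hfa h.st.anφ ?_ hz
  intro w hw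
  rw [← hfz w]
  have hpar := h.par
  obtain ⟨-, -, h3, -⟩ := hpar.misc
  have hT := hpar.hT
  have hT1 := hpar.T1
  have hA := hpar.hA
  have hTp := hpar.Tpos
  have hwb : ‖w‖ < 1 + Real.exp (-D.A) := by
    have := Real.exp_pos (-D.A)
    linarith
  have e1 : cexp (D.ψ w) * (cexp (D.U w) - 1) = cexp (D.ψ₁ w) - cexp (D.ψ w) := by
    unfold Setup.ψ₁
    rw [Complex.exp_add]
    ring
  rw [e1]
  refine (norm_sub_le _ _).trans ?_
  rw [Complex.norm_exp, Complex.norm_exp]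
  -- first term
  have h4 := h.re_le hw.le
  rw [Complex.sub_re] at h4
  have h5 : Real.exp (D.ψ₁ w).re ≤ 2 * Real.exp D.Lam * Real.exp (D.φ w).re := by
    have h6 : (D.ψ₁ w).re ≤ 1 / D.T + (D.Lam + (D.φ w).re) := by linarith
    have h7 : Real.exp (1 / D.T) ≤ 2 := by
      have h8 : (1 : ℝ) / D.T ≤ Real.log 2 := by
        have h9 : (1 : ℝ) / D.T ≤ 1 / 10 ^ 6 := one_div_le_one_div_of_le (by norm_num) hT
        have := Real.log_two_gt_d9
        norm_num at h9 ⊢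
        linarith
      calc Real.exp (1 / D.T) ≤ Real.exp (Real.log 2) := Real.exp_le_exp.2 h8
        _ = 2 := Real.exp_log (by norm_num)
    calc Real.exp (D.ψ₁ w).re ≤ Real.exp (1 / D.T + (D.Lam + (D.φ w).re)) :=
          Real.exp_le_exp.2 h6
      _ = Real.exp (1 / D.T) * (Real.exp D.Lam * Real.exp (D.φ w).re) := by
          rw [Real.exp_add, Real.exp_add]
      _ ≤ 2 * (Real.exp D.Lam * Real.exp (D.φ w).re) :=
          mul_le_mul_of_nonneg_right h7 (by positivity)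
      _ = _ := by ring
  -- second term
  have h10 : Real.exp (D.ψ w).re ≤ Real.exp D.Lam * Real.exp (D.φ w).re := by
    have h11 := (abs_le.1 (h.st.rψ w hwb)).2
    have h12 := (abs_le.1 (h.st.rφ w hwb)).1
    have h13 : Real.exp (4 * D.A) ≤ Real.exp D.Lam := by
      refine le_trans ?_ h3
      have h14 : (1 : ℝ) ≤ D.T ^ 12 := one_le_pow₀ hT1
      have h15 := Real.exp_pos (4 * D.A)
      nlinarith
    have h16 : 4 * D.A ≤ D.Lam := Real.exp_le_exp.1 h13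
    rw [← Real.exp_add]
    exact Real.exp_le_exp.2 (by linarith)
  linarith

theorem Ok.exists_delta (h : D.Ok) : ∃ δ : ℂ → ℂ, D.IsDelta δ := by
  have hpar := h.par
  obtain ⟨-, h2, -, -⟩ := hpar.misc
  have hT := hpar.hT
  have hT1 := hpar.T1
  have hA := hpar.hA
  have hTp := hpar.Tpos
  have hQ : 0 ≤ D.Q := by
    have := hpar.hQ
    linarith
  have hNr : (0 : ℝ) < D.N := by
    rw [hpar.hN]
    exact Real.exp_pos _
  have hdN : D.k.natDegree ≤ D.N := by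
    have := h.hd
    omega
  have hm : (3 / 4 : ℝ) * D.N ≤ ((D.N - D.k.natDegree : ℕ) : ℝ) := by
    rw [Nat.cast_sub hdN]
    have : (4 : ℝ) * D.k.natDegree ≤ D.N := by exact_mod_cast h.hd
    linarith
  have hb : 2 * Real.exp (2 * D.A) ≤ D.N / 4 := by
    have h3 : Real.exp (2 * D.A) ≤ Real.exp (4 * D.A) := Real.exp_le_exp.2 (by linarith)
    have h4 : (2 : ℝ) ≤ D.T ^ 12 := by
      calc (2 : ℝ) ≤ D.T := by linarith
        _ = D.T ^ 1 := (pow_one _).symm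
        _ ≤ D.T ^ 12 := pow_le_pow_right₀ hT1 (by norm_num)
    have h5 := Real.exp_pos (4 * D.A)
    nlinarith
  obtain ⟨δ, hδ1, hδ2, hδ3⟩ := wprim_iter D.l (φ := D.φ)
    (g := fun z => D.P z * cexp (D.ψ z) * (cexp (D.U z) - 1)) (b := 2 * Real.exp (2 * D.A))
    (C := 3 * D.Q * Real.exp D.Lam) (x := (D.N : ℝ) / 2) (n := D.N - D.k.natDegree)
    h.st.anφ (by positivity) (fun z hz => h.st.derivφ hz) (by positivity) (by linarith)
    (by positivity)
    (fun z hz => ((h.st.anP z hz).mul (h.st.anψ z hz).cexp).mul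
      ((h.anU z hz).cexp.sub analyticAt_const))
    (by
      intro z hz
      have hzb : ‖z‖ < 1 + Real.exp (-D.A) := by
        have := Real.exp_pos (-D.A)
        linarith
      have h6 := h.prod_bd hz
      have h7 := h.st.nP z hzb
      rw [mul_assoc, norm_mul]
      calc ‖D.P z‖ * ‖cexp (D.ψ z) * (cexp (D.U z) - 1)‖
          ≤ D.Q * (3 * Real.exp D.Lam * Real.exp (D.φ z).re *
            ‖z‖ ^ (D.N - D.k.natDegree)) := mul_le_mul h7 h6 (norm_nonneg _) hQ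
        _ = _ := by ring)
  refine ⟨δ, hδ1, hδ2, fun z hz => ?_⟩
  refine (hδ3 z hz).trans ?_
  have h8 : 3 * D.Q * Real.exp D.Lam / ((D.N : ℝ) / 2) ^ D.l ≤ 1 / (4 * D.T) := hpar.delta_err
  calc 3 * D.Q * Real.exp D.Lam / ((D.N : ℝ) / 2) ^ D.l * Real.exp (D.φ z).re *
        ‖z‖ ^ (D.N - D.k.natDegree)
      = 3 * D.Q * Real.exp D.Lam / ((D.N : ℝ) / 2) ^ D.l * (Real.exp (D.φ z).re *
        ‖z‖ ^ (D.N - D.k.natDegree)) := by ring
    _ ≤ 1 / (4 * D.T) * (Real.exp (D.φ z).re * ‖z‖ ^ (D.N - D.k.natDegree)) :=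
        mul_le_mul_of_nonneg_right h8 (by positivity)
    _ = _ := by ring

theorem Ok.F₁_deriv (h : D.Ok) (hδ : D.IsDelta δ) {z : ℂ} (hz : ‖z‖ < 1) :
    iteratedDeriv D.l (D.F₁ δ) z = D.P z * D.Y z := by
  have hzc : z ∈ closedBall (0 : ℂ) 1 := by
    rw [mem_closedBall_zero_iff]
    exact hz.le
  have hzb : ‖z‖ < 1 + Real.exp (-D.A) := by
    have := Real.exp_pos (-D.A)
    linarith
  have h1 : ContDiffAt ℂ D.l (fun z => cexp (D.φ z)) z := (h.st.anφ z hzc).cexp.contDiffAt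
  have h2 : ContDiffAt ℂ D.l δ z := (hδ.an z hzc).contDiffAt
  have h3 : iteratedDeriv D.l (D.F₁ δ) z =
      iteratedDeriv D.l (fun z => cexp (D.φ z)) z + iteratedDeriv D.l δ z :=
    iteratedDeriv_fun_add h1 h2
  rw [h3, h.st.eq z hzb, hδ.eq z (by rw [mem_ball_zero_iff]; exact hz)]
  unfold Setup.Y Setup.ψ₁
  rw [Complex.exp_add]
  ring

private lemma delta_bd (hδ : D.IsDelta δ) {z : ℂ} (hz : ‖z‖ ≤ 1) :
    ‖δ z * cexp (-(D.φ z))‖ ≤ ‖z‖ ^ (D.N - D.k.natDegree) / (4 * D.T) := by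
  rw [norm_mul, Complex.norm_exp, Complex.neg_re]
  have h1 := hδ.bd z hz
  have h2 := mul_le_mul_of_nonneg_right h1 (Real.exp_pos (-(D.φ z).re)).le
  refine h2.trans (le_of_eq ?_)
  have h3 : Real.exp (D.φ z).re * Real.exp (-(D.φ z).re) = 1 := by
    rw [← Real.exp_add]
    simp
  calc Real.exp (D.φ z).re * ‖z‖ ^ (D.N - D.k.natDegree) / (4 * D.T) *
        Real.exp (-(D.φ z).re)
      = (Real.exp (D.φ z).re * Real.exp (-(D.φ z).re)) *
        (‖z‖ ^ (D.N - D.k.natDegree) / (4 * D.T)) := by ring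
    _ = _ := by rw [h3, one_mul]

theorem Ok.delta_small (h : D.Ok) (hδ : D.IsDelta δ) {z : ℂ} (hz : ‖z‖ ≤ 1) :
    ‖δ z * cexp (-(D.φ z))‖ ≤ 1 / (4 * D.T) := by
  have hTp := h.par.Tpos
  refine (delta_bd hδ hz).trans ?_
  exact div_le_div_of_nonneg_right (pow_le_one₀ (norm_nonneg _) hz) (by positivity)

theorem Ok.delta_inner (h : D.Ok) (hδ : D.IsDelta δ) {z : ℂ} (hz : ‖z‖ ≤ 1 - D.T / D.N) :
    ‖δ z * cexp (-(D.φ z))‖ ≤ Real.exp (-(3 * D.T / 4)) := by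
  have hpar := h.par
  have hTp := hpar.Tpos
  have hT1 := hpar.T1
  have hNr : (0 : ℝ) < D.N := by
    rw [hpar.hN]
    exact Real.exp_pos _
  have hz1 : ‖z‖ ≤ 1 := by
    have : 0 ≤ D.T / D.N := by positivity
    linarith
  refine (delta_bd hδ hz1).trans ?_
  refine le_trans ?_ (hpar.inner_pow h.hd (norm_nonneg z) hz)
  refine div_le_self (by positivity) (by linarith)

/-- `‖F₁‖ ≤ (2 / S) V` -/
theorem Ok.norm_F₁ (h : D.Ok) (hδ : D.IsDelta δ) {z : ℂ} (hz : ‖z‖ ≤ 1) :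
    ‖D.F₁ δ z‖ ≤ 2 * Real.exp (-D.Lam) * D.V z := by
  have hpar := h.par
  have hTp := hpar.Tpos
  have hT1 := hpar.T1
  have e1 : 2 * Real.exp (-D.Lam) * D.V z = 2 * Real.exp (D.φ z).re := by
    unfold Setup.V
    rw [mul_assoc, ← Real.exp_add]
    congr 2
    ring
  rw [e1]
  have h1 : ‖δ z‖ ≤ Real.exp (D.φ z).re := by
    refine (hδ.bd z hz).trans ?_
    have h2 : ‖z‖ ^ (D.N - D.k.natDegree) ≤ 1 := pow_le_one₀ (norm_nonneg _) hz
    have h3 : Real.exp (D.φ z).re * ‖z‖ ^ (D.N - D.k.natDegree) ≤ Real.exp (D.φ z).re :=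
      mul_le_of_le_one_right (Real.exp_pos _).le h2
    refine le_trans ?_ h3
    exact div_le_self (by positivity) (by linarith)
  have h4 : ‖D.F₁ δ z‖ ≤ ‖cexp (D.φ z)‖ + ‖δ z‖ := norm_add_le _ _
  rw [Complex.norm_exp] at h4
  linarith

end Setup

end Pool.Agent.Helper58.LD
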