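import Pool.Agent.Helper58.LD.Ident

/-!
# LD-22: the dilation gives a new state

`φ' z = φ₂ ((1 - s) z)`, `ψ' z = ψ₂ ((1 - s) z)`, `P' z = (1 - s) ^ l (P + ρ) ((1 - s) z)`, `s = (l + 1) s₁`, `s₁ = 1/(N T ^ 10)`.
For `|z| < 1 + e^(-T ^ 5)`: `|(1 - s) z| ≤ 1 - l s₁ < 1` as `e^(-T ^ 5) ≤ s₁` (`T ^ 5 ≥ T + 10 log T`). Then
`|φ'| ≤ e^A + 2 μ T + 1 ≤ e^(T ^ 5)` (`φ₂_sub`, `norm_G`, `norm_p`), `|Re φ'| ≤ A + 2 μ T + 1 ≤ T ^ 5`,
`|ψ'| ≤ e^A + 4 (l T) ^ 4 + 2 μ T + 1`, `|Re ψ'| ≤ A + 4 (l T) ^ 4 + 2 μ T + 1 ≤ T ^ 5` (`ψ₂_sub`, `norm_U`; `l ^ 4 ≤ T/100`),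
`|P'| ≤ Q + T ^ (12 l + 3) - T`. The identity: `iteratedDeriv l (f (a ·)) z = a ^ l iteratedDeriv l f (a z)`
(`iteratedDeriv_comp_const_mul` or similar; only `ContDiff` versions may exist, then argue by induction on the open
disc).
-/

set_option autoImplicit false

open Filter Topology Metric Complex Polynomial

namespace Pool.Agent.Helper58.LD

namespace Setup

variable {D : Setup} {δ : ℂ → ℂ}

private theorem N_pos (h : D.Ok) : (0 : ℝ) < D.N := by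
  rw [h.par.hN]
  exact Real.exp_pos _

theorem Ok.s_bounds (h : D.Ok) : 0 < D.s₁ ∧ 0 < D.s ∧ D.s ≤ 1 / 4 ∧
    Real.exp (-(D.T ^ 5)) ≤ D.s₁ ∧ 4 * D.T ^ 2 * Real.exp (2 * D.A) * D.s ≤ 1 / (8 * D.T) ∧ D.s ≤ D.T / D.N := by
  have hN := N_pos h
  have hT := h.par.Tpos
  have hT1 := h.par.T1
  have hT6 := h.par.hT
  have hl := h.par.l_le
  obtain ⟨-, hm, -⟩ := h.par.misc
  have hA := h.par.hA
  have hl0 : (0 : ℝ) ≤ D.l := Nat.cast_nonneg _
  have hT10 : (1 : ℝ) ≤ D.T ^ 10 := one_le_pow₀ hT1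
  have hs1 : 0 < D.s₁ := by
    unfold Setup.s₁
    positivity
  have hs : 0 < D.s := by
    unfold Setup.s
    positivity
  have hsN : D.s ≤ D.T / (100 * (D.N * D.T ^ 10)) := by
    unfold Setup.s Setup.s₁
    rw [mul_one_div, div_le_div_iff₀ (by positivity) (by positivity)]
    have h1 : (D.l + 1 : ℝ) * 100 ≤ D.T := by linarith
    calc (D.l + 1 : ℝ) * (100 * (D.N * D.T ^ 10)) = (D.l + 1 : ℝ) * 100 * (D.N * D.T ^ 10) := by ring
      _ ≤ D.T * (D.N * D.T ^ 10) := mul_le_mul_of_nonneg_right h1 (by positivity)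
  have hN1 : (1 : ℝ) ≤ D.N := by
    rw [h.par.hN]
    exact Real.one_le_exp hT.le
  have hsT : D.s ≤ D.T / D.N := by
    refine hsN.trans ?_
    refine div_le_div_of_nonneg_left hT.le hN ?_
    nlinarith
  refine ⟨hs1, hs, ?_, ?_, ?_, hsT⟩
  · refine hsN.trans ?_
    rw [div_le_div_iff₀ (by positivity) (by norm_num)]
    have h2 : D.T ≤ D.T ^ 10 := by
      calc D.T = D.T ^ 1 := (pow_one _).symm
        _ ≤ D.T ^ 10 := pow_le_pow_right₀ hT1 (by norm_num)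
    nlinarith [mul_le_mul hN1 h2 hT.le hN.le]
  · unfold Setup.s₁
    rw [le_div_iff₀ (by positivity), h.par.hN]
    have h2 : D.T ^ 10 ≤ Real.exp (10 * D.T) := by
      have h3 : D.T ≤ Real.exp D.T := by
        have := Real.add_one_le_exp D.T
        linarith
      calc D.T ^ 10 ≤ Real.exp D.T ^ 10 := pow_le_pow_left₀ hT.le h3 _
        _ = Real.exp (10 * D.T) := by
          rw [← Real.exp_nat_mul]
          norm_num
    have h4 : 11 * D.T ≤ D.T ^ 5 := by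
      have h5 : D.T ^ 2 ≤ D.T ^ 5 := pow_le_pow_right₀ hT1 (by norm_num)
      nlinarith
    calc Real.exp (-(D.T ^ 5)) * (Real.exp D.T * D.T ^ 10)
        ≤ Real.exp (-(D.T ^ 5)) * (Real.exp D.T * Real.exp (10 * D.T)) := by
          refine mul_le_mul_of_nonneg_left ?_ (Real.exp_pos _).le
          exact mul_le_mul_of_nonneg_left h2 (Real.exp_pos _).le
      _ = Real.exp (-(D.T ^ 5) + (D.T + 10 * D.T)) := by rw [← Real.exp_add, ← Real.exp_add]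
      _ ≤ 1 := by
          rw [← Real.exp_zero]
          exact Real.exp_le_exp.2 (by linarith)
  · have h2 : Real.exp (2 * D.A) ≤ Real.exp (4 * D.A) := Real.exp_le_exp.2 (by linarith)
    have h3 : Real.exp (2 * D.A) * (4 * D.T ^ 12) ≤ D.N := by
      calc Real.exp (2 * D.A) * (4 * D.T ^ 12) ≤ Real.exp (4 * D.A) * (4 * D.T ^ 12) :=
            mul_le_mul_of_nonneg_right h2 (by positivity)
        _ = 4 * Real.exp (4 * D.A) * D.T ^ 12 := by ring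
        _ ≤ D.N := hm
    calc 4 * D.T ^ 2 * Real.exp (2 * D.A) * D.s
        ≤ 4 * D.T ^ 2 * Real.exp (2 * D.A) * (D.T / (100 * (D.N * D.T ^ 10))) :=
          mul_le_mul_of_nonneg_left hsN (by positivity)
      _ = (Real.exp (2 * D.A) * (4 * D.T ^ 12)) / (100 * D.N * D.T ^ 19) := by
          field_simp
      _ ≤ D.N / (100 * D.N * D.T ^ 19) := div_le_div_of_nonneg_right h3 (by positivity)
      _ = 1 / (100 * D.T ^ 19) := by field_simp
      _ ≤ 1 / (8 * D.T) := by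
          refine one_div_le_one_div_of_le (by positivity) ?_
          have h4 : D.T ≤ D.T ^ 19 := by
            calc D.T = D.T ^ 1 := (pow_one _).symm
              _ ≤ D.T ^ 19 := pow_le_pow_right₀ hT1 (by norm_num)
          nlinarith

private theorem iter_dil (f : ℂ → ℂ) (a : ℂ) (n : ℕ) :
    iteratedDeriv n (fun z => f (a * z)) = fun z => a ^ n * iteratedDeriv n f (a * z) := by
  induction n with
  | zero =>
    funext z
    simp
  | succ n ih =>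
    funext z
    rw [iteratedDeriv_succ, ih, iteratedDeriv_succ]
    have h1 : deriv (fun z => a ^ n * iteratedDeriv n f (a * z)) z =
        a ^ n * deriv (fun z => iteratedDeriv n f (a * z)) z := deriv_const_mul_field _
    have h2 : deriv (fun z => iteratedDeriv n f (a * z)) z =
        a • deriv (iteratedDeriv n f) (a * z) := deriv_comp_mul_left a (iteratedDeriv n f) z
    rw [h1, h2, smul_eq_mul, pow_succ]
    ring

theorem Ok.new_state (h : D.Ok) (hδ : D.IsDelta δ)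
    (hρ : ∀ z : ℂ, ‖z‖ ≤ 1 - D.l * D.s₁ → ‖D.ρ δ z‖ ≤ D.T ^ (12 * D.l + 3) - D.T) :
    State D.l (D.T ^ 5) (D.T ^ (12 * D.l + 3)) (fun z => D.φ₂ δ ((1 - D.s : ℝ) * z))
      (fun z => D.ψ₂ ((1 - D.s : ℝ) * z))
      (fun z => ((1 - D.s : ℝ) : ℂ) ^ D.l * (D.P ((1 - D.s : ℝ) * z) + D.ρ δ ((1 - D.s : ℝ) * z))) := by
  obtain ⟨hs1, hs, hs4, hexp, -, -⟩ := h.s_bounds
  have hT := h.par.Tpos
  have hT1 := h.par.T1
  have hT6 := h.par.hT
  have hl := h.par.l_le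
  obtain ⟨hTA, -, -, hμ0, hμ, -⟩ := h.par.misc
  have hA := h.par.hA
  have hQ := h.par.hQ
  have hQT := h.par.hQT
  have hlT := h.par.hlT
  have hl0 : (0 : ℝ) ≤ D.l := Nat.cast_nonneg _
  have hl1 : (1 : ℝ) ≤ D.l := by exact_mod_cast h.par.hl
  have ha0 : 0 ≤ 1 - D.s := by linarith
  have ha1 : 1 - D.s ≤ 1 := by linarith
  have hsd : D.s = (D.l + 1) * D.s₁ := rfl
  -- points of the larger disc
  have hin : ∀ z : ℂ, ‖z‖ < 1 + Real.exp (-(D.T ^ 5)) →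
      ‖((1 - D.s : ℝ) : ℂ) * z‖ ≤ 1 - D.l * D.s₁ := by
    intro z hz
    rw [norm_mul, Complex.norm_real, Real.norm_eq_abs, abs_of_nonneg ha0]
    have h1 : (1 - D.s) * ‖z‖ ≤ (1 - D.s) * (1 + D.s₁) :=
      mul_le_mul_of_nonneg_left (by linarith) ha0
    nlinarith
  have hls1 : 0 < D.l * D.s₁ := by positivity
  have hin1 : ∀ z : ℂ, ‖z‖ < 1 + Real.exp (-(D.T ^ 5)) → ‖((1 - D.s : ℝ) : ℂ) * z‖ ≤ 1 := by
    intro z hz
    have := hin z hz
    linarith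
  have hin2 : ∀ z : ℂ, ‖z‖ < 1 + Real.exp (-(D.T ^ 5)) → ‖((1 - D.s : ℝ) : ℂ) * z‖ < 1 := by
    intro z hz
    have := hin z hz
    linarith
  have hdiff : ∀ f : ℂ → ℂ, AnalyticOnNhd ℂ f (closedBall 0 1) →
      DifferentiableOn ℂ (fun z => f (((1 - D.s : ℝ) : ℂ) * z))
        (ball 0 (1 + Real.exp (-(D.T ^ 5)))) := by
    intro f hf z hz
    rw [mem_ball, dist_zero_right] at hz
    have h1 : DifferentiableAt ℂ f (((1 - D.s : ℝ) : ℂ) * z) :=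
      (hf _ (by
        rw [mem_closedBall, dist_zero_right]
        exact hin1 z hz)).differentiableAt
    have h2 : DifferentiableAt ℂ (fun z : ℂ => ((1 - D.s : ℝ) : ℂ) * z) z := by fun_prop
    exact (h1.comp z h2).differentiableWithinAt
  -- numerical bounds
  have hTsq : 0 < D.T ^ 2 := by positivity
  have hμT : 2 * D.μ * D.T ≤ 2 * D.T ^ 3 := by
    have h1 : (D.l : ℝ) ≤ D.T := by linarith
    have h2 : D.μ ≤ D.T * D.T := hμ.trans (mul_le_mul_of_nonneg_right h1 hT.le)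
    calc 2 * D.μ * D.T = 2 * (D.μ * D.T) := by ring
      _ ≤ 2 * (D.T * D.T * D.T) := by
        have := mul_le_mul_of_nonneg_right h2 hT.le
        linarith
      _ = 2 * D.T ^ 3 := by ring
  have hG : ∀ w : ℂ, ‖w‖ ≤ 1 → ‖D.G w‖ ≤ 2 * D.T ^ 3 := by
    intro w hw
    refine (h.norm_G hw).trans ?_
    have h1 := h.norm_p hw
    have h2 : ‖D.p w‖ ≤ 1 := h1.trans hw
    calc 2 * D.μ * D.T * ‖D.p w‖ ≤ 2 * D.μ * D.T * 1 := mul_le_mul_of_nonneg_left h2 (by positivity)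
      _ ≤ _ := by linarith
  have hl4 : 100 * (D.l : ℝ) ^ 4 ≤ D.T := by
    refine le_trans ?_ hlT
    have h1 : (1 : ℝ) ≤ D.l + 1 := by linarith
    have h2 : (D.l : ℝ) ^ 4 ≤ (D.l + 1 : ℝ) ^ 4 := pow_le_pow_left₀ hl0 (by linarith) _
    have h3 : (D.l + 1 : ℝ) ^ 4 ≤ (D.l + 1 : ℝ) ^ 10 := pow_le_pow_right₀ h1 (by norm_num)
    rw [mul_pow]
    have h4 : (0 : ℝ) ≤ (D.l + 1 : ℝ) ^ 10 := by positivity
    nlinarith
  have hU : ∀ w : ℂ, ‖w‖ ≤ 1 → ‖D.U w‖ ≤ D.T ^ 5 / 25 := by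
    intro w hw
    refine (h.norm_U hw).trans ?_
    have h1 : ‖w‖ ^ (D.N - D.k.natDegree) ≤ 1 := pow_le_one₀ (norm_nonneg _) hw
    calc 4 * (D.l * D.T) ^ 4 * ‖w‖ ^ (D.N - D.k.natDegree) ≤ 4 * (D.l * D.T) ^ 4 * 1 :=
          mul_le_mul_of_nonneg_left h1 (by positivity)
      _ = (100 * (D.l : ℝ) ^ 4) * D.T ^ 4 / 25 := by ring
      _ ≤ D.T * D.T ^ 4 / 25 :=
          div_le_div_of_nonneg_right (mul_le_mul_of_nonneg_right hl4 (by positivity)) (by norm_num)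
      _ = _ := by ring
  have h1T : 1 / (2 * D.T) ≤ 1 := by
    rw [div_le_one (by positivity)]
    linarith
  have hT35 : 100 * D.T ^ 3 ≤ D.T ^ 5 := by
    have : (100 : ℝ) ≤ D.T ^ 2 := by nlinarith
    calc 100 * D.T ^ 3 ≤ D.T ^ 2 * D.T ^ 3 := mul_le_mul_of_nonneg_right this (by positivity)
      _ = D.T ^ 5 := by ring
  have hT13 : D.T ≤ D.T ^ 3 := by
    calc D.T = D.T ^ 1 := (pow_one _).symm
      _ ≤ D.T ^ 3 := pow_le_pow_right₀ hT1 (by norm_num)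
  have hT3big : (1 : ℝ) ≤ D.T ^ 3 := one_le_pow₀ hT1
  have hball : ∀ w : ℂ, ‖w‖ ≤ 1 → ‖w‖ < 1 + Real.exp (-D.A) := by
    intro w hw
    have := Real.exp_pos (-D.A)
    linarith
  have hbig : Real.exp D.A + D.T ^ 5 / 25 + 2 * D.T ^ 3 + 1 ≤ Real.exp (D.T ^ 5) := by
    have e1 : Real.exp D.A ≤ Real.exp (D.T ^ 5 / 2) := Real.exp_le_exp.2 (by linarith)
    have e2 : D.T ^ 5 / 2 + 1 ≤ Real.exp (D.T ^ 5 / 2) := Real.add_one_le_exp _
    have e3 : Real.exp (D.T ^ 5) = Real.exp (D.T ^ 5 / 2) * Real.exp (D.T ^ 5 / 2) := by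
      rw [← Real.exp_add]
      ring_nf
    have e4 : (2 : ℝ) ≤ Real.exp (D.T ^ 5 / 2) := by linarith
    have e5 : 2 * Real.exp (D.T ^ 5 / 2) ≤ Real.exp (D.T ^ 5) := by
      rw [e3]
      exact mul_le_mul_of_nonneg_right e4 (Real.exp_pos _).le
    linarith
  refine ⟨hdiff _ (h.anφ₂ hδ), hdiff _ h.anψ₂, ?_, ?_, ?_, ?_, ?_, ?_, ?_, ?_, ?_⟩
  · have h1 := hdiff _ h.st.anP
    have h2 := hdiff _ (h.anρ hδ)
    exact (h1.add h2).const_mul _
  · change D.φ₂ δ (((1 - D.s : ℝ) : ℂ) * 0) = 0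
    rw [mul_zero, h.φ₂_zero hδ]
  · change D.ψ₂ (((1 - D.s : ℝ) : ℂ) * 0) = 0
    rw [mul_zero, h.ψ₂_zero]
  · intro z hz
    have hw := hin1 z hz
    set w := ((1 - D.s : ℝ) : ℂ) * z
    have e1 := h.φ₂_sub hδ hw
    have e2 := h.st.nφ w (hball w hw)
    have e3 := hG w hw
    calc ‖D.φ₂ δ w‖ = ‖(D.φ₂ δ w - (D.φ w + D.G w)) + D.φ w + D.G w‖ := by ring_nf
      _ ≤ ‖D.φ₂ δ w - (D.φ w + D.G w)‖ + ‖D.φ w‖ + ‖D.G w‖ := norm_add₃_le
      _ ≤ Real.exp (D.T ^ 5) := by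
        have : 0 ≤ D.T ^ 5 / 25 := by positivity
        linarith
  · intro z hz
    have hw := hin1 z hz
    set w := ((1 - D.s : ℝ) : ℂ) * z
    have e1 := h.ψ₂_sub hw
    have e2 := h.st.nψ w (hball w hw)
    have e3 := hG w hw
    have e4 := hU w hw
    calc ‖D.ψ₂ w‖ = ‖(D.ψ₂ w - (D.ψ₁ w + D.G w)) + (D.ψ w + D.U w) + D.G w‖ := by
          have : D.ψ₁ w = D.ψ w + D.U w := rfl
          rw [this]
          ring_nf
      _ ≤ ‖D.ψ₂ w - (D.ψ₁ w + D.G w)‖ + ‖D.ψ w + D.U w‖ + ‖D.G w‖ := norm_add₃_le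
      _ ≤ Real.exp (D.T ^ 5) := by
        have := norm_add_le (D.ψ w) (D.U w)
        linarith
  · intro z hz
    have hw := hin1 z hz
    change |(D.φ₂ δ (((1 - D.s : ℝ) : ℂ) * z)).re| ≤ _
    set w := ((1 - D.s : ℝ) : ℂ) * z
    have e1 := (Complex.abs_re_le_norm _).trans (h.φ₂_sub hδ hw)
    have e2 := h.st.rφ w (hball w hw)
    have e3 := (Complex.abs_re_le_norm _).trans (hG w hw)
    rw [Complex.sub_re, Complex.add_re] at e1
    rw [abs_le] at e1 e2 e3 ⊢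
    constructor <;> linarith [e1.1, e1.2, e2.1, e2.2, e3.1, e3.2]
  · intro z hz
    have hw := hin1 z hz
    change |(D.ψ₂ (((1 - D.s : ℝ) : ℂ) * z)).re| ≤ _
    set w := ((1 - D.s : ℝ) : ℂ) * z
    have e1 := (Complex.abs_re_le_norm _).trans (h.ψ₂_sub hw)
    have e2 := h.st.rψ w (hball w hw)
    have e3 := (Complex.abs_re_le_norm _).trans (hG w hw)
    have e4 := (Complex.abs_re_le_norm _).trans (hU w hw)
    have e5 : D.ψ₁ w = D.ψ w + D.U w := rfl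
    rw [Complex.sub_re, Complex.add_re, e5, Complex.add_re] at e1
    rw [abs_le] at e1 e2 e3 e4 ⊢
    constructor <;> linarith [e1.1, e1.2, e2.1, e2.2, e3.1, e3.2, e4.1, e4.2]
  · intro z hz
    have hw := hin1 z hz
    change ‖((1 - D.s : ℝ) : ℂ) ^ D.l * (D.P (((1 - D.s : ℝ) : ℂ) * z) +
      D.ρ δ (((1 - D.s : ℝ) : ℂ) * z))‖ ≤ _
    have e1 := hρ _ (hin z hz)
    set w := ((1 - D.s : ℝ) : ℂ) * z
    have e2 := h.st.nP w (hball w hw)
    have e3 : ‖((1 - D.s : ℝ) : ℂ) ^ D.l‖ ≤ 1 := by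
      rw [norm_pow, Complex.norm_real, Real.norm_eq_abs, abs_of_nonneg ha0]
      exact pow_le_one₀ ha0 ha1
    rw [norm_mul]
    have e4 := norm_add_le (D.P w) (D.ρ δ w)
    calc ‖((1 - D.s : ℝ) : ℂ) ^ D.l‖ * ‖D.P w + D.ρ δ w‖ ≤ 1 * ‖D.P w + D.ρ δ w‖ :=
          mul_le_mul_of_nonneg_right e3 (norm_nonneg _)
      _ ≤ _ := by linarith
  · intro z hz
    have e1 := congrFun (iter_dil (fun z => cexp (D.φ₂ δ z)) ((1 - D.s : ℝ) : ℂ) D.l) z
    change iteratedDeriv D.l (fun z => cexp (D.φ₂ δ (((1 - D.s : ℝ) : ℂ) * z))) z = _ at e1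
    rw [e1, h.ident hδ (hin2 z hz)]
    ring

end Setup

end Pool.Agent.Helper58.LD
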