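import Pool.Agent.Helper58.LD.VMod

/-!
# LD-20: the inner region `|z| ≤ 1 - T / N`

`|U| ≤ e^(-T/4) ≤ 1`, so `exp (Re ψ₁) ≤ e^(A + 1) ≤ 3 e^A`, `W ≤ 4 e^A`, `V ≥ e^(Λ - A)`, `W / V ≤ 4 e^(2A - Λ)`. Powers of it beat
everything (`Par.misc`, `Par.big_lam`: `W / V ≤ 4 e^(2A) / ((4 T) ^ 40 e^(20A)) ≤ (4T)^(-39)`).
`|G| ≤ 2 μ T |p| ≤ 2 l T² (W / V)`, `|v| ≤ (W / V)`, `|log (1 + x)| ≤ 2 |x|` for `|x| ≤ 1/2`.
-/

set_option autoImplicit false

open Filter Topology Metric Complex Polynomial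

namespace Pool.Agent.Helper58.LD

namespace Setup

variable {D : Setup} {δ : ℂ → ℂ}

private lemma N_pos (h : D.Ok) : (0 : ℝ) < D.N := by
  rw [h.par.hN]
  exact Real.exp_pos _

private lemma z_le (h : D.Ok) {z : ℂ} (hz : ‖z‖ ≤ 1 - D.T / D.N) : ‖z‖ ≤ 1 := by
  have h1 : 0 ≤ D.T / D.N := div_nonneg h.par.Tpos.le (N_pos h).le
  linarith

theorem Ok.WV_inner (h : D.Ok) {z : ℂ} (hz : ‖z‖ ≤ 1 - D.T / D.N) :
    D.W z / D.V z ≤ 4 * Real.exp (2 * D.A - D.Lam) := by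
  have hz1 := z_le h hz
  have hzb : ‖z‖ < 1 + Real.exp (-D.A) := by
    have := Real.exp_pos (-D.A)
    linarith
  have hA := h.par.hA
  have h1 : (D.ψ₁ z).re ≤ D.A + 1 := by
    have h2 := (abs_le.1 (h.st.rψ z hzb)).2
    have h3 := h.norm_U_inner hz
    have h4 : Real.exp (-(D.T / 4)) ≤ 1 := Real.exp_le_one_iff.2 (by have := h.par.Tpos; linarith)
    have h5 := Complex.re_le_norm (D.U z)
    have h6 : (D.ψ₁ z).re = (D.ψ z).re + (D.U z).re := by simp [Setup.ψ₁]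
    linarith
  have h2 : D.W z ≤ 4 * Real.exp D.A := by
    have h3 : Real.exp (D.ψ₁ z).re ≤ Real.exp (D.A + 1) := Real.exp_le_exp.2 h1
    have h4 : Real.exp (D.A + 1) ≤ Real.exp D.A * 3 := by
      rw [Real.exp_add]
      have h5 := Real.exp_one_lt_d9
      exact mul_le_mul_of_nonneg_left (by linarith) (Real.exp_pos _).le
    have h5 : 1 ≤ Real.exp D.A := Real.one_le_exp (by linarith)
    unfold Setup.W
    linarith
  have h3 : Real.exp (D.Lam - D.A) ≤ D.V z := by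
    have h4 := (abs_le.1 (h.st.rφ z hzb)).1
    unfold Setup.V
    exact Real.exp_le_exp.2 (by linarith)
  calc D.W z / D.V z ≤ 4 * Real.exp D.A / Real.exp (D.Lam - D.A) :=
        div_le_div₀ (by positivity) h2 (Real.exp_pos _) h3
    _ = 4 * Real.exp (2 * D.A - D.Lam) := by
        rw [mul_div_assoc, ← Real.exp_sub]
        congr 2
        ring

private lemma WV_small (h : D.Ok) {z : ℂ} (hz : ‖z‖ ≤ 1 - D.T / D.N) :
    D.W z / D.V z ≤ 1 / (4 * D.T) ^ 5 := by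
  have hT := h.par.Tpos
  have hT1 := h.par.T1
  have h1 := (h.par.M_ge 6 2 (by have := h.par.hl; omega) (by have := h.par.hl; omega)).trans h.par.big_lam
  have h2 : Real.exp (2 * D.A - D.Lam) ≤ 1 / (4 * D.T) ^ 6 := by
    rw [Real.exp_sub, div_le_div_iff₀ (Real.exp_pos _) (by positivity), one_mul]
    push_cast at h1
    rw [mul_comm]
    exact h1
  have h3 := h.WV_inner hz
  have h4 : 4 * (1 / (4 * D.T) ^ 6) ≤ 1 / (4 * D.T) ^ 5 := by
    rw [mul_one_div, div_le_div_iff₀ (by positivity) (by positivity), pow_succ (4 * D.T) 5]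
    have h5 : 0 < (4 * D.T) ^ 5 := by positivity
    nlinarith
  linarith

private lemma WV_nonneg (D : Setup) (z : ℂ) : 0 ≤ D.W z / D.V z := by
  unfold Setup.W Setup.V
  positivity

private lemma WV_le_one (h : D.Ok) {z : ℂ} (hz : ‖z‖ ≤ 1 - D.T / D.N) : D.W z / D.V z ≤ 1 := by
  refine (WV_small h hz).trans ?_
  have hT1 := h.par.T1
  rw [div_le_one (by positivity)]
  exact one_le_pow₀ (by linarith)

private lemma WV_pow (h : D.Ok) {z : ℂ} (hz : ‖z‖ ≤ 1 - D.T / D.N) (k : ℕ) :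
    (D.W z / D.V z) ^ (k + 1) ≤ 1 / (4 * D.T) ^ 5 := by
  refine le_trans ?_ (WV_small h hz)
  calc (D.W z / D.V z) ^ (k + 1) ≤ (D.W z / D.V z) ^ 1 :=
        pow_le_pow_of_le_one (WV_nonneg D z) (WV_le_one h hz) (by omega)
    _ = D.W z / D.V z := pow_one _

private lemma G_inner (h : D.Ok) {z : ℂ} (hz : ‖z‖ ≤ 1 - D.T / D.N) :
    ‖D.G z‖ ≤ 1 / (512 * D.T) := by
  have hT := h.par.Tpos
  have hT1 := h.par.T1
  obtain ⟨-, -, -, hμ0, hμ, -⟩ := h.par.misc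
  have hl := h.par.l_le
  have h1 := h.norm_G (z_le h hz)
  have h2 := (h.norm_p_le_W (z_le h hz)).trans (WV_pow h hz (D.l + 1))
  have h3 : 2 * D.μ * D.T ≤ 2 * D.T ^ 3 := by
    have h4 : D.μ ≤ D.T * D.T := by
      have h5 : (D.l : ℝ) * D.T ≤ D.T * D.T := mul_le_mul_of_nonneg_right (by linarith) hT.le
      linarith
    have h5 : D.μ * D.T ≤ D.T * D.T * D.T := mul_le_mul_of_nonneg_right h4 hT.le
    nlinarith
  calc ‖D.G z‖ ≤ 2 * D.μ * D.T * ‖D.p z‖ := h1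
    _ ≤ 2 * D.T ^ 3 * (1 / (4 * D.T) ^ 5) := mul_le_mul h3 h2 (norm_nonneg _) (by positivity)
    _ ≤ 1 / (512 * D.T) := by
        rw [mul_one_div, div_le_div_iff₀ (by positivity) (by positivity)]
        have h4 : 0 < D.T ^ 4 := by positivity
        have h5 : D.T ^ 4 ≤ D.T ^ 5 := pow_le_pow_right₀ hT1 (by norm_num)
        nlinarith

private lemma exp_small {T x : ℝ} (hT : 10 ^ 6 ≤ T) (hx : T / 4 ≤ x) : Real.exp (-x) ≤ 1 / (64 * T) := by
  have hT0 : 0 < T := by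
    have : (0 : ℝ) < 10 ^ 6 := by norm_num
    linarith
  have h1 : 64 * T ≤ Real.exp x := by
    have h2 := Real.quadratic_le_exp_of_nonneg (x := T / 4) (by positivity)
    have h3 : Real.exp (T / 4) ≤ Real.exp x := Real.exp_le_exp.2 hx
    have h4 : 64 * T ≤ (T / 4) ^ 2 / 2 := by
      norm_num at hT
      nlinarith
    nlinarith
  rw [Real.exp_neg, ← one_div]
  exact one_div_le_one_div_of_le (by positivity) h1

theorem Ok.φ₂_inner (h : D.Ok) (hδ : D.IsDelta δ) {z : ℂ} (hz : ‖z‖ ≤ 1 - D.T / D.N) :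
    ‖D.φ₂ δ z - D.φ z‖ ≤ 1 / (4 * D.T) := by
  have hT := h.par.Tpos
  have hT6 := h.par.hT
  have h1 := h.delta_inner hδ hz
  have h2 : Real.exp (-(3 * D.T / 4)) ≤ 1 / (64 * D.T) := exp_small hT6 (by linarith)
  have h3 : 1 / (64 * D.T) ≤ 1 / 2 := by
    rw [div_le_div_iff₀ (by positivity) (by norm_num)]
    have := h.par.T1
    linarith
  have h4 := Complex.norm_log_one_add_half_le_self (z := δ z * cexp (-(D.φ z))) (by linarith)
  have h5 := G_inner h hz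
  have h6 : D.φ₂ δ z - D.φ z = Complex.log (1 + δ z * cexp (-(D.φ z))) + D.G z := by
    unfold Setup.φ₂
    ring
  rw [h6]
  have h7 : (3 / 2 : ℝ) * (1 / (64 * D.T)) + 1 / (512 * D.T) ≤ 1 / (4 * D.T) := by
    have h8 : (3 / 2 : ℝ) * (1 / (64 * D.T)) + 1 / (512 * D.T) = (13 / 512) * (1 / D.T) := by
      field_simp
      norm_num
    have h9 : 1 / (4 * D.T) = (1 / 4) * (1 / D.T) := by
      field_simp
    rw [h8, h9]
    have : 0 < 1 / D.T := by positivity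
    nlinarith
  calc ‖Complex.log (1 + δ z * cexp (-(D.φ z))) + D.G z‖
      ≤ ‖Complex.log (1 + δ z * cexp (-(D.φ z)))‖ + ‖D.G z‖ := norm_add_le _ _
    _ ≤ (3 / 2 : ℝ) * (1 / (64 * D.T)) + 1 / (512 * D.T) := by linarith
    _ ≤ 1 / (4 * D.T) := h7

theorem Ok.ψ₂_inner (h : D.Ok) {z : ℂ} (hz : ‖z‖ ≤ 1 - D.T / D.N) :
    ‖D.ψ₂ z - D.ψ z‖ ≤ 1 / (4 * D.T) := by
  have hT := h.par.Tpos
  have hT1 := h.par.T1
  have hT6 := h.par.hT
  have h1 := h.norm_U_inner hz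
  have h2 : Real.exp (-(D.T / 4)) ≤ 1 / (64 * D.T) := exp_small hT6 le_rfl
  have h3 := (h.norm_v_W (z_le h hz)).trans (WV_pow h hz D.l)
  have h30 : 1 / (4 * D.T) ^ 5 ≤ 1 / (64 * D.T) := by
    refine one_div_le_one_div_of_le (by positivity) ?_
    have h31 : D.T ≤ D.T ^ 5 := by
      calc D.T = D.T ^ 1 := (pow_one _).symm
        _ ≤ D.T ^ 5 := pow_le_pow_right₀ hT1 (by norm_num)
    have h32 : (4 * D.T) ^ 5 = 1024 * D.T ^ 5 := by ring
    rw [h32]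
    linarith
  have h4 : 1 / (64 * D.T) ≤ 1 / 2 := by
    rw [div_le_div_iff₀ (by positivity) (by norm_num)]
    linarith
  have h5 := Complex.norm_log_one_add_half_le_self (z := D.v z) (by linarith)
  have h6 := G_inner h hz
  have h7 : D.ψ₂ z - D.ψ z = D.U z + D.G z + Complex.log (1 + D.v z) := by
    unfold Setup.ψ₂ Setup.ψ₁
    ring
  rw [h7]
  have h8 : 1 / (64 * D.T) + 1 / (512 * D.T) + (3 / 2 : ℝ) * (1 / (64 * D.T)) ≤ 1 / (4 * D.T) := by
    have h81 : 1 / (64 * D.T) + 1 / (512 * D.T) + (3 / 2 : ℝ) * (1 / (64 * D.T)) = (21 / 512) * (1 / D.T) := by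
      field_simp
      norm_num
    have h9 : 1 / (4 * D.T) = (1 / 4) * (1 / D.T) := by
      field_simp
    rw [h81, h9]
    have : 0 < 1 / D.T := by positivity
    nlinarith
  calc ‖D.U z + D.G z + Complex.log (1 + D.v z)‖
      ≤ ‖D.U z + D.G z‖ + ‖Complex.log (1 + D.v z)‖ := norm_add_le _ _
    _ ≤ ‖D.U z‖ + ‖D.G z‖ + ‖Complex.log (1 + D.v z)‖ := by
        have := norm_add_le (D.U z) (D.G z)
        linarith
    _ ≤ 1 / (64 * D.T) + 1 / (512 * D.T) + (3 / 2 : ℝ) * (1 / (64 * D.T)) := by linarith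
    _ ≤ 1 / (4 * D.T) := h8

end Setup

end Pool.Agent.Helper58.LD
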