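import Pool.Agent.Helper58.LD.Dil
import Pool.Agent.Helper58.LD.Inner

/-!
# LD-23: closeness in the inner region

`|z| ≤ 1 - T / N`, `ζ = (1 - s) z`, `|ζ| ≤ |z|`, `|ζ - z| ≤ s`.
`|φ₂ ζ - φ z| ≤ |φ₂ ζ - φ ζ| + |φ ζ - φ z| ≤ 1/(4T) + 2 e^(2A) s ≤ 1/T` (`φ₂_inner`, `State.lipφ`, `s_bounds`), the same for `ψ`.
`|(1 - s) ^ l (P ζ + ρ ζ) - P z| ≤ (1 - (1 - s) ^ l) |P ζ + ρ ζ| + |ρ ζ| + |P ζ - P z| ≤ l s (Q + 1) + 1/(8T) + 2 Q e^A s`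
(`1 - (1 - s) ^ l ≤ l s`: `one_add_mul_le_pow`).
-/

set_option autoImplicit false

open Filter Topology Metric Complex Polynomial

namespace Pool.Agent.Helper58.LD

namespace Setup

variable {D : Setup} {δ : ℂ → ℂ}

lemma Ok.dil_facts (h : D.Ok) {z : ℂ} (hz : ‖z‖ ≤ 1 - D.T / D.N) :
    ‖((1 - D.s : ℝ) : ℂ) * z‖ ≤ 1 - D.T / D.N ∧ ‖((1 - D.s : ℝ) : ℂ) * z - z‖ ≤ D.s ∧
      ‖z‖ ≤ 1 ∧ ‖((1 - D.s : ℝ) : ℂ) * z‖ ≤ 1 := by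
  obtain ⟨-, h2, h3, -⟩ := h.s_bounds
  have hTN : 0 ≤ D.T / D.N := div_nonneg h.par.Tpos.le (Nat.cast_nonneg _)
  have hz1 : ‖z‖ ≤ 1 := by linarith
  have h4 : ‖((1 - D.s : ℝ) : ℂ) * z‖ ≤ ‖z‖ := by
    rw [norm_mul, Complex.norm_real, Real.norm_of_nonneg (by linarith)]
    have := norm_nonneg z
    nlinarith
  refine ⟨h4.trans hz, ?_, hz1, h4.trans hz1⟩
  have h5 : ((1 - D.s : ℝ) : ℂ) * z - z = -((D.s : ℂ) * z) := by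
    push_cast
    ring
  rw [h5, norm_neg, norm_mul, Complex.norm_real, Real.norm_of_nonneg h2.le]
  nlinarith

lemma Ok.s_small (h : D.Ok) : 2 * Real.exp (2 * D.A) * D.s ≤ 1 / (8 * D.T) ∧
    2 * D.Q * Real.exp D.A * D.s ≤ 1 / (8 * D.T) ∧ D.l * (D.Q + 1) * D.s ≤ 1 / (8 * D.T) := by
  obtain ⟨-, h2, h3, -, h4, -⟩ := h.s_bounds
  have hT1 := h.par.T1
  have hT := h.par.hT
  have hA := h.par.hA
  have hQ := h.par.hQ
  have hQT := h.par.hQT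
  have hl := h.par.l_le
  have he1 : 1 ≤ Real.exp D.A := Real.one_le_exp (by linarith)
  have he2 : Real.exp D.A ≤ Real.exp (2 * D.A) := Real.exp_le_exp.2 (by linarith)
  refine ⟨le_trans ?_ h4, le_trans ?_ h4, le_trans ?_ h4⟩
  · refine mul_le_mul_of_nonneg_right ?_ h2.le
    have : (1 : ℝ) ≤ D.T ^ 2 := one_le_pow₀ hT1
    have he3 := Real.exp_pos (2 * D.A)
    nlinarith
  · refine mul_le_mul_of_nonneg_right ?_ h2.le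
    have h5 : 2 * D.Q ≤ 4 * D.T ^ 2 := by nlinarith
    exact mul_le_mul h5 he2 (Real.exp_pos _).le (by positivity)
  · refine mul_le_mul_of_nonneg_right ?_ h2.le
    have h5 : (D.l : ℝ) * (D.Q + 1) ≤ D.T * (2 * D.T) := by
      refine mul_le_mul (by linarith) (by linarith) (by linarith) (by linarith)
    have h6 : D.T * (2 * D.T) ≤ 4 * D.T ^ 2 * Real.exp (2 * D.A) := by
      have h7 : 1 ≤ Real.exp (2 * D.A) := he1.trans he2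
      have h8 : 0 ≤ D.T ^ 2 := sq_nonneg _
      nlinarith
    linarith

theorem Ok.close_φ (h : D.Ok) (hδ : D.IsDelta δ) {z : ℂ} (hz : ‖z‖ ≤ 1 - D.T / D.N) :
    ‖D.φ₂ δ ((1 - D.s : ℝ) * z) - D.φ z‖ ≤ 1 / D.T := by
  obtain ⟨h1, h2, h3, h4⟩ := h.dil_facts hz
  obtain ⟨h5, -, -⟩ := h.s_small
  have h6 := h.φ₂_inner hδ h1
  have h7 := h.st.lipφ h3 h4
  have h8 : 2 * Real.exp (2 * D.A) * ‖((1 - D.s : ℝ) : ℂ) * z - z‖ ≤ 2 * Real.exp (2 * D.A) * D.s :=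
    mul_le_mul_of_nonneg_left h2 (by positivity)
  have h9 : D.φ₂ δ ((1 - D.s : ℝ) * z) - D.φ z =
      (D.φ₂ δ ((1 - D.s : ℝ) * z) - D.φ ((1 - D.s : ℝ) * z)) +
        (D.φ ((1 - D.s : ℝ) * z) - D.φ z) := by ring
  rw [h9]
  refine (norm_add_le _ _).trans ?_
  have hT := h.par.Tpos
  have h10 : 1 / (4 * D.T) + 1 / (8 * D.T) ≤ 1 / D.T := by
    rw [show 1 / (4 * D.T) + 1 / (8 * D.T) = 3 / 8 * (1 / D.T) by field_simp; ring]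
    have : 0 < 1 / D.T := by positivity
    linarith
  linarith

theorem Ok.close_ψ (h : D.Ok) {z : ℂ} (hz : ‖z‖ ≤ 1 - D.T / D.N) :
    ‖D.ψ₂ ((1 - D.s : ℝ) * z) - D.ψ z‖ ≤ 1 / D.T := by
  obtain ⟨h1, h2, h3, h4⟩ := h.dil_facts hz
  obtain ⟨h5, -, -⟩ := h.s_small
  have h6 := h.ψ₂_inner h1
  have h7 := h.st.lipψ h3 h4
  have h8 : 2 * Real.exp (2 * D.A) * ‖((1 - D.s : ℝ) : ℂ) * z - z‖ ≤ 2 * Real.exp (2 * D.A) * D.s :=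
    mul_le_mul_of_nonneg_left h2 (by positivity)
  have h9 : D.ψ₂ ((1 - D.s : ℝ) * z) - D.ψ z =
      (D.ψ₂ ((1 - D.s : ℝ) * z) - D.ψ ((1 - D.s : ℝ) * z)) +
        (D.ψ ((1 - D.s : ℝ) * z) - D.ψ z) := by ring
  rw [h9]
  refine (norm_add_le _ _).trans ?_
  have hT := h.par.Tpos
  have h10 : 1 / (4 * D.T) + 1 / (8 * D.T) ≤ 1 / D.T := by
    rw [show 1 / (4 * D.T) + 1 / (8 * D.T) = 3 / 8 * (1 / D.T) by field_simp; ring]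
    have : 0 < 1 / D.T := by positivity
    linarith
  linarith

theorem Ok.close_P (h : D.Ok) (hδ : D.IsDelta δ)
    (hρ : ∀ z : ℂ, ‖z‖ ≤ 1 - D.T / D.N → ‖D.ρ δ z‖ ≤ 1 / (8 * D.T)) {z : ℂ}
    (hz : ‖z‖ ≤ 1 - D.T / D.N) :
    ‖((1 - D.s : ℝ) : ℂ) ^ D.l * (D.P ((1 - D.s : ℝ) * z) + D.ρ δ ((1 - D.s : ℝ) * z)) - D.P z‖ ≤
      1 / D.T := by
  have _ := hδ
  obtain ⟨h1, h2, h3, h4⟩ := h.dil_facts hz
  obtain ⟨-, h5, h5'⟩ := h.s_small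
  obtain ⟨-, hs0, hs1, -⟩ := h.s_bounds
  have hT := h.par.Tpos
  have h6 := hρ _ h1
  have h7 := h.st.lipP h3 h4
  have hQ := h.par.hQ
  have h8 : 2 * D.Q * Real.exp D.A * ‖((1 - D.s : ℝ) : ℂ) * z - z‖ ≤ 2 * D.Q * Real.exp D.A * D.s :=
    mul_le_mul_of_nonneg_left h2 (by positivity)
  set ζ : ℂ := ((1 - D.s : ℝ) : ℂ) * z with hζ
  have h9 : ((1 - D.s : ℝ) : ℂ) ^ D.l * (D.P ζ + D.ρ δ ζ) - D.P z =
      (((1 - D.s : ℝ) : ℂ) ^ D.l - 1) * (D.P ζ + D.ρ δ ζ) + (D.ρ δ ζ + (D.P ζ - D.P z)) := by ring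
  have h10 : ‖((1 - D.s : ℝ) : ℂ) ^ D.l - 1‖ ≤ D.l * D.s := by
    have h11 : ((1 - D.s : ℝ) : ℂ) ^ D.l - 1 = (((1 - D.s) ^ D.l - 1 : ℝ) : ℂ) := by push_cast; ring
    rw [h11, Complex.norm_real, Real.norm_eq_abs, abs_sub_comm, abs_of_nonneg]
    · have h12 := one_add_mul_le_pow (a := -D.s) (by linarith) D.l
      have h13 : (1 + -D.s) ^ D.l = (1 - D.s) ^ D.l := by ring
      rw [h13] at h12
      linarith
    · have := pow_le_one₀ (n := D.l) (a := 1 - D.s) (by linarith) (by linarith)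
      linarith
  have h11 : ‖D.P ζ + D.ρ δ ζ‖ ≤ D.Q + 1 := by
    refine (norm_add_le _ _).trans (add_le_add (h.st.nP ζ (lt_big h4)) (h6.trans ?_))
    rw [div_le_one (by positivity)]
    have := h.par.T1
    linarith
  have h12 : ‖(((1 - D.s : ℝ) : ℂ) ^ D.l - 1) * (D.P ζ + D.ρ δ ζ)‖ ≤ D.l * (D.Q + 1) * D.s := by
    rw [norm_mul]
    calc ‖((1 - D.s : ℝ) : ℂ) ^ D.l - 1‖ * ‖D.P ζ + D.ρ δ ζ‖ ≤ (D.l * D.s) * (D.Q + 1) :=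
          mul_le_mul h10 h11 (norm_nonneg _) (by positivity)
      _ = _ := by ring
  rw [h9]
  refine (norm_add_le _ _).trans ?_
  have h13 := norm_add_le (D.ρ δ ζ) (D.P ζ - D.P z)
  have h14 : 3 * (1 / (8 * D.T)) ≤ 1 / D.T := by
    rw [show 3 * (1 / (8 * D.T)) = 3 / 8 * (1 / D.T) by field_simp]
    have : 0 < 1 / D.T := by positivity
    linarith
  linarith

end Setup

end Pool.Agent.Helper58.LD
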