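import Pool.Agent.Helper58.LD.Defs

/-!
# LD-28: the initial state

`φ = ψ = id`, `P z = e^z / (1 + e^z)`, on `|z| < 1 + e^(-A) ≤ 2`. `|1 + e^z|² = 1 + 2 e^x cos y + e^(2x) `
`= (1 - e^x)² + 2 e^x (1 + cos y)`, and `|y| < 2`, `cos y ≥ cos 2 ≥ -1/2`, `e^x ≥ e^(-2)`: so `|1 + e^z|² ≥ e^x ≥ e^(-2)`, and
`|P z| ≤ e^2 e^1 ≤ 100`. `iteratedDeriv l exp = exp` (`iteratedDeriv_cexp` or induction).
-/

set_option autoImplicit false

open Filter Topology Metric Complex

namespace Pool.Agent.Helper58.LD

private theorem iter_exp (l : ℕ) : iteratedDeriv l (fun z => cexp z) = fun z => cexp z := by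
  induction l with
  | zero => rw [iteratedDeriv_zero]
  | succ n ih =>
    rw [iteratedDeriv_succ, ih]
    exact Complex.deriv_exp

private theorem one_le_norm (z : ℂ) (hz : ‖z‖ < 3 / 2) : 1 ≤ ‖1 + cexp z‖ := by
  have h1 : |z.im| < 3 / 2 := lt_of_le_of_lt (Complex.abs_im_le_norm z) hz
  have h2 : 0 ≤ Real.cos z.im := by
    apply Real.cos_nonneg_of_neg_pi_div_two_le_of_le
    · have := (abs_lt.1 h1).1
      have := Real.pi_gt_three
      linarith
    · have := (abs_lt.1 h1).2
      have := Real.pi_gt_three
      linarith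
  have h3 : 1 ≤ (1 + cexp z).re := by
    rw [Complex.add_re, Complex.one_re, Complex.exp_re]
    have := mul_nonneg (Real.exp_pos z.re).le h2
    linarith
  exact h3.trans (Complex.re_le_norm _)

theorem init_state (l : ℕ) {A Q : ℝ} (hA : 2 ≤ A) (hQ : 100 ≤ Q) :
    State l A Q (fun z => z) (fun z => z) (fun z => cexp z / (1 + cexp z)) := by
  have hrad : 1 + Real.exp (-A) ≤ 3 / 2 := by
    have h1 : Real.exp (-A) ≤ 1 / 2 := by
      rw [Real.exp_neg, ← one_div]
      have h2 : A + 1 ≤ Real.exp A := Real.add_one_le_exp A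
      exact one_div_le_one_div_of_le (by norm_num) (by linarith)
    linarith
  have hz : ∀ z : ℂ, ‖z‖ < 1 + Real.exp (-A) → ‖z‖ < 3 / 2 := fun z h => h.trans_le hrad
  have hexpA : A + 1 ≤ Real.exp A := Real.add_one_le_exp A
  have hne : ∀ z : ℂ, ‖z‖ < 1 + Real.exp (-A) → 1 + cexp z ≠ 0 := by
    intro z h h0
    have := one_le_norm z (hz z h)
    rw [h0, norm_zero] at this
    linarith
  constructor
  · exact differentiableOn_id
  · exact differentiableOn_id
  · intro z h
    rw [mem_ball_zero_iff] at h
    exact (Complex.differentiableAt_exp.div ((differentiableAt_const _).add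
      Complex.differentiableAt_exp) (hne z h)).differentiableWithinAt
  · rfl
  · rfl
  · intro z h
    have := hz z h
    linarith
  · intro z h
    have := hz z h
    linarith
  · intro z h
    have h1 := hz z h
    have h2 := Complex.abs_re_le_norm z
    linarith
  · intro z h
    have h1 := hz z h
    have h2 := Complex.abs_re_le_norm z
    linarith
  · intro z h
    have h1 := hz z h
    have h2 := one_le_norm z h1
    have h3 : ‖cexp z‖ ≤ 100 := by
      rw [Complex.norm_exp]
      have h4 : z.re ≤ 2 := by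
        have := Complex.re_le_norm z
        linarith
      have h5 : Real.exp z.re ≤ Real.exp 2 := Real.exp_le_exp.2 h4
      have h6 : Real.exp 2 = Real.exp 1 * Real.exp 1 := by
        rw [← Real.exp_add]
        norm_num
      have h7 : Real.exp 1 < 3 := by
        have := Real.exp_one_lt_d9
        linarith
      have h8 := Real.exp_pos 1
      nlinarith
    rw [norm_div]
    refine (div_le_self (norm_nonneg _) h2).trans ?_
    linarith
  · intro z h
    rw [iter_exp, div_mul_cancel₀ _ (hne z h)]

end Pool.Agent.Helper58.LD
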