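import Mathlib

/-!
# LD-11: the mean of `(Re φ)⁺` over `|z| = r` increases with `r`

`φ` analytic near the closed disc of radius `R`, `0 < r ≤ R`. One way: Poisson
(`InnerProductSpace.HarmonicOnNhd.circleAverage_poissonKernel_smul`, `Mathlib.Analysis.Complex.Harmonic.Poisson`):
`Re φ(w) = mean over |z| = R of P(w, z) Re φ(z) ≤ mean over |z| = R of P(w, z) (Re φ(z))⁺` for `|w| = r < R`, `P ≥ 0`; average over
`|w| = r` and exchange the integrals; the mean of `P(w, z)` over `|w| = r` is `1` (it is the value at `w = 0` of the harmonic
function `w ↦ P(w, z)`, or apply the Poisson formula to the constant `1` after using that `P(w, z)` depends on the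
quotient `w / z` only).
Another way: let `h` be the indicator of `{θ | Re φ(r e^(iθ)) > 0}` and `Φ(z) = (1/2π) ∫ h(θ) φ(z e^(iθ)) dθ`, analytic on
`|z| < R`, continuous up to the boundary; `mean_r (Re φ)⁺ = Re Φ(r) ≤ max_(|ζ| = R) Re Φ(ζ) ≤ mean_R (Re φ)⁺`.
-/

set_option autoImplicit false

open Filter Topology Metric Complex

namespace Pool.Agent.Helper58.LD

theorem mean_mono {φ : ℂ → ℂ} {r R : ℝ} (hr : 0 < r) (hrR : r ≤ R)
    (hφ : AnalyticOnNhd ℂ φ (closedBall 0 R)) :
    Real.circleAverage (fun z => max (φ z).re 0) 0 r ≤
      Real.circleAverage (fun z => max (φ z).re 0) 0 R := by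
  rcases hrR.eq_or_lt with h | h
  · rw [h]
  have hR : 0 < R := hr.trans h
  have habs : |R| = R := abs_of_pos hR
  set g : ℂ → ℝ := fun z => max (φ z).re 0 with hg
  have hφc : ContinuousOn φ (closedBall 0 R) := hφ.continuousOn
  have hsub : sphere (0 : ℂ) |R| ⊆ closedBall 0 R := by
    rw [habs]
    exact sphere_subset_closedBall
  have hgc : ContinuousOn g (closedBall 0 R) :=
    (Complex.continuous_re.comp_continuousOn hφc).sup continuousOn_const
  have hgi : CircleIntegrable g 0 R :=
    (hgc.mono hsub).circleIntegrable'
  have hgr : CircleIntegrable g 0 r :=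
    (hgc.mono (by
      intro z hz
      rw [mem_sphere, abs_of_pos hr] at hz
      rw [mem_closedBall, hz]
      exact h.le)).circleIntegrable'
  have hgiC : CircleIntegrable (fun z => (g z : ℂ)) 0 R := by
    refine ContinuousOn.circleIntegrable' ?_
    exact Complex.continuous_ofReal.comp_continuousOn
      (hgc.mono hsub)
  set H : ℂ → ℂ := fun w => Real.circleAverage
    (fun ζ => herglotzRieszKernel 0 w ζ • (g ζ : ℂ)) 0 R with hH
  have hHa : AnalyticOnNhd ℂ H (ball 0 R) := analyticOnNhd_circleAverage_herglotzRieszKernel_smul hgiC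
  -- the majorant
  have hmaj : ∀ w ∈ ball (0 : ℂ) R, g w ≤ (H w).re := by
    intro w hw
    have h1 : (H w).re = Real.circleAverage ((Complex.re ∘ herglotzRieszKernel 0 w) • g) 0 R :=
      re_circleAverage_herglotzRieszKernel_smul hgi hw
    have hP : ∀ z ∈ sphere (0 : ℂ) |R|, 0 ≤ poissonKernel 0 w z := by
      intro z hz
      rw [poissonKernel_def]
      rw [mem_sphere, dist_zero_right, habs] at hz
      rw [mem_ball, dist_zero_right] at hw
      rw [sub_zero, sub_zero, hz]
      have : ‖w‖ ^ 2 ≤ R ^ 2 := pow_le_pow_left₀ (norm_nonneg _) hw.le 2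
      exact div_nonneg (by linarith) (by positivity)
    have hPc : ContinuousOn (poissonKernel 0 w) (sphere (0 : ℂ) |R|) := by
      rw [poissonKernel_eq_re_herglotzRieszKernel]
      exact Complex.continuous_re.comp_continuousOn (continuousOn_herglotzRieszKernel_sphere hw)
    rw [h1, ← poissonKernel_eq_re_herglotzRieszKernel]
    have hi2 : CircleIntegrable (poissonKernel 0 w • g) 0 R := by
      refine ContinuousOn.circleIntegrable' ?_
      exact hPc.smul (hgc.mono hsub)
    refine max_le ?_ ?_
    · have h2 : Real.circleAverage (poissonKernel 0 w • φ) 0 R = φ w := by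
        refine DiffContOnCl.circleAverage_poissonKernel_smul ?_ hw
        refine DifferentiableOn.diffContOnCl ?_
        rw [closure_ball _ hR.ne']
        exact fun z hz => (hφ z hz).differentiableAt.differentiableWithinAt
      have hi1 : CircleIntegrable (poissonKernel 0 w • φ) 0 R := by
        refine ContinuousOn.circleIntegrable' ?_
        exact hPc.smul (hφc.mono hsub)
      have h3 : (φ w).re = Real.circleAverage (fun z => poissonKernel 0 w z * (φ z).re) 0 R := by
        rw [← h2]
        have h4 := Complex.reCLM.circleAverage_comp_comm hi1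
        rw [Complex.reCLM_apply] at h4
        rw [← h4]
        congr 1
        funext z
        simp
      rw [h3]
      refine Real.circleAverage_mono ?_ hi2 ?_
      · refine ContinuousOn.circleIntegrable' ?_
        exact hPc.mul (Complex.continuous_re.comp_continuousOn
          (hφc.mono hsub))
      · intro z hz
        exact mul_le_mul_of_nonneg_left (le_max_left _ _) (hP z hz)
    · refine Real.circleAverage_nonneg_of_nonneg ?_
      intro z hz
      exact mul_nonneg (hP z hz) (le_max_right _ _)
  -- mean values of `H`
  have hHr : DiffContOnCl ℂ H (ball 0 |r|) := by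
    refine DifferentiableOn.diffContOnCl ?_
    rw [closure_ball _ (by rw [abs_of_pos hr]; exact hr.ne'), abs_of_pos hr]
    exact fun z hz => (hHa z (closedBall_subset_ball h hz)).differentiableAt.differentiableWithinAt
  have hHi : CircleIntegrable H 0 r := by
    refine ContinuousOn.circleIntegrable' (hHa.continuousOn.mono ?_)
    intro z hz
    rw [mem_sphere, abs_of_pos hr] at hz
    rw [mem_ball, hz]
    exact h
  have h5 : Real.circleAverage H 0 r = H 0 := hHr.circleAverage
  have h6 : Real.circleAverage (fun z => (H z).re) 0 r = (H 0).re := by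
    rw [← h5]
    exact Complex.reCLM.circleAverage_comp_comm hHi
  have h7 : (H 0).re = Real.circleAverage g 0 R := by
    have h8 : (H 0).re = Real.circleAverage ((Complex.re ∘ herglotzRieszKernel 0 0) • g) 0 R :=
      re_circleAverage_herglotzRieszKernel_smul hgi (mem_ball_self hR)
    rw [h8]
    refine Real.circleAverage_congr_sphere ?_
    intro z hz
    rw [mem_sphere, dist_zero_right, habs] at hz
    have hz0 : z ≠ 0 := by
      intro h0
      rw [h0, norm_zero] at hz
      exact hR.ne hz
    simp [herglotzRieszKernel_def, hz0]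
  rw [← h7, ← h6]
  refine Real.circleAverage_mono hgr ?_ ?_
  · refine ContinuousOn.circleIntegrable' ?_
    refine Complex.continuous_re.comp_continuousOn (hHa.continuousOn.mono ?_)
    intro z hz
    rw [mem_sphere, abs_of_pos hr] at hz
    rw [mem_ball, hz]
    exact h
  · intro z hz
    refine hmaj z ?_
    rw [mem_sphere, abs_of_pos hr] at hz
    rw [mem_ball, hz]
    exact h

end Pool.Agent.Helper58.LD
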