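import Pool.Agent.Helper58.LD.Growth
import Pool.Agent.Helper58.LD.Mono
import Pool.Agent.Helper61.Lac.LC11a
import Pool.Agent.Helper61.Nev.Growth

/-!
# LD-33: `1 / P` is a small function

`charT P⁻¹ r ≤ Ts P⁻¹ r ≤ Ts P r + C ≤ charT P r + C'` for `1/2 ≤ r < 1` (`Nev.Growth: charT_le, first_main, Ts_le_charT`;
`P` is analytic, so `pm P 0` and everything is fine), `charT P r = mean of log⁺ |P|` (`LC11a: charT_eq`).
For `R_n ≤ r ≤ R_(n+1)`, `n = m + 1` (`R_n = 1 - (l+1)/(N n T n ^ 10)`): `|P| ≤ T (n+1) ^ (12 l + 3) + 1` on `|z| = r` (`State.nP`, `Limit.cP`,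
`Tower.radii`), so `charT P r ≤ (12 l + 4) log T (n+1) ≤ (12 l + 4) (12 l + 21) log T n` (`T_hi`). And
`charT f r = mean_r (Re φ)⁺ ≥ mean_(R_n) (Re φ)⁺ ≥ √(T n) / 10 - T m ^ 5 - 2 ≥ √(T n) / 20` (`mean_mono`, `mean_ge`,
`muf ≥ √T`, `1 - 12 / log T ≥ 1/10` for `T ≥ 10 ^ 6`; `T m ^ 5 ≤ T n ^ (5/32)`), and `log T n / √(T n) → 0`.
-/

set_option autoImplicit false

open Filter Topology Metric Complex

namespace Pool.Agent.Helper58.LD

open Pool.Agent.Helper61.Nev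

variable {l : ℕ} {a : ℝ} {N : ℕ → ℕ} {T : ℕ → ℝ} {φn ψn Pn : ℕ → ℂ → ℂ} {φ ψ P : ℂ → ℂ}

/-- reduction to `P` -/
theorem charT_inv_le {P : ℂ → ℂ} (hP : AnalyticOnNhd ℂ P (ball 0 1)) :
    ∃ C : ℝ, ∀ r : ℝ, 1 / 2 ≤ r → r < 1 → charT (fun z => (P z)⁻¹) r ≤ charT P r + C := by
  have hm : MeromorphicOn P (ball 0 1) := hP.meromorphicOn
  obtain ⟨C, _, hC⟩ := first_main hm
  refine ⟨C + pm P 0 * Real.log 2, fun r h0 h1 => ?_⟩
  have h2 : charT (fun z => (P z)⁻¹) r ≤ Ts P⁻¹ r := charT_le hm.inv (by linarith) h1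
  have h3 := abs_le.1 (hC r h0 h1)
  have h4 := Ts_le_charT hm h0 h1
  linarith

private lemma charT_inv_ge {P : ℂ → ℂ} (hP : AnalyticOnNhd ℂ P (ball 0 1)) :
    ∃ C : ℝ, 0 ≤ C ∧ ∀ r : ℝ, 1 / 2 ≤ r → r < 1 → -C ≤ charT (fun z => (P z)⁻¹) r := by
  have hm : MeromorphicOn P (ball 0 1) := hP.meromorphicOn
  have hp : (0 : ℝ) ≤ pm P⁻¹ 0 := by exact_mod_cast pm_nonneg P⁻¹ 0
  have hl2 : 0 ≤ Real.log 2 := Real.log_nonneg (by norm_num)
  refine ⟨pm P⁻¹ 0 * Real.log 2, mul_nonneg hp hl2, fun r h0 h1 => ?_⟩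
  have h2 : charT (fun z => (P z)⁻¹) r = Ts P⁻¹ r + pm P⁻¹ 0 * Real.log r :=
    charT_eq hm.inv (by linarith) h1
  have h3 := abs_log_le h0 h1
  have h4 := neg_abs_le (Real.log r)
  have h5 := Ts_nonneg P⁻¹ r
  rw [h2]
  nlinarith

private lemma charT_P_le (t : Tower l a N T φn ψn Pn) (L : Limit l N T φn Pn φ ψ P) (n : ℕ)
    {r : ℝ} (hr0 : 0 ≤ r) (hr : r ≤ 1 - T (n + 2) / N (n + 2)) :
    charT P r ≤ (12 * l + 4 : ℝ) * Real.log (T (n + 1)) := by
  have hT : (10 : ℝ) ^ 6 ≤ T (n + 1) := t.T_ge (n + 1)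
  have hr1 : r < 1 := lt_of_le_of_lt hr (t.radii.1 (n + 2)).2.2.2.1
  rw [Pool.Agent.Helper61.Lac.charT_eq hr1 L.anP]
  have hb : ∀ z ∈ sphere (0 : ℂ) |r|,
      Real.posLog ‖P z‖ ≤ (12 * l + 4 : ℝ) * Real.log (T (n + 1)) := by
    intro z hz
    rw [abs_of_nonneg hr0, mem_sphere_zero_iff_norm] at hz
    have h1 : ‖P z - Pn (n + 1) z‖ ≤ 1 / 8 := L.cP (n + 1) z (by rw [hz]; exact hr)
    have h2 : ‖Pn (n + 1) z‖ ≤ T (n + 1) ^ (12 * l + 3) := (t.st (n + 1)).nP z (by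
      have := Real.exp_pos (-(T (n + 1) ^ 5))
      rw [hz]
      linarith)
    have h3 : ‖P z‖ ≤ ‖Pn (n + 1) z‖ + ‖P z - Pn (n + 1) z‖ := by
      have := norm_add_le (Pn (n + 1) z) (P z - Pn (n + 1) z)
      rwa [add_sub_cancel] at this
    have h4 : (1 : ℝ) ≤ T (n + 1) ^ (12 * l + 3) := one_le_pow₀ (by linarith)
    have h5 : T (n + 1) ^ (12 * l + 4) = T (n + 1) ^ (12 * l + 3) * T (n + 1) := pow_succ _ _
    have h6 : ‖P z‖ ≤ T (n + 1) ^ (12 * l + 4) := by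
      rw [h5]
      nlinarith
    have h7 : (1 : ℝ) ≤ T (n + 1) ^ (12 * l + 4) := one_le_pow₀ (by linarith)
    refine (Real.posLog_le_posLog (norm_nonneg _) h6).trans (le_of_eq ?_)
    rw [Real.posLog_eq_log (h7.trans (le_abs_self _)), Real.log_pow]
    push_cast
    ring
  have h1 := Real.circleAverage_mono_on_of_le_circle
    (Pool.Agent.Helper61.Lac.circleIntegrable_of_cont hr0 hr1
      (Pool.Agent.Helper61.Lac.continuousOn_posLog_norm L.anP.continuousOn)) hb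
  exact h1

private lemma charT_f_ge (t : Tower l a N T φn ψn Pn) (L : Limit l N T φn Pn φ ψ P) (m : ℕ)
    {r : ℝ} (hr : 1 - (l + 1) / (N (m + 1) * T (m + 1) ^ 10) ≤ r) (hr1 : r < 1) :
    (1 - 12 / Real.log (T (m + 1))) * muf a l (T (m + 1)) - T m ^ 5 - 2 ≤
      charT (fun z => cexp (φ z)) r := by
  rw [Pool.Agent.Helper61.Lac.charT_eq hr1 L.anφ.cexp]
  have h1 : (fun z => Real.posLog ‖cexp (φ z)‖) = fun z => max (φ z).re 0 := by
    funext z
    rw [Complex.norm_exp, Real.posLog_apply, Real.log_exp, max_comm]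
  rw [h1]
  have h2 := (t.radii.1 (m + 1))
  refine (mean_ge t L m).trans (mean_mono (by linarith [h2.1, h2.2.1]) hr ?_)
  exact L.anφ.mono (closedBall_subset_ball hr1)

private lemma pow5_le (t : Tower l a N T φn ψn Pn) (m : ℕ) : T m ^ 5 ≤ √√(T (m + 1)) := by
  have h0 : (1 : ℝ) ≤ T m := le_trans (by norm_num) (t.T_ge m)
  have hp : 0 < T m ^ 5 := by positivity
  rw [Real.le_sqrt' hp, Real.le_sqrt' (by positivity)]
  calc ((T m ^ 5) ^ 2) ^ 2 = T m ^ 20 := by ring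
    _ ≤ T m ^ (12 * l + 20) := pow_le_pow_right₀ h0 (by omega)
    _ ≤ T (m + 1) := t.T_lo m

private lemma log_next (t : Tower l a N T φn ψn Pn) (n : ℕ) :
    Real.log (T (n + 1)) ≤ (12 * l + 21 : ℝ) * Real.log (T n) := by
  have h0 : (10 : ℝ) ^ 6 ≤ T n := t.T_ge n
  have h1 : (10 : ℝ) ^ 6 ≤ T (n + 1) := t.T_ge (n + 1)
  have h2 : (1 : ℝ) ≤ T n ^ (12 * l + 20) := one_le_pow₀ (by linarith)
  have h3 : T n ^ (12 * l + 21) = T n ^ (12 * l + 20) * T n := pow_succ _ _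
  have h4 : T (n + 1) ≤ T n ^ (12 * l + 21) := by
    rw [h3]
    have := t.T_hi n
    nlinarith
  refine (Real.log_le_log (by linarith) h4).trans (le_of_eq ?_)
  rw [Real.log_pow]
  push_cast
  ring

theorem small_coeff (t : Tower l a N T φn ψn Pn) (L : Limit l N T φn Pn φ ψ P) :
    charT (fun z => (P z)⁻¹) =o[𝓝[<] 1] charT (fun z => cexp (φ z)) := by
  obtain ⟨C1, hC1⟩ := charT_inv_le L.anP
  obtain ⟨C2, hC20, hC2⟩ := charT_inv_ge L.anP
  rw [Asymptotics.isLittleO_iff]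
  intro c hc
  set C : ℝ := max C1 C2 with hC
  set K : ℝ := (12 * l + 4) * (12 * l + 21) with hK
  have hK0 : 0 < K := by positivity
  have hsq : Tendsto (fun x : ℝ => √x) atTop atTop := Real.tendsto_sqrt_atTop
  have hgood : ∀ᶠ x : ℝ in atTop, 24 ≤ Real.log x ∧ 8 ≤ √√x ∧
      K * Real.log x ≤ c / 8 * √x ∧ C ≤ c / 8 * √x ∧ 16 ≤ √x := by
    have e1 : ∀ᶠ x : ℝ in atTop, 24 ≤ Real.log x := Real.tendsto_log_atTop.eventually_ge_atTop 24
    have e2 : ∀ᶠ x : ℝ in atTop, 8 ≤ √√x := (hsq.comp hsq).eventually_ge_atTop 8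
    have e3 : ∀ᶠ x : ℝ in atTop, K * Real.log x ≤ c / 8 * √x := by
      have h := isLittleO_log_rpow_atTop (show (0 : ℝ) < 1 / 2 by norm_num)
      rw [Asymptotics.isLittleO_iff] at h
      have h' := h (show 0 < c / 8 / K by positivity)
      filter_upwards [h', e1] with x hx hx1
      rw [Real.norm_eq_abs, Real.norm_eq_abs, abs_of_nonneg (by linarith),
        ← Real.sqrt_eq_rpow, abs_of_nonneg (Real.sqrt_nonneg _)] at hx
      calc K * Real.log x ≤ K * (c / 8 / K * √x) := mul_le_mul_of_nonneg_left hx hK0.le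
        _ = c / 8 * √x := by field_simp
    have e4 : ∀ᶠ x : ℝ in atTop, C ≤ c / 8 * √x :=
      (hsq.const_mul_atTop (show 0 < c / 8 by positivity)).eventually_ge_atTop C
    have e5 : ∀ᶠ x : ℝ in atTop, 16 ≤ √x := hsq.eventually_ge_atTop 16
    filter_upwards [e1, e2, e3, e4, e5] with x h1 h2 h3 h4 h5
    exact ⟨h1, h2, h3, h4, h5⟩
  have hT : Tendsto T atTop atTop := by
    refine tendsto_atTop_mono (fun n => ?_)
      (tendsto_pow_atTop_atTop_of_one_lt (show (1 : ℝ) < 2 by norm_num))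
    exact (pow_le_pow_right₀ (by norm_num) (by omega : n ≤ n + 10)).trans (t.T_pow n)
  obtain ⟨n0, hn0⟩ := eventually_atTop.1 (hT.eventually hgood)
  set R : ℕ → ℝ := fun n => 1 - (l + 1) / (N n * T n ^ 10) with hR
  have hrad := t.radii.1
  have hRlim : Tendsto R atTop (𝓝 1) :=
    tendsto_of_tendsto_of_tendsto_of_le_of_le t.radii.2 tendsto_const_nhds
      (fun n => (hrad n).2.1) (fun n => (hrad n).2.2.2.2.le)
  have hRmono : Monotone R := monotone_nat_of_le_succ fun n =>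
    ((hrad n).2.2.1).trans (hrad (n + 1)).2.1
  have hRlt : R (n0 + 1) < 1 := (hrad (n0 + 1)).2.2.2.2
  filter_upwards [Ioo_mem_nhdsLT hRlt] with r hr
  have hex : ∃ k, r < R k := by
    obtain ⟨k, hk⟩ := (hRlim.eventually (lt_mem_nhds hr.2)).exists
    exact ⟨k, hk⟩
  classical
  have hk1 := Nat.find_spec hex
  have hk2 : n0 + 1 < Nat.find hex := by
    by_contra h
    have := hRmono (not_lt.1 h)
    linarith [hr.1]
  obtain ⟨m, hm⟩ : ∃ m, Nat.find hex = m + 2 := ⟨Nat.find hex - 2, by omega⟩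
  have hk3 : R (m + 1) ≤ r := not_lt.1 (Nat.find_min hex (by omega))
  rw [hm] at hk1
  have hmn : n0 ≤ m + 1 := by omega
  have hr0 : 1 / 2 ≤ r := ((hrad (m + 1)).1.trans (hrad (m + 1)).2.1).trans hk3
  obtain ⟨g1, g2, g3, g4, g5⟩ := hn0 (m + 1) hmn
  set x := T (m + 1) with hx
  have hup : charT P r ≤ K * Real.log x := by
    have h1 := charT_P_le t L (m + 1) (r := r) (by linarith) (hk1.le.trans (hrad (m + 2)).2.2.1)
    have h2 := log_next t (m + 1)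
    calc charT P r ≤ (12 * l + 4 : ℝ) * Real.log (T (m + 1 + 1)) := h1
      _ ≤ (12 * l + 4 : ℝ) * ((12 * l + 21 : ℝ) * Real.log (T (m + 1))) :=
          mul_le_mul_of_nonneg_left h2 (by positivity)
      _ = K * Real.log x := by rw [hK, hx]; ring
  have hP0 : 0 ≤ charT P r := Pool.Agent.Helper61.Lac.charT_nonneg L.anP hr.2
  have hnum : |charT (fun z => (P z)⁻¹) r| ≤ c / 4 * √x := by
    rw [abs_le]
    have h1 := hC1 r hr0 hr.2
    have h2 := hC2 r hr0 hr.2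
    have h3 : C1 ≤ C := le_max_left _ _
    have h4 : C2 ≤ C := le_max_right _ _
    have h5 : 0 ≤ c / 8 * √x := by positivity
    constructor
    · linarith
    · linarith
  have hden : √x / 4 ≤ charT (fun z => cexp (φ z)) r := by
    refine le_trans ?_ (charT_f_ge t L m hk3 hr.2)
    have h1 : √x ≤ muf a l x := le_max_left _ _
    have h2 : 12 / Real.log x ≤ 1 / 2 := by
      rw [div_le_iff₀ (by linarith)]
      linarith
    have h3 := pow5_le t m
    have h4 : √√x ≤ √x / 8 := by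
      have h5 : √√x * √√x = √x := Real.mul_self_sqrt (Real.sqrt_nonneg _)
      nlinarith
    have h6 : (1 / 2 : ℝ) * √x ≤ (1 - 12 / Real.log x) * muf a l x :=
      mul_le_mul (by linarith) h1 (Real.sqrt_nonneg _) (by linarith)
    rw [← hx] at h3 ⊢
    linarith
  rw [Real.norm_eq_abs, Real.norm_eq_abs, abs_of_nonneg ((by positivity : 0 ≤ √x / 4).trans hden)]
  calc |charT (fun z => (P z)⁻¹) r| ≤ c / 4 * √x := hnum
    _ = c * (√x / 4) := by ring
    _ ≤ c * charT (fun z => cexp (φ z)) r := mul_le_mul_of_nonneg_left hden hc.le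

end Pool.Agent.Helper58.LD
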