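import Pool.Agent.Helper58.LD.Lower
import Pool.Agent.Helper61.Lac.LC7

/-!
# LD-26: lower bound for the mean

`Pool.Agent.Helper61.Lac.mean_lower` (in `LC7`) with `u z = -Re G (r z)`, `r = (1 - s) ^ 2`, `h₁ z = ϱ z ^ N`,
`h₂ z = r₀ p (r z)` (both vanish at `0`, modulus `< 1`), `η₁ = η₂ = T ^ (-1/8)`, `A = μ (1 - T ^ (-1/2))`; `log (2 / η) ≥ (log T) / 8`
and `2 log 2 * 8 ≤ 11.1`, so the mean of `max (-Re G (r z)) 0` over the unit circle is at least
`μ (1 - T ^ (-1/2)) (1 - 11.1 / log T) ≥ μ (1 - 12 / log T)` (`T ^ (-1/2) log T ≤ 1/2` for `T ≥ 10 ^ 6`).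
Then `max (-Re φ₂) 0 ≥ max (-Re G) 0 - A - 1` (`φ₂_sub`, `State.rφ`), and the mean over `|z| = R = 1 - s` of
`z ↦ f ((1 - s) z)` is the mean over the unit circle of `z ↦ f ((1 - s) ^ 2 z)`; `1 - s = 1 - (l + 1) / (N T ^ 10)`.
-/

set_option autoImplicit false

open Filter Topology Metric Complex Polynomial

namespace Pool.Agent.Helper58.LD

open Pool.Agent.Helper61.Lac

namespace Setup

variable {D : Setup} {δ : ℂ → ℂ}

/-- `T ^ (-1/2) * log T ≤ 1 / 2` -/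
private lemma lm_num {T : ℝ} (hT : 10 ^ 6 ≤ T) :
    T ^ (-(1 / 2) : ℝ) * Real.log T ≤ 1 / 2 := by
  have hT0 : 0 < T := by linarith
  have h1 := Real.log_le_rpow_div hT0.le (ε := 1 / 4) (by norm_num)
  have h2 : T ^ (-(1 / 2) : ℝ) * T ^ (1 / 4 : ℝ) = T ^ (-(1 / 4) : ℝ) := by
    rw [← Real.rpow_add hT0]
    norm_num
  have h3 : T ^ (-(1 / 4) : ℝ) ≤ (4096 : ℝ) ^ (-(1 / 4) : ℝ) :=
    Real.rpow_le_rpow_of_nonpos (by norm_num) (by linarith) (by norm_num)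
  have h4 : (4096 : ℝ) ^ (-(1 / 4) : ℝ) = 1 / 8 := by
    have h5 : (4096 : ℝ) = (8 : ℝ) ^ (4 : ℝ) := by norm_num
    rw [h5, ← Real.rpow_mul (by norm_num)]
    norm_num [Real.rpow_neg_one]
  have h5 : 0 ≤ T ^ (-(1 / 2) : ℝ) := Real.rpow_nonneg hT0.le _
  calc T ^ (-(1 / 2) : ℝ) * Real.log T ≤ T ^ (-(1 / 2) : ℝ) * (T ^ (1 / 4 : ℝ) / (1 / 4)) :=
        mul_le_mul_of_nonneg_left h1 h5
    _ = 4 * T ^ (-(1 / 4) : ℝ) := by rw [← h2]; ring
    _ ≤ 1 / 2 := by rw [h4] at h3; linarith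

/-- the numerical part of the lower bound -/
private lemma lm_final {T μ : ℝ} (hT : 10 ^ 6 ≤ T) (hμ : 0 ≤ μ) :
    (1 - 12 / Real.log T) * μ ≤ μ * (1 - T ^ (-(1 / 2) : ℝ)) *
      (1 - Real.log 2 / Real.log (2 / T ^ (-(1 / 8) : ℝ)) -
        Real.log 2 / Real.log (2 / T ^ (-(1 / 8) : ℝ))) := by
  have hT0 : 0 < T := by linarith
  have hL : 0 < Real.log T := Real.log_pos (by linarith)
  have hl2 := Real.log_two_lt_d9
  have hl2' : 0 < Real.log 2 := Real.log_pos (by norm_num)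
  have ha := lm_num hT
  have ha0 : 0 ≤ T ^ (-(1 / 2) : ℝ) := Real.rpow_nonneg hT0.le _
  have h1 : Real.log (2 / T ^ (-(1 / 8) : ℝ)) = Real.log 2 + Real.log T / 8 := by
    rw [Real.log_div (by norm_num) (Real.rpow_pos_of_pos hT0 _).ne', Real.log_rpow hT0]
    ring
  rw [h1]
  set a := T ^ (-(1 / 2) : ℝ) with hadef
  set L := Real.log T with hLdef
  set X := Real.log 2 / (Real.log 2 + L / 8) with hX
  have hX0 : 0 ≤ X := by positivity
  have hX1 : X ≤ (5.55 : ℝ) / L := by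
    rw [hX, div_le_div_iff₀ (by positivity) hL]
    nlinarith
  have ha1 : a ≤ (1 / 2) / L := by
    rw [le_div_iff₀ hL]
    exact ha
  have h2 : 1 - 12 / L ≤ (1 - a) * (1 - X - X) := by
    have h3 : 12 / L = (1 / 2) / L + (5.55 : ℝ) / L + (5.55 : ℝ) / L + 0.4 / L := by
      field_simp
      norm_num
    have h4 : 0 ≤ 0.4 / L := by positivity
    have h5 : 0 ≤ a * X := mul_nonneg ha0 hX0
    nlinarith
  calc (1 - 12 / L) * μ ≤ ((1 - a) * (1 - X - X)) * μ := mul_le_mul_of_nonneg_right h2 hμ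
    _ = μ * (1 - a) * (1 - X - X) := by ring

private lemma lm_rho {Λ : ℝ} (h : 1 < Λ) : 0 < rho Λ ∧ rho Λ < 1 := by
  have h3 : 1 < Λ ^ 3 := one_lt_pow₀ h (by norm_num)
  have h4 : (Λ ^ 3)⁻¹ < 1 := inv_lt_one_of_one_lt₀ h3
  have h5 : 0 < (Λ ^ 3)⁻¹ := by positivity
  unfold rho
  constructor <;> linarith

private lemma lm_norm {r : ℝ} (hr0 : 0 ≤ r) (hr1 : r ≤ 1) {z : ℂ} (hz : ‖z‖ ≤ 1) :
    ‖(r : ℂ) * z‖ ≤ 1 := by
  rw [norm_mul, Complex.norm_real, Real.norm_of_nonneg hr0]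
  exact mul_le_one₀ hr1 (norm_nonneg z) hz

private lemma lm_an {r : ℝ} (hr0 : 0 ≤ r) (hr1 : r ≤ 1) {f : ℂ → ℂ}
    (hf : AnalyticOnNhd ℂ f (closedBall 0 1)) :
    AnalyticOnNhd ℂ (fun z => f ((r : ℂ) * z)) (closedBall 0 1) := by
  intro z hz
  have h1 : (r : ℂ) * z ∈ closedBall (0 : ℂ) 1 := by
    rw [mem_closedBall_zero_iff] at hz ⊢
    exact lm_norm hr0 hr1 hz
  exact AnalyticAt.fun_comp (f := fun z : ℂ => (r : ℂ) * z) (hf _ h1)
    (analyticAt_const.mul analyticAt_id)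

theorem Ok.mean_G (h : D.Ok) : (1 - 12 / Real.log D.T) * D.μ ≤
    Real.circleAverage (fun z => max (-(D.G (((1 - D.s) ^ 2 : ℝ) * z)).re) 0) 0 1 := by
  obtain ⟨hs1, hs0, hs4, -, -, -⟩ := h.s_bounds
  have hT := h.par.hT
  have hT1 := h.par.T1
  obtain ⟨-, -, -, hμ, -, -, -, hLam⟩ := h.par.misc
  have hLam' : 10 ≤ D.Lam := hLam
  set r : ℝ := (1 - D.s) ^ 2 with hr
  have hr0 : 0 ≤ r := sq_nonneg _
  have hr1 : r ≤ 1 := by
    rw [hr]
    nlinarith
  obtain ⟨hρ0, hρ1⟩ := lm_rho (Λ := D.Lam) (by linarith)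
  have hN : D.N ≠ 0 := by
    intro h0
    have h1 := h.par.hN
    rw [h0, Nat.cast_zero] at h1
    exact (Real.exp_pos D.T).ne h1
  have hT0 : 0 < D.T := by linarith
  have hη : 0 < D.T ^ (-(1 / 8) : ℝ) := Real.rpow_pos_of_pos hT0 _
  have hη' : D.T ^ (-(1 / 8) : ℝ) < 2 := by
    have h1 := Real.rpow_le_one_of_one_le_of_nonpos hT1 (z := (-(1 / 8) : ℝ)) (by norm_num)
    linarith
  have hA : 0 ≤ D.μ * (1 - D.T ^ (-(1 / 2) : ℝ)) := by
    have h1 := Real.rpow_le_one_of_one_le_of_nonpos hT1 (z := (-(1 / 2) : ℝ)) (by norm_num)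
    exact mul_nonneg hμ.le (by linarith)
  have hG := lm_an hr0 hr1 h.anG
  have hp := lm_an hr0 hr1 h.anp
  have key := mean_lower (u := fun z => -(D.G ((r : ℂ) * z)).re)
    (h₁ := fun z => (rho D.Lam : ℂ) * z ^ D.N)
    (h₂ := fun z => (D.r₀ : ℂ) * D.p ((r : ℂ) * z))
    (η₁ := D.T ^ (-(1 / 8) : ℝ)) (η₂ := D.T ^ (-(1 / 8) : ℝ))
    (A := D.μ * (1 - D.T ^ (-(1 / 2) : ℝ)))
    ((Complex.continuous_re.comp_continuousOn
      (hG.continuousOn.mono sphere_subset_closedBall)).neg)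
    (fun z _ => analyticAt_const.mul (analyticAt_id.pow D.N))
    (by
      intro z hz
      rw [mem_closedBall_zero_iff] at hz
      rw [norm_mul, Complex.norm_real, Real.norm_of_nonneg hρ0.le, norm_pow]
      have h1 : ‖z‖ ^ D.N ≤ 1 := pow_le_one₀ (norm_nonneg z) hz
      have h2 : rho D.Lam * ‖z‖ ^ D.N ≤ rho D.Lam * 1 := mul_le_mul_of_nonneg_left h1 hρ0.le
      linarith)
    (by simp [hN])
    (fun z hz => analyticAt_const.mul (hp z hz))
    (by
      intro z hz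
      rw [mem_closedBall_zero_iff] at hz
      exact h.norm_r₀p (lm_norm hr0 hr1 hz))
    (by simp [p_zero D])
    hη hη' hη hη' hA
    (fun z hz h1 h2 => h.neg_G_ge hz h1 h2)
  exact (lm_final hT hμ.le).trans key

theorem Ok.lower (h : D.Ok) (hδ : D.IsDelta δ) :
    (1 - 12 / Real.log D.T) * D.μ - D.A - 1 ≤
      Real.circleAverage (fun z => max (-(D.φ₂ δ ((1 - D.s : ℝ) * z)).re) 0) 0
        (1 - (D.l + 1) / (D.N * D.T ^ 10)) := by
  obtain ⟨hs1, hs0, hs4, -, -, -⟩ := h.s_bounds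
  have hT1 := h.par.T1
  have hA1 := h.par.hA
  have hR : (1 - (D.l + 1) / (D.N * D.T ^ 10) : ℝ) = 1 - D.s := by
    unfold s s₁
    ring
  have hmean := h.mean_G
  rw [hR, Real.circleAverage_eq_circleAverage_zero_one]
  set r : ℝ := (1 - D.s) ^ 2 with hr
  have hr0 : 0 ≤ r := sq_nonneg _
  have hr1 : r ≤ 1 := by
    rw [hr]
    nlinarith
  have hG := lm_an hr0 hr1 h.anG
  have hφ := lm_an hr0 hr1 (h.anφ₂ hδ)
  have he : (fun z : ℂ => max (-(D.φ₂ δ ((1 - D.s : ℝ) * ((1 - D.s : ℝ) * z + 0))).re) 0) =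
      fun z : ℂ => max (-(D.φ₂ δ ((r : ℂ) * z)).re) 0 := by
    funext z
    have h1 : ((1 - D.s : ℝ) : ℂ) * (((1 - D.s : ℝ) : ℂ) * z + 0) = (r : ℂ) * z := by
      rw [hr]
      push_cast
      ring
    rw [h1]
  rw [he]
  have hci1 : CircleIntegrable (fun z => max (-(D.G ((r : ℂ) * z)).re) 0) 0 1 :=
    ContinuousOn.circleIntegrable' (by
      rw [abs_one]
      exact ((Complex.continuous_re.comp_continuousOn
        (hG.continuousOn.mono sphere_subset_closedBall)).neg).sup continuousOn_const)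
  have hci2 : CircleIntegrable (fun z => max (-(D.φ₂ δ ((r : ℂ) * z)).re) 0) 0 1 :=
    ContinuousOn.circleIntegrable' (by
      rw [abs_one]
      exact ((Complex.continuous_re.comp_continuousOn
        (hφ.continuousOn.mono sphere_subset_closedBall)).neg).sup continuousOn_const)
  have hci3 : CircleIntegrable (fun _ : ℂ => D.A + 1) 0 1 := circleIntegrable_const _ _ _
  have h1 : Real.circleAverage (fun z => max (-(D.G ((r : ℂ) * z)).re) 0 - (D.A + 1)) 0 1 ≤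
      Real.circleAverage (fun z => max (-(D.φ₂ δ ((r : ℂ) * z)).re) 0) 0 1 := by
    refine Real.circleAverage_mono (hci1.sub hci3) hci2 ?_
    intro z hz
    rw [abs_one, mem_sphere_zero_iff_norm] at hz
    have hw : ‖(r : ℂ) * z‖ ≤ 1 := lm_norm hr0 hr1 hz.le
    set w := (r : ℂ) * z with hwdef
    have k1 := h.φ₂_sub hδ hw
    have k2 := (Complex.abs_re_le_norm _).trans k1
    have k3 := h.st.rφ w (by
      have := Real.exp_pos (-D.A)
      linarith)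
    have k4 : 1 / (2 * D.T) ≤ 1 := by
      rw [div_le_one (by linarith)]
      linarith
    rw [Complex.sub_re, Complex.add_re] at k2
    have k5 := abs_le.1 k2
    have k6 := abs_le.1 k3
    have k7 : -(D.φ₂ δ w).re ≤ max (-(D.φ₂ δ w).re) 0 := le_max_left _ _
    have k8 : 0 ≤ max (-(D.φ₂ δ w).re) 0 := le_max_right _ _
    rw [sub_le_iff_le_add]
    refine max_le ?_ ?_
    · linarith [k5.1, k5.2, k6.1, k6.2]
    · linarith
  have h2 : Real.circleAverage (fun z => max (-(D.G ((r : ℂ) * z)).re) 0 - (D.A + 1)) 0 1 =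
      Real.circleAverage (fun z => max (-(D.G ((r : ℂ) * z)).re) 0) 0 1 - (D.A + 1) := by
    rw [Real.circleAverage_fun_sub hci1 hci3, Real.circleAverage_const]
  linarith

end Setup

end Pool.Agent.Helper58.LD
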