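import Pool.Agent.Helper58.LD.BBound

/-!
# LD-09: bound for the error term `rhoF`

In addition to `Wts`: `F` analytic near the closed disc, `|F| ≤ M V`. By `wcauchy_iter`
`|iteratedDeriv j F z| ≤ M 3 ^ j / s ^ j V z` for `|z| ≤ 1 - j s`. The `i`-th term of `rhoF` is at most
`(l choose i+1) W ^ (l - 1 - i) C (K / s) ^ (i + 1) W ^ (i + 2) / V ^ (l + 2) M 3 ^ l / s ^ (l - 1 - i) V`, and
`W ^ (l - 1 - i) W ^ (i + 2) = W ^ (l + 1)`, `(K / s) ^ (i + 1) / s ^ (l - 1 - i) ≤ (K / s) ^ l` (`K ≥ 1`),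
`W ^ (l + 1) V / V ^ (l + 2) = (W / V) ^ (l + 1)`. The region: `|z| ≤ 1 - l s`.
-/

set_option autoImplicit false

open Filter Topology Metric Complex

namespace Pool.Agent.Helper58.LD

theorem rhoF_an (l : ℕ) {U : Set ℂ} {Y g F : ℂ → ℂ} (hY : AnalyticOnNhd ℂ Y U)
    (hg : AnalyticOnNhd ℂ g U) (hF : AnalyticOnNhd ℂ F U) : AnalyticOnNhd ℂ (rhoF l Y g F) U := by
  intro z hz
  unfold rhoF
  refine Finset.analyticAt_fun_sum _ fun i _ => ?_
  have h1 : AnalyticAt ℂ (iteratedDeriv (l - 1 - i) F) z := by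
    rw [iteratedDeriv_eq_iterate]
    exact hF.iterated_deriv _ z hz
  exact ((analyticAt_const.mul ((hY z hz).pow _)).mul (bseq_an l hY hg i z hz)).mul h1

theorem rhoF_bound (l : ℕ) : ∃ C : ℝ, 1 ≤ C ∧ ∀ (s K M : ℝ) (W V : ℂ → ℝ) (Y g F : ℂ → ℂ),
    Wts l s K W V Y g → 0 ≤ M → AnalyticOnNhd ℂ F (closedBall 0 1) →
      (∀ z : ℂ, ‖z‖ ≤ 1 → ‖F z‖ ≤ M * V z) → ∀ z : ℂ, ‖z‖ ≤ 1 - l * s →
        ‖rhoF l Y g F z‖ ≤ C * (K / s) ^ l * M * (W z / V z) ^ (l + 1) := by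
  obtain ⟨C, hC1, hC⟩ := bseq_bound l
  refine ⟨(l + 1) * (2 ^ l * 3 ^ l * C), ?_, ?_⟩
  · have h1 : (1 : ℝ) ≤ 2 ^ l := one_le_pow₀ (by norm_num)
    have h2 : (1 : ℝ) ≤ 3 ^ l := one_le_pow₀ (by norm_num)
    have h3 : (1 : ℝ) ≤ 2 ^ l * 3 ^ l * C :=
      one_le_mul_of_one_le_of_one_le (one_le_mul_of_one_le_of_one_le h1 h2) hC1
    have h4 : (1 : ℝ) ≤ l + 1 := by
      have : (0 : ℝ) ≤ l := Nat.cast_nonneg l
      linarith
    exact one_le_mul_of_one_le_of_one_le h4 h3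
  intro s K M W V Y g F hw hM hFan hF z hz
  have hs := hw.hs
  have hK := hw.hK
  have hW := hw.Wpos z
  have hV := hw.Vpos z
  have hls : (0 : ℝ) ≤ l * s := by positivity
  have hz1 : ‖z‖ ≤ 1 := by linarith
  have hKs : 0 < K / s := by positivity
  have key : ∀ i ∈ Finset.range l, ‖(l.choose (i + 1) : ℂ) * Y z ^ (l - 1 - i) * bseq l Y g i z *
      iteratedDeriv (l - 1 - i) F z‖ ≤
      2 ^ l * 3 ^ l * C * (K / s) ^ l * M * (W z / V z) ^ (l + 1) := by
    intro i hi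
    rw [Finset.mem_range] at hi
    obtain ⟨j, hj⟩ : ∃ j, j = l - 1 - i := ⟨_, rfl⟩
    rw [← hj]
    have hij : j + (i + 1) = l := by omega
    have hjl : j ≤ l := by omega
    have hjl' : (j : ℝ) ≤ l := by exact_mod_cast hjl
    have hil' : ((i : ℝ) + 1) ≤ l := by exact_mod_cast hi
    have b1 : ‖bseq l Y g i z‖ ≤ C * (K / s) ^ (i + 1) * W z ^ (i + 2) / V z ^ (l + 2) := by
      refine hC s K W V Y g hw i hi.le z (hz.trans ?_)
      have := mul_le_mul_of_nonneg_right hil' hs.le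
      linarith
    have b2 : ‖iteratedDeriv j F z‖ ≤ M * 3 ^ j / s ^ j * V z := by
      refine wcauchy_iter hs (by norm_num) hFan hw.slowV hM hF j (hz.trans ?_)
      have := mul_le_mul_of_nonneg_right hjl' hs.le
      linarith
    have b3 : ‖Y z‖ ^ j ≤ W z ^ j := pow_le_pow_left₀ (norm_nonneg _) (hw.hY z hz1) j
    have b4 : ((l.choose (i + 1) : ℕ) : ℝ) ≤ 2 ^ l := by
      have h1 : l.choose (i + 1) ≤ 2 ^ l := Nat.choose_le_two_pow l (i + 1)
      exact_mod_cast h1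
    have b5 : (3 : ℝ) ^ j ≤ 3 ^ l := pow_le_pow_right₀ (by norm_num) hjl
    have b6 : (1 / s) ^ j ≤ (K / s) ^ j := by
      refine pow_le_pow_left₀ (by positivity) ?_ j
      exact div_le_div_of_nonneg_right hK hs.le
    rw [norm_mul, norm_mul, norm_mul, norm_pow, Complex.norm_natCast]
    calc ((l.choose (i + 1) : ℕ) : ℝ) * ‖Y z‖ ^ j * ‖bseq l Y g i z‖ * ‖iteratedDeriv j F z‖
        ≤ 2 ^ l * W z ^ j * (C * (K / s) ^ (i + 1) * W z ^ (i + 2) / V z ^ (l + 2)) *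
          (M * 3 ^ j / s ^ j * V z) := by
          refine mul_le_mul (mul_le_mul (mul_le_mul b4 b3 (by positivity) (by positivity)) b1
            (norm_nonneg _) (by positivity)) b2 (norm_nonneg _) ?_
          have hC0 : 0 ≤ C := by linarith
          positivity
      _ = 2 ^ l * C * M * 3 ^ j * ((K / s) ^ (i + 1) * (1 / s) ^ j) *
          (W z ^ (j + (i + 1) + 1) * V z / V z ^ (l + 2)) := by
          rw [one_div, inv_pow]
          ring
      _ ≤ 2 ^ l * C * M * 3 ^ l * ((K / s) ^ (i + 1) * (K / s) ^ j) *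
          (W z ^ (j + (i + 1) + 1) * V z / V z ^ (l + 2)) := by
          refine mul_le_mul_of_nonneg_right ?_ (by positivity)
          have hC0 : 0 ≤ C := by linarith
          refine mul_le_mul (mul_le_mul_of_nonneg_left b5 (by positivity))
            (mul_le_mul_of_nonneg_left b6 (by positivity)) (by positivity) (by positivity)
      _ = 2 ^ l * 3 ^ l * C * (K / s) ^ l * M * (W z / V z) ^ (l + 1) := by
          rw [← pow_add, add_comm (i + 1) j, hij, div_pow]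
          have h1 : W z ^ (l + 1) * V z / V z ^ (l + 2) = W z ^ (l + 1) / V z ^ (l + 1) := by
            rw [pow_succ (V z) (l + 1)]
            field_simp
          rw [h1]
          ring
  have hsum : ‖rhoF l Y g F z‖ ≤
      ∑ i ∈ Finset.range l, 2 ^ l * 3 ^ l * C * (K / s) ^ l * M * (W z / V z) ^ (l + 1) :=
    (norm_sum_le _ _).trans (Finset.sum_le_sum key)
  rw [Finset.sum_const, Finset.card_range, nsmul_eq_mul] at hsum
  refine hsum.trans ?_
  have hC0 : 0 ≤ C := by linarith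
  have h0 : 0 ≤ 2 ^ l * 3 ^ l * C * (K / s) ^ l * M * (W z / V z) ^ (l + 1) := by positivity
  calc (l : ℝ) * (2 ^ l * 3 ^ l * C * (K / s) ^ l * M * (W z / V z) ^ (l + 1))
      ≤ ((l : ℝ) + 1) * (2 ^ l * 3 ^ l * C * (K / s) ^ l * M * (W z / V z) ^ (l + 1)) :=
        mul_le_mul_of_nonneg_right (by linarith) h0
    _ = (l + 1) * (2 ^ l * 3 ^ l * C) * (K / s) ^ l * M * (W z / V z) ^ (l + 1) := by ring

end Pool.Agent.Helper58.LD
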