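import Pool.Agent.Helper58.LD.Inner
import Pool.Agent.Helper58.LD.RhoBound

/-!
# LD-21: the size of `ρ`

`Wts l s₁ K W V Y g` with `K = 2 μ T ≥ 1` (`slow`, `W_le`, `norm_g`, `anY`, `ang`; `|Y| ≤ W`; `W`, `V > 0`), `rhoF_bound` with
`M = 2 e^(-Λ)` (`norm_F₁`):
`|ρ| ≤ C (2 μ T N T ^ 10) ^ l 2 e^(-Λ) (W / V) ^ (l + 1)` on `|z| ≤ 1 - l s₁`, and `e^(-Λ) = 2 ^ (l + 5) Q T / N ^ l` (`Par.exp_lam`).
`W / V ≤ 2`: `|ρ| ≤ C (2 l T ^ 12) ^ l 2 ^ (2 l + 7) T ^ 2 ≤ T ^ (12 l + 3) - T` if `T` is large in terms of `l` and `C`.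
Inner region (`1 - T / N ≤ 1 - l s₁`): `W / V ≤ 4 e^(2A - Λ)`, so even `|ρ| ≤ C (2 l T ^ 12) ^ l 2 ^ (l + 6) T ^ 2 (4 e^(2A - Λ)) ^ (l + 1)`
`≤ 1 / (8 T)` (`Par.big_lam` gives `e^(2A - Λ) ≤ (4T) ^ (-20 (l + 1))`, `l ≤ T`).
-/

set_option autoImplicit false

open Filter Topology Metric Complex Polynomial

namespace Pool.Agent.Helper58.LD

namespace Setup

private lemma rho_wts {D : Setup} (h : D.Ok) :
    Wts D.l D.s₁ (2 * D.μ * D.T) D.W D.V D.Y D.g := by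
  have hTp := h.par.Tpos
  have hN : (0 : ℝ) < D.N := by rw [h.par.hN]; exact Real.exp_pos _
  refine
    { hs := ?_
      hK := ?_
      Wpos := fun z => ?_
      Vpos := fun z => ?_
      hWV := fun z hz => h.W_le hz
      slowW := fun z ζ hz hζ hd => (h.slow hz hζ hd).1
      slowV := fun z ζ hz hζ hd => (h.slow hz hζ hd).2.1
      slowV' := fun z ζ hz hζ hd => (h.slow hz hζ hd).2.2
      Yan := h.anY
      gan := h.ang
      hY := fun z _ => ?_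
      hg := fun z hz => h.norm_g hz }
  · unfold Setup.s₁
    positivity
  · have h1 := h.par.sqrt_ge
    have h2 := h.par.hμ1
    have h3 := h.par.T1
    nlinarith
  · unfold Setup.W
    positivity
  · unfold Setup.V
    positivity
  · unfold Setup.Y Setup.W
    refine (norm_add_le _ _).trans (le_of_eq ?_)
    rw [norm_one, Complex.norm_exp]

/-- the size of `(K / s₁) ^ l M` -/
private lemma rho_num {D : Setup} (h : D.Ok) :
    (2 * D.μ * D.T / D.s₁) ^ D.l * (2 * Real.exp (-D.Lam)) ≤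
      2 ^ (2 * D.l + 6) * (D.l : ℝ) ^ D.l * D.T ^ (12 * D.l + 2) := by
  have hpar := h.par
  have hTp := hpar.Tpos
  have hN : (0 : ℝ) < D.N := by rw [hpar.hN]; exact Real.exp_pos _
  obtain ⟨-, -, -, hμ0, hμ, -⟩ := hpar.misc
  have hl0 : (0 : ℝ) ≤ D.l := Nat.cast_nonneg _
  have hQ0 : 0 < D.Q := by have := hpar.hQ; linarith
  have h1 : 2 * D.μ * D.T / D.s₁ ≤ 2 * D.l * D.T ^ 12 * D.N := by
    have e1 : 2 * D.μ * D.T / D.s₁ = D.μ * (2 * D.T * (D.N * D.T ^ 10)) := by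
      unfold Setup.s₁
      field_simp
    rw [e1]
    calc D.μ * (2 * D.T * (D.N * D.T ^ 10)) ≤ (D.l * D.T) * (2 * D.T * (D.N * D.T ^ 10)) :=
          mul_le_mul_of_nonneg_right hμ (by positivity)
      _ = 2 * D.l * D.T ^ 12 * D.N := by ring
  have h2 : Real.exp (-D.Lam) = 2 ^ (D.l + 5) * D.Q * D.T / (D.N : ℝ) ^ D.l := by
    have h3 := hpar.exp_lam
    have h4 : D.Lam = lam D.l D.Q D.T := rfl
    rw [Real.exp_neg, h4, h3, inv_div]
  have h0 : 0 ≤ 2 * D.μ * D.T / D.s₁ := by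
    unfold Setup.s₁
    positivity
  calc (2 * D.μ * D.T / D.s₁) ^ D.l * (2 * Real.exp (-D.Lam))
      ≤ (2 * D.l * D.T ^ 12 * D.N) ^ D.l * (2 * Real.exp (-D.Lam)) :=
        mul_le_mul_of_nonneg_right (pow_le_pow_left₀ h0 h1 _) (by positivity)
    _ = 2 ^ (2 * D.l + 6) * (D.l : ℝ) ^ D.l * (D.T ^ (12 * D.l) * (D.Q * D.T)) := by
        rw [h2, mul_pow, mul_pow, mul_pow, ← pow_mul]
        have hNl : (D.N : ℝ) ^ D.l ≠ 0 := pow_ne_zero _ hN.ne'
        have e2 : (2 : ℝ) ^ (2 * D.l + 6) = 2 ^ D.l * (2 * 2 ^ (D.l + 5)) := by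
          rw [← pow_succ', ← pow_add]
          congr 1
          ring
        rw [e2]
        field_simp
    _ ≤ 2 ^ (2 * D.l + 6) * (D.l : ℝ) ^ D.l * (D.T ^ (12 * D.l) * (D.T * D.T)) := by
        have := hpar.hQT
        refine mul_le_mul_of_nonneg_left (mul_le_mul_of_nonneg_left
          (mul_le_mul_of_nonneg_right this hTp.le) (by positivity)) (by positivity)
    _ = 2 ^ (2 * D.l + 6) * (D.l : ℝ) ^ D.l * D.T ^ (12 * D.l + 2) := by
        rw [pow_add D.T (12 * D.l) 2]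
        ring

private lemma rho_WV {D : Setup} (h : D.Ok) {z : ℂ} (hz : ‖z‖ ≤ 1 - D.T / D.N) :
    (D.W z / D.V z) ^ (D.l + 1) * (4 * D.T) ^ (20 * D.l + 19) ≤ 1 := by
  have hpar := h.par
  have hT1 := hpar.T1
  have hA := hpar.hA
  have hl1 : (0 : ℝ) ≤ D.l := Nat.cast_nonneg _
  have h1 := h.WV_inner hz
  have h2 := hpar.big_lam
  have h4 : D.Lam = lam D.l D.Q D.T := rfl
  rw [← h4] at h2
  have hW : 0 ≤ D.W z / D.V z := by
    unfold Setup.W Setup.V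
    positivity
  have h4T : 1 ≤ 4 * D.T := by linarith
  have h3 : D.W z / D.V z * (4 * D.T) ^ (20 * D.l + 19) ≤ 1 := by
    have h5 : Real.exp (2 * D.A - D.Lam) * ((4 * D.T) ^ (20 * (D.l + 1)) *
        Real.exp (20 * (D.l + 1) * D.A)) ≤ Real.exp (2 * D.A) := by
      calc Real.exp (2 * D.A - D.Lam) * ((4 * D.T) ^ (20 * (D.l + 1)) *
            Real.exp (20 * (D.l + 1) * D.A))
          ≤ Real.exp (2 * D.A - D.Lam) * Real.exp D.Lam :=
            mul_le_mul_of_nonneg_left h2 (Real.exp_pos _).le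
        _ = Real.exp (2 * D.A) := by rw [← Real.exp_add, sub_add_cancel]
    have h6 : Real.exp (2 * D.A) ≤ Real.exp (20 * (D.l + 1) * D.A) :=
      Real.exp_le_exp.2 (by nlinarith)
    have h7 : Real.exp (2 * D.A - D.Lam) * (4 * D.T) ^ (20 * (D.l + 1)) ≤ 1 := by
      have h8 : Real.exp (2 * D.A - D.Lam) * (4 * D.T) ^ (20 * (D.l + 1)) *
          Real.exp (20 * (D.l + 1) * D.A) ≤ 1 * Real.exp (20 * (D.l + 1) * D.A) := by
        rw [one_mul, mul_assoc]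
        exact h5.trans h6
      exact le_of_mul_le_mul_right h8 (Real.exp_pos _)
    have h9 : (4 * D.T) ^ (20 * (D.l + 1)) = (4 * D.T) ^ (20 * D.l + 19) * (4 * D.T) := by
      rw [← pow_succ]
      congr 1
    calc D.W z / D.V z * (4 * D.T) ^ (20 * D.l + 19)
        ≤ 4 * Real.exp (2 * D.A - D.Lam) * (4 * D.T) ^ (20 * D.l + 19) :=
          mul_le_mul_of_nonneg_right h1 (by positivity)
      _ = Real.exp (2 * D.A - D.Lam) * ((4 * D.T) ^ (20 * D.l + 19) * 4) := by ring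
      _ ≤ Real.exp (2 * D.A - D.Lam) * ((4 * D.T) ^ (20 * D.l + 19) * (4 * D.T)) := by
          refine mul_le_mul_of_nonneg_left (mul_le_mul_of_nonneg_left (by linarith)
            (by positivity)) (Real.exp_pos _).le
      _ ≤ 1 := by rw [← h9]; exact h7
  have hW1 : D.W z / D.V z ≤ 1 := by
    have h5 : 1 ≤ (4 * D.T) ^ (20 * D.l + 19) := one_le_pow₀ h4T
    nlinarith
  calc (D.W z / D.V z) ^ (D.l + 1) * (4 * D.T) ^ (20 * D.l + 19)
      ≤ D.W z / D.V z * (4 * D.T) ^ (20 * D.l + 19) := by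
        refine mul_le_mul_of_nonneg_right ?_ (by positivity)
        exact pow_le_of_le_one hW hW1 (Nat.succ_ne_zero _)
    _ ≤ 1 := h3

theorem rho_est (l : ℕ) : ∃ C₁ : ℝ, ∀ (D : Setup) (δ : ℂ → ℂ), D.l = l → D.Ok → D.IsDelta δ →
    C₁ ≤ D.T →
    (∀ z : ℂ, ‖z‖ ≤ 1 - D.l * D.s₁ → ‖D.ρ δ z‖ ≤ D.T ^ (12 * D.l + 3) - D.T) ∧
    (∀ z : ℂ, ‖z‖ ≤ 1 - D.T / D.N → ‖D.ρ δ z‖ ≤ 1 / (8 * D.T)) := by
  obtain ⟨C, hC1, hC⟩ := rhoF_bound l
  refine ⟨C * (2 ^ (3 * l + 7) * (l : ℝ) ^ l) + 1, ?_⟩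
  intro D δ hl h hδ hT
  subst hl
  have hpar := h.par
  have hTp := hpar.Tpos
  have hT1 := hpar.T1
  have hC0 : 0 < C := by linarith
  have hl0 : (0 : ℝ) ≤ D.l := Nat.cast_nonneg _
  have hN : (0 : ℝ) < D.N := by rw [hpar.hN]; exact Real.exp_pos _
  have hs : 0 < D.s₁ := by
    unfold Setup.s₁
    positivity
  have hgen : ∀ z : ℂ, ‖z‖ ≤ 1 - D.l * D.s₁ →
      ‖D.ρ δ z‖ ≤ C * (2 ^ (2 * D.l + 6) * (D.l : ℝ) ^ D.l * D.T ^ (12 * D.l + 2)) *
        (D.W z / D.V z) ^ (D.l + 1) := by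
    intro z hz
    have hW : 0 ≤ D.W z / D.V z := by
      unfold Setup.W Setup.V
      positivity
    have h1 : ‖D.ρ δ z‖ ≤ C * (2 * D.μ * D.T / D.s₁) ^ D.l * (2 * Real.exp (-D.Lam)) *
        (D.W z / D.V z) ^ (D.l + 1) :=
      hC D.s₁ (2 * D.μ * D.T) (2 * Real.exp (-D.Lam)) D.W D.V D.Y D.g (D.F₁ δ) (rho_wts h)
        (by positivity) (h.st.anφ.cexp.add hδ.an) (fun z hz => h.norm_F₁ hδ hz) z hz
    refine h1.trans (mul_le_mul_of_nonneg_right ?_ (by positivity))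
    rw [mul_assoc]
    exact mul_le_mul_of_nonneg_left (rho_num h) hC0.le
  have hls : D.l * D.s₁ ≤ D.T / D.N := by
    have h2 : (D.l : ℝ) ≤ D.T := by
      have := hpar.l_le
      linarith
    have h3 : D.s₁ ≤ 1 / D.N := by
      unfold Setup.s₁
      refine one_div_le_one_div_of_le hN ?_
      have h4 : 1 ≤ D.T ^ 10 := one_le_pow₀ hT1
      nlinarith
    calc D.l * D.s₁ ≤ D.T * (1 / D.N) := mul_le_mul h2 h3 hs.le hTp.le
      _ = D.T / D.N := by ring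
  constructor
  · intro z hz
    have hls0 : 0 ≤ D.l * D.s₁ := by positivity
    have hz1 : ‖z‖ ≤ 1 := by linarith
    have hV : 0 < D.V z := by
      unfold Setup.V
      positivity
    have hW0 : 0 ≤ D.W z / D.V z := by
      unfold Setup.W Setup.V
      positivity
    have hW : D.W z / D.V z ≤ 2 := by
      rw [div_le_iff₀ hV]
      exact h.W_le hz1
    have h2 : (D.W z / D.V z) ^ (D.l + 1) ≤ 2 ^ (D.l + 1) := pow_le_pow_left₀ hW0 hW _
    have h3 : ‖D.ρ δ z‖ ≤ C * (2 ^ (2 * D.l + 6) * (D.l : ℝ) ^ D.l * D.T ^ (12 * D.l + 2)) *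
        2 ^ (D.l + 1) :=
      (hgen z hz).trans (mul_le_mul_of_nonneg_left h2 (by positivity))
    have e3 : C * (2 ^ (2 * D.l + 6) * (D.l : ℝ) ^ D.l * D.T ^ (12 * D.l + 2)) *
        2 ^ (D.l + 1) = C * (2 ^ (3 * D.l + 7) * (D.l : ℝ) ^ D.l) * D.T ^ (12 * D.l + 2) := by
      have e4 : (2 : ℝ) ^ (3 * D.l + 7) = 2 ^ (2 * D.l + 6) * 2 ^ (D.l + 1) := by
        rw [← pow_add]
        congr 1
        ring
      rw [e4]
      ring
    rw [e3] at h3
    have h5 : D.T ≤ D.T ^ (12 * D.l + 2) := le_self_pow₀ hT1 (by omega)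
    have h6 : D.T ^ (12 * D.l + 3) = D.T * D.T ^ (12 * D.l + 2) := pow_succ' _ _
    have h7 : (C * (2 ^ (3 * D.l + 7) * (D.l : ℝ) ^ D.l) + 1) * D.T ^ (12 * D.l + 2) ≤
        D.T * D.T ^ (12 * D.l + 2) := mul_le_mul_of_nonneg_right hT (by positivity)
    rw [h6]
    linarith
  · intro z hz
    have h1 := hgen z (by linarith)
    have h2 := rho_WV h hz
    have hW0 : 0 ≤ (D.W z / D.V z) ^ (D.l + 1) := by
      unfold Setup.W Setup.V
      positivity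
    have h4T : 1 ≤ 4 * D.T := by linarith
    have h3 : C * (2 ^ (2 * D.l + 6) * (D.l : ℝ) ^ D.l) ≤ 4 * D.T := by
      have h4 : (2 : ℝ) ^ (2 * D.l + 6) ≤ 2 ^ (3 * D.l + 7) :=
        pow_le_pow_right₀ (by norm_num) (by omega)
      have h5 : C * (2 ^ (2 * D.l + 6) * (D.l : ℝ) ^ D.l) ≤
          C * (2 ^ (3 * D.l + 7) * (D.l : ℝ) ^ D.l) :=
        mul_le_mul_of_nonneg_left (mul_le_mul_of_nonneg_right h4 (by positivity)) hC0.le
      linarith
    have h4 : D.T ^ (12 * D.l + 2) ≤ (4 * D.T) ^ (12 * D.l + 2) :=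
      pow_le_pow_left₀ hTp.le (by linarith) _
    have h5 : ‖D.ρ δ z‖ ≤ (4 * D.T) * (4 * D.T) ^ (12 * D.l + 2) *
        (D.W z / D.V z) ^ (D.l + 1) := by
      refine h1.trans (mul_le_mul_of_nonneg_right ?_ hW0)
      rw [← mul_assoc]
      exact mul_le_mul h3 h4 (by positivity) (by positivity)
    have h6 : (4 * D.T) * (4 * D.T) ^ (12 * D.l + 2) * (4 * D.T) ^ 2 ≤
        (4 * D.T) ^ (20 * D.l + 19) := by
      rw [← pow_succ', ← pow_add]
      exact pow_le_pow_right₀ h4T (by omega)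
    have h7 : ‖D.ρ δ z‖ * (4 * D.T) ^ 2 ≤ 1 := by
      calc ‖D.ρ δ z‖ * (4 * D.T) ^ 2
          ≤ ((4 * D.T) * (4 * D.T) ^ (12 * D.l + 2) * (D.W z / D.V z) ^ (D.l + 1)) *
            (4 * D.T) ^ 2 := mul_le_mul_of_nonneg_right h5 (by positivity)
        _ = (D.W z / D.V z) ^ (D.l + 1) *
            ((4 * D.T) * (4 * D.T) ^ (12 * D.l + 2) * (4 * D.T) ^ 2) := by ring
        _ ≤ (D.W z / D.V z) ^ (D.l + 1) * (4 * D.T) ^ (20 * D.l + 19) :=
            mul_le_mul_of_nonneg_left h6 hW0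
        _ ≤ 1 := h2
    rw [le_div_iff₀ (by positivity)]
    have h8 : 8 * D.T ≤ (4 * D.T) ^ 2 := by nlinarith
    exact (mul_le_mul_of_nonneg_left h8 (norm_nonneg _)).trans h7

end Setup

end Pool.Agent.Helper58.LD
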