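import Pool.Agent.Helper58.LD.Dil
import Pool.Agent.Helper58.LD.MaxP

/-!
# LD-24: upper bound for the mean

`max (Re φ₂) 0 ≤ A + 1 + max (Re G) 0` (`φ₂_sub`, `State.rφ`); the mean over `|z| = r` of `z ↦ f ((1 - s) z)` is the mean of
`f` over `|z| = (1 - s) r` (`Real.circleAverage` is defined by `circleMap`; or apply everything to the function
`z ↦ G ((1 - s) z)`, analytic near the closed disc). `mean_pos_part` for `G((1 - s) z)`: `G 0 = 0`, `max (-Re G) 0 ≤ μ`.
-/

set_option autoImplicit false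

open Filter Topology Metric Complex Polynomial

namespace Pool.Agent.Helper58.LD

namespace Setup

variable {D : Setup} {δ : ℂ → ℂ}

private lemma norm_scale {a : ℝ} (ha0 : 0 ≤ a) (ha1 : a ≤ 1) {z : ℂ} (hz : ‖z‖ ≤ 1) : ‖(a : ℂ) * z‖ ≤ 1 := by
  rw [norm_mul, Complex.norm_real, Real.norm_eq_abs, abs_of_nonneg ha0]
  exact mul_le_one₀ ha1 (norm_nonneg _) hz

private lemma an_scale {f : ℂ → ℂ} (hf : AnalyticOnNhd ℂ f (closedBall 0 1)) {a : ℝ} (ha0 : 0 ≤ a) (ha1 : a ≤ 1) :
    AnalyticOnNhd ℂ (fun z : ℂ => f ((a : ℂ) * z)) (closedBall 0 1) := by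
  intro z hz
  have h1 : AnalyticAt ℂ (fun z : ℂ => (a : ℂ) * z) z := analyticAt_const.mul analyticAt_id
  have h2 : AnalyticAt ℂ f ((a : ℂ) * z) := by
    apply hf
    rw [mem_closedBall_zero_iff] at hz ⊢
    exact norm_scale ha0 ha1 hz
  exact h2.fun_comp h1

private lemma ci_pos {f : ℂ → ℂ} (hf : AnalyticOnNhd ℂ f (closedBall 0 1)) {r : ℝ} (hr0 : 0 ≤ r) (hr1 : r ≤ 1) :
    CircleIntegrable (fun z => max (f z).re 0) 0 r := by
  have hc : ContinuousOn (fun z => (f z).re) (sphere (0 : ℂ) r) :=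
    Complex.continuous_re.comp_continuousOn (hf.continuousOn.mono
      (sphere_subset_closedBall.trans (closedBall_subset_closedBall hr1)))
  exact (hc.sup continuousOn_const).circleIntegrable hr0

private lemma ci_neg {f : ℂ → ℂ} (hf : AnalyticOnNhd ℂ f (closedBall 0 1)) {r : ℝ} (hr0 : 0 ≤ r) (hr1 : r ≤ 1) :
    CircleIntegrable (fun z => max (-(f z).re) 0) 0 r := by
  have hc : ContinuousOn (fun z => (f z).re) (sphere (0 : ℂ) r) :=
    Complex.continuous_re.comp_continuousOn (hf.continuousOn.mono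
      (sphere_subset_closedBall.trans (closedBall_subset_closedBall hr1)))
  exact (hc.neg.sup continuousOn_const).circleIntegrable hr0

theorem Ok.upper (h : D.Ok) (hδ : D.IsDelta δ) {r : ℝ} (hr0 : 0 ≤ r) (hr1 : r ≤ 1) :
    Real.circleAverage (fun z => max (D.φ₂ δ ((1 - D.s : ℝ) * z)).re 0) 0 r ≤ D.A + D.μ + 1 := by
  obtain ⟨-, hs0, hs1, -⟩ := h.s_bounds
  have ha0 : 0 ≤ 1 - D.s := by linarith
  have ha1 : 1 - D.s ≤ 1 := by linarith
  have hT : 1 ≤ D.T := h.par.T1
  have hA : 1 ≤ D.A := h.par.hA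
  have hμ : 0 < D.μ := h.par.misc.2.2.2.1
  have hanG := an_scale h.anG ha0 ha1
  have hanφ := an_scale (h.anφ₂ hδ) ha0 ha1
  have hsph : ∀ z ∈ sphere (0 : ℂ) |r|, ‖z‖ ≤ 1 := by
    intro z hz
    rw [mem_sphere_zero_iff_norm, abs_of_nonneg hr0] at hz
    rw [hz]
    exact hr1
  -- the pointwise bound
  have hpt : ∀ z ∈ sphere (0 : ℂ) |r|, max (D.φ₂ δ ((1 - D.s : ℝ) * z)).re 0 ≤
      (D.A + 1) + max (D.G ((1 - D.s : ℝ) * z)).re 0 := by
    intro z hz
    have hz1 := norm_scale ha0 ha1 (hsph z hz)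
    have h1 := h.φ₂_sub hδ hz1
    have h2 := (Complex.abs_re_le_norm _).trans h1
    rw [Complex.sub_re, Complex.add_re] at h2
    have h3 : |(D.φ ((1 - D.s : ℝ) * z)).re| ≤ D.A :=
      h.st.rφ _ (lt_of_le_of_lt hz1 (by have := Real.exp_pos (-D.A); linarith))
    have h4 : 1 / (2 * D.T) ≤ 1 := by
      rw [div_le_one (by linarith)]
      linarith
    have h5 := (abs_le.1 h2).2
    have h6 := (abs_le.1 h3).2
    have h7 := le_max_left (D.G ((1 - D.s : ℝ) * z)).re 0
    have h8 := le_max_right (D.G ((1 - D.s : ℝ) * z)).re 0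
    exact max_le (by linarith) (by linarith)
  have hi1 := ci_pos hanφ hr0 hr1
  have hi2 := ci_pos hanG hr0 hr1
  have hi3 := ci_neg hanG hr0 hr1
  have hic : CircleIntegrable (fun _ : ℂ => D.A + 1) 0 r := circleIntegrable_const _ _ _
  have step1 := Real.circleAverage_mono hi1 (hic.add hi2) hpt
  have step2 : Real.circleAverage ((fun _ : ℂ => D.A + 1) + fun z => max (D.G ((1 - D.s : ℝ) * z)).re 0) 0 r =
      (D.A + 1) + Real.circleAverage (fun z => max (D.G ((1 - D.s : ℝ) * z)).re 0) 0 r := by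
    rw [Real.circleAverage_add hic hi2, Real.circleAverage_const]
  have step3 := mean_pos_part hanG hr0 hr1
  simp only [mul_zero, D.G_zero, Complex.zero_re, zero_add] at step3
  have step4 : Real.circleAverage (fun z => max (-(D.G ((1 - D.s : ℝ) * z)).re) 0) 0 r ≤ D.μ := by
    refine Real.circleAverage_mono_on_of_le_circle hi3 fun z hz => ?_
    have h1 := h.re_G_ge (norm_scale ha0 ha1 (hsph z hz))
    exact max_le (by linarith) hμ.le
  rw [step2, step3] at step1
  linarith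

end Setup

end Pool.Agent.Helper58.LD
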