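import Pool.Agent.Helper58.LD.Kex
import Pool.Agent.Helper58.LD.DilC
import Pool.Agent.Helper58.LD.Upper
import Pool.Agent.Helper58.LD.LowerMean
import Pool.Agent.Helper58.LD.RhoS

/-!
# LD-27: the step theorem

`exists_par`: the remaining fields of `Par` hold for `T` large (`hT`, `hlT`, `big`: with `A ≤ T ^ (1/4)`,
`20 (l + 1) log (4T) + 20 (l + 1) T ^ (1/4) ≤ √T / 2` eventually).
`step`: `T₀` is the maximum of this and of `C₁` from `rho_est l`; `exists_k`, the `Setup`, `exists_delta`, `rho_est`,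
`new_state`, `close_φ`, `close_ψ`, `close_P`, `upper`, `lower`.
-/

set_option autoImplicit false

open Filter Topology Metric Complex Polynomial

namespace Pool.Agent.Helper58.LD

theorem exists_par (l : ℕ) (hl : 1 ≤ l) : ∃ T₀ : ℝ, ∀ (A Q T μ : ℝ) (N : ℕ), T₀ ≤ T → 1 ≤ A →
    A ^ 4 ≤ T → 1 ≤ Q → Q ≤ T → (N : ℝ) = Real.exp T → √T ≤ μ → μ ≤ l * T - √T →
    Par l A Q T μ N := by
  refine ⟨(1000 * (l + 1 : ℝ)) ^ 10, ?_⟩
  intro A Q T μ N hT hA hA4 hQ hQT hN hμ1 hμ2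
  have hl0 : (1 : ℝ) ≤ (l + 1 : ℝ) := by
    have : (0 : ℝ) ≤ l := Nat.cast_nonneg l
    linarith
  have hT1 : (10 : ℝ) ^ 6 ≤ T := by
    refine le_trans ?_ hT
    calc (10 : ℝ) ^ 6 ≤ (1000 * 1) ^ 10 := by norm_num
      _ ≤ (1000 * (l + 1 : ℝ)) ^ 10 := by gcongr
  have hT2 : (100 * (l + 1 : ℝ)) ^ 10 ≤ T := by
    refine le_trans ?_ hT
    gcongr
    norm_num
  have hT0 : 0 ≤ T := by linarith [show (0 : ℝ) ≤ 10 ^ 6 by norm_num]
  set y : ℝ := √(√T) with hy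
  have hy0 : 0 ≤ y := Real.sqrt_nonneg _
  have hy2 : y ^ 2 = √T := Real.sq_sqrt (Real.sqrt_nonneg _)
  have hy4 : y ^ 4 = T := by
    have h : y ^ 4 = (y ^ 2) ^ 2 := by ring
    rw [h, hy2, Real.sq_sqrt hT0]
  have hyl : 280 * (l + 1 : ℝ) ≤ y := by
    have h : (280 * (l + 1 : ℝ)) ^ 4 ≤ y ^ 4 := by
      rw [hy4]
      refine le_trans ?_ hT
      calc (280 * (l + 1 : ℝ)) ^ 4 ≤ (1000 * (l + 1 : ℝ)) ^ 4 := by
            gcongr
            norm_num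
        _ ≤ (1000 * (l + 1 : ℝ)) ^ 10 := by
            apply pow_le_pow_right₀ _ (by norm_num)
            linarith
    exact le_of_pow_le_pow_left₀ (by norm_num) hy0 h
  have hAy : A ≤ y := by
    have h : A ^ 4 ≤ y ^ 4 := by rw [hy4]; exact hA4
    exact le_of_pow_le_pow_left₀ (by norm_num) hy0 h
  have h4T : 4 * T ≤ Real.exp (6 * y) := by
    have h1 : y ≤ Real.exp y := by linarith [Real.add_one_le_exp y]
    have h2 : Real.exp (6 * y) = Real.exp y ^ 6 := by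
      rw [← Real.exp_nat_mul]
      norm_num
    rw [h2, ← hy4]
    calc 4 * y ^ 4 ≤ y ^ 2 * y ^ 4 := by
          have h3 : (4 : ℝ) ≤ y ^ 2 := by nlinarith
          gcongr
      _ = y ^ 6 := by ring
      _ ≤ Real.exp y ^ 6 := by gcongr
  refine ⟨hl, hA, hA4, hQ, hQT, hN, hμ1, hμ2, hT1, hT2, ?_⟩
  calc (4 * T) ^ (20 * (l + 1)) * Real.exp (20 * (l + 1) * A)
      ≤ Real.exp (6 * y) ^ (20 * (l + 1)) * Real.exp (20 * (l + 1) * y) := by gcongr
    _ = Real.exp (140 * (l + 1) * y) := by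
        rw [← Real.exp_nat_mul, ← Real.exp_add]
        congr 1
        push_cast
        ring
    _ ≤ Real.exp (√T / 2) := by
        apply Real.exp_le_exp.2
        rw [← hy2]
        nlinarith

theorem step (l : ℕ) (hl : 1 ≤ l) : StepStatement l := by
  obtain ⟨T₁, h1⟩ := exists_par l hl
  obtain ⟨C₁, h2⟩ := Setup.rho_est l
  refine ⟨max T₁ C₁, ?_⟩
  intro A Q T μ N φ ψ P hT hA hA4 hQ hQT hN hμ1 hμ2 hs
  have par := h1 A Q T μ N ((le_max_left _ _).trans hT) hA hA4 hQ hQT hN hμ1 hμ2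
  obtain ⟨k, hk1, hk2⟩ := exists_k par hs
  have ok : Setup.Ok ⟨l, A, Q, T, μ, N, φ, ψ, P, k⟩ := ⟨par, hs, hk1, hk2⟩
  obtain ⟨δ, hδ⟩ := ok.exists_delta
  obtain ⟨hρ1, hρ2⟩ := h2 _ δ rfl ok hδ ((le_max_right _ _).trans hT)
  refine ⟨_, _, _, ok.new_state hδ hρ1, ?_⟩
  exact ⟨fun z hz => ok.close_φ hδ hz, fun z hz => ok.close_ψ hz,
    fun z hz => ok.close_P hδ hρ2 hz, fun r hr0 hr1 => ok.upper hδ hr0 hr1, ok.lower hδ⟩

end Pool.Agent.Helper58.LD
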