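import Pool.Agent.Helper58.LD.Alpha
import Pool.Agent.Helper58.LD.Small
import Pool.Agent.Helper58.LD.Step
import Pool.Agent.Helper58.LD.Init

/-!
# LD-34: the final theorem

`f = e^φ`, `a_ν = 0` for `ν < l`, `a_l = 1/P`. `Ψ = diffPoly l a f = (P z)⁻¹ f^(l)(z) = 1 + e^ψ` wherever `P ≠ 0` (a
codiscrete set, `P 0 ≠ 0`, identity theorem). Compare `LC11a: not_holds_of`.
* `Admissible f`: meromorphic; not constant: `LC11a: eqOn_of_codiscrete`, `f 0 = 1`, `|f (1/2)| = e^(Re φ(1/2)) > 1`; `alpha f = a < ⊤`;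
  no zeros and no poles.
* `AdmissibleCoeffs`: small: `charT 0 = 0` for `ν < l`, `small_coeff` for `ν = l`; leading: if `P⁻¹ = 0` codiscretely then `P = 0` codiscretely,
  so `P = 0` on the disc, contradiction with `P 0 ≠ 0`.
* `Ψ` not constant: `Ψ = c` codiscretely gives `1 + e^ψ = c` codiscretely, hence everywhere; at `0` and `1/2` this contradicts
  `ψ 0 = 0`, `Re ψ (1/2) ≥ 3/8`.
* `PropertyV` fails for `w = 1`: `Ψ - 1 = e^ψ` on a punctured neighbourhood of every point, of order `0`.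
-/

set_option autoImplicit false

open Filter Topology Metric Complex

namespace Pool.Agent.Helper58.LD

open Pool.Agent.Helper61.Nev

private theorem not_const_exp {φ : ℂ → ℂ} (φ0 : φ 0 = 0)
    (φh : ‖φ (1 / 2) - 1 / 2‖ ≤ 1 / 8) (c : ℂ) (h : ∀ z ∈ ball (0 : ℂ) 1, cexp (φ z) = c) :
    False := by
  have h0 := h 0 (mem_ball_self one_pos)
  have hh := h (1 / 2) (by
    rw [mem_ball_zero_iff]
    norm_num)
  rw [φ0, Complex.exp_zero] at h0
  have h1 : ‖cexp (φ (1 / 2))‖ = 1 := by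
    rw [hh, ← h0, norm_one]
  rw [Complex.norm_exp, Real.exp_eq_one_iff] at h1
  have h2 := (Complex.abs_re_le_norm _).trans φh
  rw [Complex.sub_re, h1] at h2
  have h3 : ((1 / 2 : ℂ)).re = 1 / 2 := by
    norm_num
  rw [h3, abs_le] at h2
  linarith [h2.1]

private theorem ne_zero_near {P : ℂ → ℂ} (anP : AnalyticOnNhd ℂ P (ball 0 1)) (P0 : P 0 ≠ 0)
    {z : ℂ} (hz : z ∈ ball (0 : ℂ) 1) : ∀ᶠ w in 𝓝[≠] z, P w ≠ 0 := by
  rcases (anP z hz).eventually_eq_zero_or_eventually_ne_zero with h | h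
  · exfalso
    have h1 := anP.eqOn_zero_of_preconnected_of_eventuallyEq_zero
      (convex_ball (0 : ℂ) 1).isPreconnected hz h
    exact P0 (h1 (mem_ball_self one_pos))
  · exact h

open Pool.Agent.Helper61.Lac in
theorem not_holds_of_data {l : ℕ} {α₀ : EReal} {φ ψ P : ℂ → ℂ} (hα : α₀ < ⊤)
    (anφ : AnalyticOnNhd ℂ φ (ball 0 1)) (anψ : AnalyticOnNhd ℂ ψ (ball 0 1))
    (anP : AnalyticOnNhd ℂ P (ball 0 1))
    (eq : ∀ z ∈ ball (0 : ℂ) 1, iteratedDeriv l (fun z => cexp (φ z)) z = P z * (1 + cexp (ψ z)))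
    (φ0 : φ 0 = 0) (ψ0 : ψ 0 = 0) (φh : ‖φ (1 / 2) - 1 / 2‖ ≤ 1 / 8)
    (ψh : ‖ψ (1 / 2) - 1 / 2‖ ≤ 1 / 8) (P0 : P 0 ≠ 0) (ha : alpha (fun z => cexp (φ z)) = α₀)
    (hs : charT (fun z => (P z)⁻¹) =o[𝓝[<] 1] charT (fun z => cexp (φ z))) : ¬ Holds l α₀ := by
  intro H
  have hf : AnalyticOnNhd ℂ (fun z => cexp (φ z)) (ball 0 1) := fun z hz => (anφ z hz).cexp'
  have hψ : AnalyticOnNhd ℂ (fun z => cexp (ψ z)) (ball 0 1) := fun z hz => (anψ z hz).cexp'
  have hord : ∀ (g : ℂ → ℂ) (z : ℂ), AnalyticAt ℂ g z → g z ≠ 0 → meromorphicOrderAt g z = 0 := by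
    intro g z hg hgz
    rw [hg.meromorphicOrderAt_eq, hg.analyticOrderAt_eq_zero.2 hgz]
    simp
  have hadm : Admissible (fun z => cexp (φ z)) := by
    refine ⟨hf.meromorphicOn, ?_, ha ▸ hα, ?_, ?_⟩
    · rintro ⟨c, hc⟩
      exact not_const_exp φ0 φh c (eqOn_of_codiscrete hf.continuousOn continuousOn_const hc)
    · convert Set.finite_empty
      ext z
      simp only [Set.mem_ofPred_eq, Set.mem_empty_iff_false, iff_false, not_and, not_lt]
      intro hz
      rw [hord _ z (hf z hz) (Complex.exp_ne_zero _)]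
    · convert Set.finite_empty
      ext z
      simp only [Set.mem_ofPred_eq, Set.mem_empty_iff_false, iff_false, not_and, not_lt]
      intro hz
      rw [hord _ z (hf z hz) (Complex.exp_ne_zero _)]
  let a : ℕ → ℂ → ℂ := fun ν => if ν = l then fun z => (P z)⁻¹ else fun _ => 0
  have hal : a l = fun z => (P z)⁻¹ := if_pos rfl
  have han : ∀ ν, ν ≠ l → a ν = fun _ => 0 := fun ν hν => if_neg hν
  have hdp : ∀ z, diffPoly l a (fun z => cexp (φ z)) z =
      (P z)⁻¹ * iteratedDeriv l (fun z => cexp (φ z)) z := by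
    intro z
    unfold diffPoly
    rw [Finset.sum_eq_single l]
    · rw [hal]
    · intro ν _ hν
      rw [han ν hν, zero_mul]
    · intro h
      exact absurd (Finset.mem_range.2 (Nat.lt_succ_self l)) h
  have hdp2 : ∀ z ∈ ball (0 : ℂ) 1, P z ≠ 0 →
      diffPoly l a (fun z => cexp (φ z)) z = 1 + cexp (ψ z) := by
    intro z hz hP
    rw [hdp, eq z hz, inv_mul_cancel_left₀ hP]
  have hball : ∀ z ∈ ball (0 : ℂ) 1, ∀ᶠ w in 𝓝[≠] z, w ∈ ball (0 : ℂ) 1 := fun z hz =>
    mem_nhdsWithin_of_mem_nhds (isOpen_ball.mem_nhds hz)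
  have hnear : ∀ z ∈ ball (0 : ℂ) 1, ∀ᶠ w in 𝓝[≠] z,
      diffPoly l a (fun z => cexp (φ z)) w = 1 + cexp (ψ w) := by
    intro z hz
    filter_upwards [ne_zero_near anP P0 hz, hball z hz] with w h1 h2
    exact hdp2 w h2 h1
  have hco : AdmissibleCoeffs l (fun z => cexp (φ z)) a := by
    refine ⟨?_, ?_, ?_⟩
    · intro ν _
      by_cases hν : ν = l
      · subst hν
        rw [hal]
        exact fun z hz => (anP z hz).meromorphicAt.inv
      · rw [han ν hν]
        exact fun z _ => MeromorphicAt.const _ z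
    · intro ν _
      by_cases hν : ν = l
      · subst hν
        rw [hal]
        exact hs
      · rw [han ν hν]
        have h : charT (fun _ => (0 : ℂ)) =ᶠ[𝓝[<] 1] fun _ => (0 : ℝ) := by
          filter_upwards [eventually_pos_lt_one] with r hr
          rw [charT_eq hr.2 analyticOnNhd_const]
          have h2 : (Real.posLog ‖(0 : ℂ)‖ : ℝ) = 0 := by simp
          simp only [h2]
          exact Real.circleAverage_const 0 0 r
        exact (Asymptotics.isLittleO_zero _ _).congr' h.symm EventuallyEq.rfl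
    · intro h
      rw [hal] at h
      have h1 : P =ᶠ[codiscreteWithin (ball (0 : ℂ) 1)] fun _ => 0 := by
        filter_upwards [h] with z hz
        exact inv_eq_zero.1 hz
      exact P0 (eqOn_of_codiscrete anP.continuousOn continuousOn_const h1 0 (mem_ball_self one_pos))
  have hnc : ¬ ConstInDisc (diffPoly l a (fun z => cexp (φ z))) := by
    rintro ⟨c, hc⟩
    have h1 : (fun z => cexp (ψ z)) =ᶠ[codiscreteWithin (ball (0 : ℂ) 1)] fun _ => c - 1 := by
      have h2 : ∀ᶠ w in codiscreteWithin (ball (0 : ℂ) 1),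
          diffPoly l a (fun z => cexp (φ z)) w = 1 + cexp (ψ w) := by
        change {w | diffPoly l a (fun z => cexp (φ z)) w = 1 + cexp (ψ w)} ∈
          codiscreteWithin (ball (0 : ℂ) 1)
        rw [mem_codiscreteWithin_iff_forall_mem_nhdsNE]
        intro z hz
        filter_upwards [hnear z hz] with w hw
        exact Or.inl hw
      filter_upwards [hc, h2] with w hw1 hw2
      rw [hw1] at hw2
      rw [hw2]
      ring
    exact not_const_exp ψ0 ψh (c - 1) (eqOn_of_codiscrete hψ.continuousOn continuousOn_const h1)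
  refine H _ hadm ha a hco hnc 1 one_ne_zero ?_
  convert Set.finite_empty
  ext z
  simp only [Set.mem_ofPred_eq, Set.mem_empty_iff_false, iff_false, not_and, not_lt]
  intro hz
  have h1 : (fun ζ => diffPoly l a (fun z => cexp (φ z)) ζ - 1) =ᶠ[𝓝[≠] z]
      fun ζ => cexp (ψ ζ) := by
    filter_upwards [hnear z hz] with w hw
    rw [hw]
    ring
  rw [meromorphicOrderAt_congr h1, hord _ z (hψ z hz) (Complex.exp_ne_zero _)]

theorem not_holds (l : ℕ) (hl : 1 ≤ l) (a : ℝ) (h0 : 0 ≤ a) (h1 : a ≤ l) : ¬ Holds l (a : EReal) := by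
  obtain ⟨N, T, φn, ψn, Pn, t⟩ := exists_tower l hl a (step l hl) fun A Q => init_state l
  obtain ⟨φ, ψ, P, L⟩ := exists_limit t
  exact not_holds_of_data (EReal.coe_lt_top a) L.anφ L.anψ L.anP L.eq L.φ0 L.ψ0 L.φh L.ψh L.P0
    (alpha_eq hl h0 h1 t L) (small_coeff t L)

end Pool.Agent.Helper58.LD
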