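import Pool.Agent.Helper58.LD.Lim
import Pool.Agent.Helper58.LD.MaxP
import Pool.Agent.Helper58.LD.StFacts

/-!
# LD-31: the mean of `(Re φ)⁺` for the limit

`mφ r = circleAverage (fun z => max (φ z).re 0) 0 r`. On `|z| = r ≤ 1 - T (n+1)/N (n+1)` the functions `max (Re φ) 0` and
`max (Re φ_n) 0` differ by at most `1/8`.
* `mean_le` (`n = m + 1`): `Next.upper`.
* `mean_ge`: at `R = 1 - (l + 1) / (N T ^ 10)` (with `N = N (m+1)`, `T = T (m+1)`): `R ≤ 1 - T (m+2) / N (m+2)`, `R ≥ 0`;
  `mean_pos_part` for `φ_(m+1)` (`State.anφ`, `State.φ0`) and `Next.lower`.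
-/

set_option autoImplicit false

open Filter Topology Metric Complex

namespace Pool.Agent.Helper58.LD

variable {l : ℕ} {a : ℝ} {N : ℕ → ℕ} {T : ℕ → ℝ} {φn ψn Pn : ℕ → ℂ → ℂ} {φ ψ P : ℂ → ℂ}

private theorem exp_facts {x : ℝ} (hx : (10 : ℝ) ^ 6 ≤ x) :
    2 * x ≤ Real.exp x ∧ x ^ 2 / 2 ≤ Real.exp x ∧ x ^ 2 * Real.exp (x / 2) ≤ Real.exp x := by
  have h0 : 0 ≤ x := le_trans (by norm_num) hx
  have h1 := Real.quadratic_le_exp_of_nonneg h0
  have h2 : x ^ 2 / 2 ≤ Real.exp x := by linarith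
  refine ⟨by nlinarith, h2, ?_⟩
  have h3 : Real.exp x = Real.exp (x / 2) * Real.exp (x / 2) := by
    rw [← Real.exp_add]
    ring_nf
  rw [h3]
  refine mul_le_mul_of_nonneg_right ?_ (Real.exp_pos _).le
  have h4 := Real.pow_div_factorial_le_exp (x / 2) (by positivity) 3
  have h5 : ((Nat.factorial 3 : ℕ) : ℝ) = 6 := by norm_num [Nat.factorial]
  rw [h5] at h4
  refine le_trans ?_ h4
  rw [le_div_iff₀ (by norm_num)]
  have h6 : (x / 2) ^ 3 = x ^ 2 * (x / 8) := by ring
  rw [h6]
  exact mul_le_mul_of_nonneg_left (by linarith) (by positivity)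

/-- `ρ_n = 1 - T (n+1) / N (n+1)` increases to `1` and lies above `R_n = 1 - (l+1) / (N n * T n ^ 10)`, which lies
above `ρ_(n-1)` -/
theorem Tower.radii (t : Tower l a N T φn ψn Pn) :
    (∀ n, 1 / 2 ≤ 1 - T n / N n ∧ 1 - T n / N n ≤ 1 - (l + 1) / (N n * T n ^ 10) ∧
      1 - (l + 1) / (N n * T n ^ 10) ≤ 1 - T (n + 1) / N (n + 1) ∧ 1 - T n / N n < 1 ∧
      1 - (l + 1) / (N n * T n ^ 10) < 1) ∧
    Tendsto (fun n => 1 - T n / N n) atTop (𝓝 1) := by
  have hT0 : ∀ n, (1 : ℝ) ≤ T n := fun n => le_trans (by norm_num) (t.T_ge n)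
  have hNpos : ∀ n, (0 : ℝ) < N n := fun n => by
    rw [t.NT n]
    exact Real.exp_pos _
  have hTN : ∀ n, T n / N n ≤ 2 / T n := by
    intro n
    have h1 := (exp_facts (t.T_ge n)).2.1
    have hp : 0 < T n := lt_of_lt_of_le one_pos (hT0 n)
    rw [t.NT n, div_le_div_iff₀ (Real.exp_pos _) hp]
    nlinarith
  constructor
  · intro n
    have hp : 0 < T n := lt_of_lt_of_le one_pos (hT0 n)
    have hl0 : (0 : ℝ) < l + 1 := by positivity
    have h1 : T n / N n ≤ 1 / 2 := by
      rw [t.NT n, div_le_div_iff₀ (Real.exp_pos _) (by norm_num)]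
      have := (exp_facts (t.T_ge n)).1
      linarith
    have h2 : (l + 1 : ℝ) / (N n * T n ^ 10) ≤ T n / N n := by
      rw [div_le_div_iff₀ (mul_pos (hNpos n) (pow_pos hp 10)) (hNpos n)]
      have h3 : (l + 1 : ℝ) ≤ T n ^ 11 := (t.T_l n).trans (le_self_pow₀ (hT0 n) (by norm_num))
      calc (l + 1 : ℝ) * N n ≤ T n ^ 11 * N n := mul_le_mul_of_nonneg_right h3 (hNpos n).le
        _ = T n * (N n * T n ^ 10) := by ring
    have h3 : T (n + 1) / N (n + 1) ≤ (l + 1 : ℝ) / (N n * T n ^ 10) := by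
      rw [div_le_div_iff₀ (hNpos _) (mul_pos (hNpos n) (pow_pos hp 10))]
      have h4 := (exp_facts (t.T_ge (n + 1))).2.2
      have h5 : T n ^ 20 ≤ T (n + 1) :=
        (pow_le_pow_right₀ (hT0 n) (by omega)).trans (t.T_lo n)
      have h6 : T n ^ 10 ≤ T (n + 1) := (pow_le_pow_right₀ (hT0 n) (by norm_num)).trans h5
      have h7 : T n ≤ T (n + 1) / 2 := by
        have h8 : T n ^ 2 ≤ T (n + 1) := (pow_le_pow_right₀ (hT0 n) (by norm_num)).trans h5
        have h9 : 2 ≤ T n := le_trans (by norm_num) (t.T_ge n)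
        nlinarith
      have h8 : Real.exp (T n) ≤ Real.exp (T (n + 1) / 2) := Real.exp_le_exp.2 h7
      have hp' : 0 < T (n + 1) := lt_of_lt_of_le one_pos (hT0 _)
      calc T (n + 1) * (N n * T n ^ 10) = T (n + 1) * T n ^ 10 * Real.exp (T n) := by
            rw [t.NT n]
            ring
        _ ≤ T (n + 1) * T (n + 1) * Real.exp (T (n + 1) / 2) :=
            mul_le_mul (mul_le_mul_of_nonneg_left h6 hp'.le) h8 (Real.exp_pos _).le (by positivity)
        _ = T (n + 1) ^ 2 * Real.exp (T (n + 1) / 2) := by ring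
        _ ≤ N (n + 1) := by
            rw [t.NT (n + 1)]
            exact h4
        _ ≤ (l + 1 : ℝ) * N (n + 1) := by
            have h9 : (1 : ℝ) ≤ l + 1 := by
              have : (0 : ℝ) ≤ l := Nat.cast_nonneg l
              linarith
            nlinarith [hNpos (n + 1)]
    refine ⟨by linarith, by linarith, by linarith, ?_, ?_⟩
    · have := div_pos hp (hNpos n)
      linarith
    · have := div_pos hl0 (mul_pos (hNpos n) (pow_pos hp 10))
      linarith
  · have h1 : Tendsto (fun n : ℕ => (2 : ℝ) / 2 ^ (n + 10)) atTop (𝓝 0) := by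
      have h2 : (fun n : ℕ => (2 : ℝ) / 2 ^ (n + 10)) = fun n : ℕ => 2 / 2 ^ 10 * (1 / 2 : ℝ) ^ n := by
        funext n
        rw [pow_add, one_div, inv_pow]
        field_simp
      rw [h2]
      have h3 := (tendsto_pow_atTop_nhds_zero_of_lt_one (r := (1 / 2 : ℝ)) (by norm_num)
        (by norm_num)).const_mul (2 / 2 ^ 10 : ℝ)
      rw [mul_zero] at h3
      exact h3
    have h2 : Tendsto (fun n => T n / N n) atTop (𝓝 0) := by
      refine squeeze_zero (fun n => ?_) (fun n => ?_) h1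
      · exact div_nonneg (zero_le_one.trans (hT0 n)) (hNpos n).le
      · refine (hTN n).trans ?_
        exact div_le_div_of_nonneg_left (by norm_num) (by positivity) (t.T_pow n)
    have h3 := h2.const_sub 1
    rw [sub_zero] at h3
    exact h3

/-- the two means differ by at most `1/8` -/
private theorem mean_close (t : Tower l a N T φn ψn Pn) (L : Limit l N T φn Pn φ ψ P) (m : ℕ)
    {r : ℝ} (hr0 : 0 ≤ r) (hr : r ≤ 1 - T (m + 2) / N (m + 2)) :
    Real.circleAverage (fun z => max (φ z).re 0) 0 r ≤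
      Real.circleAverage (fun z => max (φn (m + 1) z).re 0) 0 r + 1 / 8 ∧
    Real.circleAverage (fun z => max (φn (m + 1) z).re 0) 0 r ≤
      Real.circleAverage (fun z => max (φ z).re 0) 0 r + 1 / 8 := by
  have hr1 : r < 1 := lt_of_le_of_lt hr (t.radii.1 (m + 2)).2.2.2.1
  have hc1 : ContinuousOn (fun z => max (φ z).re 0) (sphere (0 : ℂ) r) := by
    have h1 : ContinuousOn φ (sphere (0 : ℂ) r) := L.anφ.continuousOn.mono fun z hz => by
      rw [mem_sphere_zero_iff_norm] at hz
      rw [mem_ball_zero_iff, hz]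
      exact hr1
    exact (Complex.continuous_re.comp_continuousOn h1).sup continuousOn_const
  have hc2 : ContinuousOn (fun z => max (φn (m + 1) z).re 0) (sphere (0 : ℂ) r) := by
    have h1 : ContinuousOn (φn (m + 1)) (sphere (0 : ℂ) r) :=
      (t.st (m + 1)).anφ.continuousOn.mono fun z hz => by
        rw [mem_sphere_zero_iff_norm] at hz
        rw [mem_closedBall_zero_iff, hz]
        exact hr1.le
    exact (Complex.continuous_re.comp_continuousOn h1).sup continuousOn_const
  have hi1 : CircleIntegrable (fun z => max (φ z).re 0) 0 r := hc1.circleIntegrable hr0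
  have hi2 : CircleIntegrable (fun z => max (φn (m + 1) z).re 0) 0 r := hc2.circleIntegrable hr0
  have hic : CircleIntegrable (fun _ : ℂ => (1 / 8 : ℝ)) 0 r := circleIntegrable_const _ _ _
  have hcl : ∀ z ∈ sphere (0 : ℂ) |r|, |(φ z).re - (φn (m + 1) z).re| ≤ 1 / 8 := by
    intro z hz
    rw [abs_of_nonneg hr0, mem_sphere_zero_iff_norm] at hz
    have h1 := L.cφ (m + 1) z (by rw [hz]; exact hr)
    have h2 := Complex.abs_re_le_norm (φ z - φn (m + 1) z)
    rw [Complex.sub_re] at h2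
    exact h2.trans h1
  constructor
  · have h1 := Real.circleAverage_mono hi1 (hi2.add hic) (fun z hz => by
      have h2 := abs_le.1 (hcl z hz)
      change max (φ z).re 0 ≤ max (φn (m + 1) z).re 0 + 1 / 8
      refine max_le ?_ ?_
      · have := le_max_left (φn (m + 1) z).re 0
        linarith
      · have := le_max_right (φn (m + 1) z).re 0
        linarith)
    rw [Real.circleAverage_add hi2 hic, Real.circleAverage_const] at h1
    exact h1
  · have h1 := Real.circleAverage_mono hi2 (hi1.add hic) (fun z hz => by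
      have h2 := abs_le.1 (hcl z hz)
      change max (φn (m + 1) z).re 0 ≤ max (φ z).re 0 + 1 / 8
      refine max_le ?_ ?_
      · have := le_max_left (φ z).re 0
        linarith
      · have := le_max_right (φ z).re 0
        linarith)
    rw [Real.circleAverage_add hi1 hic, Real.circleAverage_const] at h1
    exact h1

theorem mean_le (t : Tower l a N T φn ψn Pn) (L : Limit l N T φn Pn φ ψ P) (m : ℕ) {r : ℝ}
    (hr0 : 0 ≤ r) (hr : r ≤ 1 - T (m + 2) / N (m + 2)) :
    Real.circleAverage (fun z => max (φ z).re 0) 0 r ≤ T m ^ 5 + muf a l (T (m + 1)) + 2 := by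
  have h1 := (mean_close t L m hr0 hr).1
  have hr1 : r ≤ 1 := hr.trans (t.radii.1 (m + 2)).2.2.2.1.le
  have h2 := (t.nx m).upper r hr0 hr1
  linarith

theorem mean_ge (t : Tower l a N T φn ψn Pn) (L : Limit l N T φn Pn φ ψ P) (m : ℕ) :
    (1 - 12 / Real.log (T (m + 1))) * muf a l (T (m + 1)) - T m ^ 5 - 2 ≤
      Real.circleAverage (fun z => max (φ z).re 0) 0
        (1 - (l + 1) / (N (m + 1) * T (m + 1) ^ 10)) := by
  have hrad := t.radii.1 (m + 1)
  have hr0 : 0 ≤ 1 - (l + 1 : ℝ) / (N (m + 1) * T (m + 1) ^ 10) := by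
    linarith [hrad.1, hrad.2.1]
  have h1 := (mean_close t L m hr0 hrad.2.2.1).2
  have h2 := (t.nx m).lower
  have h3 := mean_pos_part (t.st (m + 1)).anφ hr0 hrad.2.2.2.2.le
  rw [(t.st (m + 1)).φ0, Complex.zero_re, zero_add] at h3
  rw [h3] at h1
  linarith

end Pool.Agent.Helper58.LD
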