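import Pool.Agent.Helper58.LD.BBound

/-!
# LD-10: the exact formula for `(F exp G)^(l)`, `G = Y ^ (l + 1) g`

(1) For `i ≤ l`: on the open set `U`, `iteratedDeriv (i + 1) (exp G) = exp G * Y ^ (l - i) * bseq l Y g i`.
Induction on `i`. `i = 0`: `G' = (l + 1) Y ^ l Y' g + Y ^ (l + 1) g' = Y ^ l * bseq 0`. Step (`i + 1 ≤ l`, put
`m = l - i - 1`, so `l - i = m + 1`): the derivative of `exp G * Y ^ (m + 1) * b` is
`exp G (G' Y ^ (m + 1) b + (m + 1) Y ^ m Y' b + Y ^ (m + 1) b')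
 = exp G Y ^ m (Y ^ (l + 1) (bseq 0) b + (l - i) Y' b + Y b')`, which is `bseq (i + 1)`. Iterated derivatives agree on the
open set `U` (`iteratedDeriv_succ`, eventual equality near each point of `U`).
(2) Leibniz (`iteratedDeriv_mul` or `iteratedDeriv_fun_mul`): the term with no derivative on `exp G` is
`exp G * iteratedDeriv l F`; the term with `i + 1` derivatives on `exp G`, `i < l`, is
`choose l (i + 1) * exp G * Y ^ (l - i) * bseq i * iteratedDeriv (l - 1 - i) F` and `Y ^ (l - i) = Y * Y ^ (l - 1 - i)`.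
Note `l - (i + 1) = l - 1 - i`.
-/

set_option autoImplicit false

open Filter Topology Metric Complex

namespace Pool.Agent.Helper58.LD

private lemma exp_hasDeriv (l : ℕ) {U : Set ℂ} {Y g : ℂ → ℂ}
    (hY : AnalyticOnNhd ℂ Y U) (hg : AnalyticOnNhd ℂ g U) {z : ℂ} (hz : z ∈ U) :
    HasDerivAt (fun z => cexp (Y z ^ (l + 1) * g z))
      (cexp (Y z ^ (l + 1) * g z) * (Y z ^ l * bseq l Y g 0 z)) z := by
  have h1 := (hY z hz).differentiableAt.hasDerivAt
  have h2 := (hg z hz).differentiableAt.hasDerivAt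
  have h3 := ((h1.fun_pow (l + 1)).fun_mul h2).cexp
  refine h3.congr_deriv ?_
  unfold bseq
  push_cast
  ring

theorem iteratedDeriv_exp (l : ℕ) {U : Set ℂ} (hU : IsOpen U) {Y g : ℂ → ℂ}
    (hY : AnalyticOnNhd ℂ Y U) (hg : AnalyticOnNhd ℂ g U) (i : ℕ) (hi : i ≤ l) {z : ℂ} (hz : z ∈ U) :
    iteratedDeriv (i + 1) (fun z => cexp (Y z ^ (l + 1) * g z)) z =
      cexp (Y z ^ (l + 1) * g z) * Y z ^ (l - i) * bseq l Y g i z := by
  induction i generalizing z with
  | zero =>
    rw [iteratedDeriv_one, (exp_hasDeriv l hY hg hz).deriv, Nat.sub_zero]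
    ring
  | succ i ih =>
    have hev : iteratedDeriv (i + 1) (fun z => cexp (Y z ^ (l + 1) * g z)) =ᶠ[𝓝 z]
        fun z => cexp (Y z ^ (l + 1) * g z) * Y z ^ (l - i) * bseq l Y g i z := by
      filter_upwards [hU.mem_nhds hz] with w hw
      exact ih (by omega) hw
    rw [iteratedDeriv_succ, hev.deriv_eq]
    have h1 := (hY z hz).differentiableAt.hasDerivAt
    have hb := (bseq_an l hY hg i z hz).differentiableAt.hasDerivAt
    have h3 := ((exp_hasDeriv l hY hg hz).fun_mul (h1.fun_pow (l - i))).fun_mul hb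
    rw [h3.deriv]
    obtain ⟨m, rfl⟩ : ∃ m, l = i + 1 + m := ⟨l - (i + 1), by omega⟩
    have e1 : i + 1 + m - i = m + 1 := by omega
    have e2 : i + 1 + m - (i + 1) = m := by omega
    rw [e1, e2]
    have e3 : bseq (i + 1 + m) Y g (i + 1) z = (((i + 1 + m : ℕ) : ℂ) - i) * deriv Y z *
        bseq (i + 1 + m) Y g i z + Y z * deriv (bseq (i + 1 + m) Y g i) z +
        Y z ^ (i + 1 + m + 1) * bseq (i + 1 + m) Y g 0 z * bseq (i + 1 + m) Y g i z := rfl
    rw [e3]
    push_cast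
    ring

theorem leibniz (l : ℕ) {U : Set ℂ} (hU : IsOpen U) {Y g F : ℂ → ℂ} (hY : AnalyticOnNhd ℂ Y U)
    (hg : AnalyticOnNhd ℂ g U) (hF : AnalyticOnNhd ℂ F U) {z : ℂ} (hz : z ∈ U) :
    iteratedDeriv l (fun z => F z * cexp (Y z ^ (l + 1) * g z)) z =
      cexp (Y z ^ (l + 1) * g z) * (iteratedDeriv l F z + Y z * rhoF l Y g F z) := by
  have hH : AnalyticAt ℂ (fun z => cexp (Y z ^ (l + 1) * g z)) z :=
    (((hY z hz).fun_pow (l + 1)).fun_mul (hg z hz)).cexp
  have e1 : (fun z => F z * cexp (Y z ^ (l + 1) * g z)) =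
      (fun z => cexp (Y z ^ (l + 1) * g z)) * F := by
    ext1 w
    simp only [Pi.mul_apply]
    ring
  rw [e1, iteratedDeriv_mul (n := l) hH.contDiffAt (hF z hz).contDiffAt, Finset.sum_range_succ',
    Nat.choose_zero_right, Nat.sub_zero, iteratedDeriv_zero]
  unfold rhoF
  rw [mul_add, Finset.mul_sum, Finset.mul_sum, add_comm]
  congr 1
  · push_cast
    ring
  · refine Finset.sum_congr rfl fun i hi => ?_
    have hi' : i < l := Finset.mem_range.1 hi
    rw [iteratedDeriv_exp l hU hY hg i hi'.le hz]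
    have e2 : l - (i + 1) = l - 1 - i := by omega
    have e3 : l - i = (l - 1 - i) + 1 := by omega
    rw [e2, e3]
    ring

end Pool.Agent.Helper58.LD
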