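import Pool.Agent.Helper58.LD.VMod
import Pool.Agent.Helper58.LD.Leibniz
import Pool.Agent.Helper58.LD.RhoBound

/-!
# LD-19: the identity for the new functions

On `U = ball 0 1`: `e^φ₂ = F₁ exp (Y ^ (l + 1) g)` (`exp_φ₂`, `G_eq`), `leibniz`, `F₁_deriv`, `exp_ψ₂`:
`(e^φ₂)^(l) = e^G (P Y + Y ρ) = (P + ρ) e^G Y = (P + ρ) (1 + e^ψ₂)`.
-/

set_option autoImplicit false

open Filter Topology Metric Complex Polynomial

namespace Pool.Agent.Helper58.LD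

namespace Setup

variable {D : Setup} {δ : ℂ → ℂ}

private theorem anF₁_aux (h : D.Ok) (hδ : D.IsDelta δ) :
    AnalyticOnNhd ℂ (D.F₁ δ) (closedBall 0 1) := by
  intro z hz
  exact ((h.st.anφ z hz).cexp).add (hδ.an z hz)

theorem Ok.anρ (h : D.Ok) (hδ : D.IsDelta δ) : AnalyticOnNhd ℂ (D.ρ δ) (closedBall 0 1) := by
  exact rhoF_an D.l h.anY h.ang (anF₁_aux h hδ)

theorem Ok.ident (h : D.Ok) (hδ : D.IsDelta δ) {z : ℂ} (hz : ‖z‖ < 1) :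
    iteratedDeriv D.l (fun z => cexp (D.φ₂ δ z)) z = (D.P z + D.ρ δ z) * (1 + cexp (D.ψ₂ z)) := by
  have hzb : z ∈ ball (0 : ℂ) 1 := mem_ball_zero_iff.mpr hz
  have hsub : ball (0 : ℂ) 1 ⊆ closedBall 0 1 := ball_subset_closedBall
  have hev : (fun z => cexp (D.φ₂ δ z)) =ᶠ[𝓝 z]
      fun z => D.F₁ δ z * cexp (D.Y z ^ (D.l + 1) * D.g z) := by
    filter_upwards [isOpen_ball.mem_nhds hzb] with w hw
    rw [h.exp_φ₂ hδ (mem_ball_zero_iff.mp hw).le, G_eq]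
  rw [hev.iteratedDeriv_eq D.l, leibniz D.l isOpen_ball (h.anY.mono hsub) (h.ang.mono hsub)
    ((anF₁_aux h hδ).mono hsub) hzb, h.F₁_deriv hδ hz, h.exp_ψ₂ hz.le, G_eq]
  unfold ρ
  ring

end Setup

end Pool.Agent.Helper58.LD
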