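import Mathlib

/-!
# LD-02: quantitative polynomial approximation

Let `f` be analytic with `|f| ≤ M` on `|z| < 1 + κ`. Let `R = 1 + κ / 2` and `k = ∑_{j ≤ n} c_j z ^ j` the
Taylor polynomial at `0`. Cauchy: `|c_j| ≤ M R ^ (-j)`. For `|z| ≤ 1` the error is at most
`∑_{j > n} M R ^ (-j) = M R ^ (-n) / (R - 1) = (2 M / κ) R ^ (-n)` and `R ^ (-n) ≤ exp (-κ n / 4)` because
`log (1 + x) ≥ x / 2` for `0 ≤ x ≤ 1`. (See `Pool.Agent.Helper61.Lac.LC1.exists_poly_approx` for the
qualitative version: `DifferentiableOn.hasFPowerSeriesOnBall`, `norm_cauchyPowerSeries_le`,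
`HasFPowerSeriesOnBall.hasSum`.)
-/

set_option autoImplicit false

open Filter Topology Metric Complex Polynomial

namespace Pool.Agent.Helper58.LD

theorem taylor_approx {f : ℂ → ℂ} {κ M : ℝ} (hκ : 0 < κ) (hκ1 : κ ≤ 1)
    (hf : DifferentiableOn ℂ f (ball 0 (1 + κ))) (hM : ∀ z : ℂ, ‖z‖ < 1 + κ → ‖f z‖ ≤ M) (n : ℕ) :
    ∃ k : ℂ[X], k.natDegree ≤ n ∧
      ∀ z : ℂ, ‖z‖ ≤ 1 → ‖k.eval z - f z‖ ≤ 4 * M / κ * Real.exp (-(κ * n / 4)) := by
  have hM0 : 0 ≤ M := (norm_nonneg _).trans (hM 0 (by rw [norm_zero]; linarith))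
  obtain ⟨R, hR⟩ : ∃ R : ℝ, R = 1 + κ / 2 := ⟨_, rfl⟩
  have hR1 : 1 < R := by rw [hR]; linarith
  have hR2 : R < 1 + κ := by rw [hR]; linarith
  have h0 : 0 < R := by linarith
  have h1 : DifferentiableOn ℂ f (closedBall 0 R) := hf.mono (closedBall_subset_ball hR2)
  have h2 := (show DifferentiableOn ℂ f (closedBall 0 (⟨R, h0.le⟩ : NNReal)) from
    h1).hasFPowerSeriesOnBall (show 0 < (⟨R, h0.le⟩ : NNReal) from h0)
  set p := cauchyPowerSeries f 0 R with hp
  have hpn : ∀ j, ‖p j‖ ≤ M * R⁻¹ ^ j := by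
    intro j
    refine (norm_cauchyPowerSeries_le f 0 R j).trans ?_
    rw [abs_of_pos h0]
    refine mul_le_mul_of_nonneg_right ?_ (by positivity)
    have h3 : ‖∫ θ : ℝ in (0 : ℝ)..2 * Real.pi, ‖f (circleMap 0 R θ)‖‖ ≤
        M * |2 * Real.pi - 0| := by
      refine intervalIntegral.norm_integral_le_of_norm_le_const fun θ _ => ?_
      rw [norm_norm]
      refine hM _ ?_
      rw [norm_circleMap_zero, abs_of_pos h0]
      exact hR2
    rw [sub_zero, abs_of_pos Real.two_pi_pos] at h3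
    have h4 := (le_abs_self _).trans h3
    have h5 : (0 : ℝ) < 2 * Real.pi := Real.two_pi_pos
    calc (2 * Real.pi)⁻¹ * ∫ θ : ℝ in (0 : ℝ)..2 * Real.pi, ‖f (circleMap 0 R θ)‖
        ≤ (2 * Real.pi)⁻¹ * (M * (2 * Real.pi)) :=
          mul_le_mul_of_nonneg_left h4 (by positivity)
      _ = M := by field_simp
  refine ⟨∑ i ∈ Finset.range (n + 1), C (p.coeff i) * X ^ i, ?_, fun z hz => ?_⟩
  · refine Polynomial.natDegree_sum_le_of_forall_le _ _ fun i hi => ?_
    refine (Polynomial.natDegree_C_mul_X_pow_le _ _).trans ?_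
    have := Finset.mem_range.1 hi
    omega
  · have hs : HasSum (fun j => p j fun _ => z) (f (0 + z)) := by
      refine h2.hasSum ?_
      rw [Metric.mem_eball, edist_zero_right, enorm_eq_nnnorm]
      exact ENNReal.coe_lt_coe.2 (show ‖z‖ < R by linarith)
    rw [zero_add] at hs
    have hb : ∀ j, ‖p j fun _ => z‖ ≤ M * R⁻¹ ^ j := by
      intro j
      refine ((p j).le_opNorm _).trans ?_
      rw [Finset.prod_const, Finset.card_univ, Fintype.card_fin]
      calc ‖p j‖ * ‖z‖ ^ j ≤ (M * R⁻¹ ^ j) * 1 ^ j :=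
            mul_le_mul (hpn j) (pow_le_pow_left₀ (norm_nonneg _) hz _) (by positivity)
              (by positivity)
        _ = _ := by rw [one_pow, mul_one]
    have h3 := norm_sub_le_of_geometric_bound_of_hasSum (inv_lt_one_of_one_lt₀ hR1) hb hs (n + 1)
    have h5 : (∑ i ∈ Finset.range (n + 1), C (p.coeff i) * X ^ i : ℂ[X]).eval z =
        ∑ j ∈ Finset.range (n + 1), p j fun _ => z := by
      rw [eval_finsetSum]
      refine Finset.sum_congr rfl fun i _ => ?_
      rw [eval_mul, eval_C, eval_pow, eval_X,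
        FormalMultilinearSeries.apply_eq_pow_smul_coeff, smul_eq_mul, mul_comm]
    rw [h5]
    refine h3.trans ?_
    have hexp : Real.exp (κ / 4) ≤ R := by
      have h6 := Real.exp_bound_div_one_sub_of_interval (x := κ / 4) (by linarith) (by linarith)
      refine h6.trans ?_
      rw [div_le_iff₀ (by linarith), hR]
      nlinarith
    have h7 : R⁻¹ ^ n ≤ Real.exp (-(κ * n / 4)) := by
      have h8 : Real.exp (-(κ * n / 4)) = (Real.exp (κ / 4))⁻¹ ^ n := by
        rw [← Real.exp_neg, ← Real.exp_nat_mul]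
        congr 1
        ring
      rw [h8]
      exact pow_le_pow_left₀ (by positivity) (inv_anti₀ (Real.exp_pos _) hexp) _
    have h9 : M * R⁻¹ ^ (n + 1) / (1 - R⁻¹) = 2 * M / κ * R⁻¹ ^ n := by
      have h10 : R - 1 = κ / 2 := by rw [hR]; ring
      have h11 : 1 - R⁻¹ = (R - 1) * R⁻¹ := by field_simp
      rw [h11, h10, pow_succ]
      field_simp
    rw [h9]
    calc 2 * M / κ * R⁻¹ ^ n ≤ 2 * M / κ * Real.exp (-(κ * n / 4)) :=
          mul_le_mul_of_nonneg_left h7 (by positivity)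
      _ ≤ 4 * M / κ * Real.exp (-(κ * n / 4)) := by
          refine mul_le_mul_of_nonneg_right ?_ (Real.exp_pos _).le
          exact div_le_div_of_nonneg_right (by linarith) hκ.le

end Pool.Agent.Helper58.LD
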