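import Pool.Agent.Helper58.LD.Num
import Pool.Agent.Helper58.LD.Taylor

/-!
# LD-13: the polynomial `k`

`taylor_approx` for `f = ψ - φ` with `κ = e^(-A)`, `M = 2 e^A`, `n = N / 4` (natural division), and `Par.taylor_err`:
`4 (2 e^A) / e^(-A) = 8 e^(2A)`. If `Q`, `l` are irrelevant use any.
-/

set_option autoImplicit false

open Filter Topology Metric Complex Polynomial

namespace Pool.Agent.Helper58.LD

theorem exists_k {l : ℕ} {A Q T μ : ℝ} {N : ℕ} {φ ψ P : ℂ → ℂ} (h : Par l A Q T μ N)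
    (hs : State l A Q φ ψ P) : ∃ k : ℂ[X], 4 * k.natDegree ≤ N ∧
      ∀ z : ℂ, ‖z‖ ≤ 1 → ‖k.eval z - (ψ z - φ z)‖ ≤ 1 / T := by
  have hA := h.hA
  have hκ1 : Real.exp (-A) ≤ 1 := Real.exp_le_one_iff.2 (by linarith)
  obtain ⟨k, hk, hk2⟩ := taylor_approx (f := fun z => ψ z - φ z) (M := 2 * Real.exp A)
    (Real.exp_pos (-A)) hκ1 (hs.dψ.sub hs.dφ) (fun z hz => by
      have h1 := norm_sub_le (ψ z) (φ z)
      have h2 := hs.nψ z hz
      have h3 := hs.nφ z hz
      linarith) (N / 4)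
  refine ⟨k, by omega, fun z hz => (hk2 z hz).trans ?_⟩
  have h1 := h.taylor_err
  have h2 : 4 * (2 * Real.exp A) / Real.exp (-A) = 8 * Real.exp (2 * A) := by
    rw [Real.exp_neg, div_inv_eq_mul, two_mul A, Real.exp_add]
    ring
  rw [h2]
  exact h1

end Pool.Agent.Helper58.LD
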