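import Pool.Agent.Helper58.LD.Seq
import Pool.Agent.Helper61.Lac.LC10

/-!
# LD-30: the limit functions

`ρ n = 1 - T (n+1) / N (n+1)`: increasing in `n` (`x e^(-x)` decreases for `x ≥ 1`), tends to `1`. `Next.cφ` etc. with
`1 / T (n+1) ≤ 1 / 2 ^ (n + 11) ≤ 1 / 2 ^ (n + 2)`: `Pool.Agent.Helper61.Lac.LC10.exists_lim`, applied to `16 φ n` etc.
(`1 / 2 ^ (n + 11) * 16 ≤ 1 / 2 ^ (n + 2)`) gives the limits with `‖φ z - φ n z‖ ≤ 1 / (16 * 2 ^ (n + 1))`; `LC10.tendsto_lu`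
local uniform convergence. Analytic limits (`TendstoLocallyUniformlyOn.differentiableOn`), the identity for the iterated
derivatives: `TendstoLocallyUniformlyOn.deriv` iterated (`φ n` is analytic on the open unit disc by `State.dφ`), and
`State.eq` for each `n`; both sides converge.
-/

set_option autoImplicit false

open Filter Topology Metric Complex

namespace Pool.Agent.Helper58.LD

/-- the limit of a tower -/
structure Limit (l : ℕ) (N : ℕ → ℕ) (T : ℕ → ℝ) (φn Pn : ℕ → ℂ → ℂ) (φ ψ P : ℂ → ℂ) : Prop where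
  anφ : AnalyticOnNhd ℂ φ (ball 0 1)
  anψ : AnalyticOnNhd ℂ ψ (ball 0 1)
  anP : AnalyticOnNhd ℂ P (ball 0 1)
  eq : ∀ z ∈ ball (0 : ℂ) 1, iteratedDeriv l (fun z => cexp (φ z)) z = P z * (1 + cexp (ψ z))
  cφ : ∀ n, ∀ z : ℂ, ‖z‖ ≤ 1 - T (n + 1) / N (n + 1) → ‖φ z - φn n z‖ ≤ 1 / 8
  cP : ∀ n, ∀ z : ℂ, ‖z‖ ≤ 1 - T (n + 1) / N (n + 1) → ‖P z - Pn n z‖ ≤ 1 / 8
  φ0 : φ 0 = 0
  ψ0 : ψ 0 = 0
  φh : ‖φ (1 / 2) - 1 / 2‖ ≤ 1 / 8
  ψh : ‖ψ (1 / 2) - 1 / 2‖ ≤ 1 / 8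
  P0 : P 0 ≠ 0

private theorem lim_dec {x y : ℝ} (hx : 1 ≤ x) (hxy : x ≤ y) :
    y / Real.exp y ≤ x / Real.exp x := by
  rw [div_le_div_iff₀ (Real.exp_pos _) (Real.exp_pos _)]
  have h1 : y ≤ x * Real.exp (y - x) := by
    have h2 := Real.add_one_le_exp (y - x)
    nlinarith
  have h3 : Real.exp (y - x) * Real.exp x = Real.exp y := by
    rw [← Real.exp_add, sub_add_cancel]
  calc y * Real.exp x ≤ x * Real.exp (y - x) * Real.exp x :=
        mul_le_mul_of_nonneg_right h1 (Real.exp_pos _).le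
    _ = x * Real.exp y := by rw [mul_assoc, h3]

private theorem lim_small {x : ℝ} (hx : 0 < x) : x / Real.exp x ≤ 2 / x := by
  rw [div_le_div_iff₀ (Real.exp_pos _) hx]
  have h1 := Real.quadratic_le_exp_of_nonneg hx.le
  nlinarith

/-- local uniform convergence of iterated derivatives -/
private theorem lim_iter {F : ℕ → ℂ → ℂ} {f : ℂ → ℂ}
    (h : TendstoLocallyUniformlyOn F f atTop (ball 0 1))
    (hF : ∀ n, AnalyticOnNhd ℂ (F n) (ball 0 1)) (k : ℕ) :
    TendstoLocallyUniformlyOn (fun n => iteratedDeriv k (F n)) (iteratedDeriv k f) atTop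
      (ball 0 1) := by
  induction k with
  | zero =>
    simp only [iteratedDeriv_zero]
    exact h
  | succ k ih =>
    have h1 := ih.deriv (Eventually.of_forall fun n => by
      rw [iteratedDeriv_eq_iterate]
      exact ((hF n).iterated_deriv k).differentiableOn) isOpen_ball
    have h2 : (deriv ∘ fun n => iteratedDeriv k (F n)) =
        fun n => iteratedDeriv (k + 1) (F n) := by
      funext n
      rw [iteratedDeriv_succ]
      rfl
    rw [h2, ← iteratedDeriv_succ] at h1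
    exact h1

/-- local uniform convergence of exponentials -/
private theorem lim_exp {F : ℕ → ℂ → ℂ} {f : ℂ → ℂ}
    (h : TendstoLocallyUniformlyOn F f atTop (ball 0 1)) (hf : ContinuousOn f (ball 0 1)) :
    TendstoLocallyUniformlyOn (fun n z => cexp (F n z)) (fun z => cexp (f z)) atTop
      (ball 0 1) := by
  rw [tendstoLocallyUniformlyOn_iff_forall_isCompact isOpen_ball] at h ⊢
  intro K hK hKc
  refine (h K hK hKc).comp_cexp ?_
  exact (hKc.image_of_continuousOn (Complex.continuous_re.comp_continuousOn (hf.mono hK))).bddAbove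

/-- the limit of one of the sequences -/
private theorem lim_one {T ρ : ℕ → ℝ} (hT : ∀ n, (2 : ℝ) ^ (n + 10) ≤ T n) (hmono : Monotone ρ)
    (hρ1 : ∀ n, ρ n < 1) (hρ : ∀ z : ℂ, ‖z‖ < 1 → ∃ n, ‖z‖ < ρ n) (f : ℕ → ℂ → ℂ)
    (h : ∀ n, ∀ z : ℂ, ‖z‖ ≤ ρ n → ‖f (n + 1) z - f n z‖ ≤ 1 / T (n + 1)) :
    ∃ g : ℂ → ℂ, (∀ n, ∀ z : ℂ, ‖z‖ ≤ ρ n → ‖g z - f n z‖ ≤ 1 / 8) ∧
      TendstoLocallyUniformlyOn f g atTop (ball 0 1) := by
  obtain ⟨g, hg⟩ := Pool.Agent.Helper61.Lac.LC10.exists_lim (fun n z => 16 * f n z) ρ hmono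
    (fun z hz => (hρ z hz).imp fun n h => h.le) (fun n z hz => by
      have h1 : ‖(16 : ℂ) * f (n + 1) z - 16 * f n z‖ = 16 * ‖f (n + 1) z - f n z‖ := by
        rw [← mul_sub, norm_mul]
        norm_num
      rw [h1]
      have h2 := h n z hz
      have h3 : 1 / T (n + 1) ≤ 1 / 2 ^ (n + 1 + 10) :=
        one_div_le_one_div_of_le (by positivity) (hT (n + 1))
      have h4 : (16 : ℝ) * (1 / 2 ^ (n + 1 + 10)) ≤ 1 / 2 ^ (n + 2) := by
        rw [mul_one_div, div_le_div_iff₀ (by positivity) (by positivity)]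
        have : (2 : ℝ) ^ (n + 1 + 10) = 2 ^ (n + 2) * 2 ^ 9 := by
          rw [← pow_add]
        rw [this]
        have h5 : (0 : ℝ) < 2 ^ (n + 2) := by positivity
        norm_num
        linarith
      linarith)
  have hb : ∀ n, ∀ z : ℂ, ‖z‖ ≤ ρ n → ‖g z / 16 - f n z‖ ≤ 1 / 2 ^ (n + 1) / 16 := by
    intro n z hz
    have h1 := hg n z hz (hz.trans_lt (hρ1 n))
    have h2 : g z / 16 - f n z = (g z - 16 * f n z) / 16 := by ring
    rw [h2, norm_div]
    have h3 : ‖(16 : ℂ)‖ = 16 := by norm_num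
    rw [h3]
    exact div_le_div_of_nonneg_right h1 (by norm_num)
  have hp : ∀ n : ℕ, (1 : ℝ) / 2 ^ (n + 1) ≤ 1 := by
    intro n
    rw [div_le_one (by positivity)]
    exact one_le_pow₀ (by norm_num)
  refine ⟨fun z => g z / 16, fun n z hz => ?_, ?_⟩
  · have h1 := hb n z hz
    have h2 := hp n
    linarith
  · refine Pool.Agent.Helper61.Lac.LC10.tendsto_lu f (fun z => g z / 16) ρ hmono hρ
      (fun n z hz _ => ?_)
    have h1 := hb n z hz
    have h2 : (0 : ℝ) ≤ 1 / 2 ^ (n + 1) := by positivity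
    linarith

theorem exists_limit {l : ℕ} {a : ℝ} {N : ℕ → ℕ} {T : ℕ → ℝ} {φn ψn Pn : ℕ → ℂ → ℂ}
    (t : Tower l a N T φn ψn Pn) : ∃ φ ψ P : ℂ → ℂ, Limit l N T φn Pn φ ψ P := by
  obtain ⟨ρ, hρd⟩ : ∃ ρ : ℕ → ℝ, ∀ n, ρ n = 1 - T (n + 1) / N (n + 1) := ⟨_, fun n => rfl⟩
  have hT0 : ∀ n, 0 < T n := fun n => by
    have := t.T_ge n
    linarith [show (0 : ℝ) < 10 ^ 6 by positivity]
  have hTm : ∀ n, T n ≤ T (n + 1) := by
    intro n
    refine le_trans ?_ (t.T_lo n)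
    have h1 : (1 : ℝ) ≤ T n := by
      have := t.T_ge n
      linarith [show (1 : ℝ) ≤ 10 ^ 6 by norm_num]
    calc T n = T n ^ 1 := (pow_one _).symm
      _ ≤ T n ^ (12 * l + 20) := pow_le_pow_right₀ h1 (by omega)
  have hρe : ∀ n, ρ n = 1 - T (n + 1) / Real.exp (T (n + 1)) := fun n => by
    rw [hρd, t.NT]
  have hmono : Monotone ρ := by
    apply monotone_nat_of_le_succ
    intro n
    rw [hρe, hρe]
    have h1 : (1 : ℝ) ≤ T (n + 1) := by
      have := t.T_ge (n + 1)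
      linarith [show (1 : ℝ) ≤ 10 ^ 6 by norm_num]
    linarith [lim_dec h1 (hTm (n + 1))]
  have hρ1 : ∀ n, ρ n < 1 := by
    intro n
    rw [hρe]
    have : 0 < T (n + 1) / Real.exp (T (n + 1)) := div_pos (hT0 _) (Real.exp_pos _)
    linarith
  have hρlo : ∀ n, 1 - 1 / 2 ^ (n + 10) ≤ ρ n := by
    intro n
    rw [hρe]
    have h1 := lim_small (hT0 (n + 1))
    have h2 : 2 / T (n + 1) ≤ 2 / 2 ^ (n + 1 + 10) :=
      div_le_div_of_nonneg_left (by norm_num) (by positivity) (t.T_pow (n + 1))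
    have h3 : (2 : ℝ) / 2 ^ (n + 1 + 10) = 1 / 2 ^ (n + 10) := by
      have : (2 : ℝ) ^ (n + 1 + 10) = 2 ^ (n + 10) * 2 := by
        rw [← pow_succ]
      rw [this]
      field_simp
    linarith
  have hρ : ∀ z : ℂ, ‖z‖ < 1 → ∃ n, ‖z‖ < ρ n := by
    intro z hz
    obtain ⟨n, hn⟩ := exists_pow_lt_of_lt_one (sub_pos.2 hz) (show (1 / 2 : ℝ) < 1 by norm_num)
    refine ⟨n, lt_of_lt_of_le ?_ (hρlo n)⟩
    have h1 : (1 : ℝ) / 2 ^ (n + 10) ≤ (1 / 2) ^ n := by
      rw [div_pow, one_pow]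
      apply one_div_le_one_div_of_le (by positivity)
      exact pow_le_pow_right₀ (by norm_num) (by omega)
    linarith
  obtain ⟨φ, hφ, tφ⟩ := lim_one t.T_pow hmono hρ1 hρ φn (fun n z hz => (t.nx n).cφ z (by
    rw [hρd] at hz
    exact hz))
  obtain ⟨ψ, hψ, tψ⟩ := lim_one t.T_pow hmono hρ1 hρ ψn (fun n z hz => (t.nx n).cψ z (by
    rw [hρd] at hz
    exact hz))
  obtain ⟨P, hP, tP⟩ := lim_one t.T_pow hmono hρ1 hρ Pn (fun n z hz => (t.nx n).cP z (by
    rw [hρd] at hz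
    exact hz))
  have hsub : ∀ A : ℝ, ball (0 : ℂ) 1 ⊆ ball 0 (1 + Real.exp (-A)) := fun A =>
    ball_subset_ball (by linarith [Real.exp_pos (-A)])
  have aφn : ∀ n, AnalyticOnNhd ℂ (φn n) (ball 0 1) := fun n =>
    ((t.st n).dφ.mono (hsub _)).analyticOnNhd isOpen_ball
  have dφ : DifferentiableOn ℂ φ (ball 0 1) := tφ.differentiableOn
    (Eventually.of_forall fun n => (t.st n).dφ.mono (hsub _)) isOpen_ball
  have dψ : DifferentiableOn ℂ ψ (ball 0 1) := tψ.differentiableOn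
    (Eventually.of_forall fun n => (t.st n).dψ.mono (hsub _)) isOpen_ball
  have dP : DifferentiableOn ℂ P (ball 0 1) := tP.differentiableOn
    (Eventually.of_forall fun n => (t.st n).dP.mono (hsub _)) isOpen_ball
  have h0 : (0 : ℂ) ∈ ball (0 : ℂ) 1 := mem_ball_self zero_lt_one
  have hhalf : ‖(1 / 2 : ℂ)‖ ≤ ρ 0 := by
    have h1 := hρlo 0
    have h2 : ‖(1 / 2 : ℂ)‖ = 1 / 2 := by
      rw [norm_div, norm_one]
      norm_num
    rw [h2]
    norm_num at h1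
    linarith
  have hz0 : ‖(0 : ℂ)‖ ≤ ρ 0 := by
    rw [norm_zero]
    exact (norm_nonneg _).trans hhalf
  refine ⟨φ, ψ, P, ⟨dφ.analyticOnNhd isOpen_ball, dψ.analyticOnNhd isOpen_ball,
    dP.analyticOnNhd isOpen_ball, fun z hz => ?_, fun n z hz => ?_, fun n z hz => ?_, ?_, ?_, ?_,
    ?_, ?_⟩⟩
  · have h1 := lim_iter (lim_exp tφ dφ.continuousOn) (fun n => (aφn n).cexp) l
    have h2 := h1.tendsto_at hz
    have h3 := (tP.tendsto_at hz).mul
      (((Complex.continuous_exp.tendsto _).comp (tψ.tendsto_at hz)).const_add 1)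
    refine tendsto_nhds_unique h2 (h3.congr fun n => ?_)
    have hz1 : ‖z‖ < 1 + Real.exp (-(T n ^ 5)) := by
      have : ‖z‖ < 1 := by simpa using hz
      linarith [Real.exp_pos (-(T n ^ 5))]
    exact ((t.st n).eq z hz1).symm
  · rw [← hρd] at hz
    exact hφ n z hz
  · rw [← hρd] at hz
    exact hP n z hz
  · refine tendsto_nhds_unique (tφ.tendsto_at h0) ?_
    simp only [(t.st _).φ0]
    exact tendsto_const_nhds
  · refine tendsto_nhds_unique (tψ.tendsto_at h0) ?_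
    simp only [(t.st _).ψ0]
    exact tendsto_const_nhds
  · have h1 := hφ 0 (1 / 2) hhalf
    rw [t.i1] at h1
    exact h1
  · have h1 := hψ 0 (1 / 2) hhalf
    rw [t.i2] at h1
    exact h1
  · intro h2
    have h1 := hP 0 0 hz0
    rw [t.i3, h2] at h1
    simp only [Complex.exp_zero] at h1
    norm_num at h1

end Pool.Agent.Helper58.LD
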