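import Mathlib

/-!
# LD-03: a Bernstein type estimate

Let `p` be a polynomial of degree `≤ n` with `|p| ≤ M` on the unit circle. Then `|p z| ≤ M |z| ^ n` for
`|z| ≥ 1`: the polynomial `q = Polynomial.reflect n p` has `q (1/z) z ^ n = p z`
(`Polynomial.eval₂_reflect_mul_pow` or similar), on the circle `|q| ≤ M`, so `|q| ≤ M` on the closed disc by
the maximum principle. With `n = 2 N` and `|z| ≤ 1 + 1 / N` this gives `|p| ≤ M (1 + 1 / N) ^ (2 N) ≤ e² M ≤ 8 M`
there (and `|p| ≤ M` on the closed disc), and Cauchy's estimate on the circle of radius `1 / N` around a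
point of the closed unit disc gives `|p'| ≤ 8 N M`.
-/

set_option autoImplicit false

open Filter Topology Metric Complex Polynomial

namespace Pool.Agent.Helper58.LD

/-- the reflected polynomial is bounded on the closed disc -/
private theorem refl_bound {p : ℂ[X]} {n : ℕ} (hd : p.natDegree ≤ n) {M : ℝ}
    (hM : ∀ z : ℂ, ‖z‖ = 1 → ‖p.eval z‖ ≤ M) {w : ℂ} (hw : ‖w‖ ≤ 1) :
    ‖(p.reflect n).eval w‖ ≤ M := by
  have h := Complex.norm_le_of_forall_mem_frontier_norm_le (f := fun z => (p.reflect n).eval z)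
    (U := ball (0 : ℂ) 1) (C := M) isBounded_ball (p.reflect n).differentiable.diffContOnCl (by
      intro z hz
      rw [frontier_ball _ one_ne_zero, mem_sphere, dist_zero_right] at hz
      have hz0 : z ≠ 0 := by
        intro h0
        rw [h0, norm_zero] at hz
        exact zero_ne_one hz
      let _ : Invertible z⁻¹ := invertibleOfNonzero (inv_ne_zero hz0)
      have h1 := Polynomial.eval₂_reflect_mul_pow (RingHom.id ℂ) z⁻¹ n p hd
      rw [invOf_eq_inv, inv_inv] at h1
      have h2 : (p.reflect n).eval z * z⁻¹ ^ n = p.eval z⁻¹ := h1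
      have h3 := congrArg norm h2
      rw [norm_mul, norm_pow, norm_inv, hz, inv_one, one_pow, mul_one] at h3
      rw [h3]
      exact hM _ (by rw [norm_inv, hz, inv_one]))
    (z := w) (by
      rw [closure_ball _ one_ne_zero, mem_closedBall, dist_zero_right]
      exact hw)
  exact h

theorem poly_growth {p : ℂ[X]} {n : ℕ} (hd : p.natDegree ≤ n) {M : ℝ}
    (hM : ∀ z : ℂ, ‖z‖ = 1 → ‖p.eval z‖ ≤ M) {z : ℂ} (hz : 1 ≤ ‖z‖) : ‖p.eval z‖ ≤ M * ‖z‖ ^ n := by
  have hz0 : z ≠ 0 := by
    intro h0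
    rw [h0, norm_zero] at hz
    linarith
  let _ : Invertible z := invertibleOfNonzero hz0
  have h1 := Polynomial.eval₂_reflect_mul_pow (RingHom.id ℂ) z n p hd
  rw [invOf_eq_inv] at h1
  have h2 : (p.reflect n).eval z⁻¹ * z ^ n = p.eval z := h1
  rw [← h2, norm_mul, norm_pow]
  refine mul_le_mul_of_nonneg_right (refl_bound hd hM ?_) (by positivity)
  rw [norm_inv]
  exact inv_le_one_of_one_le₀ hz

theorem poly_deriv {p : ℂ[X]} {N : ℕ} (hN : 1 ≤ N) (hd : p.natDegree ≤ 2 * N) {M : ℝ}
    (hM : ∀ z : ℂ, ‖z‖ = 1 → ‖p.eval z‖ ≤ M) {z : ℂ} (hz : ‖z‖ ≤ 1) :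
    ‖p.derivative.eval z‖ ≤ 8 * N * M := by
  have hM0 : 0 ≤ M := (norm_nonneg _).trans (hM 1 (by simp))
  have hN0 : (0 : ℝ) < N := by exact_mod_cast hN
  have hpow : (1 + 1 / (N : ℝ)) ^ (2 * N) ≤ 8 := by
    have h1 : 1 + 1 / (N : ℝ) ≤ Real.exp (1 / N) := by
      have := Real.add_one_le_exp (1 / (N : ℝ))
      linarith
    calc (1 + 1 / (N : ℝ)) ^ (2 * N) ≤ Real.exp (1 / N) ^ (2 * N) :=
          pow_le_pow_left₀ (by positivity) h1 _
      _ = Real.exp 2 := by
          rw [← Real.exp_nat_mul]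
          congr 1
          push_cast
          field_simp
      _ = Real.exp 1 * Real.exp 1 := by
          rw [← Real.exp_add]
          norm_num
      _ ≤ 8 := by
          have h2 := Real.exp_one_lt_d9
          have h3 := Real.exp_pos 1
          nlinarith
  have hin : ∀ w : ℂ, ‖w‖ ≤ 1 → ‖p.eval w‖ ≤ M := by
    intro w hw
    exact Complex.norm_le_of_forall_mem_frontier_norm_le (f := fun z => p.eval z)
      (U := ball (0 : ℂ) 1) (C := M) isBounded_ball p.differentiable.diffContOnCl (by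
        intro z hz
        rw [frontier_ball _ one_ne_zero, mem_sphere, dist_zero_right] at hz
        exact hM z hz)
      (z := w) (by
        rw [closure_ball _ one_ne_zero, mem_closedBall, dist_zero_right]
        exact hw)
  have hs : ∀ w ∈ sphere z (1 / (N : ℝ)), ‖p.eval w‖ ≤ 8 * M := by
    intro w hw
    rw [mem_sphere, dist_eq_norm] at hw
    have hw1 : ‖w‖ ≤ 1 + 1 / (N : ℝ) := by
      calc ‖w‖ = ‖z + (w - z)‖ := by ring_nf
        _ ≤ ‖z‖ + ‖w - z‖ := norm_add_le _ _
        _ ≤ _ := by rw [hw]; linarith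
    by_cases h : 1 ≤ ‖w‖
    · calc ‖p.eval w‖ ≤ M * ‖w‖ ^ (2 * N) := poly_growth hd hM h
        _ ≤ M * (1 + 1 / (N : ℝ)) ^ (2 * N) := by
            refine mul_le_mul_of_nonneg_left (pow_le_pow_left₀ (norm_nonneg _) hw1 _) hM0
        _ ≤ M * 8 := mul_le_mul_of_nonneg_left hpow hM0
        _ = 8 * M := by ring
    · have := hin w (le_of_lt (not_le.1 h))
      linarith
  have h := Complex.norm_deriv_le_of_forall_mem_sphere_norm_le (f := fun z => p.eval z)
    (c := z) (R := 1 / (N : ℝ)) (by positivity) p.differentiable.diffContOnCl hs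
  rw [Polynomial.deriv] at h
  refine h.trans (le_of_eq ?_)
  field_simp

end Pool.Agent.Helper58.LD
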