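import Pool.Agent.Helper58.LD.Circ
import Pool.Agent.Helper58.LD.PolyDeriv

/-!
# LD-15: bounds for `U`

Let `d = natDegree k`, `m = N - d`, `B = l T`. `J = Jf k Λ N = z ^ m * J₀`,
`J₀ = Λ z ^ d - z ^ d k / 2 - refl k / 2` (a polynomial; `N = m + d`). `J` is the value of a polynomial of degree
`≤ N + d ≤ 2 N` (`natDegree (refl k) ≤ d`). By `norm_J_circle` and the maximum principle (`schwarz_weighted` with
`φ = 0`, or `norm_le_of_circle`) `|J| ≤ 2 B |z| ^ m` in the closed disc, and `|J'| ≤ 8 N 2 B` (`poly_deriv`).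
`1 - ϱ = Λ ^ (-3)`, so `|1 - ϱ w| ≥ Λ ^ (-3) ≥ B ^ (-3)` for `|w| ≤ 1`. `U = -2 ϱ J / (1 - ϱ w)`:
* `|U| ≤ 2 (2 B |z| ^ m) B ^ 3 = 4 B ^ 4 |z| ^ m`;
* `|U'| ≤ 2 |J'| B ^ 3 + 2 |J| N B ^ 6 ≤ 32 N B ^ 4 + 4 N B ^ 7 ≤ 36 N B ^ 7`, and `72 l ^ 7 ≤ T ^ 2` (from `Par.hlT`), so
  `|U'| ≤ N T ^ 9 / 2`; `|ψ'| ≤ 2 e^(2A) ≤ N T ^ 9 / 2` (`StFacts`, `Par.misc`);
* inner region `|z| ≤ 1 - T / N`: `|U| ≤ 4 B ^ 4 e^(-3T/4) ≤ e^(-T/4)` (`Par.inner_pow`).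
-/

set_option autoImplicit false

open Filter Topology Metric Complex Polynomial

namespace Pool.Agent.Helper58.LD

open Pool.Agent.Helper61.Lac Pool.Agent.Helper61.Lac.Core

namespace Setup

variable {D : Setup}

/-- the polynomial `J / z ^ m` -/
private noncomputable def J0 (k : ℂ[X]) (Λ : ℝ) : ℂ[X] :=
  Polynomial.C (Λ : ℂ) * X ^ k.natDegree - Polynomial.C (1 / 2 : ℂ) * (X ^ k.natDegree * k) -
    Polynomial.C (1 / 2 : ℂ) * Helper61.Lac.refl k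

private theorem Jf_eq {k : ℂ[X]} {Λ : ℝ} {N : ℕ} (hd : k.natDegree ≤ N) (z : ℂ) :
    Jf k Λ N z = z ^ (N - k.natDegree) * (J0 k Λ).eval z := by
  have h1 : z ^ N = z ^ (N - k.natDegree) * z ^ k.natDegree := by
    rw [← pow_add, Nat.sub_add_cancel hd]
  simp only [Jf, J0, eval_sub, eval_mul, eval_C, eval_pow, eval_X]
  rw [h1]
  ring

private theorem natDegree_refl_le (k : ℂ[X]) : (Helper61.Lac.refl k).natDegree ≤ k.natDegree := by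
  unfold Helper61.Lac.refl
  exact (reverse_natDegree_le _).trans (natDegree_map_le)

private theorem natDegree_J0 (k : ℂ[X]) (Λ : ℝ) : (J0 k Λ).natDegree ≤ 2 * k.natDegree := by
  unfold J0
  have h1 : (Polynomial.C (Λ : ℂ) * X ^ k.natDegree).natDegree ≤ 2 * k.natDegree :=
    (natDegree_C_mul_le _ _).trans ((natDegree_X_pow_le _).trans (by omega))
  have h2 : (Polynomial.C (1 / 2 : ℂ) * (X ^ k.natDegree * k)).natDegree ≤ 2 * k.natDegree :=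
    (natDegree_C_mul_le _ _).trans
      ((natDegree_mul_le_of_le (natDegree_X_pow_le _) le_rfl).trans (by omega))
  have h3 : (Polynomial.C (1 / 2 : ℂ) * Helper61.Lac.refl k).natDegree ≤ 2 * k.natDegree :=
    (natDegree_C_mul_le _ _).trans ((natDegree_refl_le k).trans (by omega))
  refine (natDegree_sub_le _ _).trans (max_le ((natDegree_sub_le _ _).trans (max_le h1 h2)) h3)

private theorem Ok.dN (h : D.Ok) : D.k.natDegree ≤ D.N := by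
  have := h.hd
  omega

private theorem Ok.Lam1 (h : D.Ok) : 1 < D.Lam := by
  obtain ⟨-, -, -, -, -, -, -, h1⟩ := h.par.misc
  have : D.Lam = lam D.l D.Q D.T := rfl
  rw [this]
  linarith

private theorem Ok.LamB (h : D.Ok) : D.Lam ≤ D.l * D.T := h.par.lam_le

private theorem Ok.B1 (h : D.Ok) : (1 : ℝ) ≤ D.l * D.T := h.par.T1.trans h.par.lT

/-- `J` in the disc -/
private theorem Ok.norm_J (h : D.Ok) {z : ℂ} (hz : ‖z‖ ≤ 1) :
    ‖z ^ (D.N - D.k.natDegree) * (J0 D.k D.Lam).eval z‖ ≤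
      2 * (D.l * D.T) * ‖z‖ ^ (D.N - D.k.natDegree) := by
  have h1 := schwarz_weighted (h := fun z => (J0 D.k D.Lam).eval z) (φ := fun _ => 0)
    (M := 2 * (D.l * D.T)) (m := D.N - D.k.natDegree)
    (fun z _ => (J0 D.k D.Lam).differentiable.analyticAt z) (fun _ _ => analyticAt_const)
    (fun w hw => by
      have h2 := h.norm_J_circle hw
      rw [Jf_eq h.dN] at h2
      simpa using h2) hz
  simpa using h1

private theorem Ok.den (h : D.Ok) {z : ℂ} (hz : ‖z‖ ≤ 1) :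
    1 / (D.l * D.T) ^ 3 ≤ ‖1 - (rho D.Lam : ℂ) * z ^ D.N‖ := by
  obtain ⟨h0, h1⟩ := rho_pos h.Lam1
  have hw : ‖z ^ D.N‖ ≤ 1 := by
    rw [norm_pow]
    exact pow_le_one₀ (norm_nonneg _) hz
  refine le_trans ?_ (one_sub_bounds h0 h1 hw).2
  have hL := h.Lam1
  have hLB := h.LamB
  unfold rho
  rw [sub_sub_cancel, ← one_div]
  exact one_div_le_one_div_of_le (by positivity) (pow_le_pow_left₀ (by linarith) hLB 3)

private theorem Ok.den_inv (h : D.Ok) {z : ℂ} (hz : ‖z‖ ≤ 1) :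
    0 < ‖1 - (rho D.Lam : ℂ) * z ^ D.N‖ ∧ ‖1 - (rho D.Lam : ℂ) * z ^ D.N‖⁻¹ ≤ (D.l * D.T) ^ 3 := by
  have h1 := h.den hz
  have hB := h.B1
  have h2 : (0 : ℝ) < 1 / (D.l * D.T) ^ 3 := by positivity
  refine ⟨lt_of_lt_of_le h2 h1, ?_⟩
  rw [inv_le_comm₀ (lt_of_lt_of_le h2 h1) (by positivity), ← one_div]
  exact h1

/-- `U` is divisible by `z ^ (N - d)` -/
theorem Ok.U_factor (h : D.Ok) : ∃ u : ℂ → ℂ, AnalyticOnNhd ℂ u (closedBall 0 1) ∧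
    ∀ z : ℂ, D.U z = z ^ (D.N - D.k.natDegree) * u z := by
  refine ⟨fun z => -(2 * (rho D.Lam : ℂ) * (J0 D.k D.Lam).eval z / (1 - rho D.Lam * z ^ D.N)),
    fun z hz => ?_, fun z => ?_⟩
  · have hz1 : ‖z‖ ≤ 1 := by simpa using hz
    have hne : 1 - (rho D.Lam : ℂ) * z ^ D.N ≠ 0 := norm_pos_iff.1 (h.den_inv hz1).1
    have hk : AnalyticAt ℂ (fun z => (J0 D.k D.Lam).eval z) z :=
      (J0 D.k D.Lam).differentiable.analyticAt z
    have hden : AnalyticAt ℂ (fun z : ℂ => 1 - (rho D.Lam : ℂ) * z ^ D.N) z := by fun_prop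
    exact ((analyticAt_const.mul hk).div hden hne).neg
  · rw [U, Hf, Jf_eq h.dN]
    ring

theorem Ok.norm_U (h : D.Ok) {z : ℂ} (hz : ‖z‖ ≤ 1) :
    ‖D.U z‖ ≤ 4 * (D.l * D.T) ^ 4 * ‖z‖ ^ (D.N - D.k.natDegree) := by
  obtain ⟨h0, h1⟩ := rho_pos h.Lam1
  obtain ⟨h2, h3⟩ := h.den_inv hz
  have h4 := h.norm_J hz
  have hB := h.B1
  rw [U, Hf, Jf_eq h.dN, norm_neg, norm_div, norm_mul, norm_mul, Complex.norm_real,
    Real.norm_eq_abs, abs_of_pos h0, div_eq_mul_inv, Complex.norm_ofNat]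
  calc 2 * rho D.Lam * ‖z ^ (D.N - D.k.natDegree) * (J0 D.k D.Lam).eval z‖ *
      ‖1 - (rho D.Lam : ℂ) * z ^ D.N‖⁻¹
      ≤ 2 * 1 * (2 * (D.l * D.T) * ‖z‖ ^ (D.N - D.k.natDegree)) * (D.l * D.T) ^ 3 := by
        gcongr
    _ = 4 * (D.l * D.T) ^ 4 * ‖z‖ ^ (D.N - D.k.natDegree) := by ring

theorem Ok.norm_U_inner (h : D.Ok) {z : ℂ} (hz : ‖z‖ ≤ 1 - D.T / D.N) :
    ‖D.U z‖ ≤ Real.exp (-(D.T / 4)) := by
  have hT := h.par.Tpos
  have hT1 := h.par.T1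
  have hN : (0 : ℝ) < D.N := by
    rw [h.par.hN]
    exact Real.exp_pos _
  have hz1 : ‖z‖ ≤ 1 := hz.trans (by
    have : 0 ≤ D.T / D.N := by positivity
    linarith)
  have h1 := h.norm_U hz1
  have h2 := h.par.inner_pow h.hd (norm_nonneg z) hz
  have h3 : 4 * ((D.l : ℝ) * D.T) ^ 4 ≤ Real.exp (D.T / 2) := by
    have h4 : (D.l : ℝ) ≤ D.T := by
      have := h.par.l_le
      have : (0 : ℝ) ≤ D.l := Nat.cast_nonneg _
      linarith
    have h5 := (h.par.M_ge 8 0 (by omega) (by omega)).trans h.par.big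
    rw [Nat.cast_zero, zero_mul, Real.exp_zero, mul_one] at h5
    have h6 : Real.exp (√D.T / 2) ≤ Real.exp (D.T / 2) := by
      refine Real.exp_le_exp.2 ?_
      have := h.par.sqrt_le
      have := h.par.sqrt_ge
      linarith
    refine le_trans ?_ (h5.trans h6)
    have h7 : ((D.l : ℝ) * D.T) ^ 4 ≤ (D.T * D.T) ^ 4 := by
      gcongr
    calc 4 * ((D.l : ℝ) * D.T) ^ 4 ≤ 4 * (D.T * D.T) ^ 4 := by linarith
      _ = 4 * D.T ^ 8 := by ring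
      _ ≤ 4 ^ 8 * D.T ^ 8 := by
          have : 0 ≤ D.T ^ 8 := by positivity
          nlinarith
      _ = (4 * D.T) ^ 8 := by rw [mul_pow]
  calc ‖D.U z‖ ≤ 4 * (D.l * D.T) ^ 4 * ‖z‖ ^ (D.N - D.k.natDegree) := h1
    _ ≤ Real.exp (D.T / 2) * Real.exp (-(3 * D.T / 4)) := by gcongr
    _ = Real.exp (-(D.T / 4)) := by
        rw [← Real.exp_add]
        congr 1
        ring

/-- the derivative of `U` -/
private theorem Ok.derivU (h : D.Ok) {z : ℂ} (hz : ‖z‖ ≤ 1) :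
    ‖deriv D.U z‖ ≤ D.N * D.T ^ 9 / 2 := by
  obtain ⟨h0, h1⟩ := rho_pos h.Lam1
  obtain ⟨h2, h3⟩ := h.den_inv hz
  have hB := h.B1
  have hT := h.par.Tpos
  have hT1 := h.par.T1
  have hN : (0 : ℝ) < D.N := by
    rw [h.par.hN]
    exact Real.exp_pos _
  have hN1 : 1 ≤ D.N := by exact_mod_cast hN
  set Pp : ℂ[X] := X ^ (D.N - D.k.natDegree) * J0 D.k D.Lam with hPp
  have hPe : ∀ w : ℂ, Pp.eval w = w ^ (D.N - D.k.natDegree) * (J0 D.k D.Lam).eval w := by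
    intro w
    simp [hPp]
  have hdeg : Pp.natDegree ≤ 2 * D.N := by
    refine (natDegree_mul_le_of_le (natDegree_X_pow_le _) (natDegree_J0 _ _)).trans ?_
    have := h.dN
    omega
  have hcirc : ∀ w : ℂ, ‖w‖ = 1 → ‖Pp.eval w‖ ≤ 2 * (D.l * D.T) := by
    intro w hw
    have := h.norm_J_circle hw
    rw [Jf_eq h.dN] at this
    rw [hPe]
    exact this
  have hP' := poly_deriv hN1 hdeg hcirc hz
  have hP : ‖Pp.eval z‖ ≤ 2 * (D.l * D.T) := by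
    rw [hPe]
    refine (h.norm_J hz).trans ?_
    have : ‖z‖ ^ (D.N - D.k.natDegree) ≤ 1 := pow_le_one₀ (norm_nonneg _) hz
    nlinarith
  have hne : 1 - (rho D.Lam : ℂ) * z ^ D.N ≠ 0 := norm_pos_iff.1 h2
  have hU : D.U = fun w => -(2 * (rho D.Lam : ℂ) * Pp.eval w / (1 - rho D.Lam * w ^ D.N)) := by
    funext w
    rw [U, Hf, Jf_eq h.dN, hPe]
  have hd1 : HasDerivAt (fun w => 2 * (rho D.Lam : ℂ) * Pp.eval w)
      (2 * (rho D.Lam : ℂ) * Pp.derivative.eval z) z := (Pp.hasDerivAt z).const_mul _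
  have hd2 : HasDerivAt (fun w : ℂ => 1 - (rho D.Lam : ℂ) * w ^ D.N)
      (-((rho D.Lam : ℂ) * (D.N * z ^ (D.N - 1)))) z :=
    ((hasDerivAt_pow D.N z).const_mul _).const_sub 1
  have hd3 := (hd1.div hd2 hne).neg
  have hd4 : deriv D.U z = -((2 * (rho D.Lam : ℂ) * Pp.derivative.eval z *
      (1 - (rho D.Lam : ℂ) * z ^ D.N) - 2 * (rho D.Lam : ℂ) * Pp.eval z *
      -((rho D.Lam : ℂ) * (D.N * z ^ (D.N - 1)))) / (1 - (rho D.Lam : ℂ) * z ^ D.N) ^ 2) := by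
    rw [hU]
    exact hd3.deriv
  set q := ‖1 - (rho D.Lam : ℂ) * z ^ D.N‖ with hq
  have hnum : ‖2 * (rho D.Lam : ℂ) * Pp.derivative.eval z *
      (1 - (rho D.Lam : ℂ) * z ^ D.N) - 2 * (rho D.Lam : ℂ) * Pp.eval z *
      -((rho D.Lam : ℂ) * (D.N * z ^ (D.N - 1)))‖ ≤
      2 * (8 * D.N * (2 * (D.l * D.T))) * q + 2 * (2 * (D.l * D.T)) * D.N := by
    refine (norm_sub_le _ _).trans (add_le_add ?_ ?_)
    · rw [norm_mul, norm_mul, norm_mul, Complex.norm_real, Real.norm_eq_abs, abs_of_pos h0,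
        Complex.norm_ofNat, ← hq]
      refine mul_le_mul_of_nonneg_right ?_ h2.le
      calc 2 * rho D.Lam * ‖Pp.derivative.eval z‖ ≤ 2 * 1 * (8 * D.N * (2 * (D.l * D.T))) := by
            gcongr
        _ = _ := by ring
    · rw [norm_mul, norm_mul, norm_mul, norm_neg, norm_mul, norm_mul, Complex.norm_real,
        Real.norm_eq_abs, abs_of_pos h0, Complex.norm_ofNat, norm_pow, Complex.norm_natCast]
      have h5 : ‖z‖ ^ (D.N - 1) ≤ 1 := pow_le_one₀ (norm_nonneg _) hz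
      calc 2 * rho D.Lam * ‖Pp.eval z‖ * (rho D.Lam * (D.N * ‖z‖ ^ (D.N - 1)))
          ≤ 2 * 1 * (2 * (D.l * D.T)) * (1 * (D.N * 1)) := by gcongr
        _ = _ := by ring
  have hB3 : (0 : ℝ) ≤ (D.l * D.T) ^ 3 := by positivity
  have hqi0 : 0 ≤ q⁻¹ := inv_nonneg.2 h2.le
  have h6 : 72 * (D.l : ℝ) ^ 7 ≤ D.T ^ 2 := by
    have h7 := h.par.hlT
    have h8 : (1 : ℝ) ≤ 100 * (D.l + 1 : ℝ) := by
      have : (0 : ℝ) ≤ D.l := Nat.cast_nonneg _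
      linarith
    have h9 : (D.l : ℝ) ^ 7 ≤ (100 * (D.l + 1 : ℝ)) ^ 7 := by
      gcongr
      have : (0 : ℝ) ≤ D.l := Nat.cast_nonneg _
      linarith
    have h10 : 72 * (100 * (D.l + 1 : ℝ)) ^ 7 ≤ (100 * (D.l + 1 : ℝ)) ^ 10 := by
      have h11 : (72 : ℝ) ≤ (100 * (D.l + 1 : ℝ)) ^ 3 := by
        have h12 : (100 : ℝ) ≤ 100 * (D.l + 1 : ℝ) := by
          have : (0 : ℝ) ≤ D.l := Nat.cast_nonneg _
          linarith
        calc (72 : ℝ) ≤ 100 ^ 3 := by norm_num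
          _ ≤ _ := pow_le_pow_left₀ (by norm_num) h12 3
      calc 72 * (100 * (D.l + 1 : ℝ)) ^ 7 ≤ (100 * (D.l + 1 : ℝ)) ^ 3 * (100 * (D.l + 1 : ℝ)) ^ 7 := by
            gcongr
        _ = _ := by ring
    have h13 : D.T ≤ D.T ^ 2 := by nlinarith
    linarith
  rw [hd4, norm_neg, norm_div, norm_pow, ← hq]
  calc ‖2 * (rho D.Lam : ℂ) * Pp.derivative.eval z *
      (1 - (rho D.Lam : ℂ) * z ^ D.N) - 2 * (rho D.Lam : ℂ) * Pp.eval z *
      -((rho D.Lam : ℂ) * (D.N * z ^ (D.N - 1)))‖ / q ^ 2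
      ≤ (2 * (8 * D.N * (2 * (D.l * D.T))) * q + 2 * (2 * (D.l * D.T)) * D.N) / q ^ 2 := by
        gcongr
    _ = 32 * D.N * (D.l * D.T) * q⁻¹ + 4 * D.N * (D.l * D.T) * (q⁻¹ * q⁻¹) := by
        field_simp
        ring
    _ ≤ 32 * D.N * (D.l * D.T) * (D.l * D.T) ^ 3 +
        4 * D.N * (D.l * D.T) * ((D.l * D.T) ^ 3 * (D.l * D.T) ^ 3) := by
        gcongr
    _ = D.N * (32 * (D.l * D.T) ^ 4 + 4 * (D.l * D.T) ^ 7) := by ring
    _ ≤ D.N * (36 * (D.l * D.T) ^ 7) := by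
        have h7 : ((D.l : ℝ) * D.T) ^ 4 ≤ (D.l * D.T) ^ 7 := pow_le_pow_right₀ hB (by norm_num)
        gcongr
        linarith
    _ = D.N * (72 * (D.l : ℝ) ^ 7 * D.T ^ 7 / 2) := by rw [mul_pow]; ring
    _ ≤ D.N * (D.T ^ 2 * D.T ^ 7 / 2) := by gcongr
    _ = D.N * D.T ^ 9 / 2 := by ring

private theorem Ok.exp_small (h : D.Ok) : 2 * Real.exp (2 * D.A) ≤ D.N * D.T ^ 9 / 2 := by
  obtain ⟨-, h1, -⟩ := h.par.misc
  have hT1 := h.par.T1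
  have hA := h.par.hA
  have h2 : Real.exp (2 * D.A) ≤ Real.exp (4 * D.A) := Real.exp_le_exp.2 (by linarith)
  have h3 : (1 : ℝ) ≤ D.T ^ 12 := one_le_pow₀ hT1
  have h4 : (1 : ℝ) ≤ D.T ^ 9 := one_le_pow₀ hT1
  have h5 : 0 < Real.exp (4 * D.A) := Real.exp_pos _
  have h6 : 4 * Real.exp (4 * D.A) ≤ D.N := by nlinarith
  have h7 : (D.N : ℝ) ≤ D.N * D.T ^ 9 := by
    have : (0 : ℝ) ≤ D.N := Nat.cast_nonneg _
    nlinarith
  linarith

theorem Ok.derivψ₁ (h : D.Ok) {z : ℂ} (hz : ‖z‖ ≤ 1) : ‖deriv D.ψ₁ z‖ ≤ D.N * D.T ^ 9 := by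
  have hmem : z ∈ closedBall (0 : ℂ) 1 := by simpa using hz
  have h1 : deriv D.ψ₁ z = deriv D.ψ z + deriv D.U z :=
    deriv_fun_add (h.st.anψ z hmem).differentiableAt (h.anU z hmem).differentiableAt
  rw [h1]
  refine (norm_add_le _ _).trans ?_
  have h2 := h.derivU hz
  have h3 := h.st.derivψ hz
  have h4 := h.exp_small
  linarith

theorem Ok.lipψ₁ (h : D.Ok) {z ζ : ℂ} (hz : ‖z‖ ≤ 1) (hζ : ‖ζ‖ ≤ 1) :
    ‖D.ψ₁ ζ - D.ψ₁ z‖ ≤ D.N * D.T ^ 9 * ‖ζ - z‖ :=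
  lip_of_deriv h.anψ₁ (fun _ hz => h.derivψ₁ hz) hz hζ

/-- the weights are slowly varying at scale `s₁` -/
theorem Ok.slow (h : D.Ok) {z ζ : ℂ} (hz : ‖z‖ ≤ 1) (hζ : ‖ζ‖ ≤ 1) (hs : ‖ζ - z‖ ≤ D.s₁) :
    D.W ζ ≤ 3 * D.W z ∧ D.V ζ ≤ 3 * D.V z ∧ (D.V ζ)⁻¹ ≤ 3 * (D.V z)⁻¹ := by
  have hT := h.par.Tpos
  have hT1 := h.par.T1
  have hN : (0 : ℝ) < D.N := by
    rw [h.par.hN]
    exact Real.exp_pos _
  have hs1 : D.N * D.T ^ 9 * D.s₁ ≤ 1 := by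
    have : D.N * D.T ^ 9 * D.s₁ = 1 / D.T := by
      unfold s₁
      field_simp
    rw [this, div_le_one hT]
    exact hT1
  have h1 : ‖D.ψ₁ ζ - D.ψ₁ z‖ ≤ 1 := (h.lipψ₁ hz hζ).trans
    ((mul_le_mul_of_nonneg_left hs (by positivity)).trans hs1)
  have h2 : ‖D.φ ζ - D.φ z‖ ≤ 1 := by
    refine (h.st.lipφ hz hζ).trans ?_
    have h3 := h.exp_small
    have h4 : 2 * Real.exp (2 * D.A) * ‖ζ - z‖ ≤ D.N * D.T ^ 9 * ‖ζ - z‖ := by
      refine mul_le_mul_of_nonneg_right ?_ (norm_nonneg _)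
      have : 0 ≤ D.N * D.T ^ 9 := by positivity
      linarith
    exact h4.trans ((mul_le_mul_of_nonneg_left hs (by positivity)).trans hs1)
  have he : Real.exp 1 ≤ 3 := by
    have := Real.exp_one_lt_d9
    linarith
  have key : ∀ a b : ℝ, a ≤ 1 + b → Real.exp a ≤ 3 * Real.exp b := by
    intro a b hab
    calc Real.exp a ≤ Real.exp (1 + b) := Real.exp_le_exp.2 hab
      _ = Real.exp 1 * Real.exp b := Real.exp_add _ _
      _ ≤ 3 * Real.exp b := mul_le_mul_of_nonneg_right he (Real.exp_pos _).le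
  have r1 : |(D.ψ₁ ζ).re - (D.ψ₁ z).re| ≤ 1 := by
    rw [← Complex.sub_re]
    exact (Complex.abs_re_le_norm _).trans h1
  have r2 : |(D.φ ζ).re - (D.φ z).re| ≤ 1 := by
    rw [← Complex.sub_re]
    exact (Complex.abs_re_le_norm _).trans h2
  rw [abs_le] at r1 r2
  refine ⟨?_, ?_, ?_⟩
  · have := key (D.ψ₁ ζ).re (D.ψ₁ z).re (by linarith [r1.2])
    unfold W
    linarith
  · exact key _ _ (by linarith [r2.2])
  · unfold V
    rw [← Real.exp_neg, ← Real.exp_neg]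
    exact key _ _ (by linarith [r2.1])

end Setup

end Pool.Agent.Helper58.LD
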