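import Pool.Agent.Helper58.LD.Dil
import Pool.Agent.Helper58.LD.UB

/-!
# LD-25: lower bound for `- Re G` on most of the circle

Let `r = (1 - s) ^ 2`, `|z| = 1`, `|1 - ϱ z ^ N| ≥ T ^ (-1/8)`, `|1 - r₀ p (r z)| ≥ T ^ (-1/8)` (real powers).
* `1 - r ≤ 2 s ≤ 1/T`. `Xf ≤ 2 Λ ^ (-3) T ^ (1/4)` and `Λ ≥ l T / 2`, so `2 l T Xf ≤ 32 T ^ (1/4) / (l T) ^ 2 ≤ 1/T`.
* `re_ge_circle` and `lipψ₁`, `State.lipφ` (`|r z - z| = 1 - r ≤ 2 (l + 1) / (N T ^ 10)`, so the change is at most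
  `(2 (l + 1) + 1) / T`): `Re (ψ₁ - φ) (r z) ≥ Λ - 1/T - 1/T - (2 l + 3)/T = Λ - (2 l + 5)/T`.
* `one_sub_p`: `1 - |p (r z)| ≤ 1/T + (l + 2) (2 l + 7)/T + (l + 1) e^(A - Λ) ≤ ((l + 2) (2 l + 7) + 2) / T`.
* `re_G`: `1 - r₀² |p|² ≤ 2 (1 - r₀ |p|) ≤ 2 ((1 - r₀) + (1 - |p|)) ≤ 2 ((l + 2) (2 l + 7) + 3) / T ≤ 40 (l + 1) ^ 2 / T`, so
  `Re G ≤ μ (40 (l + 1) ^ 2 T ^ (-1) T ^ (1/4) - 1) ≤ -μ (1 - T ^ (-1/2))` (`40 (l + 1) ^ 2 ≤ T ^ (1/4)` by `Par.hlT`).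
-/

set_option autoImplicit false

open Filter Topology Metric Complex Polynomial

namespace Pool.Agent.Helper58.LD

open Pool.Agent.Helper61.Lac

namespace Setup

variable {D : Setup}

theorem Ok.neg_G_ge (h : D.Ok) {z : ℂ} (hz : ‖z‖ = 1)
    (h1 : D.T ^ (-(1 / 8) : ℝ) ≤ ‖1 - (rho D.Lam : ℂ) * z ^ D.N‖)
    (h2 : D.T ^ (-(1 / 8) : ℝ) ≤ ‖1 - (D.r₀ : ℂ) * D.p (((1 - D.s) ^ 2 : ℝ) * z)‖) :
    D.μ * (1 - D.T ^ (-(1 / 2) : ℝ)) ≤ -(D.G (((1 - D.s) ^ 2 : ℝ) * z)).re := by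
  have hT := h.par.hT
  have hT0 : 0 < D.T := h.par.Tpos
  have hT1 : 1 ≤ D.T := h.par.T1
  obtain ⟨m1, m2, m3, m4, m5, m6, m7, m8⟩ := h.par.misc
  have hlam : lam D.l D.Q D.T = D.Lam := rfl
  rw [hlam] at m3 m7 m8
  have hl1 : (1 : ℝ) ≤ D.l := by exact_mod_cast h.par.hl
  have hLam : D.l * D.T / 2 ≤ D.Lam := h.par.half_le_lam
  have hA := h.par.hA
  obtain ⟨hs₁, hs0, hs4, hs5, hs6, hs7⟩ := h.s_bounds
  set q : ℝ := D.T ^ (1 / 8 : ℝ) with hq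
  have hq0 : 0 < q := Real.rpow_pos_of_pos hT0 _
  have hq8 : q ^ 8 = D.T := by
    rw [hq, ← Real.rpow_natCast, ← Real.rpow_mul hT0.le]
    norm_num
  have e1 : D.T ^ (-(1 / 8) : ℝ) = q⁻¹ := by rw [Real.rpow_neg hT0.le]
  have e2 : D.T ^ (-(1 / 2) : ℝ) = (q ^ 4)⁻¹ := by
    rw [Real.rpow_neg hT0.le, hq, ← Real.rpow_natCast, ← Real.rpow_mul hT0.le]
    norm_num
  rw [e1] at h1 h2
  rw [e2]
  have hql : 100 * (D.l + 1 : ℝ) ≤ q := by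
    have a1 : (1 : ℝ) ≤ 100 * (D.l + 1 : ℝ) := by linarith
    have a2 : (100 * (D.l + 1 : ℝ)) ^ 8 ≤ q ^ 8 := by
      rw [hq8]
      exact (pow_le_pow_right₀ a1 (by norm_num)).trans h.par.hlT
    exact (pow_le_pow_iff_left₀ (by linarith) hq0.le (by norm_num)).1 a2
  have hq200 : 200 ≤ q := by linarith
  set w : ℂ := ((1 - D.s) ^ 2 : ℝ) * z with hw
  have hwn : ‖w‖ = (1 - D.s) ^ 2 := by
    rw [hw, norm_mul, hz, mul_one, Complex.norm_real, Real.norm_eq_abs, abs_of_nonneg (sq_nonneg _)]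
  have hw1 : ‖w‖ ≤ 1 := by rw [hwn]; nlinarith
  have hwz : ‖w - z‖ ≤ 2 * D.s := by
    have a1 : w - z = (((1 - D.s) ^ 2 - 1 : ℝ) : ℂ) * z := by rw [hw]; push_cast; ring
    rw [a1, norm_mul, hz, mul_one, Complex.norm_real, Real.norm_eq_abs, abs_le]
    constructor <;> nlinarith
  have hN : (0 : ℝ) < D.N := by rw [h.par.hN]; exact Real.exp_pos _
  have hsN : D.N * D.T ^ 9 * (2 * D.s) = 2 * (D.l + 1) / D.T := by
    simp only [Setup.s, Setup.s₁]; field_simp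
  have g1 : ‖D.ψ₁ w - D.ψ₁ z‖ ≤ 2 * (D.l + 1) / D.T := by
    refine (h.lipψ₁ hz.le hw1).trans ?_
    rw [← hsN]
    exact mul_le_mul_of_nonneg_left hwz (by positivity)
  have hexp : (1 : ℝ) ≤ Real.exp (2 * D.A) := Real.one_le_exp (by linarith)
  have hsT : D.s ≤ 1 / (2 * D.T) := by
    rw [le_div_iff₀ (by positivity)] at hs6 ⊢
    have a1 : D.s * (2 * D.T) ≤ 4 * D.T ^ 2 * Real.exp (2 * D.A) * D.s * (8 * D.T) := by
      have a2 : 1 ≤ D.T ^ 2 := one_le_pow₀ hT1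
      have a3 : 2 ≤ 4 * D.T ^ 2 * Real.exp (2 * D.A) * 8 := by nlinarith
      calc D.s * (2 * D.T) = D.s * D.T * 2 := by ring
        _ ≤ D.s * D.T * (4 * D.T ^ 2 * Real.exp (2 * D.A) * 8) :=
            mul_le_mul_of_nonneg_left a3 (by positivity)
        _ = _ := by ring
    linarith
  have g2 : ‖D.φ w - D.φ z‖ ≤ 1 / D.T := by
    refine (h.st.lipφ hz.le hw1).trans ?_
    calc 2 * Real.exp (2 * D.A) * ‖w - z‖ ≤ 2 * Real.exp (2 * D.A) * (2 * D.s) :=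
          mul_le_mul_of_nonneg_left hwz (by positivity)
      _ = (4 * D.T ^ 2 * Real.exp (2 * D.A) * D.s) / D.T ^ 2 := by field_simp; ring
      _ ≤ (1 / (8 * D.T)) / D.T ^ 2 := by gcongr
      _ ≤ 1 / D.T := by
          rw [div_div, div_le_div_iff₀ (by positivity) (by positivity), one_mul, one_mul]
          have a2 : 1 ≤ D.T ^ 2 := one_le_pow₀ hT1
          nlinarith
  have g3 : D.Lam - 1 / D.T - 2 * (D.l * D.T) * Xf D.Lam D.N z ≤ (D.ψ₁ z - D.φ z).re :=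
    h.re_ge_circle hz
  have g4 : 2 * (D.l * D.T) * Xf D.Lam D.N z ≤ 1 / D.T := by
    have b0 : 0 < D.Lam := by linarith
    have b1 : (1 - rho D.Lam ^ 2) ≤ 2 * (D.Lam ^ 3)⁻¹ := by
      have b : 0 < (D.Lam ^ 3)⁻¹ := by positivity
      unfold rho
      nlinarith
    have b2 : q⁻¹ ^ 2 ≤ ‖1 - (rho D.Lam : ℂ) * z ^ D.N‖ ^ 2 := pow_le_pow_left₀ (by positivity) h1 2
    have b3 : Xf D.Lam D.N z ≤ 2 * (D.Lam ^ 3)⁻¹ * q ^ 2 := by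
      unfold Xf
      rw [div_le_iff₀ (lt_of_lt_of_le (by positivity) b2)]
      calc 1 - rho D.Lam ^ 2 ≤ 2 * (D.Lam ^ 3)⁻¹ := b1
        _ = 2 * (D.Lam ^ 3)⁻¹ * q ^ 2 * (q⁻¹ ^ 2) := by field_simp
        _ ≤ _ := mul_le_mul_of_nonneg_left b2 (by positivity)
    have b4 : (D.l * D.T / 2) ^ 3 ≤ D.Lam ^ 3 := pow_le_pow_left₀ (by positivity) hLam 3
    have b5 : (D.Lam ^ 3)⁻¹ ≤ ((D.l * D.T / 2) ^ 3)⁻¹ := inv_anti₀ (by positivity) b4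
    have b6 : D.T ≤ D.l * D.T := h.par.lT
    have b7 : (32 : ℝ) ≤ q ^ 6 := by
      calc (32 : ℝ) ≤ 200 ^ 6 := by norm_num
        _ ≤ q ^ 6 := pow_le_pow_left₀ (by norm_num) hq200 6
    have b8 : 32 * q ^ 2 ≤ D.T := by
      rw [← hq8]
      calc 32 * q ^ 2 ≤ q ^ 6 * q ^ 2 := mul_le_mul_of_nonneg_right b7 (by positivity)
        _ = q ^ 8 := by ring
    calc 2 * (D.l * D.T) * Xf D.Lam D.N z
        ≤ 2 * (D.l * D.T) * (2 * ((D.l * D.T / 2) ^ 3)⁻¹ * q ^ 2) := by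
          apply mul_le_mul_of_nonneg_left _ (by positivity)
          refine b3.trans ?_
          gcongr
      _ = 32 * q ^ 2 / (D.l * D.T) ^ 2 := by field_simp; norm_num
      _ ≤ 32 * q ^ 2 / D.T ^ 2 := by gcongr
      _ ≤ 1 / D.T := by
          rw [div_le_div_iff₀ (by positivity) hT0, one_mul]
          calc 32 * q ^ 2 * D.T ≤ D.T * D.T := mul_le_mul_of_nonneg_right b8 hT0.le
            _ = D.T ^ 2 := by ring
  have g5 : D.Lam - (2 * D.l + 5) / D.T ≤ (D.ψ₁ w - D.φ w).re := by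
    have a1 : (D.ψ₁ w - D.φ w) = (D.ψ₁ z - D.φ z) + ((D.ψ₁ w - D.ψ₁ z) - (D.φ w - D.φ z)) := by ring
    rw [a1, Complex.add_re, Complex.sub_re (D.ψ₁ w - D.ψ₁ z)]
    have a2 := (abs_le.1 ((Complex.abs_re_le_norm _).trans g1)).1
    have a3 := (abs_le.1 ((Complex.abs_re_le_norm _).trans g2)).2
    have a4 : (2 * D.l + 5) / D.T = 1 / D.T + 1 / D.T + 2 * (D.l + 1) / D.T + 1 / D.T := by ring
    linarith
  have g6 : 1 - ‖D.p w‖ ≤ ((D.l + 2) * (2 * D.l + 7) + 2) / D.T := by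
    have c1 := h.one_sub_p hw1
    have c2 : 1 - ‖w‖ ≤ 1 / D.T := by
      rw [hwn]
      have a1 : 1 / (2 * D.T) = (1 / D.T) / 2 := by ring
      rw [a1] at hsT
      nlinarith
    have c3 : (D.l + 1) * Real.exp (D.A - D.Lam) ≤ 1 / D.T := by
      have a1 : (D.l + 1 : ℝ) ≤ D.T := by
        have := h.par.l_le
        linarith
      have a2 : Real.exp D.A * D.T ^ 2 ≤ Real.exp D.Lam := by
        refine le_trans ?_ m3
        apply mul_le_mul (Real.exp_le_exp.2 (by linarith)) _ (by positivity) (by positivity)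
        exact pow_le_pow_right₀ hT1 (by norm_num)
      rw [Real.exp_sub, ← mul_div_assoc, div_le_div_iff₀ (Real.exp_pos _) hT0, one_mul]
      calc (D.l + 1) * Real.exp D.A * D.T ≤ D.T * Real.exp D.A * D.T := by gcongr
        _ = Real.exp D.A * D.T ^ 2 := by ring
        _ ≤ _ := a2
    have c4 : (D.l + 2) * (D.Lam + 2 / D.T - (D.ψ₁ w - D.φ w).re) ≤
        (D.l + 2) * ((2 * D.l + 7) / D.T) := by
      apply mul_le_mul_of_nonneg_left _ (by positivity)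
      have a1 : (2 * D.l + 7) / D.T = (2 * D.l + 5) / D.T + 2 / D.T := by ring
      linarith
    have c5 : ((D.l + 2) * (2 * D.l + 7) + 2) / D.T =
        1 / D.T + (D.l + 2) * ((2 * D.l + 7) / D.T) + 1 / D.T := by ring
    linarith
  obtain ⟨hr0, hr1⟩ := h.r₀_bounds
  have hr₀ : 1 - D.r₀ = 1 / D.T := by simp only [Setup.r₀]; ring
  have hp1 : ‖D.p w‖ ≤ 1 := (h.norm_p hw1).trans hw1
  have hp0 : 0 ≤ ‖D.p w‖ := norm_nonneg _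
  have g7 : 1 - D.r₀ ^ 2 * ‖D.p w‖ ^ 2 ≤ 40 * (D.l + 1) ^ 2 / D.T := by
    have a1 : 1 - D.r₀ * ‖D.p w‖ ≤ (1 - D.r₀) + (1 - ‖D.p w‖) := by nlinarith
    have a2 : D.r₀ * ‖D.p w‖ ≤ 1 := by nlinarith
    have a3 : 0 ≤ D.r₀ * ‖D.p w‖ := by positivity
    have a4 : 1 - D.r₀ ^ 2 * ‖D.p w‖ ^ 2 ≤ 2 * (1 - D.r₀ * ‖D.p w‖) := by nlinarith
    calc 1 - D.r₀ ^ 2 * ‖D.p w‖ ^ 2 ≤ 2 * (1 / D.T + ((D.l + 2) * (2 * D.l + 7) + 2) / D.T) := by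
          rw [hr₀] at a1
          linarith
      _ = (2 * ((D.l + 2) * (2 * D.l + 7) + 3)) / D.T := by ring
      _ ≤ 40 * (D.l + 1) ^ 2 / D.T := by
          apply div_le_div_of_nonneg_right _ hT0.le
          nlinarith
  have g8 : (1 - D.r₀ ^ 2 * ‖D.p w‖ ^ 2) / ‖1 - (D.r₀ : ℂ) * D.p w‖ ^ 2 ≤ (q ^ 4)⁻¹ := by
    have b2 : q⁻¹ ^ 2 ≤ ‖1 - (D.r₀ : ℂ) * D.p w‖ ^ 2 := pow_le_pow_left₀ (by positivity) h2 2
    rw [div_le_iff₀ (lt_of_lt_of_le (by positivity) b2)]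
    refine g7.trans ?_
    have b3 : 40 * (D.l + 1 : ℝ) ^ 2 ≤ q ^ 2 := by
      have : (100 * (D.l + 1 : ℝ)) ^ 2 ≤ q ^ 2 := pow_le_pow_left₀ (by positivity) hql 2
      nlinarith
    calc 40 * (D.l + 1) ^ 2 / D.T ≤ q ^ 2 / D.T := by gcongr
      _ = (q ^ 4)⁻¹ * (q⁻¹ ^ 2) := by
          rw [← hq8]
          field_simp
      _ ≤ (q ^ 4)⁻¹ * ‖1 - (D.r₀ : ℂ) * D.p w‖ ^ 2 := mul_le_mul_of_nonneg_left b2 (by positivity)
  rw [h.re_G hw1]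
  have hfin := mul_le_mul_of_nonneg_left g8 m4.le
  nlinarith

end Setup

end Pool.Agent.Helper58.LD
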