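import Pool.Agent.Helper58.LD.Defs

/-!
# LD-01: numerical facts

Everything follows from `Par`, mainly from `big`:
`(4 T) ^ (20 (l + 1)) * exp (20 (l + 1) A) ≤ exp (√T / 2)`, and `2 ^ (l + 5) Q T ≤ 2 ^ (l + 5) T ^ 2`,
`√T ≤ T ≤ l T`, `N = exp T`, `N ^ l = exp (l T)`.
-/

set_option autoImplicit false

open Filter Topology Metric Complex Polynomial

namespace Pool.Agent.Helper58.LD

variable {l : ℕ} {A Q T μ : ℝ} {N : ℕ}

/-- `Λ` as a function of the parameters (`= Setup.Lam`) -/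
noncomputable def lam (l : ℕ) (Q T : ℝ) : ℝ := l * T - Real.log (2 ^ (l + 5) * Q * T)

namespace Par

lemma Tpos (h : Par l A Q T μ N) : 0 < T := by
  have := h.hT
  linarith

lemma T1 (h : Par l A Q T μ N) : 1 ≤ T := by
  have := h.hT
  linarith

lemma lT (h : Par l A Q T μ N) : T ≤ l * T := by
  have h1 : (1 : ℝ) ≤ l := by exact_mod_cast h.hl
  have := h.Tpos
  nlinarith

lemma sqrt_ge (h : Par l A Q T μ N) : 1000 ≤ √T := by
  have h1 : (1000 : ℝ) = √(1000 ^ 2) := by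
    rw [Real.sqrt_sq (by norm_num)]
  rw [h1]
  exact Real.sqrt_le_sqrt (by have := h.hT; norm_num at this ⊢; linarith)

lemma sqrt_le (h : Par l A Q T μ N) : 1000 * √T ≤ T := by
  have h1 := h.sqrt_ge
  have h2 : √T * √T = T := Real.mul_self_sqrt h.Tpos.le
  nlinarith

lemma l_le (h : Par l A Q T μ N) : 100 * (l + 1 : ℝ) ≤ T := by
  have h1 : (1 : ℝ) ≤ 100 * (l + 1 : ℝ) := by
    have : (0 : ℝ) ≤ l := Nat.cast_nonneg l
    linarith
  refine le_trans ?_ h.hlT
  calc 100 * (l + 1 : ℝ) = (100 * (l + 1 : ℝ)) ^ 1 := (pow_one _).symm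
    _ ≤ (100 * (l + 1 : ℝ)) ^ 10 := pow_le_pow_right₀ h1 (by norm_num)

lemma M_ge (h : Par l A Q T μ N) (a b : ℕ) (ha : a ≤ 20 * (l + 1)) (hb : b ≤ 20 * (l + 1)) :
    (4 * T) ^ a * Real.exp (b * A) ≤
      (4 * T) ^ (20 * (l + 1)) * Real.exp (20 * (l + 1) * A) := by
  have h1 : 1 ≤ 4 * T := by have := h.T1; linarith
  have h2 : (b : ℝ) ≤ 20 * (l + 1) := by exact_mod_cast hb
  have h3 := h.hA
  have h4 : (b : ℝ) * A ≤ 20 * (l + 1) * A := by nlinarith
  exact mul_le_mul (pow_le_pow_right₀ h1 ha) (Real.exp_le_exp.2 h4) (Real.exp_pos _).le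
    (by positivity)

lemma two_pow_le (h : Par l A Q T μ N) : (2 : ℝ) ^ (l + 5) * Q * T ≤ (4 * T) ^ (l + 7) := by
  have h1 := h.T1
  have h2 : (2 : ℝ) ^ (l + 5) ≤ (4 * T) ^ (l + 5) :=
    pow_le_pow_left₀ (by norm_num) (by linarith) _
  have h3 : Q * T ≤ (4 * T) ^ 2 := by
    have := h.hQT
    have := h.hQ
    nlinarith
  calc (2 : ℝ) ^ (l + 5) * Q * T = 2 ^ (l + 5) * (Q * T) := by ring
    _ ≤ (4 * T) ^ (l + 5) * (4 * T) ^ 2 := by
        have := h.hQ
        exact mul_le_mul h2 h3 (by positivity) (by positivity)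
    _ = (4 * T) ^ (l + 7) := by rw [← pow_add]

lemma den_ge (h : Par l A Q T μ N) : 1 ≤ (2 : ℝ) ^ (l + 5) * Q * T := by
  have h1 := h.T1
  have h2 := h.hQ
  have h3 : (1 : ℝ) ≤ 2 ^ (l + 5) := one_le_pow₀ (by norm_num)
  exact one_le_mul_of_one_le_of_one_le (one_le_mul_of_one_le_of_one_le h3 h2) h1

end Par

theorem Par.lam_le (h : Par l A Q T μ N) : lam l Q T ≤ l * T := by
  have := Real.log_nonneg h.den_ge
  unfold lam
  linarith

/-- `log (2 ^ (l + 5) Q T) ≤ √T / 2` -/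
theorem Par.le_lam (h : Par l A Q T μ N) : l * T - √T / 2 ≤ lam l Q T := by
  have h1 := h.M_ge (l + 7) 0 (by omega) (by omega)
  rw [Nat.cast_zero, zero_mul, Real.exp_zero, mul_one] at h1
  have h2 : (2 : ℝ) ^ (l + 5) * Q * T ≤ Real.exp (√T / 2) :=
    (h.two_pow_le.trans h1).trans h.big
  have h3 := Real.log_le_log (by have := h.den_ge; linarith) h2
  rw [Real.log_exp] at h3
  unfold lam
  linarith

theorem Par.half_le_lam (h : Par l A Q T μ N) : l * T / 2 ≤ lam l Q T := by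
  have h1 := h.le_lam
  have h2 := h.sqrt_le
  have h3 := h.lT
  have h4 := h.sqrt_ge
  linarith

theorem Par.exp_lam (h : Par l A Q T μ N) :
    Real.exp (lam l Q T) = (N : ℝ) ^ l / (2 ^ (l + 5) * Q * T) := by
  rw [lam, Real.exp_sub, Real.exp_log (by have := h.den_ge; linarith), h.hN, ← Real.exp_nat_mul]

/-- `exp Λ` beats everything -/
theorem Par.big_lam (h : Par l A Q T μ N) :
    (4 * T) ^ (20 * (l + 1)) * Real.exp (20 * (l + 1) * A) ≤ Real.exp (lam l Q T) := by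
  refine h.big.trans (Real.exp_le_exp.2 ?_)
  have h1 := h.le_lam
  have h2 := h.sqrt_le
  have h3 := h.lT
  have h4 := h.sqrt_ge
  linarith

theorem Par.big_N (h : Par l A Q T μ N) :
    (4 * T) ^ (20 * (l + 1)) * Real.exp (20 * (l + 1) * A) ≤ N := by
  rw [h.hN]
  refine h.big.trans (Real.exp_le_exp.2 ?_)
  have h2 := h.sqrt_le
  have h4 := h.sqrt_ge
  linarith

/-- simple consequences, for convenience -/
theorem Par.misc (h : Par l A Q T μ N) :
    1000 * A ≤ T ∧ (4 : ℝ) * Real.exp (4 * A) * T ^ 12 ≤ N ∧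
      Real.exp (4 * A) * T ^ 12 ≤ Real.exp (lam l Q T) ∧ 0 < μ ∧ μ ≤ l * T ∧ 10 ≤ √T ∧
      2 * A + 1 ≤ lam l Q T ∧ 10 ≤ lam l Q T := by
  have hT := h.hT
  have hT1 := h.T1
  have hA := h.hA
  have h1 := h.sqrt_ge
  have h2 := h.sqrt_le
  have h3 := h.lT
  have h5 : 1000 * A ≤ T := by
    by_contra hc
    push Not at hc
    have h6 : (T / 1000) ^ 4 < A ^ 4 :=
      pow_lt_pow_left₀ (by linarith) (by positivity) (by norm_num)
    have h7 := h.hA4
    have h8 : T ≤ (T / 1000) ^ 4 := by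
      have h9 : (10 ^ 6 : ℝ) ^ 3 ≤ T ^ 3 := pow_le_pow_left₀ (by norm_num) hT 3
      have h10 : (T / 1000) ^ 4 = T * (T ^ 3 / 10 ^ 12) := by ring
      rw [h10]
      have h11 : 1 ≤ T ^ 3 / 10 ^ 12 := by
        rw [le_div_iff₀ (by norm_num)]
        norm_num at h9 ⊢
        linarith
      nlinarith
    linarith
  have h6 : (4 : ℝ) * Real.exp (4 * A) * T ^ 12 ≤
      (4 * T) ^ (20 * (l + 1)) * Real.exp (20 * (l + 1) * A) := by
    have h7 := h.M_ge 12 4 (by omega) (by omega)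
    refine le_trans ?_ h7
    rw [mul_pow]
    have h8 : (0 : ℝ) ≤ T ^ 12 * Real.exp (4 * A) := by positivity
    push_cast
    nlinarith
  have h7 : Real.exp (4 * A) * T ^ 12 ≤ (4 : ℝ) * Real.exp (4 * A) * T ^ 12 := by
    have h8 : (0 : ℝ) ≤ Real.exp (4 * A) * T ^ 12 := by positivity
    nlinarith
  have h8 := h.half_le_lam
  refine ⟨h5, h6.trans h.big_N, (h7.trans h6).trans h.big_lam, ?_, ?_, by linarith, by linarith,
    by linarith⟩
  · have := h.hμ1
    linarith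
  · have := h.hμ2
    linarith

/-- LD-13 needs this -/
theorem Par.taylor_err (h : Par l A Q T μ N) :
    8 * Real.exp (2 * A) * Real.exp (-(Real.exp (-A) * ((N / 4 : ℕ) : ℝ) / 4)) ≤ 1 / T := by
  obtain ⟨h1, h2, -⟩ := h.misc
  have hT1 := h.T1
  have hA := h.hA
  have hTp := h.Tpos
  have hT := h.hT
  have hN8 : (8 : ℝ) ≤ N := by
    have h3 : (1 : ℝ) ≤ Real.exp (4 * A) := Real.one_le_exp (by linarith)
    have h4 : (2 : ℝ) ≤ T ^ 12 := by
      calc (2 : ℝ) ≤ T := by linarith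
        _ = T ^ 1 := (pow_one _).symm
        _ ≤ T ^ 12 := pow_le_pow_right₀ hT1 (by norm_num)
    nlinarith
  have hN4 : (N : ℝ) / 8 ≤ ((N / 4 : ℕ) : ℝ) := by
    have h3 : 8 ≤ N := by exact_mod_cast hN8
    have h4 : N ≤ 8 * (N / 4) := by omega
    have h5 : (N : ℝ) ≤ 8 * ((N / 4 : ℕ) : ℝ) := by exact_mod_cast h4
    linarith
  -- `exp (-A) * N ≥ 64 * T`
  have h3 : 64 * T ≤ Real.exp (-A) * N := by
    have h4 : Real.exp (-A) * (4 * Real.exp (4 * A) * T ^ 12) ≤ Real.exp (-A) * N :=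
      mul_le_mul_of_nonneg_left h2 (Real.exp_pos _).le
    have h5 : Real.exp (-A) * (4 * Real.exp (4 * A) * T ^ 12) =
        4 * Real.exp (3 * A) * T ^ 12 := by
      have : Real.exp (4 * A) = Real.exp A * Real.exp (3 * A) := by
        rw [← Real.exp_add]
        ring_nf
      rw [this]
      have h6 : Real.exp (-A) * Real.exp A = 1 := by
        rw [← Real.exp_add]
        simp
      calc Real.exp (-A) * (4 * (Real.exp A * Real.exp (3 * A)) * T ^ 12)
          = (Real.exp (-A) * Real.exp A) * (4 * Real.exp (3 * A) * T ^ 12) := by ring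
        _ = _ := by rw [h6, one_mul]
    have h6 : (1 : ℝ) ≤ Real.exp (3 * A) := Real.one_le_exp (by linarith)
    have h7 : T ^ 2 ≤ T ^ 12 := pow_le_pow_right₀ hT1 (by norm_num)
    have h8 : 64 * T ≤ 4 * Real.exp (3 * A) * T ^ 12 := by
      have h9 : 16 * T ≤ T ^ 2 := by nlinarith
      nlinarith
    linarith
  have h4 : 2 * T ≤ Real.exp (-A) * ((N / 4 : ℕ) : ℝ) / 4 := by
    have h5 := mul_le_mul_of_nonneg_left hN4 (Real.exp_pos (-A)).le
    linarith
  have h5 : Real.exp (-(Real.exp (-A) * ((N / 4 : ℕ) : ℝ) / 4)) ≤ Real.exp (-(2 * T)) :=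
    Real.exp_le_exp.2 (by linarith)
  have h6 : 8 * Real.exp (2 * A) * Real.exp (-(2 * T)) ≤ 1 / T := by
    have h7 : 8 * T ≤ Real.exp T := by
      have h8 := Real.quadratic_le_exp_of_nonneg hTp.le
      nlinarith
    have h8 : Real.exp (2 * A) ≤ Real.exp T := Real.exp_le_exp.2 (by linarith)
    rw [le_div_iff₀ hTp]
    have h9 : Real.exp (-(2 * T)) * (Real.exp T * Real.exp T) = 1 := by
      rw [← Real.exp_add, ← Real.exp_add]
      ring_nf
      exact Real.exp_zero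
    calc 8 * Real.exp (2 * A) * Real.exp (-(2 * T)) * T
        = Real.exp (-(2 * T)) * (Real.exp (2 * A) * (8 * T)) := by ring
      _ ≤ Real.exp (-(2 * T)) * (Real.exp T * Real.exp T) := by
          refine mul_le_mul_of_nonneg_left ?_ (Real.exp_pos _).le
          exact mul_le_mul h8 h7 (by positivity) (Real.exp_pos _).le
      _ = 1 := h9
  exact (mul_le_mul_of_nonneg_left h5 (by positivity)).trans h6

/-- LD-16 needs this: `3 Q S (2 / N) ^ l ≤ 1 / (4 T)` -/
theorem Par.delta_err (h : Par l A Q T μ N) :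
    3 * Q * Real.exp (lam l Q T) / ((N : ℝ) / 2) ^ l ≤ 1 / (4 * T) := by
  have hN : (0 : ℝ) < N := by
    rw [h.hN]
    exact Real.exp_pos _
  have hT := h.Tpos
  have hQ : 0 < Q := by have := h.hQ; linarith
  rw [h.exp_lam, div_pow, pow_add]
  have h1 : 3 * Q * ((N : ℝ) ^ l / (2 ^ l * 2 ^ 5 * Q * T)) / ((N : ℝ) ^ l / 2 ^ l) =
      3 / (32 * T) := by
    field_simp
    ring
  rw [h1, div_le_div_iff₀ (by positivity) (by positivity)]
  linarith

/-- LD-18 needs this; here the upper bound for `μ` is used -/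
theorem Par.v_err (h : Par l A Q T μ N) :
    2 * μ * T * Real.exp μ * Real.exp (A - lam l Q T) ≤ 1 / 4 := by
  obtain ⟨-, -, -, hμ0, hμ, -⟩ := h.misc
  have h1 := h.le_lam
  have h2 := h.hμ2
  have hT := h.Tpos
  have hT1 := h.T1
  have hl := h.l_le
  have h3 : Real.exp μ * Real.exp (A - lam l Q T) ≤ Real.exp A * Real.exp (-(√T / 2)) := by
    rw [← Real.exp_add, ← Real.exp_add]
    exact Real.exp_le_exp.2 (by linarith)
  have h4 : 8 * (l * T) * T * Real.exp A ≤ Real.exp (√T / 2) := by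
    refine le_trans ?_ h.big
    refine le_trans ?_ (h.M_ge 3 1 (by omega) (by omega))
    have h5 : 8 * ((l : ℝ) * T) * T ≤ (4 * T) ^ 3 := by
      have h6 : (l : ℝ) ≤ T := by linarith
      have h7 : (l : ℝ) * (T * T) ≤ T * (T * T) := mul_le_mul_of_nonneg_right h6 (by positivity)
      nlinarith [mul_pos hT (mul_pos hT hT)]
    push_cast
    rw [one_mul]
    exact mul_le_mul_of_nonneg_right h5 (Real.exp_pos _).le
  have h5 : Real.exp (√T / 2) * Real.exp (-(√T / 2)) = 1 := by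
    rw [← Real.exp_add]
    simp
  calc 2 * μ * T * Real.exp μ * Real.exp (A - lam l Q T)
      = 2 * μ * T * (Real.exp μ * Real.exp (A - lam l Q T)) := by ring
    _ ≤ 2 * (l * T) * T * (Real.exp A * Real.exp (-(√T / 2))) := by
        refine mul_le_mul ?_ h3 (by positivity) (by positivity)
        nlinarith
    _ = 1 / 4 * (8 * (l * T) * T * Real.exp A * Real.exp (-(√T / 2))) := by ring
    _ ≤ 1 / 4 * (Real.exp (√T / 2) * Real.exp (-(√T / 2))) := by
        refine mul_le_mul_of_nonneg_left ?_ (by norm_num)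
        exact mul_le_mul_of_nonneg_right h4 (Real.exp_pos _).le
    _ = 1 / 4 := by rw [h5, mul_one]

/-- the inner region: `|z| ≤ 1 - T / N` -/
theorem Par.inner_pow (h : Par l A Q T μ N) {d : ℕ} (hd : 4 * d ≤ N) {x : ℝ} (hx0 : 0 ≤ x)
    (hx : x ≤ 1 - T / N) : x ^ (N - d) ≤ Real.exp (-(3 * T / 4)) := by
  have hN : (0 : ℝ) < N := by
    rw [h.hN]
    exact Real.exp_pos _
  have h1 : x ≤ Real.exp (-(T / N)) := by
    have := Real.add_one_le_exp (-(T / N))
    linarith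
  have hdN : d ≤ N := by omega
  calc x ^ (N - d) ≤ Real.exp (-(T / N)) ^ (N - d) := pow_le_pow_left₀ hx0 h1 _
    _ = Real.exp ((N - d : ℕ) * (-(T / N))) := by rw [← Real.exp_nat_mul]
    _ ≤ Real.exp (-(3 * T / 4)) := by
        refine Real.exp_le_exp.2 ?_
        have h2 : (3 / 4 : ℝ) * N ≤ ((N - d : ℕ) : ℝ) := by
          rw [Nat.cast_sub hdN]
          have : (4 : ℝ) * d ≤ N := by exact_mod_cast hd
          linarith
        have h3 : 0 ≤ T / N := div_nonneg h.Tpos.le hN.le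
        have h4 := mul_le_mul_of_nonneg_right h2 h3
        have h5 : (3 / 4 : ℝ) * N * (T / N) = 3 * T / 4 := by
          field_simp
        nlinarith

end Pool.Agent.Helper58.LD
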