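import Pool.Agent.Helper58.LD.Circ

/-!
# LD-17: the functions `p` and `G`

`a = exp (Re (ψ₁ - φ) - Λ - 2/T) ≤ e^(-1/T)` (`re_le`), `b = |Y| exp (- Re φ - Λ - 2/T)`, `|Y| ≤ 1 + |X₁|`, so
`b ≤ a + e^(A - Λ) ≤ 1` (`1 - e^(-1/T) ≥ 1/(2T)`, `e^(A - Λ) ≤ 1/(2T)`: `Par.misc`), and `|p| = |z| a b ^ (l + 1)` (all factors
are exponentials). Hence `|p| ≤ |z|`.
* `norm_p_le_W`: `a ≤ exp (Re (ψ₁ - φ) - Λ)`, `b ≤ W / V` (`W = 1 + exp (Re ψ₁)`, `V = exp (Λ + Re φ)`).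
* `norm_p_div`: `|p| exp (-Re ψ₁) ≤ exp (- Re φ - Λ) b ^ (l + 1)`.
* `one_sub_p`: `b ≥ a - exp (- Re φ - Λ) ≥ a - e^(A - Λ)`, `1 - x ≤ -log x`, i.e. `1 - a ≤ Λ + 2/T - Re (ψ₁ - φ)`, and
  `1 - |z| a b ^ (l+1) ≤ (1 - |z|) + (1 - a) + (l + 1) (1 - b)`.
* `re_G`: `2 x / (1 - x) = (1 + x) / (1 - x) - 1`, `Re ((1 + x)/(1 - x)) = (1 - |x|²) / |1 - x|²` (see `LC4.re_two_mul_div`).
* `norm_G`: `|1 - r₀ p| ≥ 1 - r₀ = 1/T`. `G_eq`: `G = Y ^ (l + 1) g`.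
-/

set_option autoImplicit false

open Filter Topology Metric Complex Polynomial

namespace Pool.Agent.Helper58.LD

namespace Setup

variable {D : Setup}

/-- the first factor -/
private noncomputable def fa (D : Setup) (z : ℂ) : ℝ :=
  Real.exp ((D.ψ₁ z).re - (D.φ z).re - D.Lam - 2 / D.T)

/-- the small factor -/
private noncomputable def fe (D : Setup) (z : ℂ) : ℝ :=
  Real.exp (-(D.φ z).re - D.Lam - 2 / D.T)

/-- the second factor -/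
private noncomputable def fb (D : Setup) (z : ℂ) : ℝ := ‖D.Y z‖ * fe D z

private theorem norm_p_eq (D : Setup) (z : ℂ) :
    ‖D.p z‖ = ‖z‖ * fa D z * fb D z ^ (D.l + 1) := by
  have h1 : ‖(D.c : ℂ)‖ = D.c := by
    rw [Complex.norm_real, Real.norm_eq_abs, abs_of_pos (show 0 < D.c from Real.exp_pos _)]
  have h2 : (-((D.l + 2 : ℂ) * D.φ z)).re = -((D.l + 2 : ℝ) * (D.φ z).re) := by
    rw [Complex.neg_re]
    congr 1
    have : (D.l + 2 : ℂ) = ((D.l + 2 : ℝ) : ℂ) := by push_cast; ring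
    rw [this, Complex.re_ofReal_mul]
  rw [p, norm_mul, norm_mul, norm_mul, norm_mul, norm_pow, h1, Complex.norm_exp, Complex.norm_exp,
    h2, fb, mul_pow, fa, fe, c]
  have h3 : Real.exp ((D.ψ₁ z).re - (D.φ z).re - D.Lam - 2 / D.T) *
      Real.exp (-(D.φ z).re - D.Lam - 2 / D.T) ^ (D.l + 1) =
      Real.exp (-((D.l + 2 : ℝ) * (D.Lam + 2 / D.T))) * Real.exp (D.ψ₁ z).re *
        Real.exp (-((D.l + 2 : ℝ) * (D.φ z).re)) := by
    rw [← Real.exp_nat_mul, ← Real.exp_add, ← Real.exp_add, ← Real.exp_add]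
    congr 1
    push_cast
    ring
  calc ‖z‖ * Real.exp (-((D.l + 2 : ℝ) * (D.Lam + 2 / D.T))) * Real.exp (D.ψ₁ z).re *
      ‖D.Y z‖ ^ (D.l + 1) * Real.exp (-((D.l + 2 : ℝ) * (D.φ z).re))
      = ‖z‖ * ‖D.Y z‖ ^ (D.l + 1) * (Real.exp (-((D.l + 2 : ℝ) * (D.Lam + 2 / D.T))) *
        Real.exp (D.ψ₁ z).re * Real.exp (-((D.l + 2 : ℝ) * (D.φ z).re))) := by ring
    _ = _ := by rw [← h3]; ring

private theorem fa_pos (D : Setup) (z : ℂ) : 0 < fa D z := Real.exp_pos _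

private theorem fe_pos (D : Setup) (z : ℂ) : 0 < fe D z := Real.exp_pos _

private theorem fb_nonneg (D : Setup) (z : ℂ) : 0 ≤ fb D z :=
  mul_nonneg (norm_nonneg _) (fe_pos D z).le

private theorem Ok.reφ (h : D.Ok) {z : ℂ} (hz : ‖z‖ ≤ 1) : |(D.φ z).re| ≤ D.A :=
  h.st.rφ z (by
    have := Real.exp_pos (-D.A)
    linarith)

private theorem Ok.fe_le (h : D.Ok) {z : ℂ} (hz : ‖z‖ ≤ 1) : fe D z ≤ Real.exp (D.A - D.Lam) := by
  have h1 := abs_le.1 (h.reφ hz)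
  have hT := h.par.Tpos
  have h2 : 0 < 2 / D.T := by positivity
  exact Real.exp_le_exp.2 (by linarith [h1.1])

private theorem Ok.fa_le (h : D.Ok) {z : ℂ} (hz : ‖z‖ ≤ 1) : fa D z ≤ Real.exp (-(1 / D.T)) := by
  have h1 := h.re_le hz
  rw [Complex.sub_re] at h1
  have h2 : 2 / D.T = 1 / D.T + 1 / D.T := by ring
  exact Real.exp_le_exp.2 (by linarith)

private theorem Ok.eAL (h : D.Ok) : Real.exp (D.A - D.Lam) ≤ 1 / (2 * D.T) := by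
  obtain ⟨-, -, h1, -⟩ := h.par.misc
  have hT := h.par.Tpos
  have hT1 := h.par.T1
  have hTb := h.par.hT
  have hA := h.par.hA
  have hL : D.Lam = lam D.l D.Q D.T := rfl
  rw [← hL] at h1
  rw [Real.exp_sub, div_le_div_iff₀ (Real.exp_pos _) (by positivity), one_mul]
  have h2 : Real.exp D.A ≤ Real.exp (4 * D.A) := Real.exp_le_exp.2 (by linarith)
  have h3 : 2 * D.T ≤ D.T ^ 12 := by
    calc 2 * D.T ≤ D.T * D.T := by nlinarith
      _ = D.T ^ 2 := by ring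
      _ ≤ D.T ^ 12 := pow_le_pow_right₀ hT1 (by norm_num)
  calc Real.exp D.A * (2 * D.T) ≤ Real.exp (4 * D.A) * D.T ^ 12 := by gcongr
    _ ≤ _ := h1

private theorem norm_Y_le (D : Setup) (z : ℂ) : ‖D.Y z‖ ≤ D.W z := by
  unfold Y W
  refine (norm_add_le _ _).trans (le_of_eq ?_)
  rw [norm_one, Complex.norm_exp]

private theorem norm_Y_ge (D : Setup) (z : ℂ) : Real.exp (D.ψ₁ z).re - 1 ≤ ‖D.Y z‖ := by
  unfold Y
  have h := norm_sub_norm_le (cexp (D.ψ₁ z)) (-1)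
  rw [norm_neg, norm_one, Complex.norm_exp, sub_neg_eq_add, add_comm (cexp (D.ψ₁ z))] at h
  exact h

private theorem exp_mul_fe (D : Setup) (z : ℂ) :
    Real.exp (D.ψ₁ z).re * fe D z = fa D z := by
  rw [fe, fa, ← Real.exp_add]
  congr 1
  ring

private theorem fb_le' (D : Setup) (z : ℂ) : fb D z ≤ fe D z + fa D z := by
  rw [fb, ← exp_mul_fe]
  have h1 := norm_Y_le D z
  unfold W at h1
  have := fe_pos D z
  nlinarith

private theorem fb_ge' (D : Setup) (z : ℂ) : fa D z - fe D z ≤ fb D z := by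
  rw [fb, ← exp_mul_fe]
  have h1 := norm_Y_ge D z
  have := fe_pos D z
  nlinarith

private theorem exp_neg_inv {y : ℝ} (hy0 : 0 ≤ y) (hy1 : y ≤ 1) : Real.exp (-y) ≤ 1 - y / 2 := by
  have h1 := Real.add_one_le_exp y
  rw [Real.exp_neg, inv_le_comm₀ (Real.exp_pos _) (by linarith)]
  refine le_trans ?_ h1
  rw [inv_le_comm₀ (by linarith) (by linarith), ← one_div, div_le_iff₀ (by linarith)]
  nlinarith

private theorem Ok.fa_le_one (h : D.Ok) {z : ℂ} (hz : ‖z‖ ≤ 1) : fa D z ≤ 1 := by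
  refine (h.fa_le hz).trans ?_
  have hT := h.par.Tpos
  rw [Real.exp_le_one_iff]
  have : 0 < 1 / D.T := by positivity
  linarith

private theorem Ok.fb_le_one (h : D.Ok) {z : ℂ} (hz : ‖z‖ ≤ 1) : fb D z ≤ 1 := by
  have h1 := fb_le' D z
  have h2 := h.fe_le hz
  have h3 := h.fa_le hz
  have h4 := h.eAL
  have hT := h.par.Tpos
  have hT1 := h.par.T1
  have h5 := exp_neg_inv (y := 1 / D.T) (by positivity) (by
    rw [div_le_one hT]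
    exact hT1)
  have h6 : 1 / D.T / 2 = 1 / (2 * D.T) := by
    field_simp
  linarith

private theorem V_eq (D : Setup) (z : ℂ) : (D.V z)⁻¹ = Real.exp (-(D.φ z).re - D.Lam) := by
  rw [V, ← Real.exp_neg]
  congr 1
  ring

private theorem Ok.fe_le_V (h : D.Ok) (z : ℂ) : fe D z ≤ (D.V z)⁻¹ := by
  rw [V_eq]
  have hT := h.par.Tpos
  have : 0 < 2 / D.T := by positivity
  exact Real.exp_le_exp.2 (by linarith)

private theorem V_pos (D : Setup) (z : ℂ) : 0 < D.V z := Real.exp_pos _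

private theorem W_pos (D : Setup) (z : ℂ) : 0 < D.W z := by
  unfold W
  have := Real.exp_pos (D.ψ₁ z).re
  linarith

private theorem Ok.fb_le_WV (h : D.Ok) (z : ℂ) : fb D z ≤ D.W z / D.V z := by
  rw [fb, div_eq_mul_inv]
  exact mul_le_mul (norm_Y_le D z) (h.fe_le_V z) (fe_pos D z).le (W_pos D z).le

private theorem Ok.fa_le_WV (h : D.Ok) (z : ℂ) : fa D z ≤ D.W z / D.V z := by
  rw [← exp_mul_fe, div_eq_mul_inv]
  refine mul_le_mul ?_ (h.fe_le_V z) (fe_pos D z).le (W_pos D z).le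
  unfold W
  linarith

theorem Ok.norm_p (h : D.Ok) {z : ℂ} (hz : ‖z‖ ≤ 1) : ‖D.p z‖ ≤ ‖z‖ := by
  rw [norm_p_eq]
  have h1 := h.fa_le_one hz
  have h2 : fb D z ^ (D.l + 1) ≤ 1 := pow_le_one₀ (fb_nonneg D z) (h.fb_le_one hz)
  calc ‖z‖ * fa D z * fb D z ^ (D.l + 1) ≤ ‖z‖ * 1 * 1 := by
        have := fa_pos D z
        have := fb_nonneg D z
        gcongr
    _ = ‖z‖ := by ring

theorem p_zero (D : Setup) : D.p 0 = 0 := by
  unfold p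
  ring

theorem Ok.norm_p_le_W (h : D.Ok) {z : ℂ} (hz : ‖z‖ ≤ 1) :
    ‖D.p z‖ ≤ (D.W z / D.V z) ^ (D.l + 2) := by
  rw [norm_p_eq]
  have h1 := h.fa_le_WV z
  have h2 := h.fb_le_WV z
  have h3 := fa_pos D z
  have h4 := fb_nonneg D z
  have h5 : 0 ≤ D.W z / D.V z := h4.trans h2
  calc ‖z‖ * fa D z * fb D z ^ (D.l + 1) ≤
      1 * (D.W z / D.V z) * (D.W z / D.V z) ^ (D.l + 1) := by gcongr
    _ = _ := by ring

theorem Ok.norm_p_div (h : D.Ok) {z : ℂ} (hz : ‖z‖ ≤ 1) :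
    ‖D.p z‖ * Real.exp (-(D.ψ₁ z).re) ≤ Real.exp (D.A - D.Lam) ∧
      ‖D.p z‖ * Real.exp (-(D.ψ₁ z).re) ≤ Real.exp (D.A - D.Lam) * (D.W z / D.V z) ^ (D.l + 1) := by
  have e1 : ‖D.p z‖ * Real.exp (-(D.ψ₁ z).re) = ‖z‖ * fe D z * fb D z ^ (D.l + 1) := by
    rw [norm_p_eq, ← exp_mul_fe]
    have h1 : Real.exp (D.ψ₁ z).re * Real.exp (-(D.ψ₁ z).re) = 1 := by
      rw [← Real.exp_add, add_neg_cancel, Real.exp_zero]
    calc ‖z‖ * (Real.exp (D.ψ₁ z).re * fe D z) * fb D z ^ (D.l + 1) * Real.exp (-(D.ψ₁ z).re)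
        = ‖z‖ * fe D z * fb D z ^ (D.l + 1) *
          (Real.exp (D.ψ₁ z).re * Real.exp (-(D.ψ₁ z).re)) := by ring
      _ = _ := by rw [h1, mul_one]
  rw [e1]
  have h2 := h.fe_le hz
  have h3 := fe_pos D z
  have h4 := fb_nonneg D z
  have h5 := h.fb_le_one hz
  have h6 := h.fb_le_WV z
  constructor
  · have h7 : fb D z ^ (D.l + 1) ≤ 1 := pow_le_one₀ h4 h5
    calc ‖z‖ * fe D z * fb D z ^ (D.l + 1) ≤ 1 * Real.exp (D.A - D.Lam) * 1 := by gcongr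
      _ = _ := by ring
  · calc ‖z‖ * fe D z * fb D z ^ (D.l + 1) ≤
        1 * Real.exp (D.A - D.Lam) * (D.W z / D.V z) ^ (D.l + 1) := by gcongr
      _ = _ := by ring

theorem Ok.one_sub_p (h : D.Ok) {z : ℂ} (hz : ‖z‖ ≤ 1) :
    1 - ‖D.p z‖ ≤ (1 - ‖z‖) + (D.l + 2) * (D.Lam + 2 / D.T - (D.ψ₁ z - D.φ z).re) +
      (D.l + 1) * Real.exp (D.A - D.Lam) := by
  set η := D.Lam + 2 / D.T - (D.ψ₁ z - D.φ z).re with hη
  have ha : 1 - fa D z ≤ η := by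
    have h1 := Real.add_one_le_exp ((D.ψ₁ z).re - (D.φ z).re - D.Lam - 2 / D.T)
    rw [hη, Complex.sub_re]
    unfold fa
    linarith
  have hb : 1 - fb D z ≤ η + Real.exp (D.A - D.Lam) := by
    have h1 := fb_ge' D z
    have h2 := h.fe_le hz
    linarith
  have ha1 := h.fa_le_one hz
  have ha0 := fa_pos D z
  have hb1 := h.fb_le_one hz
  have hb0 := fb_nonneg D z
  have hbern : 1 - fb D z ^ (D.l + 1) ≤ (D.l + 1) * (1 - fb D z) := by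
    have h1 := one_add_mul_le_pow (show (-2 : ℝ) ≤ fb D z - 1 by linarith) (D.l + 1)
    rw [add_sub_cancel] at h1
    push_cast at h1
    linarith
  have hp1 : fb D z ^ (D.l + 1) ≤ 1 := pow_le_one₀ hb0 hb1
  have hp0 : 0 ≤ fb D z ^ (D.l + 1) := pow_nonneg hb0 _
  rw [norm_p_eq]
  have hz0 := norm_nonneg z
  have key : 1 - ‖z‖ * fa D z * fb D z ^ (D.l + 1) ≤
      (1 - ‖z‖) + (1 - fa D z) + (1 - fb D z ^ (D.l + 1)) := by
    have h1 : 1 - ‖z‖ * fa D z ≤ (1 - ‖z‖) + (1 - fa D z) := by nlinarith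
    have h2 : ‖z‖ * fa D z ≤ 1 := by nlinarith
    have h3 : 0 ≤ ‖z‖ * fa D z := by positivity
    nlinarith
  have hl0 : (0 : ℝ) ≤ (D.l : ℝ) + 1 := by positivity
  have h5 := mul_le_mul_of_nonneg_left hb hl0
  calc 1 - ‖z‖ * fa D z * fb D z ^ (D.l + 1) ≤
      (1 - ‖z‖) + (1 - fa D z) + (1 - fb D z ^ (D.l + 1)) := key
    _ ≤ (1 - ‖z‖) + η + (D.l + 1) * (η + Real.exp (D.A - D.Lam)) := by linarith
    _ = _ := by ring

theorem Ok.r₀_bounds (h : D.Ok) : 0 < D.r₀ ∧ D.r₀ < 1 := by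
  have hT := h.par.hT
  have hT0 := h.par.Tpos
  have h1 : 1 / D.T < 1 := by
    rw [div_lt_one hT0]
    linarith
  have h2 : 0 < 1 / D.T := by positivity
  unfold r₀
  constructor <;> linarith

private theorem Ok.norm_r₀p_eq (h : D.Ok) (z : ℂ) : ‖(D.r₀ : ℂ) * D.p z‖ = D.r₀ * ‖D.p z‖ := by
  rw [norm_mul, Complex.norm_real, Real.norm_eq_abs, abs_of_pos h.r₀_bounds.1]

theorem Ok.norm_r₀p (h : D.Ok) {z : ℂ} (hz : ‖z‖ ≤ 1) : ‖(D.r₀ : ℂ) * D.p z‖ < 1 := by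
  rw [h.norm_r₀p_eq]
  obtain ⟨h1, h2⟩ := h.r₀_bounds
  have h3 := (h.norm_p hz).trans hz
  nlinarith

private theorem Ok.den_ge (h : D.Ok) {z : ℂ} (hz : ‖z‖ ≤ 1) :
    1 / D.T ≤ ‖1 - (D.r₀ : ℂ) * D.p z‖ := by
  obtain ⟨h1, h2⟩ := h.r₀_bounds
  have h3 := (h.norm_p hz).trans hz
  have h4 := norm_sub_norm_le (1 : ℂ) ((D.r₀ : ℂ) * D.p z)
  rw [norm_one, h.norm_r₀p_eq] at h4
  have h5 : D.r₀ * ‖D.p z‖ ≤ D.r₀ := by nlinarith
  have h6 : 1 / D.T = 1 - D.r₀ := by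
    unfold r₀
    ring
  linarith

private theorem Ok.den_pos (h : D.Ok) {z : ℂ} (hz : ‖z‖ ≤ 1) :
    0 < ‖1 - (D.r₀ : ℂ) * D.p z‖ := by
  refine lt_of_lt_of_le ?_ (h.den_ge hz)
  have := h.par.Tpos
  positivity

private theorem Ok.anφe (h : D.Ok) :
    AnalyticOnNhd ℂ (fun z => cexp (-((D.l + 2 : ℂ) * D.φ z))) (closedBall 0 1) := fun z hz =>
  ((analyticAt_const.mul (h.st.anφ z hz)).neg).cexp

theorem Ok.anp (h : D.Ok) : AnalyticOnNhd ℂ D.p (closedBall 0 1) := fun z hz =>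
  ((((analyticAt_id.mul analyticAt_const).mul (h.anψ₁ z hz).cexp).mul
    ((h.anY z hz).pow (D.l + 1))).mul (h.anφe z hz))

theorem Ok.anG (h : D.Ok) : AnalyticOnNhd ℂ D.G (closedBall 0 1) := fun z hz => by
  have hz1 : ‖z‖ ≤ 1 := by simpa using hz
  have hne : 1 - (D.r₀ : ℂ) * D.p z ≠ 0 := norm_pos_iff.1 (h.den_pos hz1)
  exact (analyticAt_const.mul (h.anp z hz)).div
    (analyticAt_const.sub (analyticAt_const.mul (h.anp z hz))) hne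

theorem Ok.ang (h : D.Ok) : AnalyticOnNhd ℂ D.g (closedBall 0 1) := fun z hz => by
  have hz1 : ‖z‖ ≤ 1 := by simpa using hz
  have hne : 1 - (D.r₀ : ℂ) * D.p z ≠ 0 := norm_pos_iff.1 (h.den_pos hz1)
  exact (analyticAt_const.mul (((analyticAt_id.mul analyticAt_const).mul
    (h.anψ₁ z hz).cexp).mul (h.anφe z hz))).div
    (analyticAt_const.sub (analyticAt_const.mul (h.anp z hz))) hne

theorem G_eq (D : Setup) (z : ℂ) : D.G z = D.Y z ^ (D.l + 1) * D.g z := by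
  have hp : D.p z = D.Y z ^ (D.l + 1) *
      (z * (D.c : ℂ) * cexp (D.ψ₁ z) * cexp (-((D.l + 2 : ℂ) * D.φ z))) := by
    unfold p
    ring
  unfold G g
  rw [← mul_div_assoc]
  congr 1
  rw [hp]
  ring

theorem G_zero (D : Setup) : D.G 0 = 0 := by
  unfold G
  rw [p_zero]
  simp

private theorem G_alt (D : Setup) (z : ℂ) :
    D.G z = (D.μ : ℂ) * (2 * ((D.r₀ : ℂ) * D.p z) / (1 - (D.r₀ : ℂ) * D.p z)) := by
  unfold G
  ring

theorem Ok.re_G (h : D.Ok) {z : ℂ} (hz : ‖z‖ ≤ 1) :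
    (D.G z).re = D.μ * ((1 - D.r₀ ^ 2 * ‖D.p z‖ ^ 2) / ‖1 - (D.r₀ : ℂ) * D.p z‖ ^ 2 - 1) := by
  have hne : 1 - (D.r₀ : ℂ) * D.p z ≠ 0 := norm_pos_iff.1 (h.den_pos hz)
  rw [G_alt, Complex.re_ofReal_mul, Helper61.Lac.LC4.re_two_mul_div hne, h.norm_r₀p_eq, mul_pow]

theorem Ok.re_G_ge (h : D.Ok) {z : ℂ} (hz : ‖z‖ ≤ 1) : -D.μ ≤ (D.G z).re := by
  rw [h.re_G hz]
  obtain ⟨-, -, -, hμ, -⟩ := h.par.misc
  have h1 := h.norm_r₀p hz
  rw [h.norm_r₀p_eq] at h1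
  have h2 : 0 ≤ D.r₀ * ‖D.p z‖ := mul_nonneg h.r₀_bounds.1.le (norm_nonneg _)
  have h3 : 0 ≤ (1 - D.r₀ ^ 2 * ‖D.p z‖ ^ 2) / ‖1 - (D.r₀ : ℂ) * D.p z‖ ^ 2 := by
    refine div_nonneg ?_ (by positivity)
    rw [← mul_pow]
    nlinarith
  nlinarith

theorem Ok.norm_G (h : D.Ok) {z : ℂ} (hz : ‖z‖ ≤ 1) : ‖D.G z‖ ≤ 2 * D.μ * D.T * ‖D.p z‖ := by
  obtain ⟨-, -, -, hμ, -⟩ := h.par.misc
  obtain ⟨h1, h2⟩ := h.r₀_bounds
  have hT := h.par.Tpos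
  have h3 := h.den_ge hz
  have h4 := h.den_pos hz
  have h5 : ‖1 - (D.r₀ : ℂ) * D.p z‖⁻¹ ≤ D.T := by
    rw [inv_le_comm₀ h4 hT, ← one_div]
    exact h3
  rw [G_alt, norm_mul, norm_div, norm_mul, h.norm_r₀p_eq, Complex.norm_real, Real.norm_eq_abs,
    abs_of_pos hμ, Complex.norm_ofNat, div_eq_mul_inv]
  calc D.μ * (2 * (D.r₀ * ‖D.p z‖) * ‖1 - (D.r₀ : ℂ) * D.p z‖⁻¹) ≤
      D.μ * (2 * (1 * ‖D.p z‖) * D.T) := by gcongr
    _ = _ := by ring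

/-- the bound for `g` used in the weights -/
theorem Ok.norm_g (h : D.Ok) {z : ℂ} (hz : ‖z‖ ≤ 1) :
    ‖D.g z‖ ≤ 2 * D.μ * D.T * D.W z / D.V z ^ (D.l + 2) := by
  obtain ⟨-, -, -, hμ, -⟩ := h.par.misc
  obtain ⟨h1, h2⟩ := h.r₀_bounds
  have hT := h.par.Tpos
  have h3 := h.den_ge hz
  have h4 := h.den_pos hz
  have h5 : ‖1 - (D.r₀ : ℂ) * D.p z‖⁻¹ ≤ D.T := by
    rw [inv_le_comm₀ h4 hT, ← one_div]
    exact h3
  have hc : ‖(D.c : ℂ)‖ = D.c := by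
    rw [Complex.norm_real, Real.norm_eq_abs, abs_of_pos (show 0 < D.c from Real.exp_pos _)]
  have hr : (-((D.l + 2 : ℂ) * D.φ z)).re = -((D.l + 2 : ℝ) * (D.φ z).re) := by
    rw [Complex.neg_re]
    congr 1
    have : (D.l + 2 : ℂ) = ((D.l + 2 : ℝ) : ℂ) := by push_cast; ring
    rw [this, Complex.re_ofReal_mul]
  have hV : (D.V z ^ (D.l + 2))⁻¹ = Real.exp (-((D.l + 2 : ℝ) * D.Lam)) *
      Real.exp (-((D.l + 2 : ℝ) * (D.φ z).re)) := by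
    rw [V, ← Real.exp_nat_mul, ← Real.exp_neg, ← Real.exp_add]
    congr 1
    push_cast
    ring
  have hcl : D.c ≤ Real.exp (-((D.l + 2 : ℝ) * D.Lam)) := by
    unfold c
    refine Real.exp_le_exp.2 ?_
    have h6 : 0 ≤ (D.l + 2 : ℝ) * (2 / D.T) := by positivity
    nlinarith
  have hcp : 0 ≤ D.c := (Real.exp_pos _).le
  have hX : Real.exp (D.ψ₁ z).re ≤ D.W z := by
    unfold W
    linarith
  rw [g, norm_div, norm_mul, norm_mul, norm_mul, norm_mul, norm_mul, norm_mul, hc,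
    Complex.norm_exp, Complex.norm_exp, hr, Complex.norm_real, Real.norm_eq_abs,
    abs_of_pos hμ, Complex.norm_real, Real.norm_eq_abs, abs_of_pos h1,
    Complex.norm_ofNat, div_eq_mul_inv, div_eq_mul_inv, hV]
  calc 2 * D.μ * D.r₀ * (‖z‖ * D.c * Real.exp (D.ψ₁ z).re *
      Real.exp (-((D.l + 2 : ℝ) * (D.φ z).re))) * ‖1 - (D.r₀ : ℂ) * D.p z‖⁻¹
      ≤ 2 * D.μ * 1 * (1 * Real.exp (-((D.l + 2 : ℝ) * D.Lam)) * D.W z *
        Real.exp (-((D.l + 2 : ℝ) * (D.φ z).re))) * D.T := by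
        have := (W_pos D z).le
        gcongr
    _ = _ := by ring

end Setup

end Pool.Agent.Helper58.LD
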