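import Pool.Agent.Helper58.LD.Defs

/-!
# LD-29: the sequence of states

`D = 12 l + 20`. Let `T₀` be from the step theorem; choose a natural number `N₀` with `log N₀ ≥ max T₀ 10^6` and (so that
everything below holds) `log N₀` as large as needed. Recursively `N (n+1) = ⌈exp (T n ^ D)⌉₊`, `T n = log (N n)`; so
`T n ^ D ≤ T (n+1) ≤ T n ^ D + 1` (`log (x + 1) ≤ log x + 1`), `(N : ℝ) = exp T`, and `T (n+1) ≥ T n ^ 2 ≥ 2 T n`.
`muf a l T = max (√T) (min (a T) (l T - √T))`: `√T ≤ muf` and `muf ≤ l T - √T` (as `2 √T ≤ T ≤ l T`).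
The numbers `N n` do not depend on the states, so first define them, then the states by
`Pool.Agent.Helper61.Lac.LC10.exists_seq` with `P n s = State l (T n ^ 5) (T n ^ (12 l + 3)) s.1 s.2.1 s.2.2` and
`Q n s s' = Next l (T n ^ 5) (T (n+1)) (muf a l (T (n+1))) (N (n+1)) ..`; the state with index `0` is `init`.
`(T n ^ 5) ^ 4 = T n ^ 20 ≤ T n ^ D`, `T n ^ (12 l + 3) ≤ T n ^ D`.
-/

set_option autoImplicit false

open Filter Topology Metric Complex

namespace Pool.Agent.Helper58.LD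

/-- the size of the step with parameter `T` -/
noncomputable def muf (a : ℝ) (l : ℕ) (T : ℝ) : ℝ := max (√T) (min (a * T) (l * T - √T))

/-- the sequence of states, with `T n = log (N n)` -/
structure Tower (l : ℕ) (a : ℝ) (N : ℕ → ℕ) (T : ℕ → ℝ) (φ ψ P : ℕ → ℂ → ℂ) : Prop where
  NT : ∀ n, (N n : ℝ) = Real.exp (T n)
  T_ge : ∀ n, (10 : ℝ) ^ 6 ≤ T n
  T_l : ∀ n, (l + 1 : ℝ) ≤ T n
  T_lo : ∀ n, T n ^ (12 * l + 20) ≤ T (n + 1)
  T_hi : ∀ n, T (n + 1) ≤ T n ^ (12 * l + 20) + 1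
  T_pow : ∀ n, (2 : ℝ) ^ (n + 10) ≤ T n
  st : ∀ n, State l (T n ^ 5) (T n ^ (12 * l + 3)) (φ n) (ψ n) (P n)
  nx : ∀ n, Next l (T n ^ 5) (T (n + 1)) (muf a l (T (n + 1))) (N (n + 1)) (φ n) (ψ n) (P n)
    (φ (n + 1)) (ψ (n + 1)) (P (n + 1))
  i1 : φ 0 = fun z => z
  i2 : ψ 0 = fun z => z
  i3 : P 0 = fun z => cexp z / (1 + cexp z)

/-- dependent choice along the natural numbers -/
private lemma seq_choice {S : Type} (P : ℕ → S → Prop) (Q : ℕ → S → S → Prop)
    (h0 : ∃ s, P 0 s) (hs : ∀ n s, P n s → ∃ s', P (n + 1) s' ∧ Q n s s') :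
    ∃ f : ℕ → S, (∀ n, P n (f n)) ∧ ∀ n, Q n (f n) (f (n + 1)) := by
  classical
  obtain ⟨s0, hs0⟩ := h0
  choose! g hg1 hg2 using hs
  let f : ℕ → S := fun n => Nat.rec s0 (fun m s => g m s) n
  have hP : ∀ n, P n (f n) := by
    intro n
    induction n with
    | zero => exact hs0
    | succ n ih => exact hg1 n (f n) ih
  exact ⟨f, hP, fun n => hg2 n (f n) (hP n)⟩

/-- the next number -/
private noncomputable def nxtN (D : ℕ) (m : ℕ) : ℕ := ⌈Real.exp (Real.log m ^ D)⌉₊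

private lemma log_ceil_ge (y : ℝ) : y ≤ Real.log ⌈Real.exp y⌉₊ := by
  rw [Real.le_log_iff_exp_le]
  · exact Nat.le_ceil _
  · exact_mod_cast Nat.ceil_pos.2 (Real.exp_pos y)

private lemma log_ceil_le {y : ℝ} (hy : 0 ≤ y) : Real.log ⌈Real.exp y⌉₊ ≤ y + 1 := by
  have h0 : (0 : ℝ) < ⌈Real.exp y⌉₊ := by exact_mod_cast Nat.ceil_pos.2 (Real.exp_pos y)
  rw [Real.log_le_iff_le_exp h0, Real.exp_add]
  have h1 := Nat.ceil_lt_add_one (Real.exp_pos y).le
  have h2 := Real.one_le_exp hy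
  have h3 : (2 : ℝ) ≤ Real.exp 1 := by
    have := Real.add_one_le_exp (1 : ℝ)
    linarith
  have h4 : Real.exp y * 2 ≤ Real.exp y * Real.exp 1 :=
    mul_le_mul_of_nonneg_left h3 (Real.exp_pos y).le
  linarith

theorem exists_tower (l : ℕ) (hl : 1 ≤ l) (a : ℝ) (step : StepStatement l)
    (init : ∀ A Q : ℝ, 2 ≤ A → 100 ≤ Q →
      State l A Q (fun z => z) (fun z => z) (fun z => cexp z / (1 + cexp z))) :
    ∃ (N : ℕ → ℕ) (T : ℕ → ℝ) (φ ψ P : ℕ → ℂ → ℂ), Tower l a N T φ ψ P := by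
  obtain ⟨T₀, hstep⟩ := step
  obtain ⟨B, hB⟩ : ∃ B : ℝ, B = max T₀ (max (10 ^ 6) (l + 1 : ℝ)) := ⟨_, rfl⟩
  have hB1 : T₀ ≤ B := by rw [hB]; exact le_max_left _ _
  have hB2 : (10 : ℝ) ^ 6 ≤ B := by
    rw [hB]
    exact (le_max_left _ _).trans (le_max_right _ _)
  have hB3 : (l + 1 : ℝ) ≤ B := by
    rw [hB]
    exact (le_max_right _ _).trans (le_max_right _ _)
  obtain ⟨N, hN0, hNs⟩ : ∃ N : ℕ → ℕ, N 0 = ⌈Real.exp B⌉₊ ∧
      ∀ n, N (n + 1) = ⌈Real.exp (Real.log (N n) ^ (12 * l + 20))⌉₊ :=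
    ⟨fun n => Nat.rec ⌈Real.exp B⌉₊ (fun _ m => nxtN (12 * l + 20) m) n, rfl, fun _ => rfl⟩
  obtain ⟨T, hT⟩ : ∃ T : ℕ → ℝ, T = fun n => Real.log (N n) := ⟨_, rfl⟩
  have hTn : ∀ n, T n = Real.log (N n) := fun n => by rw [hT]
  have hNpos : ∀ n, 0 < N n := by
    intro n
    cases n with
    | zero => rw [hN0]; exact Nat.ceil_pos.2 (Real.exp_pos _)
    | succ n => rw [hNs]; exact Nat.ceil_pos.2 (Real.exp_pos _)
  have hNT : ∀ n, (N n : ℝ) = Real.exp (T n) := by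
    intro n
    rw [hTn, Real.exp_log (by exact_mod_cast hNpos n)]
  have hT0 : B ≤ T 0 := by
    rw [hTn, hN0]
    exact log_ceil_ge B
  have hlo : ∀ n, T n ^ (12 * l + 20) ≤ T (n + 1) := by
    intro n
    rw [hTn (n + 1), hNs, hTn n]
    exact log_ceil_ge _
  have hge : ∀ n, B ≤ T n := by
    intro n
    induction n with
    | zero => exact hT0
    | succ n ih =>
      refine ih.trans (le_trans ?_ (hlo n))
      exact le_self_pow₀ (by linarith) (by omega)
  have h1 : ∀ n, 1 ≤ T n := fun n => by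
    have := hge n
    linarith
  have hhi : ∀ n, T (n + 1) ≤ T n ^ (12 * l + 20) + 1 := by
    intro n
    have h2 : 0 ≤ T n ^ (12 * l + 20) := by
      have := h1 n
      positivity
    rw [hTn n] at h2
    rw [hTn (n + 1), hNs, hTn n]
    exact log_ceil_le h2
  have hpow : ∀ n, (2 : ℝ) ^ (n + 10) ≤ T n := by
    intro n
    induction n with
    | zero =>
      have := hge 0
      norm_num at this ⊢
      linarith
    | succ n ih =>
      have h2 : T n ^ 2 ≤ T n ^ (12 * l + 20) := pow_le_pow_right₀ (h1 n) (by omega)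
      have h3 := hlo n
      have h4 := hge n
      have h5 : 2 * T n ≤ T n ^ 2 := by nlinarith
      have h6 : (2 : ℝ) ^ (n + 1 + 10) = 2 * 2 ^ (n + 10) := by ring
      rw [h6]
      linarith
  have hmu1 : ∀ n, √(T n) ≤ muf a l (T n) := fun n => le_max_left _ _
  have hmu2 : ∀ n, muf a l (T n) ≤ l * T n - √(T n) := by
    intro n
    have h2 := hge n
    have h3 : (1 : ℝ) ≤ l := by exact_mod_cast hl
    have h4 : 2 * √(T n) ≤ T n := by
      have h5 : (2 : ℝ) ≤ √(T n) := by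
        rw [show (2 : ℝ) = √4 by
          rw [show (4 : ℝ) = 2 ^ 2 by norm_num, Real.sqrt_sq (by norm_num)]]
        exact Real.sqrt_le_sqrt (by linarith)
      have h6 := Real.mul_self_sqrt (show 0 ≤ T n by linarith)
      nlinarith
    refine max_le ?_ (min_le_right _ _)
    have h5 : T n ≤ l * T n := by nlinarith
    linarith
  obtain ⟨f, hf1, hf2⟩ := seq_choice (S := (ℂ → ℂ) × (ℂ → ℂ) × (ℂ → ℂ))
    (fun n s => State l (T n ^ 5) (T n ^ (12 * l + 3)) s.1 s.2.1 s.2.2 ∧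
      (n = 0 → s = (fun z => z, fun z => z, fun z => cexp z / (1 + cexp z))))
    (fun n s s' => Next l (T n ^ 5) (T (n + 1)) (muf a l (T (n + 1))) (N (n + 1))
      s.1 s.2.1 s.2.2 s'.1 s'.2.1 s'.2.2)
    (by
      refine ⟨(fun z => z, fun z => z, fun z => cexp z / (1 + cexp z)), ?_, fun _ => rfl⟩
      have h2 := hge 0
      apply init
      · have h3 : T 0 ≤ T 0 ^ 5 := le_self_pow₀ (h1 0) (by norm_num)
        linarith
      · have h3 : T 0 ≤ T 0 ^ (12 * l + 3) := le_self_pow₀ (h1 0) (by omega)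
        linarith)
    (by
      rintro n s ⟨hs, -⟩
      have h2 := h1 n
      obtain ⟨φ', ψ', P', h3, h4⟩ := hstep (T n ^ 5) (T n ^ (12 * l + 3)) (T (n + 1))
        (muf a l (T (n + 1))) (N (n + 1)) s.1 s.2.1 s.2.2 (hB1.trans (hge _))
        (one_le_pow₀ h2) (by
          rw [← pow_mul]
          exact (pow_le_pow_right₀ h2 (by omega)).trans (hlo n)) (one_le_pow₀ h2)
        ((pow_le_pow_right₀ h2 (by omega)).trans (hlo n)) (hNT _) (hmu1 _) (hmu2 _) hs
      exact ⟨(φ', ψ', P'), ⟨h3, fun h => absurd h (Nat.succ_ne_zero n)⟩, h4⟩)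
  have hi := (hf1 0).2 rfl
  exact ⟨N, T, fun n => (f n).1, fun n => (f n).2.1, fun n => (f n).2.2,
    { NT := hNT
      T_ge := fun n => hB2.trans (hge n)
      T_l := fun n => hB3.trans (hge n)
      T_lo := hlo
      T_hi := hhi
      T_pow := hpow
      st := fun n => (hf1 n).1
      nx := hf2
      i1 := by
        show (f 0).1 = _
        rw [hi]
      i2 := by
        show (f 0).2.1 = _
        rw [hi]
      i3 := by
        show (f 0).2.2 = _
        rw [hi] }⟩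

end Pool.Agent.Helper58.LD
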