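import Pool.Agent.Helper58.LD.PG
import Pool.Agent.Helper58.LD.Delta

/-!
# LD-18: `v`, `ψ₂`, `φ₂`

`|1 - e^(-G)| ≤ |G| max 1 (e^(-Re G)) ≤ |G| e^μ` (e.g. `‖exp w - 1‖ ≤ ‖w‖ * max 1 (exp w.re)`: mean value
inequality on the segment `[0, w]`), so `|v| ≤ 2 μ T e^μ |p| e^(-Re ψ₁) ≤ 2 μ T e^μ e^(A - Λ) ≤ 1/4` (`norm_G`, `norm_p_div`,
`Par.v_err`). `1 + v` and `1 + δ e^(-φ)` are in the slit plane, `exp (log x) = x`:
`e^ψ₂ = X₁ H (1 + v) = X₁ H + H - 1 = H Y - 1`, `e^φ₂ = F (1 + δ / F) H = F₁ H`.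
Values at `0`: `U 0 = 0` (`norm_U`, `N - d ≥ 1`), `G 0 = 0`, `v 0 = 0`, `δ 0 = 0` (`IsDelta.bd`).
-/

set_option autoImplicit false

open Filter Topology Metric Complex Polynomial

namespace Pool.Agent.Helper58.LD

namespace Setup

variable {D : Setup} {δ : ℂ → ℂ}

theorem norm_exp_sub_one {w : ℂ} {m : ℝ} (hm : 0 ≤ m) (hw : w.re ≤ m) :
    ‖cexp w - 1‖ ≤ ‖w‖ * Real.exp m := by
  have h1 := Convex.norm_image_sub_le_of_norm_hasDerivWithin_le (f := cexp) (f' := cexp)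
    (C := Real.exp m) (s := {c : ℂ | c.re ≤ m}) (x := 0) (y := w)
    (fun x _ => (Complex.hasDerivAt_exp x).hasDerivWithinAt)
    (fun x hx => by
      rw [Complex.norm_exp]
      exact Real.exp_le_exp.2 hx)
    (convex_halfSpace_re_le m) (by simpa using hm) hw
  rw [Complex.exp_zero, sub_zero] at h1
  linarith [mul_comm ‖w‖ (Real.exp m)]

private lemma Ok.norm_v_aux (h : D.Ok) {z : ℂ} (hz : ‖z‖ ≤ 1) :
    ‖D.v z‖ ≤ 2 * D.μ * D.T * Real.exp D.μ * (‖D.p z‖ * Real.exp (-(D.ψ₁ z).re)) := by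
  obtain ⟨-, -, -, hμ0, -⟩ := h.par.misc
  have h1 : ‖1 - cexp (-(D.G z))‖ ≤ ‖D.G z‖ * Real.exp D.μ := by
    rw [norm_sub_rev, ← norm_neg (D.G z)]
    apply norm_exp_sub_one hμ0.le
    rw [Complex.neg_re]
    linarith [h.re_G_ge hz]
  have h2 := h.norm_G hz
  unfold Setup.v
  rw [norm_mul, Complex.norm_exp, Complex.neg_re]
  calc ‖1 - cexp (-(D.G z))‖ * Real.exp (-(D.ψ₁ z).re)
      ≤ ((2 * D.μ * D.T * ‖D.p z‖) * Real.exp D.μ) * Real.exp (-(D.ψ₁ z).re) := by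
        apply mul_le_mul_of_nonneg_right _ (Real.exp_pos _).le
        exact h1.trans (mul_le_mul_of_nonneg_right h2 (Real.exp_pos _).le)
    _ = _ := by ring

private lemma Ok.v_err' (h : D.Ok) :
    2 * D.μ * D.T * Real.exp D.μ * Real.exp (D.A - D.Lam) ≤ 1 / 4 := h.par.v_err

private lemma Ok.pre_nonneg (h : D.Ok) : 0 ≤ 2 * D.μ * D.T * Real.exp D.μ := by
  obtain ⟨-, -, -, hμ0, -⟩ := h.par.misc
  have hT := h.par.Tpos
  positivity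

theorem Ok.norm_v (h : D.Ok) {z : ℂ} (hz : ‖z‖ ≤ 1) : ‖D.v z‖ ≤ 1 / 4 :=
  ((h.norm_v_aux hz).trans (mul_le_mul_of_nonneg_left (h.norm_p_div hz).1 h.pre_nonneg)).trans
    h.v_err'

theorem Ok.norm_v_W (h : D.Ok) {z : ℂ} (hz : ‖z‖ ≤ 1) :
    ‖D.v z‖ ≤ (D.W z / D.V z) ^ (D.l + 1) := by
  have hW : 0 < D.W z := by
    unfold Setup.W
    have := Real.exp_pos (D.ψ₁ z).re
    linarith
  have hV : 0 < D.V z := Real.exp_pos _
  have h1 := (h.norm_v_aux hz).trans (mul_le_mul_of_nonneg_left (h.norm_p_div hz).2 h.pre_nonneg)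
  have h2 := h.v_err'
  have h3 : 0 ≤ (D.W z / D.V z) ^ (D.l + 1) := by positivity
  calc ‖D.v z‖ ≤ 2 * D.μ * D.T * Real.exp D.μ * (Real.exp (D.A - D.Lam) *
        (D.W z / D.V z) ^ (D.l + 1)) := h1
    _ = (2 * D.μ * D.T * Real.exp D.μ * Real.exp (D.A - D.Lam)) *
        (D.W z / D.V z) ^ (D.l + 1) := by ring
    _ ≤ 1 / 4 * (D.W z / D.V z) ^ (D.l + 1) := mul_le_mul_of_nonneg_right h2 h3
    _ ≤ (D.W z / D.V z) ^ (D.l + 1) := by linarith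

private lemma Ok.one_add_v (h : D.Ok) {z : ℂ} (hz : ‖z‖ ≤ 1) : 1 + D.v z ∈ slitPlane :=
  Complex.mem_slitPlane_of_norm_lt_one ((h.norm_v hz).trans_lt (by norm_num))

private lemma Ok.delta_small' (h : D.Ok) (hδ : D.IsDelta δ) {z : ℂ} (hz : ‖z‖ ≤ 1) :
    ‖δ z * cexp (-(D.φ z))‖ ≤ 1 / 4 := by
  refine (h.delta_small hδ hz).trans ?_
  have hT := h.par.T1
  exact one_div_le_one_div_of_le (by norm_num) (by linarith)

private lemma Ok.one_add_delta (h : D.Ok) (hδ : D.IsDelta δ) {z : ℂ} (hz : ‖z‖ ≤ 1) :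
    1 + δ z * cexp (-(D.φ z)) ∈ slitPlane :=
  Complex.mem_slitPlane_of_norm_lt_one ((h.delta_small' hδ hz).trans_lt (by norm_num))

theorem Ok.exp_ψ₂ (h : D.Ok) {z : ℂ} (hz : ‖z‖ ≤ 1) :
    1 + cexp (D.ψ₂ z) = cexp (D.G z) * D.Y z := by
  have h1 : 1 + D.v z ≠ 0 := slitPlane_ne_zero (h.one_add_v hz)
  unfold Setup.ψ₂ Setup.Y
  rw [Complex.exp_add, Complex.exp_add, Complex.exp_log h1]
  unfold Setup.v
  rw [Complex.exp_neg, Complex.exp_neg]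
  have h2 := Complex.exp_ne_zero (D.ψ₁ z)
  have h3 := Complex.exp_ne_zero (D.G z)
  field_simp
  ring

theorem Ok.exp_φ₂ (h : D.Ok) (hδ : D.IsDelta δ) {z : ℂ} (hz : ‖z‖ ≤ 1) :
    cexp (D.φ₂ δ z) = D.F₁ δ z * cexp (D.G z) := by
  have h1 : 1 + δ z * cexp (-(D.φ z)) ≠ 0 := slitPlane_ne_zero (h.one_add_delta hδ hz)
  unfold Setup.φ₂ Setup.F₁
  rw [Complex.exp_add, Complex.exp_add, Complex.exp_log h1, Complex.exp_neg]
  have h2 := Complex.exp_ne_zero (D.φ z)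
  field_simp

theorem Ok.anψ₂ (h : D.Ok) : AnalyticOnNhd ℂ D.ψ₂ (closedBall 0 1) := by
  intro z hz
  have hz' : ‖z‖ ≤ 1 := by simpa using hz
  have h1 := h.anψ₁ z hz
  have h2 := h.anG z hz
  have h3 : AnalyticAt ℂ D.v z := (analyticAt_const.sub h2.neg.cexp).mul h1.neg.cexp
  exact (h1.add h2).add ((analyticAt_const.add h3).clog (h.one_add_v hz'))

theorem Ok.anφ₂ (h : D.Ok) (hδ : D.IsDelta δ) : AnalyticOnNhd ℂ (D.φ₂ δ) (closedBall 0 1) := by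
  intro z hz
  have hz' : ‖z‖ ≤ 1 := by simpa using hz
  have h1 := h.st.anφ z hz
  have h2 := h.anG z hz
  have h3 := hδ.an z hz
  have h4 : AnalyticAt ℂ (fun z => 1 + δ z * cexp (-(D.φ z))) z :=
    analyticAt_const.add (h3.mul h1.neg.cexp)
  exact (h1.add (h4.clog (h.one_add_delta hδ hz'))).add h2

private lemma Ok.deg_pos (h : D.Ok) : D.N - D.k.natDegree ≠ 0 := by
  have h1 := h.hd
  have h2 : (0 : ℝ) < D.N := by
    rw [h.par.hN]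
    exact Real.exp_pos _
  have h3 : 0 < D.N := by exact_mod_cast h2
  omega

theorem Ok.ψ₂_zero (h : D.Ok) : D.ψ₂ 0 = 0 := by
  have h1 : D.U 0 = 0 := by
    have h2 := h.norm_U (z := 0) (by simp)
    rw [norm_zero, zero_pow h.deg_pos, mul_zero] at h2
    exact norm_le_zero_iff.1 h2
  have h2 : D.ψ₁ 0 = 0 := by
    unfold Setup.ψ₁
    rw [h.st.ψ0, h1, add_zero]
  have h3 : D.v 0 = 0 := by
    unfold Setup.v
    rw [G_zero, neg_zero, Complex.exp_zero, sub_self, zero_mul]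
  unfold Setup.ψ₂
  rw [h2, G_zero, h3]
  simp

theorem Ok.φ₂_zero (h : D.Ok) (hδ : D.IsDelta δ) : D.φ₂ δ 0 = 0 := by
  have h1 : δ 0 = 0 := by
    have h2 := hδ.bd 0 (by simp)
    rw [norm_zero, zero_pow h.deg_pos, mul_zero, zero_div] at h2
    exact norm_le_zero_iff.1 h2
  unfold Setup.φ₂
  rw [h1, G_zero, h.st.φ0]
  simp

/-- `|φ₂ - φ - G| ≤ 1 / (2 T)` -/
theorem Ok.φ₂_sub (h : D.Ok) (hδ : D.IsDelta δ) {z : ℂ} (hz : ‖z‖ ≤ 1) :
    ‖D.φ₂ δ z - (D.φ z + D.G z)‖ ≤ 1 / (2 * D.T) := by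
  have hT := h.par.Tpos
  have h1 : D.φ₂ δ z - (D.φ z + D.G z) = Complex.log (1 + δ z * cexp (-(D.φ z))) := by
    unfold Setup.φ₂
    ring
  rw [h1]
  have h2 := Complex.norm_log_one_add_half_le_self (z := δ z * cexp (-(D.φ z)))
    ((h.delta_small' hδ hz).trans (by norm_num))
  have h3 := h.delta_small hδ hz
  have h4 : (1 : ℝ) / (4 * D.T) = 1 / 4 * (1 / D.T) := by field_simp
  have h5 : (1 : ℝ) / (2 * D.T) = 1 / 2 * (1 / D.T) := by field_simp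
  have h6 : 0 < 1 / D.T := by positivity
  rw [h4] at h3
  rw [h5]
  linarith

/-- `|ψ₂ - ψ₁ - G| ≤ 1` -/
theorem Ok.ψ₂_sub (h : D.Ok) {z : ℂ} (hz : ‖z‖ ≤ 1) :
    ‖D.ψ₂ z - (D.ψ₁ z + D.G z)‖ ≤ 1 := by
  have h1 : D.ψ₂ z - (D.ψ₁ z + D.G z) = Complex.log (1 + D.v z) := by
    unfold Setup.ψ₂
    ring
  rw [h1]
  have h2 := Complex.norm_log_one_add_half_le_self (z := D.v z)
    ((h.norm_v hz).trans (by norm_num))
  have h3 := h.norm_v hz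
  linarith

end Setup

end Pool.Agent.Helper58.LD
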