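import Mathlib

/-!
# LD-05: weighted primitive

`g` analytic near the closed unit disc, `|g z| ≤ C |F z| |z| ^ n` there, `|F| = exp (Re φ)`, `|φ'| ≤ b < n + 1`.
The primitive `G` of `g` with `G 0 = 0` satisfies `|G z| ≤ C / (n + 1 - b) |F z| |z| ^ (n + 1)`.

Existence of `G`: `Pool.Agent.Helper61.Lac.exists_prim'` in `LC8a` (copy its short proof: the analytic function lives
on a slightly larger ball, `DifferentiableOn.isExactOn_ball`).
Estimate: fix `z`, `0 < |z| ≤ 1`. For `0 < t ≤ 1`: `Re φ(tz) ≤ Re φ(z) + b (1 - t)` (mean value inequality on the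
segment, `|z| ≤ 1`) and `exp (b (1 - t)) ≤ t ^ (-b)` because `-log t ≥ 1 - t`. So
`|d/dt G(tz)| = |z g(tz)| ≤ C |F z| |z| ^ (n + 1) t ^ (n - b)`; integrate over `[0,1]`
(`∫ t ^ (n - b) = 1 / (n + 1 - b)`, `integral_rpow`), or compare with
`t ↦ C |F z| |z| ^ (n+1) t ^ (n + 1 - b) / (n + 1 - b)` (`image_norm_le_of_norm_deriv_right_le_deriv_boundary` on
`[ε, 1]`, `ε → 0`).
-/

set_option autoImplicit false

open Filter Topology Metric Complex

namespace Pool.Agent.Helper58.LD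

private theorem exists_prim0 {g : ℂ → ℂ} (hg : AnalyticOnNhd ℂ g (closedBall 0 1)) :
    ∃ G : ℂ → ℂ, G 0 = 0 ∧ AnalyticOnNhd ℂ G (closedBall 0 1) ∧
      ∀ z ∈ closedBall (0 : ℂ) 1, HasDerivAt G (g z) z := by
  obtain ⟨r, hr, hsub⟩ := (isCompact_closedBall (0 : ℂ) 1).exists_thickening_subset_open
    (isOpen_analyticAt ℂ g) hg
  rw [thickening_closedBall hr zero_le_one] at hsub
  have hd : DifferentiableOn ℂ g (ball 0 (r + 1)) := fun z hz =>
    (hsub hz : AnalyticAt ℂ g z).differentiableAt.differentiableWithinAt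
  obtain ⟨G, hG0, hG⟩ := hd.isExactOn_ball.with_val_at 0 0
  have hin : closedBall (0 : ℂ) 1 ⊆ ball 0 (r + 1) := closedBall_subset_ball (by linarith)
  refine ⟨G, hG0, ?_, fun z hz => hG z (hin hz)⟩
  have hGd : DifferentiableOn ℂ G (ball 0 (r + 1)) := fun z hz =>
    (hG z hz).differentiableAt.differentiableWithinAt
  exact fun z hz => hGd.analyticAt (isOpen_ball.mem_nhds (hin hz))

theorem wprim {φ g : ℂ → ℂ} {b C : ℝ} {n : ℕ} (hφ : AnalyticOnNhd ℂ φ (closedBall 0 1))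
    (hb0 : 0 ≤ b) (hφ' : ∀ z : ℂ, ‖z‖ ≤ 1 → ‖deriv φ z‖ ≤ b) (hb : b < n + 1) (hC : 0 ≤ C)
    (hg : AnalyticOnNhd ℂ g (closedBall 0 1))
    (hgb : ∀ z : ℂ, ‖z‖ ≤ 1 → ‖g z‖ ≤ C * Real.exp (φ z).re * ‖z‖ ^ n) :
    ∃ G : ℂ → ℂ, AnalyticOnNhd ℂ G (closedBall 0 1) ∧
      (∀ z ∈ closedBall (0 : ℂ) 1, HasDerivAt G (g z) z) ∧
      ∀ z : ℂ, ‖z‖ ≤ 1 → ‖G z‖ ≤ C / (n + 1 - b) * Real.exp (φ z).re * ‖z‖ ^ (n + 1) := by
  obtain ⟨G, hG0, hGa, hG⟩ := exists_prim0 hg
  refine ⟨G, hGa, hG, fun z hz => ?_⟩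
  have hin : ∀ t : ℝ, 0 ≤ t → t ≤ 1 → ‖(t : ℂ) * z‖ ≤ 1 := by
    intro t h0 h1
    rw [norm_mul, Complex.norm_real, Real.norm_eq_abs, abs_of_nonneg h0]
    calc t * ‖z‖ ≤ 1 * 1 := mul_le_mul h1 hz (norm_nonneg _) zero_le_one
      _ = 1 := one_mul 1
  have hcb : ∀ t : ℝ, 0 ≤ t → t ≤ 1 → (t : ℂ) * z ∈ closedBall (0 : ℂ) 1 := by
    intro t h0 h1
    rw [mem_closedBall, dist_zero_right]
    exact hin t h0 h1
  -- the exponent along the segment
  have hφt : ∀ t : ℝ, 0 < t → t ≤ 1 →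
      Real.exp (φ ((t : ℂ) * z)).re ≤ Real.exp (φ z).re * t ^ (-b) := by
    intro t h0 h1
    have h2 : ‖φ ((t : ℂ) * z) - φ z‖ ≤ b * ‖(t : ℂ) * z - z‖ := by
      refine (convex_closedBall (0 : ℂ) 1).norm_image_sub_le_of_norm_deriv_le (f := φ)
        (fun x hx => (hφ x hx).differentiableAt)
        (fun x hx => hφ' x (by simpa using hx)) ?_ (hcb t h0.le h1)
      simpa using hz
    have h3 : ‖(t : ℂ) * z - z‖ ≤ 1 - t := by
      have : (t : ℂ) * z - z = -(((1 - t : ℝ) : ℂ) * z) := by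
        push_cast
        ring
      rw [this, norm_neg, norm_mul, Complex.norm_real, Real.norm_eq_abs,
        abs_of_nonneg (by linarith)]
      calc (1 - t) * ‖z‖ ≤ (1 - t) * 1 := mul_le_mul_of_nonneg_left hz (by linarith)
        _ = 1 - t := mul_one _
    have h4 : (φ ((t : ℂ) * z)).re - (φ z).re ≤ b * (1 - t) := by
      rw [← Complex.sub_re]
      exact (Complex.re_le_norm _).trans (h2.trans (mul_le_mul_of_nonneg_left h3 hb0))
    have h5 : 1 - t ≤ -Real.log t := by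
      have := Real.log_le_sub_one_of_pos h0
      linarith
    have h6 : b * (1 - t) ≤ Real.log t * (-b) := by nlinarith
    rw [Real.rpow_def_of_pos h0, ← Real.exp_add]
    exact Real.exp_le_exp.2 (by linarith)
  -- the derivative along the segment
  have hder : ∀ t ∈ Set.uIcc (0 : ℝ) 1,
      HasDerivAt (fun t : ℝ => G ((t : ℂ) * z)) (g ((t : ℂ) * z) * z) t := by
    intro t ht
    rw [Set.uIcc_of_le zero_le_one, Set.mem_Icc] at ht
    have h1 := hG _ (hcb t ht.1 ht.2)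
    have h2 : HasDerivAt (fun t : ℝ => (t : ℂ) * z) z t := by
      have h3 : HasDerivAt (fun t : ℝ => (t : ℂ)) 1 t := Complex.ofRealCLM.hasDerivAt
      simpa using h3.mul_const z
    exact HasDerivAt.comp_of_eq (h₂ := G) (h := fun t : ℝ => (t : ℂ) * z) t h1 h2 rfl
  have hcont : ContinuousOn (fun t : ℝ => g ((t : ℂ) * z) * z) (Set.uIcc 0 1) := by
    rw [Set.uIcc_of_le zero_le_one]
    refine ContinuousOn.mul ?_ continuousOn_const
    refine ContinuousOn.comp (t := closedBall (0 : ℂ) 1) hg.continuousOn ?_ ?_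
    · exact (Complex.continuous_ofReal.mul continuous_const).continuousOn
    · intro t ht
      exact hcb t ht.1 ht.2
  have hint := intervalIntegral.integral_eq_sub_of_hasDerivAt hder hcont.intervalIntegrable
  have hG1 : G z = ∫ t in (0 : ℝ)..1, g ((t : ℂ) * z) * z := by
    rw [hint]
    simp [hG0]
  have hr : -1 < (n : ℝ) - b := by linarith
  rw [hG1]
  have hle := intervalIntegral.norm_integral_le_of_norm_le (a := (0 : ℝ)) (b := 1)
    (μ := MeasureTheory.volume)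
    (f := fun t : ℝ => g ((t : ℂ) * z) * z)
    (g := fun t : ℝ => C * Real.exp (φ z).re * ‖z‖ ^ (n + 1) * t ^ ((n : ℝ) - b)) zero_le_one
    (Filter.Eventually.of_forall fun t ht => by
      have h0 := ht.1
      have h1 := ht.2
      rw [norm_mul]
      have h2 := hgb _ (hin t h0.le h1)
      have h3 := hφt t h0 h1
      rw [norm_mul, Complex.norm_real, Real.norm_eq_abs, abs_of_pos h0, mul_pow] at h2
      calc ‖g ((t : ℂ) * z)‖ * ‖z‖ ≤ C * (Real.exp (φ z).re * t ^ (-b)) * (t ^ n * ‖z‖ ^ n) * ‖z‖ := by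
            refine mul_le_mul_of_nonneg_right (h2.trans ?_) (norm_nonneg _)
            refine mul_le_mul_of_nonneg_right (mul_le_mul_of_nonneg_left h3 hC) (by positivity)
        _ = C * Real.exp (φ z).re * ‖z‖ ^ (n + 1) * (t ^ n * t ^ (-b)) := by ring
        _ = _ := by
            rw [← Real.rpow_natCast t n, ← Real.rpow_add h0]
            rfl)
    ((intervalIntegral.intervalIntegrable_rpow' hr).const_mul _)
  refine hle.trans (le_of_eq ?_)
  rw [intervalIntegral.integral_const_mul, integral_rpow (Or.inl hr), Real.one_rpow,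
    Real.zero_rpow (by linarith)]
  have hne : (n : ℝ) + 1 - b ≠ 0 := by linarith
  have hne' : (n : ℝ) - b + 1 = (n : ℝ) + 1 - b := by ring
  rw [hne']
  field_simp
  ring

end Pool.Agent.Helper58.LD
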